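import Mathlib

set_option autoImplicit false

open Finset

namespace Pool.H2.Ell

/-- 1-bounded multiplicative function -/
structure MB (f : ℕ → ℂ) : Prop where
  one : f 1 = 1
  mul : ∀ m n : ℕ, Nat.Coprime m n → f (m * n) = f m * f n
  bdd : ∀ n, ‖f n‖ ≤ 1

/-- `n^{it}` -/
noncomputable def tw (t : ℝ) (n : ℕ) : ℂ := (n : ℂ) ^ (Complex.I * (t : ℂ))

lemma norm_tw (t : ℝ) {n : ℕ} (hn : 0 < n) : ‖tw t n‖ = 1 := by
  unfold tw
  have : (n : ℂ) = ((n : ℝ) : ℂ) := by push_cast; rfl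
  rw [this, Complex.norm_cpow_eq_rpow_re_of_pos (by exact_mod_cast hn)]
  simp

lemma tw_mul (t : ℝ) (m n : ℕ) : tw t (m * n) = tw t m * tw t n := by
  unfold tw
  push_cast
  exact Complex.natCast_mul_natCast_cpow m n _

lemma tw_one (t : ℝ) : tw t 1 = 1 := by simp [tw]

lemma conj_mul_of_norm_one {z : ℂ} (hz : ‖z‖ = 1) : (starRingEnd ℂ) z * z = 1 := by
  rw [mul_comm, Complex.mul_conj, Complex.normSq_eq_norm_sq, hz]; simp

/-- smooth part -/
def sm (y n : ℕ) : ℕ := ∏ p ∈ (range (y + 1)).filter Nat.Prime, p ^ (n.factorization p)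

/-- large primes dividing `n` -/
def bigp (y n : ℕ) : Finset ℕ := n.primeFactors.filter (fun p => y < p)

lemma sm_pos (y n : ℕ) : 0 < sm y n := by
  unfold sm
  apply prod_pos
  intro p hp
  exact pow_pos (mem_filter.1 hp).2.pos _

lemma sm_eq (y n : ℕ) : sm y n = ∏ p ∈ n.primeFactors.filter (fun p => p ≤ y), p ^ (n.factorization p) := by
  unfold sm
  symm
  apply prod_subset
  · intro p hp
    simp only [mem_filter, Nat.mem_primeFactors, mem_range] at hp ⊢
    exact ⟨by omega, hp.1.1⟩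
  · intro p hp hp'
    simp only [mem_filter, Nat.mem_primeFactors, mem_range, not_and, not_le] at hp hp'
    have : n.factorization p = 0 := by
      by_contra hne
      have h1 : p ∈ n.primeFactors := by
        rw [← Nat.support_factorization]; exact Finsupp.mem_support_iff.2 hne
      rw [Nat.mem_primeFactors] at h1
      have := hp' ⟨h1.1, h1.2.1, h1.2.2⟩
      omega
    rw [this, pow_zero]

lemma sm_mul_bigp {y n : ℕ} (hn : n ≠ 0) (hsq : ∀ p : ℕ, p.Prime → y < p → ¬ p ^ 2 ∣ n) :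
    n = sm y n * ∏ p ∈ bigp y n, p := by
  conv_lhs => rw [← Nat.prod_factorization_pow_eq_self hn]
  rw [Finsupp.prod, Nat.support_factorization, sm_eq]
  rw [← prod_filter_mul_prod_filter_not n.primeFactors (fun p => p ≤ y)]
  congr 1
  unfold bigp
  rw [show n.primeFactors.filter (fun p => ¬ p ≤ y) = n.primeFactors.filter (fun p => y < p) by
    apply filter_congr; intro p _; exact not_le]
  apply prod_congr rfl
  intro p hp
  simp only [mem_filter, Nat.mem_primeFactors] at hp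
  obtain ⟨⟨hpr, hd, _⟩, hy⟩ := hp
  have h1 : 1 ≤ n.factorization p := (hpr.dvd_iff_one_le_factorization hn).1 hd
  have h2 : n.factorization p < 2 := by
    by_contra hcon
    push Not at hcon
    exact hsq p hpr hy ((hpr.pow_dvd_iff_le_factorization hn).2 hcon)
  rw [show n.factorization p = 1 by omega, pow_one]

lemma coprime_sm_bigp (y n : ℕ) : Nat.Coprime (sm y n) (∏ p ∈ bigp y n, p) := by
  unfold sm
  apply Nat.Coprime.prod_left
  intro p hp
  apply Nat.Coprime.prod_right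
  intro p' hp'
  apply Nat.Coprime.pow_left
  simp only [mem_filter, mem_range] at hp
  unfold bigp at hp'
  simp only [mem_filter, Nat.mem_primeFactors] at hp'
  refine (Nat.coprime_primes hp.2 hp'.1.1).2 ?_
  omega

lemma MB.prod {f : ℕ → ℂ} (hf : MB f) (S : Finset ℕ) (hS : ∀ p ∈ S, p.Prime) :
    f (∏ p ∈ S, p) = ∏ p ∈ S, f p := by
  induction S using Finset.induction_on with
  | empty => simpa using hf.one
  | insert p S hp ih =>
    rw [prod_insert hp, prod_insert hp, hf.mul, ih (fun p' hp' => hS p' (mem_insert_of_mem hp'))]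
    apply Nat.Coprime.prod_right
    intro p' hp'
    refine (Nat.coprime_primes (hS p (mem_insert_self _ _)) (hS p' (mem_insert_of_mem hp'))).2 ?_
    rintro rfl
    exact hp hp'

lemma tw_prod (t : ℝ) (S : Finset ℕ) : tw t (∏ p ∈ S, p) = ∏ p ∈ S, tw t p := by
  induction S using Finset.induction_on with
  | empty => simp [tw_one]
  | insert p S hp ih => rw [prod_insert hp, prod_insert hp, tw_mul, ih]

/-- twisted prime value -/
noncomputable def uu (f : ℕ → ℂ) {q : ℕ} (χ : DirichletCharacter ℂ q) (t : ℝ) (p : ℕ) : ℂ :=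
  f p * (starRingEnd ℂ) (χ (p : ZMod q) * tw t p)

/-- smooth factor -/
noncomputable def sfac (f : ℕ → ℂ) {q : ℕ} (χ : DirichletCharacter ℂ q) (t : ℝ) (y n : ℕ) : ℂ :=
  f (sm y n) * (starRingEnd ℂ) (tw t (sm y n)) * χ ((n / sm y n : ℕ) : ZMod q)

lemma norm_sfac_le {f : ℕ → ℂ} (hf : MB f) {q : ℕ} (χ : DirichletCharacter ℂ q) (t : ℝ) (y n : ℕ) :
    ‖sfac f χ t y n‖ ≤ 1 := by
  unfold sfac
  rw [norm_mul, norm_mul, RCLike.norm_conj, norm_tw t (sm_pos y n), mul_one]
  exact mul_le_one₀ (hf.bdd _) (norm_nonneg _) (DirichletCharacter.norm_le_one χ _)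

lemma norm_char_prime {q : ℕ} (χ : DirichletCharacter ℂ q) (hq : 0 < q) {p : ℕ} (hp : p.Prime)
    (hqp : q < p) : ‖χ (p : ZMod q)‖ = 1 := by
  haveI : NeZero q := ⟨hq.ne'⟩
  have hc : Nat.Coprime p q := by
    rw [Nat.Prime.coprime_iff_not_dvd hp]
    intro hd
    exact absurd (Nat.le_of_dvd hq hd) (by omega)
  have hu : IsUnit (p : ZMod q) := (ZMod.isUnit_iff_coprime p q).2 hc
  exact DirichletCharacter.unit_norm_eq_one χ hu.unit

lemma char_prod {q : ℕ} (χ : DirichletCharacter ℂ q) (S : Finset ℕ) :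
    χ ((∏ p ∈ S, p : ℕ) : ZMod q) = ∏ p ∈ S, χ (p : ZMod q) := by
  push_cast
  rw [map_prod]

lemma fact_eq {f : ℕ → ℂ} (hf : MB f) {q : ℕ} (hq : 0 < q) (χ : DirichletCharacter ℂ q) (t : ℝ)
    {y n : ℕ} (hqy : q ≤ y) (hn : n ≠ 0) (hsq : ∀ p : ℕ, p.Prime → y < p → ¬ p ^ 2 ∣ n) :
    f n = sfac f χ t y n * tw t n * ∏ p ∈ bigp y n, uu f χ t p := by
  have hsplit := sm_mul_bigp hn hsq
  have hcop := coprime_sm_bigp y n
  have hpr : ∀ p ∈ bigp y n, p.Prime := by
    intro p hp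
    unfold bigp at hp
    simp only [mem_filter, Nat.mem_primeFactors] at hp
    exact hp.1.1
  have hgt : ∀ p ∈ bigp y n, y < p := by
    intro p hp
    unfold bigp at hp
    exact (mem_filter.1 hp).2
  have hdiv : n / sm y n = ∏ p ∈ bigp y n, p := by
    conv_lhs => rw [hsplit]
    have h1 : sm y (sm y n * ∏ p ∈ bigp y n, p) = sm y n := by rw [← hsplit]
    rw [h1, Nat.mul_div_cancel_left _ (sm_pos y n)]
  have h1 : f n = f (sm y n) * ∏ p ∈ bigp y n, f p := by
    conv_lhs => rw [hsplit, hf.mul _ _ hcop, hf.prod _ hpr]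
  have h2 : tw t n = tw t (sm y n) * ∏ p ∈ bigp y n, tw t p := by
    conv_lhs => rw [hsplit, tw_mul, tw_prod]
  have h3 : (starRingEnd ℂ) (tw t (sm y n)) * tw t (sm y n) = 1 :=
    conj_mul_of_norm_one (norm_tw t (sm_pos y n))
  have h4 : ∏ p ∈ bigp y n, f p
      = (∏ p ∈ bigp y n, χ (p : ZMod q)) * (∏ p ∈ bigp y n, tw t p) * ∏ p ∈ bigp y n, uu f χ t p := by
    rw [← prod_mul_distrib, ← prod_mul_distrib]
    apply prod_congr rfl
    intro p hp
    have h5 : ‖χ (p : ZMod q) * tw t p‖ = 1 := by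
      rw [norm_mul, norm_tw t (hpr p hp).pos,
        norm_char_prime χ hq (hpr p hp) (lt_of_le_of_lt hqy (hgt p hp)), mul_one]
    have h6 := conj_mul_of_norm_one h5
    unfold uu
    linear_combination -(f p) * h6
  rw [h1, h2, h4]
  unfold sfac
  rw [hdiv, char_prod]
  linear_combination -(f (sm y n) * (∏ p ∈ bigp y n, χ (p : ZMod q)) * (∏ p ∈ bigp y n, tw t p)
    * ∏ p ∈ bigp y n, uu f χ t p) * h3

/-- factorization is locally constant -/
lemma factorization_eq_of_modEq {n n' K Q ℓ : ℕ} (hn : n ≠ 0) (hn' : n' ≠ 0) (hℓ : ℓ.Prime)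
    (hQ : ℓ ^ K ∣ Q) (hmod : n ≡ n' [MOD Q]) (hg : ¬ ℓ ^ K ∣ n) :
    n'.factorization ℓ = n.factorization ℓ := by
  have hdvd : ∀ e ≤ K, (ℓ ^ e ∣ n ↔ ℓ ^ e ∣ n') := by
    intro e he
    have h1 : ℓ ^ e ∣ Q := (pow_dvd_pow ℓ he).trans hQ
    exact (hmod.of_dvd h1).dvd_iff dvd_rfl
  have hlt : n.factorization ℓ < K := by
    by_contra hcon
    push Not at hcon
    exact hg ((hℓ.pow_dvd_iff_le_factorization hn).2 hcon)
  have h1 : n.factorization ℓ ≤ n'.factorization ℓ := by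
    rw [← hℓ.pow_dvd_iff_le_factorization hn', ← hdvd _ hlt.le]
    exact (hℓ.pow_dvd_iff_le_factorization hn).2 le_rfl
  have h2 : ¬ (n.factorization ℓ + 1 ≤ n'.factorization ℓ) := by
    rw [← hℓ.pow_dvd_iff_le_factorization hn', ← hdvd _ hlt, hℓ.pow_dvd_iff_le_factorization hn]
    omega
  omega

lemma sm_dvd {y K n : ℕ} (hg : ∀ ℓ : ℕ, ℓ.Prime → ℓ ≤ y → ¬ ℓ ^ K ∣ n) (hn : n ≠ 0) :
    sm y n ∣ (y.factorial) ^ K := by
  have h1 : sm y n ∣ ∏ p ∈ (range (y + 1)).filter Nat.Prime, p ^ K := by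
    unfold sm
    apply prod_dvd_prod_of_dvd
    intro p hp
    simp only [mem_filter, mem_range] at hp
    apply pow_dvd_pow
    by_contra hcon
    push Not at hcon
    exact hg p hp.2 (by omega) ((hp.2.pow_dvd_iff_le_factorization hn).2 hcon.le)
  refine h1.trans ?_
  rw [prod_pow]
  apply pow_dvd_pow_of_dvd
  apply Finset.prod_primes_dvd
  · intro p hp
    exact (mem_filter.1 hp).2.prime
  · intro p hp
    simp only [mem_filter, mem_range] at hp
    exact Nat.dvd_factorial hp.2.pos (by omega)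

lemma sfac_periodic {f : ℕ → ℂ} {q : ℕ} (χ : DirichletCharacter ℂ q) (t : ℝ)
    {y K n n' : ℕ} (hq : 0 < q) (hqy : q ≤ y) (hn : n ≠ 0) (hn' : n' ≠ 0)
    (hmod : n ≡ n' [MOD (y.factorial) ^ (K + 1)])
    (hg : ∀ ℓ : ℕ, ℓ.Prime → ℓ ≤ y → ¬ ℓ ^ K ∣ n) :
    sfac f χ t y n' = sfac f χ t y n := by
  have hfac : ∀ ℓ : ℕ, ℓ.Prime → ℓ ≤ y → n'.factorization ℓ = n.factorization ℓ := by
    intro ℓ hℓ hy
    refine factorization_eq_of_modEq hn hn' hℓ ?_ hmod (hg ℓ hℓ hy)
    refine dvd_trans ?_ (pow_dvd_pow _ (Nat.le_succ K))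
    exact pow_dvd_pow_of_dvd (Nat.dvd_factorial hℓ.pos hy) K
  have hsm : sm y n' = sm y n := by
    unfold sm
    apply prod_congr rfl
    intro p hp
    simp only [mem_filter, mem_range] at hp
    rw [hfac p hp.2 (by omega)]
  unfold sfac
  rw [hsm]
  congr 2
  have hd : sm y n ∣ n := by
    rw [sm_eq]
    conv_rhs => rw [← Nat.prod_factorization_pow_eq_self hn]
    rw [Finsupp.prod, Nat.support_factorization]
    exact prod_dvd_prod_of_subset _ _ _ (filter_subset _ _)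
  have hd' : sm y n ∣ n' := by
    rw [← hsm, sm_eq]
    conv_rhs => rw [← Nat.prod_factorization_pow_eq_self hn']
    rw [Finsupp.prod, Nat.support_factorization]
    exact prod_dvd_prod_of_subset _ _ _ (filter_subset _ _)
  obtain ⟨c, hc⟩ := hd
  obtain ⟨c', hc'⟩ := hd'
  have hs := sm_pos y n
  have e1 : n / sm y n = c := by
    conv_lhs => rw [hc]
    have : sm y (sm y n * c) = sm y n := by rw [← hc]
    rw [this]
    exact Nat.mul_div_cancel_left _ hs
  have e2 : n' / sm y n = c' := by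
    conv_lhs => rw [hc']
    exact Nat.mul_div_cancel_left _ hs
  rw [e1, e2]
  rw [ZMod.natCast_eq_natCast_iff]
  have hqQ : sm y n * q ∣ (y.factorial) ^ (K + 1) := by
    rw [pow_succ]
    exact mul_dvd_mul (sm_dvd hg hn) (Nat.dvd_factorial hq hqy)
  have h3 : sm y n * c ≡ sm y n * c' [MOD sm y n * q] := by
    have := hmod.of_dvd hqQ
    rwa [hc, hc', show sm y (sm y n * c) = sm y n by rw [← hc]] at this
  exact (Nat.ModEq.mul_left_cancel' hs.ne' h3).symm

end Pool.H2.Ell
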