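import Mathlib
import Pool.Agent.H2.EllFactor

set_option autoImplicit false

open Finset MeasureTheory

namespace Pool.H2.Ell

lemma tw_eq_exp (t : ℝ) {n : ℕ} (hn : 0 < n) :
    tw t n = Complex.exp (((Real.log n : ℝ) : ℂ) * Complex.I * (t : ℂ)) := by
  unfold tw
  rw [Complex.cpow_def_of_ne_zero (by exact_mod_cast hn.ne')]
  congr 1
  rw [← Complex.natCast_log]
  ring

lemma tw_mul_conj (t : ℝ) {m n : ℕ} (hm : 0 < m) (hn : 0 < n) :
    tw t m * (starRingEnd ℂ) (tw t n)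
      = Complex.exp (((Real.log m - Real.log n : ℝ) : ℂ) * Complex.I * (t : ℂ)) := by
  rw [tw_eq_exp t hm, tw_eq_exp t hn, ← Complex.exp_conj, ← Complex.exp_add]
  congr 1
  simp only [map_mul, Complex.conj_ofReal, Complex.conj_I]
  push_cast
  ring

lemma integral_exp_bound (l N : ℝ) (hl : l ≠ 0) :
    ‖∫ U in (0 : ℝ)..N, Complex.exp ((l : ℂ) * Complex.I * (U : ℂ))‖ ≤ 2 / |l| := by
  have hc : (l : ℂ) * Complex.I ≠ 0 := mul_ne_zero (by exact_mod_cast hl) Complex.I_ne_zero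
  rw [integral_exp_mul_complex hc, norm_div, norm_mul, Complex.norm_I, mul_one, Complex.norm_real,
    Real.norm_eq_abs]
  have h1 : ∀ U : ℝ, ‖Complex.exp ((l : ℂ) * Complex.I * (U : ℂ))‖ = 1 := by
    intro U
    have : (l : ℂ) * Complex.I * (U : ℂ) = ((l * U : ℝ) : ℂ) * Complex.I := by push_cast; ring
    rw [this, Complex.norm_exp_ofReal_mul_I]
  gcongr
  refine (norm_sub_le _ _).trans ?_
  rw [h1 N]
  have := h1 0
  rw [this]; norm_num

lemma log_sub_lower {m n M : ℕ} (hm : 0 < m) (hn : 0 < n) (hmM : m ≤ M) (hnM : n ≤ M) (hne : m ≠ n) :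
    1 / (M : ℝ) ≤ |Real.log m - Real.log n| := by
  wlog h : n < m generalizing m n
  · have := this hn hm hnM hmM hne.symm (by omega)
    rwa [abs_sub_comm] at this
  have hm' : (0 : ℝ) < m := by exact_mod_cast hm
  have hn' : (0 : ℝ) < n := by exact_mod_cast hn
  have hM' : (0 : ℝ) < M := by exact_mod_cast (lt_of_lt_of_le hm hmM)
  rw [← Real.log_div hm'.ne' hn'.ne']
  have h1 : 1 - ((m : ℝ) / n)⁻¹ ≤ Real.log (m / n) := Real.one_sub_inv_le_log_of_pos (by positivity)
  have h2 : 1 / (M : ℝ) ≤ 1 - ((m : ℝ) / n)⁻¹ := by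
    rw [inv_div]
    have h3 : (n : ℝ) + 1 ≤ m := by exact_mod_cast h
    have h4 : (m : ℝ) ≤ M := by exact_mod_cast hmM
    have : 1 - (n : ℝ) / m = (m - n) / m := by field_simp
    rw [this, div_le_div_iff₀ hM' hm']
    nlinarith
  exact (h2.trans h1).trans (le_abs_self _)

/-- Mean value theorem for Dirichlet polynomials, crude form -/
theorem mv {α : Type*} [DecidableEq α] (s : Finset α) (ν : α → ℕ) (c : α → ℂ) (M : ℕ)
    (hν : ∀ a ∈ s, 0 < ν a ∧ ν a ≤ M) (hinj : Set.InjOn ν s) (N : ℝ) :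
    |(∫ U in (0 : ℝ)..N, ‖∑ a ∈ s, c a * tw U (ν a)‖ ^ 2) - N * ∑ a ∈ s, ‖c a‖ ^ 2|
      ≤ 2 * M ^ 2 * ∑ a ∈ s, ‖c a‖ ^ 2 := by
  set E : α → α → ℝ → ℂ := fun a b U =>
    Complex.exp (((Real.log (ν a) - Real.log (ν b) : ℝ) : ℂ) * Complex.I * (U : ℂ)) with hE
  have hcont : ∀ a b, Continuous (E a b) := by
    intro a b
    simp only [hE]
    fun_prop
  have hsq : ∀ U : ℝ, ((‖∑ a ∈ s, c a * tw U (ν a)‖ ^ 2 : ℝ) : ℂ)
      = ∑ a ∈ s, ∑ b ∈ s, (c a * (starRingEnd ℂ) (c b)) * E a b U := by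
    intro U
    push_cast
    rw [← Complex.mul_conj', map_sum, sum_mul_sum]
    apply sum_congr rfl
    intro a ha
    apply sum_congr rfl
    intro b hb
    simp only [hE]
    rw [← tw_mul_conj U (hν a ha).1 (hν b hb).1, map_mul]
    ring
  have hint : ((∫ U in (0 : ℝ)..N, ‖∑ a ∈ s, c a * tw U (ν a)‖ ^ 2 : ℝ) : ℂ)
      = ∑ a ∈ s, ∑ b ∈ s, (c a * (starRingEnd ℂ) (c b)) * ∫ U in (0 : ℝ)..N, E a b U := by
    rw [← intervalIntegral.integral_ofReal]
    simp_rw [hsq]
    rw [intervalIntegral.integral_finsetSum]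
    · apply sum_congr rfl
      intro a _
      rw [intervalIntegral.integral_finsetSum]
      · apply sum_congr rfl
        intro b _
        rw [intervalIntegral.integral_const_mul]
      · intro b _
        exact ((hcont a b).const_mul _).intervalIntegrable _ _
    · intro a _
      exact (continuous_finsetSum _ (fun b _ => (hcont a b).const_mul _)).intervalIntegrable _ _
  have hdiag : ∀ a, ∫ U in (0 : ℝ)..N, E a a U = N := by
    intro a
    simp [hE]
  have hoff : ∀ a ∈ s, ∀ b ∈ s, a ≠ b → ‖∫ U in (0 : ℝ)..N, E a b U‖ ≤ 2 * M := by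
    intro a ha b hb hab
    have hne : ν a ≠ ν b := fun h => hab (hinj ha hb h)
    have h1 := log_sub_lower (hν a ha).1 (hν b hb).1 (hν a ha).2 (hν b hb).2 hne
    have hM' : (0 : ℝ) < M := by exact_mod_cast (lt_of_lt_of_le (hν a ha).1 (hν a ha).2)
    have hl : Real.log (ν a) - Real.log (ν b) ≠ 0 := by
      intro h
      rw [h, abs_zero] at h1
      have : 0 < 1 / (M : ℝ) := by positivity
      linarith
    refine (integral_exp_bound _ N hl).trans ?_
    have hpos : 0 < |Real.log (ν a) - Real.log (ν b)| := abs_pos.2 hl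
    rw [div_le_iff₀ hpos]
    rw [div_le_iff₀ hM'] at h1
    nlinarith
  have hsplit : (((∫ U in (0 : ℝ)..N, ‖∑ a ∈ s, c a * tw U (ν a)‖ ^ 2)
      - N * ∑ a ∈ s, ‖c a‖ ^ 2 : ℝ) : ℂ)
      = ∑ a ∈ s, ∑ b ∈ s.erase a, (c a * (starRingEnd ℂ) (c b)) * ∫ U in (0 : ℝ)..N, E a b U := by
    rw [Complex.ofReal_sub, hint]
    push_cast
    rw [mul_sum, ← sum_sub_distrib]
    apply sum_congr rfl
    intro a ha
    rw [← add_sum_erase _ _ ha, hdiag, Complex.mul_conj']
    ring
  rw [← Real.norm_eq_abs, ← Complex.norm_real, hsplit]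
  have hcard : (s.card : ℝ) ≤ M := by
    have h1 : s.card ≤ (Finset.Icc 1 M).card := by
      apply card_le_card_of_injOn ν
      · intro a ha
        simp only [coe_Icc, Set.mem_Icc]
        exact ⟨(hν a ha).1, (hν a ha).2⟩
      · exact hinj
    rw [Nat.card_Icc] at h1
    exact_mod_cast (by omega : s.card ≤ M)
  have hM0 : (0 : ℝ) ≤ M := by positivity
  calc _ ≤ ∑ a ∈ s, ∑ b ∈ s.erase a, ‖c a‖ * ‖c b‖ * (2 * M) := by
        refine (norm_sum_le _ _).trans (sum_le_sum fun a ha => ?_)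
        refine (norm_sum_le _ _).trans (sum_le_sum fun b hb => ?_)
        rw [norm_mul, norm_mul, RCLike.norm_conj]
        have := hoff a ha b (mem_of_mem_erase hb) (ne_of_mem_erase hb).symm
        gcongr
    _ ≤ ∑ a ∈ s, ∑ b ∈ s, ‖c a‖ * ‖c b‖ * (2 * M) := by
        apply sum_le_sum
        intro a _
        apply sum_le_sum_of_subset_of_nonneg (erase_subset _ _)
        intro b _ _; positivity
    _ = 2 * M * (∑ a ∈ s, ‖c a‖) ^ 2 := by
        rw [pow_two, sum_mul_sum, mul_sum]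
        apply sum_congr rfl
        intro a _
        rw [mul_sum]
        apply sum_congr rfl
        intro b _
        ring
    _ ≤ 2 * M * (s.card * ∑ a ∈ s, ‖c a‖ ^ 2) := by
        gcongr
        exact sq_sum_le_card_mul_sum_sq
    _ ≤ 2 * M * (M * ∑ a ∈ s, ‖c a‖ ^ 2) := by
        gcongr
    _ = _ := by ring

end Pool.H2.Ell
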