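import Mathlib

set_option autoImplicit false

open Finset

namespace Pool.H2.Ell

/-- decomposition of a sum over a residue class -/
lemma sum_residue (F : ℕ → ℂ) (p m₀ x : ℕ) (hp : 0 < p) (hm : m₀ < p) :
    ∑ m ∈ (range x).filter (fun m => m % p = m₀), F m
      = ∑ m' ∈ range ((x + (p - 1 - m₀)) / p), F (p * m' + m₀) := by
  symm
  apply Finset.sum_bij (fun m' _ => p * m' + m₀)
  · intro m' hm'
    simp only [mem_filter, mem_range] at hm' ⊢
    refine ⟨?_, ?_⟩
    · have h1 : (m' + 1) * p ≤ x + (p - 1 - m₀) := by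
        calc (m' + 1) * p ≤ ((x + (p - 1 - m₀)) / p) * p := Nat.mul_le_mul_right _ hm'
          _ ≤ _ := Nat.div_mul_le_self _ _
      have h2 : (m' + 1) * p = p * m' + p := by ring
      omega
    · rw [Nat.mul_add_mod, Nat.mod_eq_of_lt hm]
  · intro a _ b _ hab
    have : p * a = p * b := by simpa using hab
    exact Nat.eq_of_mul_eq_mul_left hp this
  · intro m hm'
    simp only [mem_filter, mem_range] at hm'
    refine ⟨m / p, ?_, ?_⟩
    · simp only [mem_range]
      rw [Nat.lt_iff_add_one_le, Nat.le_div_iff_mul_le hp]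
      have h3 := Nat.div_add_mod m p
      have : (m / p + 1) * p = p * (m / p) + p := by ring
      omega
    · have h3 := Nat.div_add_mod m p
      omega
  · intro _ _; rfl

lemma card_residue (p m₀ x : ℕ) (hp : 0 < p) (hm : m₀ < p) :
    |(((x + (p - 1 - m₀)) / p : ℕ) : ℝ) - (x : ℝ) / p| ≤ 1 := by
  have hp' : (0 : ℝ) < p := by exact_mod_cast hp
  set y := (x + (p - 1 - m₀)) / p with hy
  have h1 : y * p ≤ x + (p - 1 - m₀) := Nat.div_mul_le_self _ _
  have h2 : x + (p - 1 - m₀) < (y + 1) * p := by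
    have := Nat.lt_div_mul_add (a := x + (p - 1 - m₀)) hp
    calc x + (p - 1 - m₀) < (x + (p - 1 - m₀)) / p * p + p := this
      _ = (y + 1) * p := by rw [hy]; ring
  have h1' : y * p ≤ x + p := by omega
  have h2' : x < (y + 1) * p := by omega
  have h1r : (y : ℝ) * p ≤ x + p := by exact_mod_cast h1'
  have h2r : (x : ℝ) < (y + 1) * p := by exact_mod_cast h2'
  rw [abs_le]
  constructor
  · have : (x : ℝ) / p < y + 1 := by rw [div_lt_iff₀ hp']; exact h2r
    linarith
  · have : (y : ℝ) ≤ x / p + 1 := by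
      have : (y : ℝ) ≤ (x + p) / p := by rw [le_div_iff₀ hp']; exact h1r
      rw [add_div, div_self hp'.ne'] at this
      exact this
    linarith

/-- `w` has mean `μ` along all progressions with modulus coprime to `P`, with error at most `V`. -/
structure Equi (P : Finset ℕ) (w : ℕ → ℂ) (μ : ℂ) (V : ℝ) : Prop where
  mean : ‖μ‖ ≤ V
  eq : ∀ q c x : ℕ, 0 < q → (∀ p ∈ P, Nat.Coprime p q) →
    ‖∑ m ∈ range x, w (q * m + c) - x * μ‖ ≤ V

lemma Equi.nonneg {P : Finset ℕ} {w : ℕ → ℂ} {μ : ℂ} {V : ℝ} (h : Equi P w μ V) : 0 ≤ V :=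
  (norm_nonneg _).trans h.mean

lemma equi_one : Equi ∅ (fun _ => 1) 1 1 where
  mean := by simp
  eq := by intro q c x _ _; simp

lemma Equi.mono {P P' : Finset ℕ} {w : ℕ → ℂ} {μ : ℂ} {V V' : ℝ} (h : Equi P w μ V)
    (hP : P ⊆ P') (hV : V ≤ V') : Equi P' w μ V' where
  mean := h.mean.trans hV
  eq := fun q c x hq hc => (h.eq q c x hq (fun p hp => hc p (hP hp))).trans hV

lemma Equi.congr {P : Finset ℕ} {w w' : ℕ → ℂ} {μ μ' : ℂ} {V : ℝ} (h : Equi P w μ V)
    (hw : ∀ m, w m = w' m) (hμ : μ = μ') : Equi P w' μ' V := by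
  have : w = w' := funext hw
  subst this; subst hμ; exact h

lemma Equi.smul {P : Finset ℕ} {w : ℕ → ℂ} {μ : ℂ} {V : ℝ} (h : Equi P w μ V) (a : ℂ) :
    Equi P (fun m => a * w m) (a * μ) (‖a‖ * V) where
  mean := by rw [norm_mul]; exact mul_le_mul_of_nonneg_left h.mean (norm_nonneg _)
  eq := fun q c x hq hc => by
    have : ∑ m ∈ range x, a * w (q * m + c) - x * (a * μ)
        = a * (∑ m ∈ range x, w (q * m + c) - x * μ) := by
      rw [mul_sub, mul_sum]; ring
    rw [this, norm_mul]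
    exact mul_le_mul_of_nonneg_left (h.eq q c x hq hc) (norm_nonneg _)

lemma Equi.sum {ι : Type*} {P : Finset ℕ} (s : Finset ι) {w : ι → ℕ → ℂ} {μ : ι → ℂ} {V : ι → ℝ}
    (h : ∀ i ∈ s, Equi P (w i) (μ i) (V i)) :
    Equi P (fun m => ∑ i ∈ s, w i m) (∑ i ∈ s, μ i) (∑ i ∈ s, V i) where
  mean := (norm_sum_le _ _).trans (Finset.sum_le_sum fun i hi => (h i hi).mean)
  eq := fun q c x hq hc => by
    have : ∑ m ∈ range x, ∑ i ∈ s, w i (q * m + c) - x * ∑ i ∈ s, μ i
        = ∑ i ∈ s, (∑ m ∈ range x, w i (q * m + c) - x * μ i) := by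
      rw [Finset.sum_comm, mul_sum, Finset.sum_sub_distrib]
    rw [this]
    exact (norm_sum_le _ _).trans (Finset.sum_le_sum fun i hi => (h i hi).eq q c x hq hc)

/-- the residue class of `m` for which `p ∣ a m + b` -/
lemma exists_residue (p a b : ℕ) (hp : p.Prime) (ha : ¬ p ∣ a) :
    ∃ m₀ < p, ∀ m : ℕ, p ∣ a * m + b ↔ m % p = m₀ := by
  haveI : Fact p.Prime := ⟨hp⟩
  have ha' : (a : ZMod p) ≠ 0 := by
    rwa [Ne, ZMod.natCast_eq_zero_iff]
  set z : ZMod p := -(b : ZMod p) / a with hz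
  refine ⟨z.val, ZMod.val_lt z, fun m => ?_⟩
  rw [← ZMod.natCast_eq_zero_iff]
  push_cast
  constructor
  · intro h
    have : (m : ZMod p) = z := by
      rw [hz, eq_div_iff ha']
      linear_combination h
    rw [← this, ZMod.val_natCast]
  · intro h
    have : (m : ZMod p) = z := by
      rw [← ZMod.natCast_zmod_val z, ← h, ZMod.natCast_mod]
    rw [this, hz]
    field_simp
    ring

lemma Equi.restrict {P : Finset ℕ} {w : ℕ → ℂ} {μ : ℂ} {V : ℝ} (h : Equi P w μ V)
    {p a b : ℕ} (hp : p.Prime) (ha : ¬ p ∣ a) (hpP : ∀ p' ∈ P, Nat.Coprime p' p) :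
    Equi (insert p P) (fun m => if p ∣ a * m + b then w m else 0) (μ / p) (2 * V) where
  mean := by
    rw [norm_div, Complex.norm_natCast]
    have hV := h.nonneg
    have hp1 : (1 : ℝ) ≤ p := by exact_mod_cast hp.one_lt.le
    calc ‖μ‖ / p ≤ ‖μ‖ := div_le_self (norm_nonneg _) hp1
      _ ≤ V := h.mean
      _ ≤ 2 * V := by linarith
  eq := fun q c x hq hc => by
    have hpq : Nat.Coprime p q := hc p (mem_insert_self _ _)
    have haq : ¬ p ∣ a * q := by
      intro hd
      rcases (Nat.Prime.dvd_mul hp).1 hd with h1 | h1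
      · exact ha h1
      · exact (Nat.Prime.coprime_iff_not_dvd hp).1 hpq h1
    obtain ⟨m₀, hm₀, hiff⟩ := exists_residue p (a * q) (a * c + b) hp haq
    have e1 : ∑ m ∈ range x, (if p ∣ a * (q * m + c) + b then w (q * m + c) else 0)
        = ∑ m' ∈ range ((x + (p - 1 - m₀)) / p), w ((q * p) * m' + (q * m₀ + c)) := by
      rw [← Finset.sum_filter]
      have : (range x).filter (fun m => p ∣ a * (q * m + c) + b)
          = (range x).filter (fun m => m % p = m₀) := by
        apply Finset.filter_congr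
        intro m _
        rw [← hiff m]
        have : a * (q * m + c) + b = a * q * m + (a * c + b) := by ring
        rw [this]
      rw [this, sum_residue (fun m => w (q * m + c)) p m₀ x hp.pos hm₀]
      apply Finset.sum_congr rfl
      intro m' _
      congr 1
      ring
    rw [e1]
    have h2 := h.eq (q * p) (q * m₀ + c) ((x + (p - 1 - m₀)) / p) (Nat.mul_pos hq hp.pos)
      (fun p' hp' => Nat.Coprime.mul_right (hc p' (mem_insert_of_mem hp')) (hpP p' hp'))
    have h3 := card_residue p m₀ x hp.pos hm₀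
    set Y := (x + (p - 1 - m₀)) / p with hY
    have e2 : ∑ m' ∈ range Y, w ((q * p) * m' + (q * m₀ + c)) - x * (μ / p)
        = (∑ m' ∈ range Y, w ((q * p) * m' + (q * m₀ + c)) - Y * μ)
          + (((Y : ℝ) - (x : ℝ) / p : ℝ) : ℂ) * μ := by
      push_cast; ring
    rw [e2]
    calc _ ≤ V + ‖(((Y : ℝ) - (x : ℝ) / p : ℝ) : ℂ) * μ‖ := (norm_add_le _ _).trans (by gcongr)
      _ ≤ V + V := by
          rw [norm_mul, Complex.norm_real, Real.norm_eq_abs]
          have := mul_le_mul h3 h.mean (norm_nonneg _) zero_le_one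
          linarith
      _ = 2 * V := by ring

end Pool.H2.Ell
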