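import Mathlib
import Pool.Agent.H2.EllEqui
import Pool.Agent.H2.EllFactor

set_option autoImplicit false

open Finset Filter Topology

namespace Pool.H2.Ell

lemma exists_primes (P₀ : ℕ) (H₀ : ℝ) : ∃ S : Finset ℕ, (∀ p ∈ S, p.Prime ∧ P₀ < p) ∧
    H₀ ≤ ∑ p ∈ S, (1 : ℝ) / p := by
  by_contra hcon
  push Not at hcon
  apply not_summable_one_div_on_primes
  set f : ℕ → ℝ := Set.indicator {p | Nat.Prime p} (fun n : ℕ => (1 : ℝ) / n) with hf
  have hf0 : ∀ n, 0 ≤ f n := by
    intro n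
    rw [hf]
    apply Set.indicator_nonneg
    intro x _; positivity
  refine summable_of_sum_le (c := ∑ n ∈ range (P₀ + 1), f n + H₀) hf0 (fun u => ?_)
  have h1 : ∑ n ∈ u, f n = ∑ n ∈ u.filter (fun n => n ≤ P₀), f n + ∑ n ∈ u.filter (fun n => ¬ n ≤ P₀), f n :=
    (sum_filter_add_sum_filter_not u _ _).symm
  rw [h1]
  apply add_le_add
  · apply sum_le_sum_of_subset_of_nonneg
    · intro n hn
      simp only [mem_filter, mem_range] at hn ⊢
      omega
    · intro n _ _; exact hf0 n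
  · have h2 : ∑ n ∈ u.filter (fun n => ¬ n ≤ P₀), f n
        = ∑ n ∈ (u.filter (fun n => ¬ n ≤ P₀)).filter Nat.Prime, (1 : ℝ) / n := by
      rw [sum_filter (s := u.filter (fun n => ¬ n ≤ P₀)) (p := Nat.Prime)]
      apply sum_congr rfl
      intro n _
      rw [hf, Set.indicator_apply]
      simp
    rw [h2]
    refine (hcon _ ?_).le
    intro p hp
    simp only [mem_filter] at hp
    exact ⟨hp.2, by omega⟩

/-- number of multiples below x -/
def xp (x p : ℕ) : ℕ := (x + (p - 1)) / p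

lemma abs_xp (x p : ℕ) (hp : 0 < p) : |((xp x p : ℕ) : ℝ) - (x : ℝ) / p| ≤ 1 := by
  have := card_residue p 0 x hp hp
  simpa [xp] using this

lemma sum_dvd (F : ℕ → ℂ) (p x : ℕ) (hp : 0 < p) :
    ∑ n ∈ range x, (if p ∣ n then F n else 0) = ∑ m ∈ range (xp x p), F (p * m) := by
  rw [← sum_filter]
  have h := sum_residue F p 0 x hp hp
  simp only [Nat.sub_zero, add_zero] at h
  unfold xp
  rw [← h]
  apply sum_congr _ (fun _ _ => rfl)
  apply filter_congr
  intro n _
  exact Nat.dvd_iff_mod_eq_zero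

lemma sum_dvd_one (p x : ℕ) (hp : 0 < p) :
    ∑ n ∈ range x, (if p ∣ n then (1 : ℝ) else 0) = xp x p := by
  have h := sum_dvd (fun _ => 1) p x hp
  simp only [sum_const, card_range, nsmul_eq_mul, mul_one] at h
  have h2 : ((∑ n ∈ range x, (if p ∣ n then (1 : ℝ) else 0) : ℝ) : ℂ) = ((xp x p : ℝ) : ℂ) := by
    push_cast
    rw [← h]
    apply sum_congr rfl
    intro n _
    split_ifs <;> simp
  exact_mod_cast h2

lemma lt_xp_iff (x p m : ℕ) (hp : 0 < p) : m < xp x p ↔ p * m < x := by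
  unfold xp
  rw [Nat.lt_iff_add_one_le, Nat.le_div_iff_mul_le hp]
  have : (m + 1) * p = p * m + p := by ring
  omega

/-- Turán–Kubilius for a finite set of primes -/
lemma turan_kubilius (S : Finset ℕ) (hS : ∀ p ∈ S, p.Prime) (x : ℕ) :
    ∑ n ∈ range x, (∑ p ∈ S, ((if p ∣ n then (1 : ℝ) else 0) - 1 / p)) ^ 2
      ≤ x * ∑ p ∈ S, (1 : ℝ) / p + 4 * (S.card : ℝ) ^ 2 := by
  have key : ∀ p ∈ S, ∀ q ∈ S, ∑ n ∈ range x, (((if p ∣ n then (1 : ℝ) else 0) - 1 / p)
      * ((if q ∣ n then (1 : ℝ) else 0) - 1 / q)) ≤ (if p = q then (x : ℝ) / p else 0) + 4 := by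
    intro p hp q hq
    have hp0 := (hS p hp).pos
    have hq0 := (hS q hq).pos
    have hp1 : (1 : ℝ) ≤ p := by exact_mod_cast hp0
    have hq1 : (1 : ℝ) ≤ q := by exact_mod_cast hq0
    have hpp : (0 : ℝ) < p := by linarith
    have hqp : (0 : ℝ) < q := by linarith
    have e1 : ∑ n ∈ range x, (((if p ∣ n then (1 : ℝ) else 0) - 1 / p)
        * ((if q ∣ n then (1 : ℝ) else 0) - 1 / q))
        = ∑ n ∈ range x, ((if p ∣ n then (1 : ℝ) else 0) * (if q ∣ n then (1 : ℝ) else 0))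
          - (1 / q) * xp x p - (1 / p) * xp x q + x * (1 / p * (1 / q)) := by
      rw [← sum_dvd_one p x hp0, ← sum_dvd_one q x hq0, mul_sum, mul_sum, ← sum_sub_distrib,
        ← sum_sub_distrib]
      have : (x : ℝ) * (1 / p * (1 / q)) = ∑ _n ∈ range x, (1 / (p : ℝ) * (1 / q)) := by simp
      rw [this, ← sum_add_distrib]
      apply sum_congr rfl
      intro n _
      ring
    have hxp := abs_le.1 (abs_xp x p hp0)
    have hxq := abs_le.1 (abs_xp x q hq0)
    have h1q : 1 / (q : ℝ) ≤ 1 := by rw [div_le_one hqp]; exact hq1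
    have h1p : 1 / (p : ℝ) ≤ 1 := by rw [div_le_one hpp]; exact hp1
    have h1q0 : 0 < 1 / (q : ℝ) := by positivity
    have h1p0 : 0 < 1 / (p : ℝ) := by positivity
    have b1 : (1 / q : ℝ) * xp x p ≥ x * (1 / p * (1 / q)) - 1 := by
      have : (1 / q : ℝ) * xp x p ≥ (1 / q) * ((x : ℝ) / p - 1) := by
        apply mul_le_mul_of_nonneg_left _ h1q0.le
        linarith [hxp.1]
      have e : (1 / q : ℝ) * ((x : ℝ) / p - 1) = x * (1 / p * (1 / q)) - 1 / q := by ring
      linarith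
    have b2 : (1 / p : ℝ) * xp x q ≥ x * (1 / p * (1 / q)) - 1 := by
      have : (1 / p : ℝ) * xp x q ≥ (1 / p) * ((x : ℝ) / q - 1) := by
        apply mul_le_mul_of_nonneg_left _ h1p0.le
        linarith [hxq.1]
      have e : (1 / p : ℝ) * ((x : ℝ) / q - 1) = x * (1 / p * (1 / q)) - 1 / p := by ring
      linarith
    rw [e1]
    by_cases hpq : p = q
    · subst hpq
      rw [if_pos rfl]
      have e2 : ∑ n ∈ range x, ((if p ∣ n then (1 : ℝ) else 0) * (if p ∣ n then (1 : ℝ) else 0))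
          = xp x p := by
        rw [← sum_dvd_one p x hp0]
        apply sum_congr rfl
        intro n _
        split_ifs <;> simp
      rw [e2]
      have : 0 ≤ (x : ℝ) * (1 / p * (1 / p)) := by positivity
      linarith [hxp.2]
    · rw [if_neg hpq]
      have hcop : Nat.Coprime p q := (Nat.coprime_primes (hS p hp) (hS q hq)).2 hpq
      have e2 : ∑ n ∈ range x, ((if p ∣ n then (1 : ℝ) else 0) * (if q ∣ n then (1 : ℝ) else 0))
          = xp x (p * q) := by
        rw [← sum_dvd_one (p * q) x (Nat.mul_pos hp0 hq0)]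
        apply sum_congr rfl
        intro n _
        by_cases h1 : p ∣ n
        · by_cases h2 : q ∣ n
          · rw [if_pos h1, if_pos h2, if_pos (hcop.mul_dvd_of_dvd_of_dvd h1 h2)]; simp
          · rw [if_pos h1, if_neg h2, if_neg (fun h => h2 (dvd_trans (dvd_mul_left _ _) h))]; simp
        · rw [if_neg h1, if_neg (fun h => h1 (dvd_trans (dvd_mul_right _ _) h))]; simp
      rw [e2]
      have hxpq := abs_le.1 (abs_xp x (p * q) (Nat.mul_pos hp0 hq0))
      have e3 : (x : ℝ) / ((p * q : ℕ) : ℝ) = x * (1 / p * (1 / q)) := by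
        push_cast; field_simp
      rw [e3] at hxpq
      linarith [hxpq.2]
  calc ∑ n ∈ range x, (∑ p ∈ S, ((if p ∣ n then (1 : ℝ) else 0) - 1 / p)) ^ 2
      = ∑ n ∈ range x, ∑ p ∈ S, ∑ q ∈ S, (((if p ∣ n then (1 : ℝ) else 0) - 1 / p)
          * ((if q ∣ n then (1 : ℝ) else 0) - 1 / q)) := by
        apply sum_congr rfl
        intro n _
        rw [pow_two, sum_mul_sum]
    _ = ∑ p ∈ S, ∑ q ∈ S, ∑ n ∈ range x, (((if p ∣ n then (1 : ℝ) else 0) - 1 / p)
          * ((if q ∣ n then (1 : ℝ) else 0) - 1 / q)) := by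
        rw [sum_comm]
        apply sum_congr rfl
        intro p _
        rw [sum_comm]
    _ ≤ ∑ p ∈ S, ∑ q ∈ S, ((if p = q then (x : ℝ) / p else 0) + 4) :=
        sum_le_sum fun p hp => sum_le_sum fun q hq => key p hp q hq
    _ = _ := by
        have : ∀ p ∈ S, ∑ q ∈ S, ((if p = q then (x : ℝ) / p else 0) + 4)
            = (x : ℝ) / p + 4 * S.card := by
          intro p hp
          rw [sum_add_distrib, sum_ite_eq, if_pos hp]
          simp
          ring
        rw [sum_congr rfl this, sum_add_distrib, mul_sum]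
        congr 1
        · apply sum_congr rfl; intro p _; ring
        · rw [sum_const, nsmul_eq_mul]; ring

/-- the core Kátai inequality: exact decomposition -/
lemma katai_decomp (F g : ℕ → ℂ) (hF : ∀ n, ‖F n‖ ≤ 1) (hg : MB g) (S : Finset ℕ)
    (hS : ∀ p ∈ S, p.Prime) (x : ℕ) :
    (∑ p ∈ S, (1 : ℝ) / p) * ‖∑ n ∈ range x, g n * F n‖
      ≤ ∑ n ∈ range x, |∑ p ∈ S, ((if p ∣ n then (1 : ℝ) else 0) - 1 / p)|
        + ∑ p ∈ S, 2 * (xp (xp x p) p : ℝ)
        + ∑ m ∈ range x, ‖∑ p ∈ S, g p * (if p * m < x then F (p * m) else 0)‖ := by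
  set H : ℝ := ∑ p ∈ S, (1 : ℝ) / p with hH
  have hH0 : 0 ≤ H := sum_nonneg fun p _ => by positivity
  -- step 1
  have e1 : (H : ℂ) * ∑ n ∈ range x, g n * F n
      = - ∑ n ∈ range x, ((∑ p ∈ S, ((if p ∣ n then (1 : ℝ) else 0) - 1 / p) : ℝ) : ℂ) * (g n * F n)
        + ∑ p ∈ S, ∑ n ∈ range x, (if p ∣ n then g n * F n else 0) := by
    rw [sum_comm, ← sum_neg_distrib, ← sum_add_distrib, mul_sum]
    apply sum_congr rfl
    intro n _
    have : ∑ p ∈ S, (if p ∣ n then g n * F n else 0)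
        = ((∑ p ∈ S, (if p ∣ n then (1 : ℝ) else 0) : ℝ) : ℂ) * (g n * F n) := by
      push_cast
      rw [sum_mul]
      apply sum_congr rfl
      intro p _
      split_ifs <;> simp
    rw [this, sum_sub_distrib, ← hH]
    push_cast
    ring
  have e2 : ∀ p ∈ S, ∑ n ∈ range x, (if p ∣ n then g n * F n else 0)
      = ∑ m ∈ range (xp x p), (g (p * m) - g p * g m) * F (p * m)
        + ∑ m ∈ range (xp x p), g p * g m * F (p * m) := by
    intro p hp
    rw [sum_dvd (fun n => g n * F n) p x (hS p hp).pos, ← sum_add_distrib]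
    apply sum_congr rfl
    intro m _
    ring
  have b1 : ∀ p ∈ S, ‖∑ m ∈ range (xp x p), (g (p * m) - g p * g m) * F (p * m)‖
      ≤ 2 * (xp (xp x p) p : ℝ) := by
    intro p hp
    rw [← sum_dvd_one p (xp x p) (hS p hp).pos, mul_sum]
    refine (norm_sum_le _ _).trans (sum_le_sum fun m _ => ?_)
    by_cases hpm : p ∣ m
    · rw [if_pos hpm, norm_mul]
      have hx : ‖g (p * m) - g p * g m‖ ≤ 2 := by
        refine (norm_sub_le _ _).trans ?_
        rw [norm_mul]
        have := hg.bdd (p * m)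
        have := mul_le_one₀ (hg.bdd p) (norm_nonneg _) (hg.bdd m)
        linarith
      exact mul_le_mul hx (hF _) (norm_nonneg _) (by norm_num)
    · rw [if_neg hpm, hg.mul p m ((Nat.Prime.coprime_iff_not_dvd (hS p hp)).2 hpm)]
      simp
  have e3 : ∑ p ∈ S, ∑ m ∈ range (xp x p), g p * g m * F (p * m)
      = ∑ m ∈ range x, g m * ∑ p ∈ S, g p * (if p * m < x then F (p * m) else 0) := by
    have h1 : ∀ p ∈ S, ∑ m ∈ range (xp x p), g p * g m * F (p * m)
        = ∑ m ∈ range x, g p * g m * (if p * m < x then F (p * m) else 0) := by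
      intro p hp
      have hp0 := (hS p hp).pos
      have h2 : range (xp x p) = (range x).filter (fun m => p * m < x) := by
        ext m
        simp only [mem_range, mem_filter]
        rw [lt_xp_iff x p m hp0]
        constructor
        · intro h
          exact ⟨lt_of_le_of_lt (Nat.le_mul_of_pos_left m hp0) h, h⟩
        · exact fun h => h.2
      rw [h2, sum_filter]
      apply sum_congr rfl
      intro m _
      split_ifs <;> simp
    rw [sum_congr rfl h1, sum_comm]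
    apply sum_congr rfl
    intro m _
    rw [mul_sum]
    apply sum_congr rfl
    intro p _
    ring
  have e4 : H * ‖∑ n ∈ range x, g n * F n‖ = ‖(H : ℂ) * ∑ n ∈ range x, g n * F n‖ := by
    rw [norm_mul, Complex.norm_real, Real.norm_eq_abs, abs_of_nonneg hH0]
  rw [e4, e1, sum_congr rfl e2, sum_add_distrib, e3]
  rw [← add_assoc]
  refine (norm_add_le _ _).trans (add_le_add ((norm_add_le _ _).trans (add_le_add ?_ ?_)) ?_)
  · rw [norm_neg]
    refine (norm_sum_le _ _).trans (sum_le_sum fun n _ => ?_)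
    rw [norm_mul, Complex.norm_real, Real.norm_eq_abs]
    apply mul_le_of_le_one_right (abs_nonneg _)
    rw [norm_mul]
    exact mul_le_one₀ (hg.bdd n) (norm_nonneg _) (hF n)
  · exact (norm_sum_le _ _).trans (sum_le_sum b1)
  · refine (norm_sum_le _ _).trans (sum_le_sum fun m _ => ?_)
    rw [norm_mul]
    exact mul_le_of_le_one_left (norm_nonneg _) (hg.bdd m)

lemma sq_sum_le (x : ℕ) (f : ℕ → ℝ) : (∑ n ∈ range x, f n) ^ 2 ≤ x * ∑ n ∈ range x, f n ^ 2 := by
  have := sq_sum_le_card_mul_sum_sq (s := range x) (f := f)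
  simpa using this

/-- expansion of the bilinear sum -/
lemma bilinear (F g : ℕ → ℂ) (hF : ∀ n, ‖F n‖ ≤ 1) (hg : MB g) (S : Finset ℕ)
    (hS : ∀ p ∈ S, p.Prime) (x : ℕ) (E : ℝ) (hE0 : 0 ≤ E)
    (hE : ∀ p ∈ S, ∀ q ∈ S, p ≠ q → ∀ N ≤ x,
      ‖∑ m ∈ range N, F (p * m) * (starRingEnd ℂ) (F (q * m))‖ ≤ E) :
    ∑ m ∈ range x, ‖∑ p ∈ S, g p * (if p * m < x then F (p * m) else 0)‖ ^ 2
      ≤ x * ∑ p ∈ S, (1 : ℝ) / p + S.card + (S.card : ℝ) ^ 2 * E := by
  have key : ∀ p ∈ S, ∀ q ∈ S,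
      ‖∑ m ∈ range x, (g p * (if p * m < x then F (p * m) else 0))
        * (starRingEnd ℂ) (g q * (if q * m < x then F (q * m) else 0))‖
      ≤ if p = q then ((x : ℝ) / p + 1) else E := by
    intro p hp q hq
    have hp0 := (hS p hp).pos
    have hq0 := (hS q hq).pos
    by_cases hpq : p = q
    · subst hpq
      rw [if_pos rfl]
      have h1 : ∑ m ∈ range x, (if p * m < x then (1 : ℝ) else 0) = xp x p := by
        rw [← sum_filter]
        have h2 : (range x).filter (fun m => p * m < x) = range (xp x p) := by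
          ext m
          simp only [mem_range, mem_filter]
          rw [lt_xp_iff x p m hp0]
          constructor
          · exact fun h => h.2
          · intro h
            exact ⟨lt_of_le_of_lt (Nat.le_mul_of_pos_left m hp0) h, h⟩
        rw [h2]; simp
      have h3 : ((xp x p : ℕ) : ℝ) ≤ x / p + 1 := by
        linarith [(abs_le.1 (abs_xp x p hp0)).2]
      refine le_trans ?_ h3
      rw [← h1]
      refine (norm_sum_le _ _).trans (sum_le_sum fun m _ => ?_)
      by_cases hm : p * m < x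
      · rw [if_pos hm, norm_mul, RCLike.norm_conj, norm_mul, if_pos hm]
        have := mul_le_one₀ (hg.bdd p) (norm_nonneg _) (hF (p * m))
        exact mul_le_one₀ this (by positivity) this
      · rw [if_neg hm, if_neg hm]; simp
    · rw [if_neg hpq]
      -- reduce to range N
      set N := min (xp x p) (xp x q) with hN
      have hNx : N ≤ x := by
        rw [hN]
        refine (min_le_left _ _).trans ?_
        by_contra hcon
        push Not at hcon
        rw [lt_xp_iff x p x hp0] at hcon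
        have := Nat.le_mul_of_pos_left x hp0
        omega
      have h2 : ∑ m ∈ range x, (g p * (if p * m < x then F (p * m) else 0))
          * (starRingEnd ℂ) (g q * (if q * m < x then F (q * m) else 0))
          = (g p * (starRingEnd ℂ) (g q)) * ∑ m ∈ range N, F (p * m) * (starRingEnd ℂ) (F (q * m)) := by
        have h3 : range N = (range x).filter (fun m => p * m < x ∧ q * m < x) := by
          ext m
          simp only [mem_range, mem_filter, hN, lt_min_iff]
          rw [lt_xp_iff x p m hp0, lt_xp_iff x q m hq0]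
          constructor
          · intro h
            exact ⟨lt_of_le_of_lt (Nat.le_mul_of_pos_left m hp0) h.1, h⟩
          · exact fun h => h.2
        rw [h3, sum_filter, mul_sum]
        apply sum_congr rfl
        intro m _
        by_cases h4 : p * m < x
        · by_cases h5 : q * m < x
          · rw [if_pos h4, if_pos h5, if_pos ⟨h4, h5⟩, map_mul]; ring
          · have h6 : ¬ (p * m < x ∧ q * m < x) := fun h => h5 h.2
            rw [if_neg h5, if_neg h6]; simp
        · have h6 : ¬ (p * m < x ∧ q * m < x) := fun h => h4 h.1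
          rw [if_neg h4, if_neg h6]; simp
      rw [h2, norm_mul, norm_mul, RCLike.norm_conj]
      calc _ ≤ 1 * E := by
            apply mul_le_mul (mul_le_one₀ (hg.bdd p) (norm_nonneg _) (hg.bdd q))
              (hE p hp q hq hpq N hNx) (norm_nonneg _) zero_le_one
        _ = E := one_mul E
  have e1 : ((∑ m ∈ range x, ‖∑ p ∈ S, g p * (if p * m < x then F (p * m) else 0)‖ ^ 2 : ℝ) : ℂ)
      = ∑ p ∈ S, ∑ q ∈ S, ∑ m ∈ range x, (g p * (if p * m < x then F (p * m) else 0))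
        * (starRingEnd ℂ) (g q * (if q * m < x then F (q * m) else 0)) := by
    push_cast
    have : ∀ m, ((‖∑ p ∈ S, g p * (if p * m < x then F (p * m) else 0)‖ : ℂ)) ^ 2
        = ∑ p ∈ S, ∑ q ∈ S, (g p * (if p * m < x then F (p * m) else 0))
        * (starRingEnd ℂ) (g q * (if q * m < x then F (q * m) else 0)) := by
      intro m
      rw [← Complex.mul_conj', map_sum, sum_mul_sum]
    rw [sum_congr rfl (fun m _ => this m), sum_comm]
    apply sum_congr rfl
    intro p _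
    rw [sum_comm]
  have e2 : ∑ m ∈ range x, ‖∑ p ∈ S, g p * (if p * m < x then F (p * m) else 0)‖ ^ 2
      ≤ ∑ p ∈ S, ∑ q ∈ S, (if p = q then ((x : ℝ) / p + 1) else E) := by
    have h0 : 0 ≤ ∑ m ∈ range x, ‖∑ p ∈ S, g p * (if p * m < x then F (p * m) else 0)‖ ^ 2 :=
      sum_nonneg fun _ _ => by positivity
    calc ∑ m ∈ range x, ‖∑ p ∈ S, g p * (if p * m < x then F (p * m) else 0)‖ ^ 2
        = ‖((∑ m ∈ range x, ‖∑ p ∈ S, g p * (if p * m < x then F (p * m) else 0)‖ ^ 2 : ℝ) : ℂ)‖ := by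
          rw [Complex.norm_real, Real.norm_eq_abs, abs_of_nonneg h0]
      _ ≤ _ := by
          rw [e1]
          refine (norm_sum_le _ _).trans (sum_le_sum fun p hp => ?_)
          exact (norm_sum_le _ _).trans (sum_le_sum fun q hq => key p hp q hq)
  refine e2.trans ?_
  have e3 : ∀ p ∈ S, ∑ q ∈ S, (if p = q then ((x : ℝ) / p + 1) else E)
      ≤ (x : ℝ) / p + 1 + (S.card : ℝ) * E := by
    intro p hp
    rw [← add_sum_erase _ _ hp, if_pos rfl]
    apply add_le_add le_rfl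
    calc ∑ q ∈ S.erase p, (if p = q then ((x : ℝ) / p + 1) else E)
        = ∑ q ∈ S.erase p, E := by
          apply sum_congr rfl
          intro q hq
          rw [if_neg (fun h => (mem_erase.1 hq).1 h.symm)]
      _ = ((S.erase p).card : ℝ) * E := by simp
      _ ≤ _ := by
          gcongr
          exact erase_subset _ _
  calc _ ≤ ∑ p ∈ S, ((x : ℝ) / p + 1 + (S.card : ℝ) * E) := sum_le_sum e3
    _ = _ := by
      rw [sum_add_distrib, sum_add_distrib, mul_sum]
      congr 1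
      · congr 1
        · apply sum_congr rfl; intro p _; ring
        · simp
      · rw [sum_const, nsmul_eq_mul]; ring

lemma bound_of_tendsto (G : ℕ → ℂ) (hG : ∀ n, ‖G n‖ ≤ 1)
    (h : Tendsto (fun x : ℕ => (1 / (x : ℂ)) * ∑ m ∈ range x, G m) atTop (𝓝 0)) (δ : ℝ) (hδ : 0 < δ) :
    ∃ C : ℝ, 0 ≤ C ∧ ∀ N : ℕ, ‖∑ m ∈ range N, G m‖ ≤ δ * N + C := by
  obtain ⟨N₀, hN₀⟩ := Metric.tendsto_atTop.1 h δ hδ
  refine ⟨N₀, by positivity, fun N => ?_⟩
  by_cases hN : N₀ ≤ N
  · rcases Nat.eq_zero_or_pos N with h0 | h0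
    · subst h0; simp
    · have hN' : (0 : ℝ) < N := by exact_mod_cast h0
      have h1 := hN₀ N hN
      rw [dist_zero_right, norm_mul, norm_div, norm_one, Complex.norm_natCast, one_div,
        inv_mul_eq_div, div_lt_iff₀ hN'] at h1
      have : (0 : ℝ) ≤ N₀ := by positivity
      linarith
  · push Not at hN
    have h1 : ‖∑ m ∈ range N, G m‖ ≤ N := by
      refine (norm_sum_le _ _).trans ?_
      calc ∑ m ∈ range N, ‖G m‖ ≤ ∑ _m ∈ range N, (1 : ℝ) := sum_le_sum fun m _ => hG m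
        _ = N := by simp
    have h2 : (N : ℝ) ≤ N₀ := by exact_mod_cast hN.le
    have h3 : 0 ≤ δ * N := by positivity
    linarith

lemma sum_inv_sq_primes (S : Finset ℕ) (hS : ∀ p ∈ S, p.Prime) :
    ∑ p ∈ S, (1 : ℝ) / p ^ 2 ≤ 1 := by
  have h1 : ∑ p ∈ S, (1 : ℝ) / p ^ 2 ≤ ∑ i ∈ Ioc 1 (S.sup id + 1), ((i : ℝ) ^ 2)⁻¹ := by
    have : ∀ p ∈ S, (1 : ℝ) / p ^ 2 = ((p : ℝ) ^ 2)⁻¹ := by
      intro p _; rw [one_div]
    rw [sum_congr rfl this]
    apply sum_le_sum_of_subset_of_nonneg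
    · intro p hp
      rw [mem_Ioc]
      have h2 : p ≤ S.sup id := le_sup (f := id) hp
      exact ⟨(hS p hp).one_lt, by omega⟩
    · intro i _ _; positivity
  refine h1.trans ((sum_Ioc_inv_sq_le_sub one_ne_zero (by omega)).trans ?_)
  have : (0 : ℝ) ≤ ((S.sup id + 1 : ℕ) : ℝ)⁻¹ := by positivity
  simp only [Nat.cast_one, inv_one]
  linarith

theorem katai (F g : ℕ → ℂ) (hF : ∀ n, ‖F n‖ ≤ 1) (hg : MB g) (P₀ : ℕ)
    (h : ∀ p q : ℕ, p.Prime → q.Prime → P₀ < p → P₀ < q → p ≠ q →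
      Tendsto (fun x : ℕ => (1 / (x : ℂ)) * ∑ m ∈ range x, F (p * m) * (starRingEnd ℂ) (F (q * m)))
        atTop (𝓝 0)) :
    Tendsto (fun x : ℕ => (1 / (x : ℂ)) * ∑ n ∈ range x, g n * F n) atTop (𝓝 0) := by
  classical
  rw [Metric.tendsto_atTop]
  intro ε hε
  obtain ⟨S, hSP, hSH⟩ := exists_primes P₀ (max 1 (37 / ε ^ 2))
  have hS : ∀ p ∈ S, p.Prime := fun p hp => (hSP p hp).1
  set H : ℝ := ∑ p ∈ S, (1 : ℝ) / p with hH
  have hH1 : 1 ≤ H := (le_max_left _ _).trans hSH
  have hH2 : 37 / ε ^ 2 ≤ H := (le_max_right _ _).trans hSH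
  set s : ℝ := (S.card : ℝ) with hs
  have hs1 : 1 ≤ s := by
    have : S.Nonempty := by
      rw [nonempty_iff_ne_empty]
      intro h0
      rw [hH, h0] at hH1
      simp at hH1
      linarith
    rw [hs]
    exact_mod_cast this.card_pos
  set δ : ℝ := H / s ^ 2 with hδ
  have hδ0 : 0 < δ := by rw [hδ]; positivity
  have hC : ∀ p q : ℕ, ∃ C : ℝ, 0 ≤ C ∧ (p ∈ S → q ∈ S → p ≠ q → ∀ N : ℕ,
      ‖∑ m ∈ range N, F (p * m) * (starRingEnd ℂ) (F (q * m))‖ ≤ δ * N + C) := by
    intro p q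
    by_cases hpq : p ∈ S ∧ q ∈ S ∧ p ≠ q
    · obtain ⟨hp, hq, hne⟩ := hpq
      obtain ⟨C, hC0, hC⟩ := bound_of_tendsto (fun m => F (p * m) * (starRingEnd ℂ) (F (q * m)))
        (fun n => by
          rw [norm_mul, RCLike.norm_conj]
          exact mul_le_one₀ (hF _) (norm_nonneg _) (hF _))
        (h p q (hS p hp) (hS q hq) (hSP p hp).2 (hSP q hq).2 hne) δ hδ0
      exact ⟨C, hC0, fun _ _ _ => hC⟩
    · exact ⟨0, le_rfl, fun h1 h2 h3 => absurd ⟨h1, h2, h3⟩ hpq⟩
  choose Cf hCf0 hCf using hC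
  set C : ℝ := ∑ p ∈ S, ∑ q ∈ S, Cf p q with hCdef
  have hC0 : 0 ≤ C := sum_nonneg fun p _ => sum_nonneg fun q _ => hCf0 p q
  have hCle : ∀ p ∈ S, ∀ q ∈ S, Cf p q ≤ C := by
    intro p hp q hq
    calc Cf p q ≤ ∑ q ∈ S, Cf p q := single_le_sum (fun q _ => hCf0 p q) hq
      _ ≤ C := single_le_sum (f := fun p => ∑ q ∈ S, Cf p q)
        (fun p _ => sum_nonneg fun q _ => hCf0 p q) hp
  obtain ⟨x₀, hx₀⟩ := exists_nat_ge ((4 * s ^ 2 + s + s ^ 2 * C) + 32 * s ^ 2)
  refine ⟨max x₀ 1, fun x hx => ?_⟩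
  have hx1 : 1 ≤ x := le_trans (le_max_right _ _) hx
  have hxr : (1 : ℝ) ≤ x := by exact_mod_cast hx1
  have hxx : (4 * s ^ 2 + s + s ^ 2 * C) + 32 * s ^ 2 ≤ x := by
    refine hx₀.trans ?_
    exact_mod_cast le_trans (le_max_left _ _) hx
  have hdec := katai_decomp F g hF hg S hS x
  set Z : ℝ := ‖∑ n ∈ range x, g n * F n‖ with hZ
  have hZ0 : 0 ≤ Z := norm_nonneg _
  set a : ℝ := ∑ n ∈ range x, |∑ p ∈ S, ((if p ∣ n then (1 : ℝ) else 0) - 1 / p)| with ha
  set b : ℝ := ∑ p ∈ S, 2 * (xp (xp x p) p : ℝ) with hb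
  set c : ℝ := ∑ m ∈ range x, ‖∑ p ∈ S, g p * (if p * m < x then F (p * m) else 0)‖ with hc
  have ha2 : a ^ 2 ≤ x * (x * H + 4 * s ^ 2) := by
    refine (sq_sum_le x _).trans ?_
    have := turan_kubilius S hS x
    simp only [sq_abs]
    gcongr
  have hb0 : 0 ≤ b := sum_nonneg fun p _ => by positivity
  have hb2 : b ≤ 2 * x + 4 * s := by
    have h1 : ∀ p ∈ S, 2 * (xp (xp x p) p : ℝ) ≤ 2 * x * (1 / p ^ 2) + 4 := by
      intro p hp
      have hp0 := (hS p hp).pos
      have hp1 : (1 : ℝ) ≤ p := by exact_mod_cast hp0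
      have hpp : (0 : ℝ) < p := by linarith
      have e1 := (abs_le.1 (abs_xp (xp x p) p hp0)).2
      have e2 := (abs_le.1 (abs_xp x p hp0)).2
      have e3 : ((xp x p : ℕ) : ℝ) / p ≤ (x / p + 1) / p := by
        gcongr; linarith
      have e4 : ((x : ℝ) / p + 1) / p = x * (1 / p ^ 2) + 1 / p := by field_simp
      have e5 : 1 / (p : ℝ) ≤ 1 := by rw [div_le_one hpp]; exact hp1
      linarith
    calc b ≤ ∑ p ∈ S, (2 * x * (1 / (p : ℝ) ^ 2) + 4) := sum_le_sum h1
      _ = 2 * x * ∑ p ∈ S, (1 : ℝ) / p ^ 2 + 4 * s := by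
          rw [sum_add_distrib, mul_sum, sum_const, nsmul_eq_mul]
          ring
      _ ≤ 2 * x * 1 + 4 * s := by
          gcongr
          exact sum_inv_sq_primes S hS
      _ = _ := by ring
  have hc2 : c ^ 2 ≤ x * (x * H + s + s ^ 2 * (δ * x + C)) := by
    refine (sq_sum_le x _).trans ?_
    have := bilinear F g hF hg S hS x (δ * x + C) (by positivity) (fun p hp q hq hne N hN => by
      refine (hCf p q hp hq hne N).trans ?_
      have h1 := hCle p hp q hq
      have h2 : (N : ℝ) ≤ x := by exact_mod_cast hN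
      have h3 : δ * N ≤ δ * x := by gcongr
      linarith)
    gcongr
  have hδs : s ^ 2 * δ = H := by
    rw [hδ]; field_simp
  have hmain : (H * Z) ^ 2 ≤ 36 * H * x ^ 2 := by
    have h1 : (H * Z) ^ 2 ≤ (a + b + c) ^ 2 := by
      apply pow_le_pow_left₀ (by positivity) hdec
    have h2 : (a + b + c) ^ 2 ≤ 3 * (a ^ 2 + b ^ 2 + c ^ 2) := by
      nlinarith [sq_nonneg (a - b), sq_nonneg (b - c), sq_nonneg (a - c)]
    have h3 : b ^ 2 ≤ 8 * x ^ 2 + 32 * s ^ 2 := by
      calc b ^ 2 ≤ (2 * x + 4 * s) ^ 2 := pow_le_pow_left₀ hb0 hb2 2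
        _ ≤ _ := by nlinarith [sq_nonneg (2 * (x : ℝ) - 4 * s)]
    have h4 : (x : ℝ) * (x * H + s + s ^ 2 * (δ * x + C)) = 2 * H * x ^ 2 + x * (s + s ^ 2 * C) := by
      calc (x : ℝ) * (x * H + s + s ^ 2 * (δ * x + C))
          = x * x * H + x * x * (s ^ 2 * δ) + x * (s + s ^ 2 * C) := by ring
        _ = _ := by rw [hδs]; ring
    rw [h4] at hc2
    have h5 : x * (4 * s ^ 2 + s + s ^ 2 * C) + 32 * s ^ 2 ≤ (x : ℝ) ^ 2 := by
      have : 32 * s ^ 2 ≤ x * (32 * s ^ 2) := le_mul_of_one_le_left (by positivity) hxr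
      calc _ ≤ x * (4 * s ^ 2 + s + s ^ 2 * C) + x * (32 * s ^ 2) := by linarith
        _ = x * ((4 * s ^ 2 + s + s ^ 2 * C) + 32 * s ^ 2) := by ring
        _ ≤ x * x := by gcongr
        _ = _ := by ring
    have h6 : (x : ℝ) ^ 2 ≤ H * x ^ 2 := le_mul_of_one_le_left (by positivity) hH1
    nlinarith
  have hZx : Z < ε * x := by
    have h1 : Z ^ 2 * H ≤ 36 * x ^ 2 := by
      have h2 : H * (Z ^ 2 * H) ≤ H * (36 * x ^ 2) := by
        calc H * (Z ^ 2 * H) = (H * Z) ^ 2 := by ring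
          _ ≤ 36 * H * x ^ 2 := hmain
          _ = _ := by ring
      exact le_of_mul_le_mul_left h2 (by linarith)
    have h3 : 37 ≤ H * ε ^ 2 := by
      rwa [div_le_iff₀ (by positivity)] at hH2
    have hx2 : 0 < (x : ℝ) ^ 2 := by positivity
    have h4 : Z ^ 2 * 37 ≤ 36 * (ε ^ 2 * x ^ 2) := by
      calc Z ^ 2 * 37 ≤ Z ^ 2 * (H * ε ^ 2) := by gcongr
        _ = (Z ^ 2 * H) * ε ^ 2 := by ring
        _ ≤ (36 * x ^ 2) * ε ^ 2 := by gcongr
        _ = _ := by ring
    have h5 : Z ^ 2 < (ε * x) ^ 2 := by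
      have : 0 < ε ^ 2 * (x : ℝ) ^ 2 := by positivity
      nlinarith
    exact lt_of_pow_lt_pow_left₀ 2 (by positivity) h5
  have hxp : (0 : ℝ) < x := by linarith
  rw [dist_zero_right, norm_mul, norm_div, norm_one, Complex.norm_natCast, one_div, inv_mul_eq_div,
    div_lt_iff₀ hxp]
  exact hZx

end Pool.H2.Ell
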