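import Mathlib

set_option autoImplicit false

open Finset

namespace Pool.H2.Ell

/-- elementary symmetric sum -/
noncomputable def esy {R : Type*} [CommRing R] (B : Finset ℕ) (s : ℕ) (h : ℕ → R) : R :=
  ∑ S ∈ powersetCard s B, ∏ p ∈ S, h p

/-- truncated product -/
noncomputable def tru {R : Type*} [CommRing R] (B : Finset ℕ) (ρ : ℕ) (h : ℕ → R) : R :=
  ∑ s ∈ range (ρ + 1), esy B s h

section
variable {R : Type*} [CommRing R]

lemma esy_zero (B : Finset ℕ) (h : ℕ → R) : esy B 0 h = 1 := by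
  simp [esy]

lemma esy_insert (B : Finset ℕ) (s : ℕ) (h : ℕ → R) {p : ℕ} (hp : p ∉ B) :
    esy (insert p B) (s + 1) h = esy B (s + 1) h + h p * esy B s h := by
  unfold esy
  rw [powersetCard_succ_insert hp, sum_union]
  · congr 1
    rw [sum_image]
    · rw [mul_sum]
      apply sum_congr rfl
      intro S hS
      rw [prod_insert]
      intro hpS
      exact hp ((mem_powersetCard.1 hS).1 hpS)
    · intro S hS T hT hST
      have h1 : p ∉ S := fun hpS => hp ((mem_powersetCard.1 hS).1 hpS)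
      have h2 : p ∉ T := fun hpS => hp ((mem_powersetCard.1 hT).1 hpS)
      rw [← erase_insert h1, ← erase_insert h2]

      rw [hST]
  · rw [disjoint_left]
    intro S hS hS'
    obtain ⟨T, _, rfl⟩ := mem_image.1 hS'
    exact hp ((mem_powersetCard.1 hS).1 (mem_insert_self _ _))

lemma esy_empty_succ (s : ℕ) (h : ℕ → R) : esy ∅ (s + 1) h = 0 := by
  unfold esy
  rw [powersetCard_eq_empty.2 (by simp)]
  simp

lemma tru_insert (B : Finset ℕ) (ρ : ℕ) (h : ℕ → R) {p : ℕ} (hp : p ∉ B) :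
    tru (insert p B) ρ h = (1 + h p) * tru B ρ h - h p * esy B ρ h := by
  unfold tru
  rw [sum_range_succ' (fun s => esy (insert p B) s h)]
  simp only [esy_zero, esy_insert B _ h hp, sum_add_distrib]
  rw [sum_range_succ' (fun s => esy B s h), esy_zero, ← mul_sum]
  have : ∑ s ∈ range ρ, esy B s h + esy B ρ h = ∑ s ∈ range ρ, esy B (s + 1) h + 1 := by
    rw [← sum_range_succ, sum_range_succ', esy_zero]
  linear_combination (h p) * this

end

lemma esy_nonneg (B : Finset ℕ) (s : ℕ) (ν : ℕ → ℝ) (h : ∀ p ∈ B, 0 ≤ ν p) : 0 ≤ esy B s ν := by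
  unfold esy
  apply sum_nonneg
  intro S hS
  apply prod_nonneg
  intro p hp
  exact h p ((mem_powersetCard.1 hS).1 hp)

lemma esy_le_pow (B : Finset ℕ) (s : ℕ) (ν : ℕ → ℝ) (h : ∀ p ∈ B, 0 ≤ ν p) :
    esy B s ν ≤ (∑ p ∈ B, ν p) ^ s := by
  induction B using Finset.induction_on generalizing s with
  | empty =>
    cases s with
    | zero => simp [esy_zero]
    | succ s => simp [esy_empty_succ]
  | insert p B hp ih =>
    have hB : ∀ p ∈ B, 0 ≤ ν p := fun p' hp' => h p' (mem_insert_of_mem hp')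
    have hνp := h p (mem_insert_self _ _)
    have hS : 0 ≤ ∑ p ∈ B, ν p := sum_nonneg hB
    cases s with
    | zero => simp [esy_zero]
    | succ s =>
      rw [esy_insert B s ν hp, sum_insert hp]
      have h1 := ih (s + 1) hB
      have h2 := ih s hB
      have h3 : (∑ p ∈ B, ν p) ^ s ≤ (ν p + ∑ p ∈ B, ν p) ^ s :=
        pow_le_pow_left₀ hS (by linarith) s
      calc esy B (s + 1) ν + ν p * esy B s ν
          ≤ (∑ p ∈ B, ν p) ^ (s + 1) + ν p * (∑ p ∈ B, ν p) ^ s := by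
            gcongr
        _ = (ν p + ∑ p ∈ B, ν p) * (∑ p ∈ B, ν p) ^ s := by ring
        _ ≤ (ν p + ∑ p ∈ B, ν p) * (ν p + ∑ p ∈ B, ν p) ^ s := by
            gcongr
        _ = _ := by ring

lemma esy_mono (B : Finset ℕ) (s : ℕ) (ν ν' : ℕ → ℝ) (h : ∀ p ∈ B, 0 ≤ ν p)
    (h' : ∀ p ∈ B, ν p ≤ ν' p) : esy B s ν ≤ esy B s ν' := by
  unfold esy
  apply sum_le_sum
  intro S hS
  apply prod_le_prod
  · intro p hp; exact h p ((mem_powersetCard.1 hS).1 hp)
  · intro p hp; exact h' p ((mem_powersetCard.1 hS).1 hp)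

/-- truncation error -/
lemma norm_prod_sub_tru (B : Finset ℕ) (ρ : ℕ) (h : ℕ → ℂ) (hb : ∀ p ∈ B, ‖1 + h p‖ ≤ 1) :
    ‖∏ p ∈ B, (1 + h p) - tru B ρ h‖ ≤ esy B (ρ + 1) (fun p => ‖h p‖) := by
  induction B using Finset.induction_on with
  | empty =>
    simp only [prod_empty]
    have : tru ∅ ρ h = 1 := by
      unfold tru
      rw [sum_range_succ', esy_zero]
      simp [esy_empty_succ]
    rw [this, esy_empty_succ]
    simp
  | insert p B hp ih =>
    have hB : ∀ p ∈ B, ‖1 + h p‖ ≤ 1 := fun p' hp' => hb p' (mem_insert_of_mem hp')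
    have h1 := hb p (mem_insert_self _ _)
    rw [prod_insert hp, tru_insert B ρ h hp, esy_insert B ρ _ hp]
    have e : (1 + h p) * ∏ p ∈ B, (1 + h p) - ((1 + h p) * tru B ρ h - h p * esy B ρ h)
        = (1 + h p) * (∏ p ∈ B, (1 + h p) - tru B ρ h) + h p * esy B ρ h := by ring
    rw [e]
    have h2 : ‖esy B ρ h‖ ≤ esy B ρ (fun p => ‖h p‖) := by
      unfold esy
      refine (norm_sum_le _ _).trans (sum_le_sum ?_)
      intro S _
      rw [norm_prod]
    calc _ ≤ ‖(1 + h p) * (∏ p ∈ B, (1 + h p) - tru B ρ h)‖ + ‖h p * esy B ρ h‖ := norm_add_le _ _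
      _ ≤ 1 * esy B (ρ + 1) (fun p => ‖h p‖) + ‖h p‖ * esy B ρ (fun p => ‖h p‖) := by
        rw [norm_mul, norm_mul]
        have := ih hB
        gcongr
      _ = _ := by ring

/-- combining blocks -/
lemma norm_prod_sub_prod {ι : Type*} [DecidableEq ι] (s : Finset ι) (A A' : ι → ℂ) (E : ι → ℝ)
    (hA : ∀ i ∈ s, ‖A i‖ ≤ 1) (hE : ∀ i ∈ s, ‖A i - A' i‖ ≤ E i) :
    ‖∏ i ∈ s, A i - ∏ i ∈ s, A' i‖ ≤ ∏ i ∈ s, (1 + E i) - 1 ∧
    ‖∏ i ∈ s, A' i‖ ≤ ∏ i ∈ s, (1 + E i) := by
  induction s using Finset.induction_on with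
  | empty => simp
  | insert j s hj ih =>
    obtain ⟨ih1, ih2⟩ := ih (fun i hi => hA i (mem_insert_of_mem hi))
      (fun i hi => hE i (mem_insert_of_mem hi))
    have hAj := hA j (mem_insert_self _ _)
    have hEj := hE j (mem_insert_self _ _)
    have hE0 : 0 ≤ E j := (norm_nonneg _).trans hEj
    have hA'j : ‖A' j‖ ≤ 1 + E j := by
      have : A' j = A j - (A j - A' j) := by ring
      rw [this]
      refine (norm_sub_le _ _).trans ?_
      linarith
    have hprod : 1 ≤ ∏ i ∈ s, (1 + E i) := by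
      have := (norm_nonneg _).trans ih1
      linarith
    rw [prod_insert hj, prod_insert hj, prod_insert hj]
    constructor
    · have e : A j * ∏ i ∈ s, A i - A' j * ∏ i ∈ s, A' i
          = A j * (∏ i ∈ s, A i - ∏ i ∈ s, A' i) + (A j - A' j) * ∏ i ∈ s, A' i := by ring
      rw [e]
      calc _ ≤ ‖A j * (∏ i ∈ s, A i - ∏ i ∈ s, A' i)‖ + ‖(A j - A' j) * ∏ i ∈ s, A' i‖ :=
            norm_add_le _ _
        _ ≤ 1 * (∏ i ∈ s, (1 + E i) - 1) + E j * ∏ i ∈ s, (1 + E i) := by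
          rw [norm_mul, norm_mul]
          gcongr
        _ = _ := by ring
    · rw [norm_mul]
      have : 0 ≤ 1 + E j := by linarith
      gcongr

end Pool.H2.Ell
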