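import Mathlib
import Pool.Agent.H2.EllEqui
import Pool.Agent.H2.EllTrunc

set_option autoImplicit false

open Finset

namespace Pool.H2.Ell

variable {ι : Type*} [Fintype ι]

/-- the local perturbation at `p` -/
noncomputable def hh (a b : ι → ℕ) (al : ι → ℕ → ℂ) (m : ℕ) (p : ℕ) : ℂ :=
  ∑ i, if p ∣ a i * m + b i then al i p else 0

/-- mean of the local perturbation -/
noncomputable def mm (al : ι → ℕ → ℂ) (p : ℕ) : ℂ := ∑ i, al i p / p

lemma Equi.mulH {P : Finset ℕ} {w : ℕ → ℂ} {μ : ℂ} {V : ℝ} (h : Equi P w μ V)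
    (a b : ι → ℕ) (al : ι → ℕ → ℂ) {p : ℕ} (hp : p.Prime) (ha : ∀ i, ¬ p ∣ a i)
    (hal : ∀ i, ‖al i p‖ ≤ 2) (hpP : ∀ p' ∈ P, Nat.Coprime p' p) :
    Equi (insert p P) (fun m => hh a b al m p * w m) (mm al p * μ) (4 * Fintype.card ι * V) := by
  have h1 : ∀ i ∈ (univ : Finset ι), Equi (insert p P)
      (fun m => al i p * (if p ∣ a i * m + b i then w m else 0)) (al i p * (μ / p))
      (‖al i p‖ * (2 * V)) := fun i _ => (h.restrict hp (ha i) hpP).smul (al i p)
  have h2 := Equi.sum univ h1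
  have hV := h.nonneg
  refine (h2.mono subset_rfl ?_).congr ?_ ?_
  · calc ∑ i, ‖al i p‖ * (2 * V) ≤ ∑ _i : ι, 2 * (2 * V) := by
          apply sum_le_sum; intro i _
          exact mul_le_mul_of_nonneg_right (hal i) (by linarith)
      _ = 4 * Fintype.card ι * V := by
          rw [sum_const, card_univ, nsmul_eq_mul]; ring
  · intro m
    unfold hh
    rw [sum_mul]
    apply sum_congr rfl
    intro i _
    split_ifs <;> simp
  · unfold mm
    rw [sum_mul]
    apply sum_congr rfl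
    intro i _
    ring

lemma Equi.mulProd {P : Finset ℕ} {w : ℕ → ℂ} {μ : ℂ} {V : ℝ} (h : Equi P w μ V)
    (a b : ι → ℕ) (al : ι → ℕ → ℂ) (S : Finset ℕ) (hS : ∀ p ∈ S, p.Prime)
    (ha : ∀ p ∈ S, ∀ i, ¬ p ∣ a i)
    (hal : ∀ p ∈ S, ∀ i, ‖al i p‖ ≤ 2) (hP : ∀ p ∈ P, p.Prime) (hd : Disjoint P S) :
    Equi (P ∪ S) (fun m => (∏ p ∈ S, hh a b al m p) * w m) ((∏ p ∈ S, mm al p) * μ)
      ((4 * Fintype.card ι) ^ S.card * V) := by
  induction S using Finset.induction_on with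
  | empty => simpa using h
  | insert p S hp ih =>
    have hd' : Disjoint P S := hd.mono_right (subset_insert _ _)
    have ih' := ih (fun p' hp' => hS p' (mem_insert_of_mem hp'))
      (fun p' hp' => ha p' (mem_insert_of_mem hp'))
      (fun p' hp' => hal p' (mem_insert_of_mem hp')) hd'
    have hpr := hS p (mem_insert_self _ _)
    have hcop : ∀ p' ∈ P ∪ S, Nat.Coprime p' p := by
      intro p' hp'
      rcases mem_union.1 hp' with h1 | h1
      · refine (Nat.coprime_primes (hP p' h1) hpr).2 ?_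
        rintro rfl
        exact (disjoint_left.1 hd h1) (mem_insert_self _ _)
      · refine (Nat.coprime_primes (hS p' (mem_insert_of_mem h1)) hpr).2 ?_
        rintro rfl
        exact hp h1
    have h2 := ih'.mulH a b al hpr (ha p (mem_insert_self _ _)) (hal p (mem_insert_self _ _)) hcop
    rw [card_insert_of_notMem hp]
    refine (h2.mono ?_ (le_of_eq ?_)).congr ?_ ?_
    · rw [union_insert]
    · rw [pow_succ]; ring
    · intro m; rw [prod_insert hp]; ring
    · rw [prod_insert hp]; ring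

lemma Equi.mulEsy {P : Finset ℕ} {w : ℕ → ℂ} {μ : ℂ} {V : ℝ} (h : Equi P w μ V)
    (a b : ι → ℕ) (al : ι → ℕ → ℂ) (B : Finset ℕ) (hS : ∀ p ∈ B, p.Prime)
    (ha : ∀ p ∈ B, ∀ i, ¬ p ∣ a i)
    (hal : ∀ p ∈ B, ∀ i, ‖al i p‖ ≤ 2) (hP : ∀ p ∈ P, p.Prime) (hd : Disjoint P B) (s : ℕ) :
    Equi (P ∪ B) (fun m => esy B s (hh a b al m) * w m) (esy B s (mm al) * μ)
      ((4 * Fintype.card ι * B.card) ^ s * V) := by
  have hV := h.nonneg
  have h1 : ∀ S ∈ powersetCard s B, Equi (P ∪ B)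
      (fun m => (∏ p ∈ S, hh a b al m p) * w m) ((∏ p ∈ S, mm al p) * μ)
      ((4 * Fintype.card ι) ^ s * V) := by
    intro S hSm
    obtain ⟨hSB, hScard⟩ := mem_powersetCard.1 hSm
    have := h.mulProd a b al S (fun p hp => hS p (hSB hp)) (fun p hp => ha p (hSB hp))
      (fun p hp => hal p (hSB hp)) hP (hd.mono_right hSB)
    rw [hScard] at this
    exact this.mono (union_subset_union_right hSB) le_rfl
  have h2 := Equi.sum (powersetCard s B) h1
  refine (h2.mono subset_rfl ?_).congr ?_ ?_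
  · rw [sum_const, card_powersetCard, nsmul_eq_mul]
    have h3 : ((B.card.choose s : ℕ) : ℝ) ≤ (B.card : ℝ) ^ s := by
      exact_mod_cast Nat.choose_le_pow B.card s
    calc ((B.card.choose s : ℕ) : ℝ) * ((4 * Fintype.card ι) ^ s * V)
        ≤ (B.card : ℝ) ^ s * ((4 * Fintype.card ι) ^ s * V) := by gcongr
      _ = _ := by rw [mul_pow _ (B.card : ℝ)]; ring
  · intro m; unfold esy; rw [sum_mul]
  · unfold esy; rw [sum_mul]

lemma sum_pow_le (c : ℝ) (hc : 0 ≤ c) (ρ : ℕ) : ∑ s ∈ range (ρ + 1), c ^ s ≤ (1 + c) ^ ρ := by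
  rw [add_comm 1 c, add_pow]
  apply sum_le_sum
  intro s hs
  simp only [one_pow, mul_one]
  have : (1 : ℝ) ≤ (ρ.choose s : ℝ) := by
    exact_mod_cast Nat.choose_pos (by simpa [Nat.lt_succ_iff] using hs)
  have hcs : 0 ≤ c ^ s := pow_nonneg hc s
  nlinarith

lemma Equi.mulTru {P : Finset ℕ} {w : ℕ → ℂ} {μ : ℂ} {V : ℝ} (h : Equi P w μ V)
    (a b : ι → ℕ) (al : ι → ℕ → ℂ) (B : Finset ℕ) (hS : ∀ p ∈ B, p.Prime)
    (ha : ∀ p ∈ B, ∀ i, ¬ p ∣ a i)
    (hal : ∀ p ∈ B, ∀ i, ‖al i p‖ ≤ 2) (hP : ∀ p ∈ P, p.Prime) (hd : Disjoint P B) (ρ : ℕ) :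
    Equi (P ∪ B) (fun m => tru B ρ (hh a b al m) * w m) (tru B ρ (mm al) * μ)
      ((1 + 4 * Fintype.card ι * B.card) ^ ρ * V) := by
  have hV := h.nonneg
  have h2 := Equi.sum (range (ρ + 1)) (fun s _ => h.mulEsy a b al B hS ha hal hP hd s)
  refine (h2.mono subset_rfl ?_).congr ?_ ?_
  · rw [← sum_mul]
    exact mul_le_mul_of_nonneg_right (sum_pow_le _ (by positivity) ρ) hV
  · intro m; unfold tru; rw [sum_mul]
  · unfold tru; rw [sum_mul]

/-- one plus a symmetric sum -/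
lemma Equi.mulOneAddEsy {P : Finset ℕ} {w : ℕ → ℂ} {μ : ℂ} {V : ℝ} (h : Equi P w μ V)
    (a b : ι → ℕ) (al : ι → ℕ → ℂ) (B : Finset ℕ) (hS : ∀ p ∈ B, p.Prime)
    (ha : ∀ p ∈ B, ∀ i, ¬ p ∣ a i)
    (hal : ∀ p ∈ B, ∀ i, ‖al i p‖ ≤ 2) (hP : ∀ p ∈ P, p.Prime) (hd : Disjoint P B) (s : ℕ) :
    Equi (P ∪ B) (fun m => (1 + esy B s (hh a b al m)) * w m) ((1 + esy B s (mm al)) * μ)
      ((1 + 4 * Fintype.card ι * B.card) ^ s * 2 * V) := by
  have hV := h.nonneg
  have h1 := h.mulEsy a b al B hS ha hal hP hd s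
  have h0 := h.mono (P' := P ∪ B) subset_union_left le_rfl
  have h2 := Equi.sum (univ : Finset (Fin 2)) (P := P ∪ B)
    (w := fun j => if j = 0 then w else (fun m => esy B s (hh a b al m) * w m))
    (μ := fun j => if j = 0 then μ else esy B s (mm al) * μ)
    (V := fun j => if j = 0 then V else (4 * Fintype.card ι * B.card) ^ s * V)
    (by
      intro j _
      fin_cases j
      · simpa using h0
      · simpa using h1)
  refine (h2.mono subset_rfl ?_).congr ?_ ?_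
  · rw [Fin.sum_univ_two]
    simp only [↓reduceIte, one_ne_zero]
    have h3 : (4 * (Fintype.card ι : ℝ) * B.card) ^ s ≤ (1 + 4 * Fintype.card ι * B.card) ^ s :=
      pow_le_pow_left₀ (by positivity) (by linarith) s
    have h4 : (1 : ℝ) ≤ (1 + 4 * Fintype.card ι * B.card) ^ s := by
      apply one_le_pow₀
      have : (0 : ℝ) ≤ 4 * Fintype.card ι * B.card := by positivity
      linarith
    nlinarith
  · intro m
    rw [Fin.sum_univ_two]
    simp only [↓reduceIte, one_ne_zero]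
    ring
  · rw [Fin.sum_univ_two]
    simp only [↓reduceIte, one_ne_zero]
    ring

end Pool.H2.Ell
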