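import Mathlib
import Pool.Agent.H2.EllPoly

set_option autoImplicit false

open Finset

namespace Pool.H2.Ell

/-- double exponential scale -/
def Y (j : ℕ) : ℕ := 2 ^ (2 ^ j)

lemma Y_succ (j : ℕ) : Y (j + 1) = Y j ^ 2 := by
  unfold Y; rw [← pow_mul, pow_succ]

lemma Y_pos (j : ℕ) : 0 < Y j := by unfold Y; positivity

lemma two_le_Y (j : ℕ) : 2 ≤ Y j := by
  unfold Y
  calc 2 = 2 ^ 1 := by norm_num
    _ ≤ 2 ^ (2 ^ j) := Nat.pow_le_pow_right (by norm_num) Nat.one_le_two_pow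

lemma Y_lt_succ (j : ℕ) : Y j < Y (j + 1) := by
  rw [Y_succ]
  have := two_le_Y j
  nlinarith

lemma Y_strictMono : StrictMono Y := strictMono_nat_of_lt_succ Y_lt_succ

lemma Y_mono : Monotone Y := Y_strictMono.monotone

lemma lt_Y (j : ℕ) : j < Y j := by
  have h1 : j < 2 ^ j := Nat.lt_two_pow_self
  have h2 : 2 ^ j < 2 ^ (2 ^ j) := Nat.lt_two_pow_self
  exact h1.trans h2

/-- primes in the `j`-th block -/
def blk (j : ℕ) : Finset ℕ := (Ioc (Y j) (Y (j + 1))).filter Nat.Prime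

lemma mem_blk {j p : ℕ} : p ∈ blk j ↔ (Y j < p ∧ p ≤ Y (j + 1)) ∧ p.Prime := by
  unfold blk; simp

lemma blk_disjoint {i j : ℕ} (h : i ≠ j) : Disjoint (blk i) (blk j) := by
  rw [disjoint_left]
  intro p hi hj
  rw [mem_blk] at hi hj
  rcases Nat.lt_or_gt_of_ne h with h | h
  · have := Y_mono (show i + 1 ≤ j from h)
    omega
  · have := Y_mono (show j + 1 ≤ i from h)
    omega

lemma card_blk (j : ℕ) : (blk j).card ≤ Y (j + 1) := by
  unfold blk
  refine (card_filter_le _ _).trans ?_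
  rw [Nat.card_Ioc]
  omega

/-- primes in `(Y j₀, Y n]` -/
def rng (j₀ n : ℕ) : Finset ℕ := (Ico j₀ n).biUnion blk

lemma mem_rng {j₀ n p : ℕ} : p ∈ rng j₀ n ↔ (Y j₀ < p ∧ p ≤ Y n) ∧ p.Prime := by
  unfold rng
  simp only [mem_biUnion, mem_Ico, mem_blk]
  constructor
  · rintro ⟨j, ⟨h1, h2⟩, ⟨h3, h4⟩, h5⟩
    refine ⟨⟨lt_of_le_of_lt (Y_mono h1) h3, h4.trans (Y_mono h2)⟩, h5⟩
  · rintro ⟨⟨h1, h2⟩, h3⟩
    have hex : ∃ m, p ≤ Y m := ⟨n, h2⟩
    classical
    set m := Nat.find hex with hm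
    have hm1 : p ≤ Y m := Nat.find_spec hex
    have hm2 : j₀ < m := by
      by_contra hcon
      push Not at hcon
      have := Y_mono hcon
      omega
    have hm3 : m ≤ n := Nat.find_min' hex h2
    have hm4 : ¬ p ≤ Y (m - 1) := Nat.find_min hex (by omega)
    refine ⟨m - 1, ⟨by omega, by omega⟩, ⟨by omega, ?_⟩, h3⟩
    rwa [Nat.sub_add_cancel (by omega)]

lemma prod_rng {M : Type*} [CommMonoid M] (j₀ n : ℕ) (f : ℕ → M) :
    ∏ p ∈ rng j₀ n, f p = ∏ j ∈ Ico j₀ n, ∏ p ∈ blk j, f p := by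
  unfold rng
  rw [prod_biUnion]
  intro i _ j _ hij
  exact blk_disjoint hij

lemma sum_rng {M : Type*} [AddCommMonoid M] (j₀ n : ℕ) (f : ℕ → M) :
    ∑ p ∈ rng j₀ n, f p = ∑ j ∈ Ico j₀ n, ∑ p ∈ blk j, f p := by
  unfold rng
  rw [sum_biUnion]
  intro i _ j _ hij
  exact blk_disjoint hij

variable {ι : Type*} [Fintype ι]

/-- truncated block polynomial -/
noncomputable def TT (j₀ n : ℕ) (h : ℕ → ℂ) : ℂ :=
  ∏ j ∈ Ico j₀ n, tru (blk j) (n - 1 - j) h

/-- error polynomial -/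
noncomputable def EE {R : Type*} [CommRing R] (j₀ n : ℕ) (h : ℕ → R) : R :=
  ∏ j ∈ Ico j₀ n, (1 + esy (blk j) (n - j) h)

lemma sum_two_pow (j₀ n : ℕ) : ∑ j ∈ Ico j₀ n, 2 ^ (j + 2) * (n - j) ≤ 2 ^ (n + 3) := by
  have h1 : ∑ j ∈ Ico j₀ n, 2 ^ (j + 2) * (n - j) ≤ ∑ j ∈ range n, 2 ^ (j + 2) * (n - j) := by
    apply sum_le_sum_of_subset
    intro j hj
    simp only [mem_Ico] at hj
    simp only [mem_range]
    exact hj.2
  refine h1.trans ?_
  have h2 : ∀ n : ℕ, ∑ j ∈ range n, 2 ^ (j + 2) * (n - j) + 4 * (n + 2) = 2 ^ (n + 3) := by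
    intro n
    induction n with
    | zero => norm_num
    | succ n ih =>
      have e : ∑ j ∈ range (n + 1), 2 ^ (j + 2) * (n + 1 - j)
          = ∑ j ∈ range (n + 1), 2 ^ (j + 2) * (n - j) + ∑ j ∈ range (n + 1), 2 ^ (j + 2) := by
        rw [← sum_add_distrib]
        apply sum_congr rfl
        intro j hj
        have : j ≤ n := by simpa [Nat.lt_succ_iff] using hj
        rw [Nat.sub_add_comm this]
        ring
      have e2 : ∑ j ∈ range (n + 1), 2 ^ (j + 2) + 4 = 2 ^ (n + 3) := by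
        clear ih e
        induction n with
        | zero => norm_num
        | succ n ih2 =>
          rw [sum_range_succ]
          have : 2 ^ (n + 1 + 3) = 2 * 2 ^ (n + 3) := by ring
          have h3 : 2 ^ (n + 1 + 2) = 2 ^ (n + 3) := by ring
          omega
      rw [e, sum_range_succ]
      have : 2 ^ (n + 1 + 3) = 2 * 2 ^ (n + 3) := by ring
      simp only [Nat.sub_self, mul_zero, add_zero]
      omega
  have := h2 n
  omega

lemma equi_TT (a b : ι → ℕ) (al : ι → ℕ → ℂ) (s : Finset ℕ) (ρ : ℕ → ℕ)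
    (ha : ∀ j ∈ s, ∀ p ∈ blk j, ∀ i, ¬ p ∣ a i) (hal : ∀ j ∈ s, ∀ p ∈ blk j, ∀ i, ‖al i p‖ ≤ 2) :
    Equi (s.biUnion blk) (fun m => ∏ j ∈ s, tru (blk j) (ρ j) (hh a b al m))
      (∏ j ∈ s, tru (blk j) (ρ j) (mm al))
      (∏ j ∈ s, (1 + 4 * Fintype.card ι * (blk j).card) ^ ρ j) := by
  induction s using Finset.induction_on with
  | empty => simpa using equi_one
  | insert j s hj ih =>
    have ih' := ih (fun j' hj' => ha j' (mem_insert_of_mem hj'))
      (fun j' hj' => hal j' (mem_insert_of_mem hj'))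
    have hd : Disjoint (s.biUnion blk) (blk j) := by
      rw [disjoint_biUnion_left]
      intro i hi
      exact blk_disjoint (by rintro rfl; exact hj hi)
    have h2 := ih'.mulTru a b al (blk j) (fun p hp => (mem_blk.1 hp).2)
      (ha j (mem_insert_self _ _)) (hal j (mem_insert_self _ _))
      (fun p hp => by
        obtain ⟨i, _, hi⟩ := mem_biUnion.1 hp
        exact (mem_blk.1 hi).2) hd (ρ j)
    refine (h2.mono ?_ (le_of_eq ?_)).congr ?_ ?_
    · rw [biUnion_insert, union_comm]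
    · rw [prod_insert hj]
    · intro m; rw [prod_insert hj]
    · rw [prod_insert hj]

lemma equi_EE (a b : ι → ℕ) (al : ι → ℕ → ℂ) (s : Finset ℕ) (ρ : ℕ → ℕ)
    (ha : ∀ j ∈ s, ∀ p ∈ blk j, ∀ i, ¬ p ∣ a i) (hal : ∀ j ∈ s, ∀ p ∈ blk j, ∀ i, ‖al i p‖ ≤ 2) :
    Equi (s.biUnion blk) (fun m => ∏ j ∈ s, (1 + esy (blk j) (ρ j) (hh a b al m)))
      (∏ j ∈ s, (1 + esy (blk j) (ρ j) (mm al)))
      (∏ j ∈ s, ((1 + 4 * Fintype.card ι * (blk j).card) ^ ρ j * 2)) := by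
  induction s using Finset.induction_on with
  | empty => simpa using equi_one
  | insert j s hj ih =>
    have ih' := ih (fun j' hj' => ha j' (mem_insert_of_mem hj'))
      (fun j' hj' => hal j' (mem_insert_of_mem hj'))
    have hd : Disjoint (s.biUnion blk) (blk j) := by
      rw [disjoint_biUnion_left]
      intro i hi
      exact blk_disjoint (by rintro rfl; exact hj hi)
    have h2 := ih'.mulOneAddEsy a b al (blk j) (fun p hp => (mem_blk.1 hp).2)
      (ha j (mem_insert_self _ _)) (hal j (mem_insert_self _ _))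
      (fun p hp => by
        obtain ⟨i, _, hi⟩ := mem_biUnion.1 hp
        exact (mem_blk.1 hi).2) hd (ρ j)
    refine (h2.mono ?_ (le_of_eq ?_)).congr ?_ ?_
    · rw [biUnion_insert, union_comm]
    · rw [prod_insert hj]
    · intro m; rw [prod_insert hj]
    · rw [prod_insert hj]

/-- the level bound -/
lemma level_bound (r j₀ n : ℕ) (hY : 8 * r + 2 ≤ Y j₀) :
    ∏ j ∈ Ico j₀ n, (((1 + 4 * (r : ℝ) * (blk j).card) ^ (n - j)) * 2) ≤ Y (n + 3) := by
  have h1 : ∀ j ∈ Ico j₀ n, (((1 + 4 * (r : ℝ) * (blk j).card) ^ (n - j)) * 2)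
      ≤ (2 : ℝ) ^ (2 ^ (j + 2) * (n - j)) := by
    intro j hj
    rw [mem_Ico] at hj
    have hYj : 8 * r + 2 ≤ Y (j + 1) := hY.trans (Y_mono (by omega))
    have hYr : 8 * (r : ℝ) + 2 ≤ Y (j + 1) := by exact_mod_cast hYj
    have hc : ((blk j).card : ℝ) ≤ Y (j + 1) := by exact_mod_cast card_blk j
    have hY1 : (1 : ℝ) ≤ Y (j + 1) := by exact_mod_cast Y_pos (j + 1)
    have hbase : 2 * (1 + 4 * (r : ℝ) * (blk j).card) ≤ (Y (j + 1) : ℝ) ^ 2 := by
      have : 4 * (r : ℝ) * (blk j).card ≤ 4 * r * Y (j + 1) := by gcongr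
      nlinarith
    have e : (2 : ℝ) ^ (2 ^ (j + 2) * (n - j)) = ((Y (j + 1) : ℝ) ^ 2) ^ (n - j) := by
      rw [pow_mul]
      congr 1
      unfold Y
      push_cast
      rw [← pow_mul]
      congr 1
    rw [e]
    have hpos : 0 ≤ (1 + 4 * (r : ℝ) * (blk j).card) := by positivity
    calc (1 + 4 * (r : ℝ) * (blk j).card) ^ (n - j) * 2
        ≤ (1 + 4 * (r : ℝ) * (blk j).card) ^ (n - j) * 2 ^ (n - j) := by
          gcongr
          exact le_self_pow₀ (by norm_num) (by omega)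
      _ = (2 * (1 + 4 * (r : ℝ) * (blk j).card)) ^ (n - j) := by
          rw [← mul_pow]; ring
      _ ≤ _ := by gcongr
  calc _ ≤ ∏ j ∈ Ico j₀ n, (2 : ℝ) ^ (2 ^ (j + 2) * (n - j)) := by
        apply prod_le_prod
        · intro j _; positivity
        · exact h1
    _ = (2 : ℝ) ^ (∑ j ∈ Ico j₀ n, 2 ^ (j + 2) * (n - j)) := by rw [prod_pow_eq_pow_sum]
    _ ≤ (2 : ℝ) ^ (2 ^ (n + 3)) := pow_le_pow_right₀ (by norm_num) (sum_two_pow j₀ n)
    _ = Y (n + 3) := by unfold Y; push_cast; rfl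

lemma level_bound' (r j₀ n : ℕ) (hY : 8 * r + 2 ≤ Y j₀) :
    ∏ j ∈ Ico j₀ n, ((1 + 4 * (r : ℝ) * (blk j).card) ^ (n - 1 - j)) ≤ Y (n + 3) := by
  refine le_trans ?_ (level_bound r j₀ n hY)
  apply prod_le_prod
  · intro j _; positivity
  · intro j _
    have h0 : (1 : ℝ) ≤ 1 + 4 * (r : ℝ) * (blk j).card := by
      have : 0 ≤ 4 * (r : ℝ) * (blk j).card := by positivity
      linarith
    have h1 : (1 + 4 * (r : ℝ) * (blk j).card) ^ (n - 1 - j)
        ≤ (1 + 4 * (r : ℝ) * (blk j).card) ^ (n - j) := pow_le_pow_right₀ h0 (by omega)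
    have h2 : 0 ≤ (1 + 4 * (r : ℝ) * (blk j).card) ^ (n - j) := by positivity
    linarith

/-- sum of geometric block errors -/
lemma sum_geom_le (κ : ℝ) (h0 : 0 ≤ κ) (h1 : κ ≤ 1 / 2) (j₀ n : ℕ) (hn : j₀ ≤ n) :
    ∑ j ∈ Ico j₀ n, κ ^ (n - j) ≤ 2 * κ := by
  induction n, hn using Nat.le_induction with
  | base => simp; linarith
  | succ n hn ih =>
    rw [sum_Ico_succ_top hn]
    have e : ∑ j ∈ Ico j₀ n, κ ^ (n + 1 - j) = κ * ∑ j ∈ Ico j₀ n, κ ^ (n - j) := by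
      rw [mul_sum]
      apply sum_congr rfl
      intro j hj
      rw [mem_Ico] at hj
      rw [show n + 1 - j = (n - j) + 1 by omega, pow_succ]
      ring
    rw [e, show n + 1 - n = 1 by omega, pow_one]
    nlinarith

lemma prod_geom_le (κ : ℝ) (h0 : 0 ≤ κ) (h1 : κ ≤ 1 / 2) (j₀ n : ℕ) (hn : j₀ ≤ n) (e : ℕ → ℝ)
    (he0 : ∀ j ∈ Ico j₀ n, 0 ≤ e j) (he : ∀ j ∈ Ico j₀ n, e j ≤ κ ^ (n - j)) :
    ∏ j ∈ Ico j₀ n, (1 + e j) ≤ 1 + 4 * κ := by
  calc ∏ j ∈ Ico j₀ n, (1 + e j) ≤ ∏ j ∈ Ico j₀ n, Real.exp (e j) := by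
        apply prod_le_prod
        · intro j hj; have := he0 j hj; linarith
        · intro j _; rw [add_comm]; exact Real.add_one_le_exp _
    _ = Real.exp (∑ j ∈ Ico j₀ n, e j) := (Real.exp_sum _ _).symm
    _ ≤ Real.exp (2 * κ) := Real.exp_le_exp.2 ((sum_le_sum he).trans (sum_geom_le κ h0 h1 j₀ n hn))
    _ ≤ 1 + 4 * κ := by
        have h2 : |2 * κ| ≤ 1 := by rw [abs_of_nonneg (by linarith)]; linarith
        have := Real.abs_exp_sub_one_sub_id_le h2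
        rw [abs_le] at this
        nlinarith [this.2]

end Pool.H2.Ell
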