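import Mathlib
import Pool.Agent.H2.EllFactor

set_option autoImplicit false

open Finset

namespace Pool.H2.Ell

lemma count_dvd (a b D x : ℕ) (ha : 1 ≤ a) (hb : 1 ≤ b) (hD : 0 < D) :
    ((range x).filter (fun m => D ∣ a * m + b)).card ≤ (a * x + b) / D := by
  have h : ((range x).filter (fun m => D ∣ a * m + b)).card ≤ (Ioc 0 ((a * x + b) / D)).card := by
    apply card_le_card_of_injOn (fun m => (a * m + b) / D)
    · intro m hm
      simp only [coe_filter, mem_range, Set.mem_ofPred_eq] at hm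
      simp only [coe_Ioc, Set.mem_Ioc]
      constructor
      · exact Nat.div_pos (Nat.le_of_dvd (by omega) hm.2) hD
      · apply Nat.div_le_div_right
        have := Nat.mul_le_mul_left a hm.1.le
        omega
    · intro m hm m' hm' heq
      simp only [coe_filter, mem_range, Set.mem_ofPred_eq] at hm hm'
      simp only at heq
      have h1 := Nat.div_mul_cancel hm.2
      have h2 := Nat.div_mul_cancel hm'.2
      rw [heq, h2] at h1
      have : a * m = a * m' := by omega
      exact Nat.eq_of_mul_eq_mul_left (by omega) this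
  simpa using h

lemma count_dvd_real (a b D x : ℕ) (ha : 1 ≤ a) (hb : 1 ≤ b) (hD : 0 < D) (hx : 1 ≤ x) :
    (((range x).filter (fun m => D ∣ a * m + b)).card : ℝ) ≤ ((a : ℝ) + b) * x / D := by
  have h1 : (((range x).filter (fun m => D ∣ a * m + b)).card : ℝ) ≤ (((a * x + b) / D : ℕ) : ℝ) := by
    exact_mod_cast count_dvd a b D x ha hb hD
  refine h1.trans (Nat.cast_div_le.trans ?_)
  have hx' : (1 : ℝ) ≤ x := by exact_mod_cast hx
  have hDr : (0 : ℝ) < D := by exact_mod_cast hD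
  have hb' : (0 : ℝ) ≤ b := by positivity
  push_cast
  gcongr
  nlinarith

/-- Abel summation -/
lemma abel (W T : ℕ → ℂ) (μ : ℂ) (V : ℝ) (hW : ∀ m, ‖W m‖ ≤ 1)
    (hT : ∀ y, ‖∑ m ∈ range y, T m - y * μ‖ ≤ V) (y : ℕ) :
    ‖∑ m ∈ range y, W m * T m‖ ≤ y * ‖μ‖ + V * (1 + ∑ m ∈ range y, ‖W (m + 1) - W m‖) := by
  set D : ℕ → ℂ := fun y => ∑ m ∈ range y, T m - y * μ with hD
  have hD0 : D 0 = 0 := by simp [hD]
  have hDs : ∀ m, D (m + 1) - D m = T m - μ := by
    intro m
    simp only [hD, sum_range_succ]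
    push_cast
    ring
  have hab : ∀ y, ∑ m ∈ range y, W m * (T m - μ)
      = W y * D y - ∑ m ∈ range y, (W (m + 1) - W m) * D (m + 1) := by
    intro y
    induction y with
    | zero => simp [hD0]
    | succ y ih =>
      rw [sum_range_succ, ih, sum_range_succ, ← hDs]
      ring
  have hV : 0 ≤ V := (norm_nonneg _).trans (hT 0)
  have e : ∑ m ∈ range y, W m * T m = ∑ m ∈ range y, W m * μ + ∑ m ∈ range y, W m * (T m - μ) := by
    rw [← sum_add_distrib]
    apply sum_congr rfl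
    intro m _
    ring
  rw [e, hab]
  have b1 : ‖∑ m ∈ range y, W m * μ‖ ≤ y * ‖μ‖ := by
    refine (norm_sum_le _ _).trans ?_
    calc ∑ m ∈ range y, ‖W m * μ‖ ≤ ∑ _m ∈ range y, ‖μ‖ := by
          apply sum_le_sum
          intro m _
          rw [norm_mul]
          exact mul_le_of_le_one_left (norm_nonneg _) (hW m)
      _ = y * ‖μ‖ := by simp
  have b2 : ‖W y * D y‖ ≤ V := by
    rw [norm_mul]
    calc ‖W y‖ * ‖D y‖ ≤ 1 * V := mul_le_mul (hW y) (hT y) (norm_nonneg _) zero_le_one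
      _ = V := one_mul V
  have b3 : ‖∑ m ∈ range y, (W (m + 1) - W m) * D (m + 1)‖
      ≤ V * ∑ m ∈ range y, ‖W (m + 1) - W m‖ := by
    refine (norm_sum_le _ _).trans ?_
    rw [mul_sum]
    apply sum_le_sum
    intro m _
    rw [norm_mul, mul_comm]
    exact mul_le_mul_of_nonneg_right (hT (m + 1)) (norm_nonneg _)
  calc _ ≤ ‖∑ m ∈ range y, W m * μ‖
        + (‖W y * D y‖ + ‖∑ m ∈ range y, (W (m + 1) - W m) * D (m + 1)‖) :=
        (norm_add_le _ _).trans (by gcongr; exact norm_sub_le _ _)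
    _ ≤ y * ‖μ‖ + (V + V * ∑ m ∈ range y, ‖W (m + 1) - W m‖) := by gcongr
    _ = _ := by ring

lemma sum_inv_le_sqrt (y : ℕ) : ∑ m ∈ range y, (1 : ℝ) / (m + 1) ≤ 2 * Real.sqrt y := by
  induction y with
  | zero => simp
  | succ y ih =>
    rw [sum_range_succ]
    have hs1 : 0 ≤ Real.sqrt y := Real.sqrt_nonneg _
    have hs2 : 1 ≤ Real.sqrt (y + 1) := by
      rw [Real.one_le_sqrt]
      have : (0 : ℝ) ≤ y := by positivity
      linarith
    have hsq1 : Real.sqrt y ^ 2 = y := Real.sq_sqrt (by positivity)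
    have hsq2 : Real.sqrt (y + 1) ^ 2 = y + 1 := Real.sq_sqrt (by positivity)
    have hle : Real.sqrt y ≤ Real.sqrt (y + 1) := Real.sqrt_le_sqrt (by linarith)
    have hkey : (1 : ℝ) / (y + 1) ≤ 2 * Real.sqrt (y + 1) - 2 * Real.sqrt y := by
      have h2 : (0 : ℝ) < y + 1 := by positivity
      generalize Real.sqrt (y + 1) = s2 at *
      generalize Real.sqrt (y : ℝ) = s1 at *
      rw [div_le_iff₀ h2, ← hsq2]
      have h1 : (s2 - s1) * (s2 + s1) = 1 := by nlinarith
      have h4 : 0 ≤ s2 - s1 := by linarith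
      have h6 : 1 ≤ (s2 - s1) * (2 * s2) := by
        calc 1 = (s2 - s1) * (s2 + s1) := h1.symm
          _ ≤ (s2 - s1) * (2 * s2) := by
            apply mul_le_mul_of_nonneg_left _ h4
            linarith
      have h7 : (s2 - s1) * (2 * s2) ≤ (s2 - s1) * (2 * s2) * s2 := by
        apply le_mul_of_one_le_right _ hs2
        linarith
      nlinarith
    push_cast
    linarith

/-- Lipschitz bound for `n^{it}` -/
lemma norm_tw_sub_le (t : ℝ) {m n : ℕ} (hm : 0 < m) (hmn : m ≤ n) :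
    ‖tw t n - tw t m‖ ≤ |t| * ((n : ℝ) - m) / m := by
  have hm' : (0 : ℝ) < m := by exact_mod_cast hm
  have hn' : (0 : ℝ) < n := by exact_mod_cast (lt_of_lt_of_le hm hmn)
  have key : ∀ k : ℕ, 0 < k → tw t k = Complex.exp (((t * Real.log k : ℝ) : ℂ) * Complex.I) := by
    intro k hk
    unfold tw
    rw [Complex.cpow_def_of_ne_zero (by exact_mod_cast hk.ne')]
    congr 1
    rw [← Complex.natCast_log]
    push_cast
    ring
  rw [key n (lt_of_lt_of_le hm hmn), key m hm]
  have h1 : Complex.exp (((t * Real.log n : ℝ) : ℂ) * Complex.I)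
      - Complex.exp (((t * Real.log m : ℝ) : ℂ) * Complex.I)
      = Complex.exp (((t * Real.log m : ℝ) : ℂ) * Complex.I)
        * (Complex.exp (Complex.I * ((t * Real.log n - t * Real.log m : ℝ) : ℂ)) - 1) := by
    rw [mul_sub, ← Complex.exp_add, mul_one]
    congr 2
    push_cast
    ring
  rw [h1, norm_mul, Complex.norm_exp_ofReal_mul_I, one_mul]
  refine (Real.norm_exp_I_mul_ofReal_sub_one_le).trans ?_
  rw [Real.norm_eq_abs, ← mul_sub, abs_mul, mul_div_assoc]
  gcongr
  rw [← Real.log_div hn'.ne' hm'.ne', abs_of_nonneg]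
  · calc Real.log (n / m) ≤ n / m - 1 := Real.log_le_sub_one_of_pos (by positivity)
      _ = ((n : ℝ) - m) / m := by rw [sub_div, div_self hm'.ne']
  · apply Real.log_nonneg
    rw [le_div_iff₀ hm', one_mul]
    exact_mod_cast hmn

/-- product of unimodular: difference bound -/
lemma norm_prod_sub_prod_le {ι : Type*} (s : Finset ι) (A B : ι → ℂ)
    (hA : ∀ i ∈ s, ‖A i‖ ≤ 1) (hB : ∀ i ∈ s, ‖B i‖ ≤ 1) :
    ‖∏ i ∈ s, A i - ∏ i ∈ s, B i‖ ≤ ∑ i ∈ s, ‖A i - B i‖ := by
  classical
  induction s using Finset.induction_on with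
  | empty => simp
  | insert j s hj ih =>
    have ih' := ih (fun i hi => hA i (mem_insert_of_mem hi)) (fun i hi => hB i (mem_insert_of_mem hi))
    rw [prod_insert hj, prod_insert hj, sum_insert hj]
    have e : A j * ∏ i ∈ s, A i - B j * ∏ i ∈ s, B i
        = (A j - B j) * ∏ i ∈ s, A i + B j * (∏ i ∈ s, A i - ∏ i ∈ s, B i) := by ring
    rw [e]
    have h1 : ‖∏ i ∈ s, A i‖ ≤ 1 := by
      rw [norm_prod]
      exact prod_le_one (fun _ _ => norm_nonneg _) (fun i hi => hA i (mem_insert_of_mem hi))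
    calc _ ≤ ‖(A j - B j) * ∏ i ∈ s, A i‖ + ‖B j * (∏ i ∈ s, A i - ∏ i ∈ s, B i)‖ := norm_add_le _ _
      _ ≤ ‖A j - B j‖ * 1 + 1 * ∑ i ∈ s, ‖A i - B i‖ := by
        rw [norm_mul, norm_mul]
        have := hB j (mem_insert_self _ _)
        gcongr
      _ = _ := by ring

end Pool.H2.Ell
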