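import Mathlib
import Pool.Agent.H2.EllBlk
import Pool.Agent.H2.EllCount

set_option autoImplicit false

open Finset

namespace Pool.H2.Ell

/-- a system of multiplicative functions along linear forms -/
structure Sys (ι : Type*) where
  a : ι → ℕ
  b : ι → ℕ
  f : ι → ℕ → ℂ
  q : ι → ℕ
  χ : ∀ i, DirichletCharacter ℂ (q i)
  t : ι → ℝ
  ha : ∀ i, 1 ≤ a i
  hb : ∀ i, 1 ≤ b i
  hab : ∀ i j, i ≠ j → a i * b j ≠ a j * b i
  hf : ∀ i, MB (f i)
  hq : ∀ i, 0 < q i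

variable {ι : Type*} [Fintype ι] (D : Sys ι)

namespace Sys

/-- the linear form -/
def L (i : ι) (m : ℕ) : ℕ := D.a i * m + D.b i

/-- local twisted values -/
noncomputable def u (i : ι) (p : ℕ) : ℂ := uu (D.f i) (D.χ i) (D.t i) p

/-- local perturbation -/
noncomputable def al (i : ι) (p : ℕ) : ℂ := D.u i p - 1

omit [Fintype ι] in
lemma L_pos (i : ι) (m : ℕ) : 0 < D.L i m := by
  unfold L; have := D.hb i; omega

omit [Fintype ι] in
lemma L_ne (i : ι) (m : ℕ) : D.L i m ≠ 0 := (D.L_pos i m).ne'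

omit [Fintype ι] in
lemma norm_u_le (i : ι) {p : ℕ} (hp : 0 < p) : ‖D.u i p‖ ≤ 1 := by
  unfold u uu
  rw [norm_mul, RCLike.norm_conj, norm_mul, norm_tw _ hp, mul_one]
  exact mul_le_one₀ ((D.hf i).bdd _) (norm_nonneg _) (DirichletCharacter.norm_le_one _ _)

omit [Fintype ι] in
lemma norm_al_le (i : ι) {p : ℕ} (hp : 0 < p) : ‖D.al i p‖ ≤ 2 := by
  unfold al
  have := D.norm_u_le i hp
  calc ‖D.u i p - 1‖ ≤ ‖D.u i p‖ + ‖(1 : ℂ)‖ := norm_sub_le _ _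
    _ ≤ 2 := by rw [norm_one]; linarith

/-- admissible threshold -/
structure Adm (y : ℕ) : Prop where
  a_le : ∀ i, D.a i ≤ y
  q_le : ∀ i, D.q i ≤ y
  cross : ∀ i j, D.a i * D.b j ≤ D.a j * D.b i + y

omit [Fintype ι] in
lemma not_dvd_a {y : ℕ} (hy : D.Adm y) {p : ℕ} (hyp : y < p) (i : ι) : ¬ p ∣ D.a i := by
  intro hd
  have := Nat.le_of_dvd (D.ha i) hd
  have := hy.a_le i
  omega

omit [Fintype ι] in
lemma uniq {y : ℕ} (hy : D.Adm y) {p : ℕ} (hyp : y < p) {i j : ι} {m : ℕ}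
    (hi : p ∣ D.L i m) (hj : p ∣ D.L j m) : i = j := by
  by_contra hne
  have h1 : (p : ℤ) ∣ (D.L i m : ℤ) := by exact_mod_cast hi
  have h2 : (p : ℤ) ∣ (D.L j m : ℤ) := by exact_mod_cast hj
  have h3 : (p : ℤ) ∣ (D.a j : ℤ) * D.b i - D.a i * D.b j := by
    have : (D.a j : ℤ) * D.b i - D.a i * D.b j = D.a j * (D.L i m : ℤ) - D.a i * (D.L j m : ℤ) := by
      unfold L; push_cast; ring
    rw [this]
    exact dvd_sub (h1.mul_left _) (h2.mul_left _)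
  have c1 := hy.cross i j
  have c2 := hy.cross j i
  have h4 := D.hab i j hne
  have h5 : |(D.a j : ℤ) * D.b i - D.a i * D.b j| < p := by
    have c1' : (D.a i : ℤ) * D.b j ≤ D.a j * D.b i + y := by exact_mod_cast c1
    have c2' : (D.a j : ℤ) * D.b i ≤ D.a i * D.b j + y := by exact_mod_cast c2
    rw [abs_lt]
    constructor <;> omega
  have h6 := Int.eq_zero_of_abs_lt_dvd h3 h5
  apply h4
  have : (D.a i : ℤ) * D.b j = D.a j * D.b i := by omega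
  exact_mod_cast this

lemma one_add_hh {y : ℕ} (hy : D.Adm y) {p : ℕ} (hyp : y < p) (m : ℕ) :
    1 + hh D.a D.b D.al m p = ∏ i, (if p ∣ D.L i m then D.u i p else 1) := by
  classical
  unfold hh
  by_cases h : ∃ i, p ∣ D.L i m
  · obtain ⟨i₀, hi₀⟩ := h
    have hun : ∀ j, j ≠ i₀ → ¬ p ∣ D.L j m := fun j hj hd => hj (D.uniq hy hyp hd hi₀)
    rw [Finset.sum_eq_single i₀, Finset.prod_eq_single i₀]
    · rw [if_pos hi₀]
      have : p ∣ D.a i₀ * m + D.b i₀ := hi₀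
      rw [if_pos this]
      unfold al
      ring
    · intro j _ hj
      rw [if_neg (hun j hj)]
    · intro h; exact absurd (mem_univ _) h
    · intro j _ hj
      exact if_neg (hun j hj)
    · intro h; exact absurd (mem_univ _) h
  · push Not at h
    rw [Finset.sum_eq_zero, Finset.prod_eq_one, add_zero]
    · intro i _; exact if_neg (h i)
    · intro i _; exact if_neg (h i)

lemma norm_one_add_hh {y : ℕ} (hy : D.Adm y) {p : ℕ} (hp : 0 < p) (hyp : y < p) (m : ℕ) :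
    ‖1 + hh D.a D.b D.al m p‖ ≤ 1 := by
  rw [D.one_add_hh hy hyp, norm_prod]
  apply prod_le_one (fun _ _ => norm_nonneg _)
  intro i _
  split_ifs
  · exact D.norm_u_le i hp
  · simp

lemma norm_one_add_mm {p : ℕ} (hp : 0 < p) (hr : Fintype.card ι ≤ p) :
    ‖1 + mm D.al p‖ ≤ 1 := by
  have hp' : (0 : ℝ) < p := by exact_mod_cast hp
  have hr' : (Fintype.card ι : ℝ) ≤ p := by exact_mod_cast hr
  have e : 1 + mm D.al p = ((1 - (Fintype.card ι : ℝ) / p : ℝ) : ℂ) + (∑ i, D.u i p) / p := by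
    unfold mm al
    simp only [sub_div]
    rw [sum_sub_distrib, sum_const, card_univ, nsmul_eq_mul, ← sum_div]
    push_cast
    ring
  rw [e]
  refine (norm_add_le _ _).trans ?_
  rw [Complex.norm_real, norm_div, Complex.norm_natCast, Real.norm_eq_abs, abs_of_nonneg]
  · have : ‖∑ i, D.u i p‖ ≤ Fintype.card ι := by
      refine (norm_sum_le _ _).trans ?_
      calc ∑ i, ‖D.u i p‖ ≤ ∑ _i : ι, (1 : ℝ) := sum_le_sum fun i _ => D.norm_u_le i hp
        _ = Fintype.card ι := by simp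
    have h2 : ‖∑ i, D.u i p‖ / p ≤ (Fintype.card ι : ℝ) / p := by gcongr
    linarith
  · rw [sub_nonneg, div_le_one hp']; exact hr'

/-- the product function -/
noncomputable def F (m : ℕ) : ℂ := ∏ i, D.f i (D.L i m)

/-- the archimedean twist -/
noncomputable def W (m : ℕ) : ℂ := ∏ i, tw (D.t i) (D.L i m)

lemma norm_F_le (m : ℕ) : ‖D.F m‖ ≤ 1 := by
  unfold F; rw [norm_prod]
  exact prod_le_one (fun _ _ => norm_nonneg _) (fun i _ => (D.hf i).bdd _)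

lemma norm_W (m : ℕ) : ‖D.W m‖ = 1 := by
  unfold W; rw [norm_prod]
  exact prod_eq_one fun i _ => norm_tw _ (D.L_pos i m)

/-- good condition -/
def Good (y K m : ℕ) : Prop := ∀ i, ∀ ℓ : ℕ, ℓ.Prime → ℓ ≤ y → ¬ ℓ ^ K ∣ D.L i m

open Classical in
/-- the periodic factor -/
noncomputable def G (y K m : ℕ) : ℂ :=
  if D.Good y K m then ∏ i, sfac (D.f i) (D.χ i) (D.t i) y (D.L i m) else 0

lemma norm_G_le (y K m : ℕ) : ‖D.G y K m‖ ≤ 1 := by
  unfold G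
  split_ifs
  · rw [norm_prod]
    exact prod_le_one (fun _ _ => norm_nonneg _) (fun i _ => norm_sfac_le (D.hf i) _ _ _ _)
  · simp

lemma bigp_eq {j₀ n₂ N : ℕ} (hN : N ≠ 0) (hle : N ≤ Y n₂) :
    bigp (Y j₀) N = (rng j₀ n₂).filter (fun p => p ∣ N) := by
  ext p
  unfold bigp
  simp only [mem_filter, Nat.mem_primeFactors, mem_rng]
  constructor
  · rintro ⟨⟨h1, h2, _⟩, h4⟩
    exact ⟨⟨⟨h4, (Nat.le_of_dvd (Nat.pos_of_ne_zero hN) h2).trans hle⟩, h1⟩, h2⟩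
  · rintro ⟨⟨⟨h1, _⟩, h3⟩, h4⟩
    exact ⟨⟨h3, h4, hN⟩, h1⟩

/-- exact formula at squarefree-ish points -/
lemma F_eq {j₀ n₂ K m : ℕ} (hy : D.Adm (Y j₀)) (hL : ∀ i, D.L i m ≤ Y n₂)
    (hgood : D.Good (Y j₀) K m)
    (hsq : ∀ i, ∀ p : ℕ, p.Prime → Y j₀ < p → ¬ p ^ 2 ∣ D.L i m) :
    D.F m = D.G (Y j₀) K m * D.W m * ∏ p ∈ rng j₀ n₂, (1 + hh D.a D.b D.al m p) := by
  have h1 : ∀ i, D.f i (D.L i m) = sfac (D.f i) (D.χ i) (D.t i) (Y j₀) (D.L i m)
      * tw (D.t i) (D.L i m) * ∏ p ∈ rng j₀ n₂, (if p ∣ D.L i m then D.u i p else 1) := by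
    intro i
    rw [fact_eq (D.hf i) (D.hq i) (D.χ i) (D.t i) (hy.q_le i) (D.L_ne i m) (hsq i),
      bigp_eq (D.L_ne i m) (hL i), prod_filter]
    rfl
  unfold F G W
  rw [if_pos hgood, prod_congr rfl (fun i _ => h1 i), prod_mul_distrib, prod_mul_distrib,
    prod_comm]
  congr 1
  apply prod_congr rfl
  intro p hp
  rw [mem_rng] at hp
  rw [D.one_add_hh hy hp.1.1]

lemma rng_union {j₀ n n₂ : ℕ} (h1 : j₀ ≤ n) (h2 : n ≤ n₂) (f : ℕ → ℂ) :
    ∏ p ∈ rng j₀ n₂, f p = (∏ p ∈ rng j₀ n, f p) * ∏ p ∈ rng n n₂, f p := by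
  rw [prod_rng, prod_rng, prod_rng, prod_Ico_consecutive _ h1 h2]

open Classical in
/-- pointwise approximation -/
lemma pointwise {j₀ n n₂ K m : ℕ} (hy : D.Adm (Y j₀)) (hj : j₀ ≤ n) (hn : n ≤ n₂)
    (hL : ∀ i, D.L i m ≤ Y n₂) :
    ‖D.F m - D.G (Y j₀) K m * D.W m * ∏ p ∈ rng j₀ n, (1 + hh D.a D.b D.al m p)‖
      ≤ 2 * (∑ i, ∑ ℓ ∈ (range (Y j₀ + 1)).filter Nat.Prime, (if ℓ ^ K ∣ D.L i m then (1 : ℝ) else 0))
        + 2 * (∑ i, ∑ p ∈ rng j₀ n₂, (if p ^ 2 ∣ D.L i m then (1 : ℝ) else 0))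
        + ∑ p ∈ rng n n₂, ‖hh D.a D.b D.al m p‖ := by
  have hnn1 : 0 ≤ ∑ i, ∑ ℓ ∈ (range (Y j₀ + 1)).filter Nat.Prime,
      (if ℓ ^ K ∣ D.L i m then (1 : ℝ) else 0) :=
    sum_nonneg fun i _ => sum_nonneg fun ℓ _ => by split_ifs <;> norm_num
  have hnn2 : 0 ≤ ∑ i, ∑ p ∈ rng j₀ n₂, (if p ^ 2 ∣ D.L i m then (1 : ℝ) else 0) :=
    sum_nonneg fun i _ => sum_nonneg fun ℓ _ => by split_ifs <;> norm_num
  have hnn3 : 0 ≤ ∑ p ∈ rng n n₂, ‖hh D.a D.b D.al m p‖ := sum_nonneg fun _ _ => norm_nonneg _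
  have hprod : ∀ j n : ℕ, j₀ ≤ j → ‖∏ p ∈ rng j n, (1 + hh D.a D.b D.al m p)‖ ≤ 1 := by
    intro j n hj
    rw [norm_prod]
    apply prod_le_one (fun _ _ => norm_nonneg _)
    intro p hp
    rw [mem_rng] at hp
    exact D.norm_one_add_hh hy hp.2.pos (lt_of_le_of_lt (Y_mono hj) hp.1.1) m
  have htriv : ‖D.F m - D.G (Y j₀) K m * D.W m * ∏ p ∈ rng j₀ n, (1 + hh D.a D.b D.al m p)‖ ≤ 2 := by
    refine (norm_sub_le _ _).trans ?_
    rw [norm_mul, norm_mul, D.norm_W, mul_one]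
    have h1 := D.norm_F_le m
    have h2 := mul_le_one₀ (D.norm_G_le (Y j₀) K m) (norm_nonneg _) (hprod j₀ n le_rfl)
    linarith
  by_cases hgood : D.Good (Y j₀) K m
  · by_cases hsq : ∀ i, ∀ p : ℕ, p.Prime → Y j₀ < p → ¬ p ^ 2 ∣ D.L i m
    · rw [D.F_eq hy hL hgood hsq, rng_union hj hn]
      have e : D.G (Y j₀) K m * D.W m * ((∏ p ∈ rng j₀ n, (1 + hh D.a D.b D.al m p))
            * ∏ p ∈ rng n n₂, (1 + hh D.a D.b D.al m p))
          - D.G (Y j₀) K m * D.W m * ∏ p ∈ rng j₀ n, (1 + hh D.a D.b D.al m p)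
          = D.G (Y j₀) K m * D.W m * (∏ p ∈ rng j₀ n, (1 + hh D.a D.b D.al m p))
            * (∏ p ∈ rng n n₂, (1 + hh D.a D.b D.al m p) - 1) := by ring
      rw [e, norm_mul, norm_mul, norm_mul, D.norm_W, mul_one]
      have h1 : ‖∏ p ∈ rng n n₂, (1 + hh D.a D.b D.al m p) - 1‖
          ≤ ∑ p ∈ rng n n₂, ‖hh D.a D.b D.al m p‖ := by
        have := norm_prod_sub_tru (rng n n₂) 0 (hh D.a D.b D.al m) (fun p hp => by
          rw [mem_rng] at hp
          exact D.norm_one_add_hh hy hp.2.pos (lt_of_le_of_lt (Y_mono hj) hp.1.1) m)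
        simpa [tru, esy, powersetCard_one] using this
      have h2 := mul_le_one₀ (D.norm_G_le (Y j₀) K m) (norm_nonneg _) (hprod j₀ n le_rfl)
      calc _ ≤ 1 * ∑ p ∈ rng n n₂, ‖hh D.a D.b D.al m p‖ := by gcongr
        _ ≤ _ := by linarith
    · push Not at hsq
      obtain ⟨i, p, hp, hyp, hd⟩ := hsq
      have hmem : p ∈ rng j₀ n₂ := by
        rw [mem_rng]
        refine ⟨⟨hyp, ?_⟩, hp⟩
        have h1 := Nat.le_of_dvd (D.L_pos i m) hd
        have h2 : p ≤ p ^ 2 := Nat.le_self_pow (by norm_num) p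
        exact h2.trans (h1.trans (hL i))
      have h1 : (1 : ℝ) ≤ ∑ i, ∑ p ∈ rng j₀ n₂, (if p ^ 2 ∣ D.L i m then (1 : ℝ) else 0) := by
        calc (1 : ℝ) = (if p ^ 2 ∣ D.L i m then (1 : ℝ) else 0) := by rw [if_pos hd]
          _ ≤ ∑ p ∈ rng j₀ n₂, (if p ^ 2 ∣ D.L i m then (1 : ℝ) else 0) :=
            single_le_sum (f := fun p => if p ^ 2 ∣ D.L i m then (1 : ℝ) else 0)
              (fun _ _ => by split_ifs <;> norm_num) hmem
          _ ≤ _ := single_le_sum (f := fun i => ∑ p ∈ rng j₀ n₂, (if p ^ 2 ∣ D.L i m then (1 : ℝ) else 0))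
              (fun _ _ => sum_nonneg fun _ _ => by split_ifs <;> norm_num) (mem_univ i)
      linarith
  · unfold Good at hgood
    push Not at hgood
    obtain ⟨i, ℓ, hℓ, hyℓ, hd⟩ := hgood
    have hmem : ℓ ∈ (range (Y j₀ + 1)).filter Nat.Prime := by
      simp only [mem_filter, mem_range]; exact ⟨by omega, hℓ⟩
    have h1 : (1 : ℝ) ≤ ∑ i, ∑ ℓ ∈ (range (Y j₀ + 1)).filter Nat.Prime,
        (if ℓ ^ K ∣ D.L i m then (1 : ℝ) else 0) := by
      calc (1 : ℝ) = (if ℓ ^ K ∣ D.L i m then (1 : ℝ) else 0) := by rw [if_pos hd]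
        _ ≤ ∑ ℓ ∈ (range (Y j₀ + 1)).filter Nat.Prime, (if ℓ ^ K ∣ D.L i m then (1 : ℝ) else 0) :=
          single_le_sum (f := fun ℓ => if ℓ ^ K ∣ D.L i m then (1 : ℝ) else 0)
            (fun _ _ => by split_ifs <;> norm_num) hmem
        _ ≤ _ := single_le_sum (f := fun i => ∑ ℓ ∈ (range (Y j₀ + 1)).filter Nat.Prime,
              (if ℓ ^ K ∣ D.L i m then (1 : ℝ) else 0))
            (fun _ _ => sum_nonneg fun _ _ => by split_ifs <;> norm_num) (mem_univ i)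
    linarith

omit [Fintype ι] in
lemma L_modEq (i : ι) (Q c m' : ℕ) : D.L i c ≡ D.L i (Q * m' + c) [MOD Q] := by
  unfold L
  have : D.a i * (Q * m' + c) + D.b i = (D.a i * c + D.b i) + Q * (D.a i * m') := by ring
  rw [this]
  exact (Nat.add_modulus_mul_modEq_iff.2 rfl).symm

omit [Fintype ι] in
lemma good_periodic (y K c m' : ℕ) :
    D.Good y K ((y.factorial) ^ (K + 1) * m' + c) ↔ D.Good y K c := by
  unfold Good
  apply forall_congr'; intro i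
  apply forall_congr'; intro ℓ
  apply forall_congr'; intro hℓ
  apply forall_congr'; intro hy
  have h1 : ℓ ^ K ∣ (y.factorial) ^ (K + 1) :=
    dvd_trans (pow_dvd_pow_of_dvd (Nat.dvd_factorial hℓ.pos hy) K) (pow_dvd_pow _ (Nat.le_succ K))
  have h2 := ((D.L_modEq i ((y.factorial) ^ (K + 1)) c m').of_dvd h1).dvd_iff (d := ℓ ^ K) dvd_rfl
  rw [h2]

lemma G_periodic {y K : ℕ} (hy : D.Adm y) (c m' : ℕ) :
    D.G y K ((y.factorial) ^ (K + 1) * m' + c) = D.G y K c := by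
  unfold G
  by_cases h : D.Good y K c
  · rw [if_pos h, if_pos ((D.good_periodic y K c m').2 h)]
    apply prod_congr rfl
    intro i _
    exact sfac_periodic (D.χ i) (D.t i) (D.hq i) (hy.q_le i) (D.L_ne i _) (D.L_ne i _)
      (D.L_modEq i _ c m') (h i)
  · rw [if_neg h, if_neg (fun h' => h ((D.good_periodic y K c m').1 h'))]

end Sys

end Pool.H2.Ell
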