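import Mathlib
import Pool.Agent.H2.EllPoint

set_option autoImplicit false

open Finset

namespace Pool.H2.Ell

variable {ι : Type*} [Fintype ι] (D : Sys ι)

namespace Sys

/-- block mass -/
noncomputable def kap (j : ℕ) : ℝ := ∑ i, ∑ p ∈ blk j, ‖D.al i p‖ / p

/-- real majorant of the perturbation -/
noncomputable def hN (m p : ℕ) : ℝ := ∑ i, if p ∣ D.L i m then ‖D.al i p‖ else 0

/-- mean of the majorant -/
noncomputable def mN (p : ℕ) : ℝ := ∑ i, ‖D.al i p‖ / p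

lemma hN_nonneg (m p : ℕ) : 0 ≤ D.hN m p := by
  unfold hN
  exact sum_nonneg fun i _ => by split_ifs <;> simp

lemma mN_nonneg (p : ℕ) : 0 ≤ D.mN p := sum_nonneg fun i _ => by positivity

lemma norm_hh_le (m p : ℕ) : ‖hh D.a D.b D.al m p‖ ≤ D.hN m p := by
  unfold hh hN
  refine (norm_sum_le _ _).trans (sum_le_sum fun i _ => ?_)
  by_cases h : p ∣ D.L i m
  · have h' : p ∣ D.a i * m + D.b i := h
    rw [if_pos h, if_pos h']
  · have h' : ¬ p ∣ D.a i * m + D.b i := h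
    rw [if_neg h, if_neg h']; simp

lemma norm_mm_le (p : ℕ) : ‖mm D.al p‖ ≤ D.mN p := by
  unfold mm mN
  refine (norm_sum_le _ _).trans (sum_le_sum fun i _ => ?_)
  rw [norm_div, Complex.norm_natCast]

lemma kap_eq (j : ℕ) : D.kap j = ∑ p ∈ blk j, D.mN p := by
  unfold kap mN; rw [sum_comm]

lemma kap_nonneg (j : ℕ) : 0 ≤ D.kap j := by
  rw [kap_eq]; exact sum_nonneg fun p _ => D.mN_nonneg p

/-- error of truncation, general -/
lemma trunc_err {j₀ n : ℕ} (h : ℕ → ℂ) (ν : ℕ → ℝ) (hb : ∀ p ∈ rng j₀ n, ‖1 + h p‖ ≤ 1)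
    (hν : ∀ p, ‖h p‖ ≤ ν p) :
    ‖∏ p ∈ rng j₀ n, (1 + h p) - TT j₀ n h‖ ≤ EE j₀ n ν - 1 := by
  rw [prod_rng]
  unfold TT EE
  have hb' : ∀ j ∈ Ico j₀ n, ∀ p ∈ blk j, ‖1 + h p‖ ≤ 1 := by
    intro j hj p hp
    apply hb
    unfold rng
    exact mem_biUnion.2 ⟨j, hj, hp⟩
  refine (norm_prod_sub_prod (Ico j₀ n) _ _ (fun j => esy (blk j) (n - j) ν) ?_ ?_).1
  · intro j hj
    rw [norm_prod]
    exact prod_le_one (fun _ _ => norm_nonneg _) (hb' j hj)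
  · intro j hj
    refine (norm_prod_sub_tru (blk j) (n - 1 - j) h (hb' j hj)).trans ?_
    rw [mem_Ico] at hj
    rw [show n - 1 - j + 1 = n - j by omega]
    exact esy_mono _ _ _ _ (fun _ _ => norm_nonneg _) (fun p _ => hν p)

lemma esy_cast (B : Finset ℕ) (s : ℕ) (ν : ℕ → ℝ) :
    ((esy B s ν : ℝ) : ℂ) = esy B s (fun p => (ν p : ℂ)) := by
  unfold esy; push_cast; rfl

lemma EE_cast (j₀ n : ℕ) (ν : ℕ → ℝ) :
    ((EE j₀ n ν : ℝ) : ℂ) = EE j₀ n (fun p => (ν p : ℂ)) := by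
  unfold EE; push_cast
  apply prod_congr rfl
  intro j _
  rw [esy_cast]

lemma EE_mN_le {j₀ n : ℕ} (hn : j₀ ≤ n) (κ : ℝ) (h0 : 0 ≤ κ) (h1 : κ ≤ 1 / 2)
    (hκ : ∀ j ∈ Ico j₀ n, D.kap j ≤ κ) : EE j₀ n D.mN ≤ 1 + 4 * κ := by
  unfold EE
  apply prod_geom_le κ h0 h1 j₀ n hn
  · intro j _; exact esy_nonneg _ _ _ (fun p _ => D.mN_nonneg p)
  · intro j hj
    refine (esy_le_pow _ _ _ (fun p _ => D.mN_nonneg p)).trans ?_
    rw [← kap_eq]
    exact pow_le_pow_left₀ (D.kap_nonneg j) (hκ j hj) _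

lemma EE_nonneg {j₀ n : ℕ} (ν : ℕ → ℝ) (hν : ∀ p, 0 ≤ ν p) : 0 ≤ EE j₀ n ν := by
  unfold EE
  apply prod_nonneg
  intro j _
  have := esy_nonneg (blk j) (n - j) ν (fun p _ => hν p)
  linarith

/-- averaged error -/
lemma sum_EE_le {j₀ n : ℕ} (hn : j₀ ≤ n) (hy : D.Adm (Y j₀)) (hr : 8 * Fintype.card ι + 2 ≤ Y j₀)
    (κ : ℝ) (h0 : 0 ≤ κ) (h1 : κ ≤ 1 / 2) (hκ : ∀ j ∈ Ico j₀ n, D.kap j ≤ κ) (x : ℕ) :
    ∑ m ∈ range x, (EE j₀ n (D.hN m) - 1) ≤ x * (4 * κ) + Y (n + 3) := by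
  have hE := equi_EE D.a D.b (fun i p => ((‖D.al i p‖ : ℝ) : ℂ)) (Ico j₀ n) (fun j => n - j)
    (fun j hj p hp i => D.not_dvd_a hy (lt_of_le_of_lt (Y_mono (mem_Ico.1 hj).1) (mem_blk.1 hp).1.1) i)
    (fun j hj p hp i => by
      rw [Complex.norm_real, norm_norm]
      exact D.norm_al_le i (mem_blk.1 hp).2.pos)
  have h2 := hE.eq 1 0 x one_pos (fun _ _ => Nat.coprime_one_right _)
  have e1 : ∀ m, ∏ j ∈ Ico j₀ n, (1 + esy (blk j) (n - j)
      (hh D.a D.b (fun i p => ((‖D.al i p‖ : ℝ) : ℂ)) (1 * m + 0))) = ((EE j₀ n (D.hN m) : ℝ) : ℂ) := by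
    intro m
    rw [EE_cast]
    unfold EE
    apply prod_congr rfl
    intro j _
    congr 2
    funext p
    unfold hh hN
    push_cast
    apply sum_congr rfl
    intro i _
    by_cases h : p ∣ D.L i m
    · have h' : p ∣ D.a i * (1 * m + 0) + D.b i := by simpa [L] using h
      rw [if_pos h, if_pos h']
    · have h' : ¬ p ∣ D.a i * (1 * m + 0) + D.b i := by simpa [L] using h
      rw [if_neg h, if_neg h']
      simp
  have e2 : ∏ j ∈ Ico j₀ n, (1 + esy (blk j) (n - j) (mm (fun i p => ((‖D.al i p‖ : ℝ) : ℂ))))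
      = ((EE j₀ n D.mN : ℝ) : ℂ) := by
    rw [EE_cast]
    unfold EE
    apply prod_congr rfl
    intro j _
    congr 2
    funext p
    unfold mm mN
    push_cast
    rfl
  rw [sum_congr rfl (fun m _ => e1 m), e2] at h2
  have h3 := h2.trans (level_bound (Fintype.card ι) j₀ n hr)
  have h4 : |∑ m ∈ range x, EE j₀ n (D.hN m) - x * EE j₀ n D.mN| ≤ Y (n + 3) := by
    rw [← Real.norm_eq_abs, ← Complex.norm_real]
    push_cast
    exact h3
  have h5 := (abs_le.1 h4).2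
  have h6 := D.EE_mN_le hn κ h0 h1 hκ
  rw [sum_sub_distrib]
  simp only [sum_const, card_range, nsmul_eq_mul, mul_one]
  have hx : (0 : ℝ) ≤ x := by positivity
  nlinarith

lemma sum_trunc_le {j₀ n : ℕ} (hn : j₀ ≤ n) (hy : D.Adm (Y j₀)) (hr : 8 * Fintype.card ι + 2 ≤ Y j₀)
    (κ : ℝ) (h0 : 0 ≤ κ) (h1 : κ ≤ 1 / 2) (hκ : ∀ j ∈ Ico j₀ n, D.kap j ≤ κ) (x : ℕ) :
    ∑ m ∈ range x, ‖∏ p ∈ rng j₀ n, (1 + hh D.a D.b D.al m p) - TT j₀ n (hh D.a D.b D.al m)‖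
      ≤ x * (4 * κ) + Y (n + 3) := by
  refine le_trans (sum_le_sum fun m _ => ?_) (D.sum_EE_le hn hy hr κ h0 h1 hκ x)
  apply trunc_err
  · intro p hp
    rw [mem_rng] at hp
    exact D.norm_one_add_hh hy hp.2.pos hp.1.1 m
  · exact fun p => D.norm_hh_le m p

lemma norm_TT_mean_le {j₀ n : ℕ} (hn : j₀ ≤ n) (hr : 8 * Fintype.card ι + 2 ≤ Y j₀)
    (κ : ℝ) (h0 : 0 ≤ κ) (h1 : κ ≤ 1 / 2) (hκ : ∀ j ∈ Ico j₀ n, D.kap j ≤ κ) :
    ‖TT j₀ n (mm D.al)‖ ≤ ‖∏ p ∈ rng j₀ n, (1 + mm D.al p)‖ + 4 * κ := by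
  have h2 := trunc_err (j₀ := j₀) (n := n) (mm D.al) D.mN (fun p hp => by
    rw [mem_rng] at hp
    exact D.norm_one_add_mm hp.2.pos (by omega)) (fun p => D.norm_mm_le p)
  have h3 := D.EE_mN_le hn κ h0 h1 hκ
  have e : TT j₀ n (mm D.al) = ∏ p ∈ rng j₀ n, (1 + mm D.al p)
      - (∏ p ∈ rng j₀ n, (1 + mm D.al p) - TT j₀ n (mm D.al)) := by ring
  rw [e]
  refine (norm_sub_le _ _).trans ?_
  linarith

lemma W_var (Q c m' : ℕ) (hQ : 0 < Q) :
    ‖D.W (Q * (m' + 1) + c) - D.W (Q * m' + c)‖ ≤ (Q * ∑ i, |D.t i| * D.a i) * (1 / ((m' : ℝ) + 1)) := by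
  unfold W
  refine (norm_prod_sub_prod_le univ _ _ (fun i _ => (norm_tw _ (D.L_pos i _)).le)
    (fun i _ => (norm_tw _ (D.L_pos i _)).le)).trans ?_
  rw [mul_sum, sum_mul]
  apply sum_le_sum
  intro i _
  have hle : D.L i (Q * m' + c) ≤ D.L i (Q * (m' + 1) + c) := by
    unfold L
    have : Q * m' + c ≤ Q * (m' + 1) + c := by nlinarith
    have := Nat.mul_le_mul_left (D.a i) this
    omega
  refine (norm_tw_sub_le (D.t i) (D.L_pos i _) hle).trans ?_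
  have e : ((D.L i (Q * (m' + 1) + c) : ℕ) : ℝ) - (D.L i (Q * m' + c) : ℕ) = D.a i * Q := by
    unfold L; push_cast; ring
  rw [e]
  have hlow : (m' : ℝ) + 1 ≤ (D.L i (Q * m' + c) : ℕ) := by
    have h1 : m' + 1 ≤ D.L i (Q * m' + c) := by
      unfold L
      have h1 := D.ha i
      have h2 := D.hb i
      have h3 : m' ≤ Q * m' := Nat.le_mul_of_pos_left _ hQ
      have h4 : Q * m' + c ≤ D.a i * (Q * m' + c) := Nat.le_mul_of_pos_left _ h1
      omega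
    exact_mod_cast h1
  have hpos : (0 : ℝ) < (m' : ℝ) + 1 := by positivity
  calc |D.t i| * (D.a i * Q) / (D.L i (Q * m' + c) : ℕ)
      ≤ |D.t i| * (D.a i * Q) / ((m' : ℝ) + 1) := by gcongr
    _ = _ := by ring

/-- the main sum -/
lemma main_sum {j₀ n K : ℕ} (hy : D.Adm (Y j₀)) (hr : 8 * Fintype.card ι + 2 ≤ Y j₀) (x : ℕ) :
    ‖∑ m ∈ range x, D.G (Y j₀) K m * D.W m * TT j₀ n (hh D.a D.b D.al m)‖
      ≤ (x + ((Y j₀).factorial ^ (K + 1) : ℕ)) * ‖TT j₀ n (mm D.al)‖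
        + ((Y j₀).factorial ^ (K + 1) : ℕ) * (Y (n + 3) *
          (1 + 2 * (((Y j₀).factorial ^ (K + 1) : ℕ) * ∑ i, |D.t i| * D.a i) * Real.sqrt x)) := by
  set Q := (Y j₀).factorial ^ (K + 1) with hQdef
  have hQ : 0 < Q := by rw [hQdef]; exact pow_pos (Nat.factorial_pos _) _
  set C : ℝ := Q * ∑ i, |D.t i| * D.a i with hC
  have hC0 : 0 ≤ C := by
    rw [hC]; exact mul_nonneg (by positivity) (sum_nonneg fun i _ => by positivity)
  have hE := equi_TT D.a D.b D.al (Ico j₀ n) (fun j => n - 1 - j)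
    (fun j hj p hp i => D.not_dvd_a hy (lt_of_le_of_lt (Y_mono (mem_Ico.1 hj).1) (mem_blk.1 hp).1.1) i)
    (fun j hj p hp i => D.norm_al_le i (mem_blk.1 hp).2.pos)
  have hcop : ∀ p ∈ (Ico j₀ n).biUnion blk, Nat.Coprime p Q := by
    intro p hp
    have hp' : p ∈ rng j₀ n := hp
    rw [mem_rng] at hp'
    rw [hQdef]
    apply Nat.Coprime.pow_right
    rw [Nat.Prime.coprime_iff_not_dvd hp'.2, Nat.Prime.dvd_factorial hp'.2]
    omega
  have hV := level_bound' (Fintype.card ι) j₀ n hr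
  have hT : ∀ c y : ℕ, ‖∑ m' ∈ range y, TT j₀ n (hh D.a D.b D.al (Q * m' + c)) - y * TT j₀ n (mm D.al)‖
      ≤ Y (n + 3) := fun c y => (hE.eq Q c y hQ hcop).trans hV
  have hcls : ∀ c ∈ range Q, ‖∑ m' ∈ range ((x + (Q - 1 - c)) / Q),
      D.W (Q * m' + c) * TT j₀ n (hh D.a D.b D.al (Q * m' + c))‖
      ≤ ((x : ℝ) / Q + 1) * ‖TT j₀ n (mm D.al)‖ + Y (n + 3) * (1 + 2 * C * Real.sqrt x) := by
    intro c hc
    rw [mem_range] at hc
    set N := (x + (Q - 1 - c)) / Q with hN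
    have hNx : N ≤ x := by
      rw [hN]
      rcases Nat.eq_zero_or_pos x with h0 | h0
      · rw [h0, Nat.div_eq_of_lt (by omega)]
      · apply Nat.div_le_of_le_mul
        have : x + (Q - 1) ≤ Q * x := by
          obtain ⟨k, hk⟩ : ∃ k, Q = k + 1 := ⟨Q - 1, by omega⟩
          rw [hk]
          simp only [Nat.add_sub_cancel]
          nlinarith
        omega
    have hab := abel (fun m' => D.W (Q * m' + c)) (fun m' => TT j₀ n (hh D.a D.b D.al (Q * m' + c)))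
      (TT j₀ n (mm D.al)) (Y (n + 3)) (fun m' => (D.norm_W _).le) (hT c) N
    refine hab.trans ?_
    have h1 : (N : ℝ) ≤ x / Q + 1 := by
      have := card_residue Q c x hQ hc
      rw [← hN] at this
      linarith [(abs_le.1 this).2]
    have h2 : ∑ m' ∈ range N, ‖D.W (Q * (m' + 1) + c) - D.W (Q * m' + c)‖ ≤ 2 * C * Real.sqrt x := by
      calc _ ≤ ∑ m' ∈ range N, C * (1 / ((m' : ℝ) + 1)) := sum_le_sum fun m' _ => D.W_var Q c m' hQ
        _ = C * ∑ m' ∈ range N, (1 / ((m' : ℝ) + 1)) := by rw [mul_sum]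
        _ ≤ C * (2 * Real.sqrt N) := by gcongr; exact sum_inv_le_sqrt N
        _ ≤ C * (2 * Real.sqrt x) := by gcongr
        _ = _ := by ring
    gcongr
  have hsplit : ∑ m ∈ range x, D.G (Y j₀) K m * D.W m * TT j₀ n (hh D.a D.b D.al m)
      = ∑ c ∈ range Q, D.G (Y j₀) K c * ∑ m' ∈ range ((x + (Q - 1 - c)) / Q),
        D.W (Q * m' + c) * TT j₀ n (hh D.a D.b D.al (Q * m' + c)) := by
    rw [← sum_fiberwise_of_maps_to (s := range x) (t := range Q) (g := fun m => m % Q)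
      (fun m _ => mem_range.2 (Nat.mod_lt _ hQ))]
    apply sum_congr rfl
    intro c hc
    rw [mem_range] at hc
    rw [sum_residue _ Q c x hQ hc, mul_sum]
    apply sum_congr rfl
    intro m' _
    have := D.G_periodic (K := K) hy c m'
    rw [← hQdef] at this
    rw [this]
    ring
  rw [hsplit]
  refine (norm_sum_le _ _).trans ?_
  calc ∑ c ∈ range Q, ‖D.G (Y j₀) K c * ∑ m' ∈ range ((x + (Q - 1 - c)) / Q),
        D.W (Q * m' + c) * TT j₀ n (hh D.a D.b D.al (Q * m' + c))‖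
      ≤ ∑ _c ∈ range Q, (((x : ℝ) / Q + 1) * ‖TT j₀ n (mm D.al)‖ + Y (n + 3) * (1 + 2 * C * Real.sqrt x)) := by
        apply sum_le_sum
        intro c hc
        rw [norm_mul]
        calc _ ≤ 1 * (((x : ℝ) / Q + 1) * ‖TT j₀ n (mm D.al)‖ + Y (n + 3) * (1 + 2 * C * Real.sqrt x)) := by
              apply mul_le_mul (D.norm_G_le _ _ _) (hcls c hc) (norm_nonneg _) zero_le_one
          _ = _ := one_mul _
    _ = _ := by
        rw [sum_const, card_range, nsmul_eq_mul]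
        have hQ' : (Q : ℝ) ≠ 0 := by exact_mod_cast hQ.ne'
        field_simp

end Sys

end Pool.H2.Ell
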