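import Mathlib
import Pool.Agent.H2.EllSum

set_option autoImplicit false

open Finset

namespace Pool.H2.Ell

variable {ι : Type*} [Fintype ι] (D : Sys ι)

namespace Sys

omit [Fintype ι] in
lemma count_L (i : ι) (d x A : ℕ) (hA : D.a i + D.b i ≤ A) (hd : 0 < d) :
    ∑ m ∈ range x, (if d ∣ D.L i m then (1 : ℝ) else 0) ≤ A * x / d := by
  rcases Nat.eq_zero_or_pos x with h0 | h0
  · subst h0; simp
  · rw [← sum_filter]
    simp only [sum_const, nsmul_eq_mul, mul_one]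
    have h1 := count_dvd_real (D.a i) (D.b i) d x (D.ha i) (D.hb i) hd h0
    have h2 : ((D.a i : ℝ) + D.b i) ≤ A := by exact_mod_cast hA
    refine h1.trans ?_
    gcongr

lemma count1 (y K x A : ℕ) (hA : ∀ i, D.a i + D.b i ≤ A) :
    ∑ m ∈ range x, (∑ i, ∑ ℓ ∈ (range (y + 1)).filter Nat.Prime,
      (if ℓ ^ K ∣ D.L i m then (1 : ℝ) else 0)) ≤ Fintype.card ι * ((y + 1) * (A * x / 2 ^ K)) := by
  rw [sum_comm]
  calc _ ≤ ∑ _i : ι, (((y : ℝ) + 1) * (A * x / 2 ^ K)) := by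
        apply sum_le_sum
        intro i _
        rw [sum_comm]
        calc _ ≤ ∑ _ℓ ∈ (range (y + 1)).filter Nat.Prime, ((A : ℝ) * x / 2 ^ K) := by
              apply sum_le_sum
              intro ℓ hℓ
              simp only [mem_filter, mem_range] at hℓ
              have h2 : (2 : ℝ) ^ K ≤ ((ℓ ^ K : ℕ) : ℝ) := by
                exact_mod_cast Nat.pow_le_pow_left hℓ.2.two_le K
              refine (D.count_L i (ℓ ^ K) x A (hA i) (pow_pos hℓ.2.pos _)).trans ?_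
              gcongr
          _ ≤ _ := by
              rw [sum_const, nsmul_eq_mul]
              have hc : (((range (y + 1)).filter Nat.Prime).card : ℝ) ≤ y + 1 := by
                have := card_filter_le (range (y + 1)) Nat.Prime
                rw [card_range] at this
                exact_mod_cast this
              gcongr
    _ = _ := by rw [sum_const, card_univ, nsmul_eq_mul]

lemma sum_inv_sq_rng (j₀ n₂ : ℕ) : ∑ p ∈ rng j₀ n₂, (1 : ℝ) / ((p ^ 2 : ℕ) : ℝ) ≤ 1 / Y j₀ := by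
  rcases le_total j₀ n₂ with h | h
  · have h1 : ∑ p ∈ rng j₀ n₂, (1 : ℝ) / ((p ^ 2 : ℕ) : ℝ)
        ≤ ∑ i ∈ Ioc (Y j₀) (Y n₂), ((i : ℝ) ^ 2)⁻¹ := by
      have : ∀ p ∈ rng j₀ n₂, (1 : ℝ) / ((p ^ 2 : ℕ) : ℝ) = ((p : ℝ) ^ 2)⁻¹ := by
        intro p _; push_cast; rw [one_div]
      rw [sum_congr rfl this]
      apply sum_le_sum_of_subset_of_nonneg
      · intro p hp
        rw [mem_rng] at hp
        rw [mem_Ioc]
        exact hp.1
      · intro i _ _; positivity
    refine h1.trans ((sum_Ioc_inv_sq_le_sub (Y_pos j₀).ne' (Y_mono h)).trans ?_)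
    rw [one_div]
    have : (0 : ℝ) ≤ (Y n₂ : ℝ)⁻¹ := by positivity
    linarith
  · have : rng j₀ n₂ = ∅ := by
      unfold rng
      rw [Ico_eq_empty_of_le h]; simp
    rw [this]; simp

lemma count2 (j₀ n₂ x A : ℕ) (hA : ∀ i, D.a i + D.b i ≤ A) :
    ∑ m ∈ range x, (∑ i, ∑ p ∈ rng j₀ n₂, (if p ^ 2 ∣ D.L i m then (1 : ℝ) else 0))
      ≤ Fintype.card ι * (A * x / Y j₀) := by
  rw [sum_comm]
  calc _ ≤ ∑ _i : ι, ((A : ℝ) * x / Y j₀) := by
        apply sum_le_sum
        intro i _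
        rw [sum_comm]
        calc _ ≤ ∑ p ∈ rng j₀ n₂, ((A : ℝ) * x / ((p ^ 2 : ℕ) : ℝ)) := by
              apply sum_le_sum
              intro p hp
              rw [mem_rng] at hp
              exact D.count_L i (p ^ 2) x A (hA i) (pow_pos hp.2.pos _)
          _ = A * x * ∑ p ∈ rng j₀ n₂, (1 : ℝ) / ((p ^ 2 : ℕ) : ℝ) := by
              rw [mul_sum]; apply sum_congr rfl; intro p _; ring
          _ ≤ A * x * (1 / Y j₀) := by gcongr; exact sum_inv_sq_rng j₀ n₂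
          _ = _ := by ring
    _ = _ := by rw [sum_const, card_univ, nsmul_eq_mul]

lemma count3 (n n₂ x A : ℕ) (hA : ∀ i, D.a i + D.b i ≤ A) :
    ∑ m ∈ range x, ∑ p ∈ rng n n₂, ‖hh D.a D.b D.al m p‖ ≤ A * x * ∑ j ∈ Ico n n₂, D.kap j := by
  calc _ ≤ ∑ m ∈ range x, ∑ p ∈ rng n n₂, D.hN m p :=
        sum_le_sum fun m _ => sum_le_sum fun p _ => D.norm_hh_le m p
    _ = ∑ p ∈ rng n n₂, ∑ m ∈ range x, D.hN m p := sum_comm
    _ ≤ ∑ p ∈ rng n n₂, A * x * D.mN p := by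
        apply sum_le_sum
        intro p hp
        rw [mem_rng] at hp
        unfold hN mN
        rw [sum_comm, mul_sum]
        apply sum_le_sum
        intro i _
        have e : ∀ m, (if p ∣ D.L i m then ‖D.al i p‖ else 0)
            = ‖D.al i p‖ * (if p ∣ D.L i m then (1 : ℝ) else 0) := by
          intro m; split_ifs <;> simp
        rw [sum_congr rfl (fun m _ => e m), ← mul_sum]
        calc ‖D.al i p‖ * ∑ m ∈ range x, (if p ∣ D.L i m then (1 : ℝ) else 0)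
            ≤ ‖D.al i p‖ * (A * x / p) := by
              gcongr
              exact D.count_L i p x A (hA i) hp.2.pos
          _ = _ := by ring
    _ = _ := by
        rw [← mul_sum, sum_rng]
        simp only [kap_eq]

lemma window {j₀ n K x A : ℕ} (hn : j₀ ≤ n) (hy : D.Adm (Y j₀))
    (hr : 8 * Fintype.card ι + 2 ≤ Y j₀) (hA : ∀ i, D.a i + D.b i ≤ A)
    (κ : ℝ) (h0 : 0 ≤ κ) (h1 : κ ≤ 1 / 2) (hκ : ∀ j, j₀ ≤ j → D.kap j ≤ κ)
    (hx1 : Y (n + 5) ≤ x) (hx2 : x < Y (n + 6)) (hAx : A ≤ x) :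
    ‖∑ m ∈ range x, D.F m‖ ≤
      (x + ((Y j₀).factorial ^ (K + 1) : ℕ)) * (‖∏ p ∈ rng j₀ n, (1 + mm D.al p)‖ + 4 * κ)
      + ((Y j₀).factorial ^ (K + 1) : ℕ) * (Y (n + 3) *
          (1 + 2 * (((Y j₀).factorial ^ (K + 1) : ℕ) * ∑ i, |D.t i| * D.a i) * Real.sqrt x))
      + (x * (4 * κ) + Y (n + 3))
      + (2 * (Fintype.card ι * ((Y j₀ + 1) * (A * x / 2 ^ K)))
        + 2 * (Fintype.card ι * (A * x / Y j₀)) + A * x * (7 * κ)) := by
  have hL : ∀ m < x, ∀ i, D.L i m ≤ Y (n + 7) := by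
    intro m hm i
    have h2 : D.L i m ≤ A * x := by
      unfold L
      have h3 := hA i
      have h4 : D.a i * m ≤ D.a i * x := Nat.mul_le_mul_left _ hm.le
      have h5 : D.b i ≤ D.b i * x := Nat.le_mul_of_pos_right _ (by omega)
      calc _ ≤ D.a i * x + D.b i * x := by omega
        _ = (D.a i + D.b i) * x := by ring
        _ ≤ A * x := Nat.mul_le_mul_right _ h3
    refine h2.trans ?_
    rw [Y_succ, pow_two]
    exact Nat.mul_le_mul (hAx.trans hx2.le) hx2.le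
  have e : ∀ m, D.F m = D.G (Y j₀) K m * D.W m * TT j₀ n (hh D.a D.b D.al m)
      + D.G (Y j₀) K m * D.W m * (∏ p ∈ rng j₀ n, (1 + hh D.a D.b D.al m p)
        - TT j₀ n (hh D.a D.b D.al m))
      + (D.F m - D.G (Y j₀) K m * D.W m * ∏ p ∈ rng j₀ n, (1 + hh D.a D.b D.al m p)) := by
    intro m; ring
  rw [sum_congr rfl (fun m _ => e m), sum_add_distrib, sum_add_distrib]
  refine (norm_add_le _ _).trans (add_le_add ((norm_add_le _ _).trans (add_le_add ?_ ?_)) ?_)
  · refine (D.main_sum (n := n) (K := K) hy hr x).trans ?_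
    have := D.norm_TT_mean_le hn hr κ h0 h1 (fun j hj => hκ j (mem_Ico.1 hj).1)
    gcongr
  · refine (norm_sum_le _ _).trans (le_trans (sum_le_sum fun m _ => ?_)
      (D.sum_trunc_le hn hy hr κ h0 h1 (fun j hj => hκ j (mem_Ico.1 hj).1) x))
    rw [norm_mul, norm_mul, D.norm_W, mul_one]
    exact mul_le_of_le_one_left (norm_nonneg _) (D.norm_G_le _ _ _)
  · refine (norm_sum_le _ _).trans (le_trans (sum_le_sum fun m hm =>
      D.pointwise (n₂ := n + 7) (K := K) hy hn (by omega) (hL m (mem_range.1 hm))) ?_)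
    rw [sum_add_distrib, sum_add_distrib, ← mul_sum, ← mul_sum]
    have c1 := D.count1 (Y j₀) K x A hA
    have c2 := D.count2 j₀ (n + 7) x A hA
    have c3 := D.count3 n (n + 7) x A hA
    have c4 : ∑ j ∈ Ico n (n + 7), D.kap j ≤ 7 * κ := by
      calc _ ≤ ∑ _j ∈ Ico n (n + 7), κ :=
            sum_le_sum fun j hj => hκ j (hn.trans (mem_Ico.1 hj).1)
        _ = 7 * κ := by simp
    have c5 : (A : ℝ) * x * ∑ j ∈ Ico n (n + 7), D.kap j ≤ A * x * (7 * κ) := by gcongr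
    linarith

end Sys

end Pool.H2.Ell
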