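import Mathlib
import Pool.Agent.H2.EllWindow

set_option autoImplicit false

open Finset Filter Topology

namespace Pool.H2.Ell

variable {ι : Type*} [Fintype ι] (D : Sys ι)

namespace Sys

omit [Fintype ι] in
lemma re_u_le (i : ι) {p : ℕ} (hp : 0 < p) : (D.u i p).re ≤ 1 :=
  (Complex.re_le_norm _).trans (D.norm_u_le i hp)

lemma normSq_one_add_mm {p : ℕ} (hp : 0 < p) (hr : 2 * Fintype.card ι ≤ p) :
    ‖1 + mm D.al p‖ ^ 2 ≤ 1 - (∑ i, (1 - (D.u i p).re)) / p := by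
  have hp' : (0 : ℝ) < p := by exact_mod_cast hp
  have hr' : 2 * (Fintype.card ι : ℝ) ≤ p := by exact_mod_cast hr
  set Δ : ℝ := ∑ i, (1 - (D.u i p).re) with hΔ
  have hΔ0 : 0 ≤ Δ := sum_nonneg fun i _ => by have := D.re_u_le i hp; linarith
  have hre : (mm D.al p).re = -(Δ / p) := by
    unfold mm al
    rw [Complex.re_sum, hΔ, sum_div, ← sum_neg_distrib]
    apply sum_congr rfl
    intro i _
    rw [Complex.div_natCast_re, Complex.sub_re, Complex.one_re]
    ring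
  have hal : ∀ i, ‖D.al i p‖ ^ 2 ≤ 2 * (1 - (D.u i p).re) := by
    intro i
    unfold al
    rw [← Complex.normSq_eq_norm_sq, Complex.normSq_sub]
    simp only [map_one, mul_one]
    have h1 : Complex.normSq (D.u i p) ≤ 1 := by
      rw [Complex.normSq_eq_norm_sq]
      have := D.norm_u_le i hp
      have h0 := norm_nonneg (D.u i p)
      nlinarith
    linarith
  have hns : ‖mm D.al p‖ ^ 2 ≤ Δ / p := by
    have h1 : ‖mm D.al p‖ ≤ (∑ i, ‖D.al i p‖) / p := by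
      have := D.norm_mm_le p
      unfold mN at this
      rwa [← sum_div] at this
    have h2 : (∑ i, ‖D.al i p‖) ^ 2 ≤ Fintype.card ι * ∑ i, ‖D.al i p‖ ^ 2 := by
      have := sq_sum_le_card_mul_sum_sq (s := (univ : Finset ι)) (f := fun i => ‖D.al i p‖)
      simpa using this
    have h3 : ∑ i, ‖D.al i p‖ ^ 2 ≤ 2 * Δ := by
      rw [hΔ, mul_sum]
      exact sum_le_sum fun i _ => hal i
    have h0 : 0 ≤ ‖mm D.al p‖ := norm_nonneg _
    calc ‖mm D.al p‖ ^ 2 ≤ ((∑ i, ‖D.al i p‖) / p) ^ 2 := by gcongr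
      _ = (∑ i, ‖D.al i p‖) ^ 2 / p ^ 2 := by rw [div_pow]
      _ ≤ (Fintype.card ι * (2 * Δ)) / p ^ 2 := by
          gcongr
          exact h2.trans (by gcongr)
      _ = (2 * Fintype.card ι) * Δ / p ^ 2 := by ring
      _ ≤ p * Δ / p ^ 2 := by gcongr
      _ = Δ / p := by field_simp
  have hexp : ‖1 + mm D.al p‖ ^ 2 = 1 + 2 * (mm D.al p).re + ‖mm D.al p‖ ^ 2 := by
    rw [← Complex.normSq_eq_norm_sq, ← Complex.normSq_eq_norm_sq, Complex.normSq_apply,
      Complex.normSq_apply]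
    simp only [Complex.add_re, Complex.one_re, Complex.add_im, Complex.one_im]
    ring
  rw [hexp, hre]
  linarith

lemma normSq_prod_le {j₀ n : ℕ} (hr : 8 * Fintype.card ι + 2 ≤ Y j₀) (j : ι) :
    ‖∏ p ∈ rng j₀ n, (1 + mm D.al p)‖ ^ 2 ≤ Real.exp (-∑ p ∈ rng j₀ n, (1 - (D.u j p).re) / p) := by
  rw [norm_prod, ← prod_pow, ← sum_neg_distrib, Real.exp_sum]
  apply Finset.prod_le_prod
  · intro p _; positivity
  · intro p hp
    rw [mem_rng] at hp
    have hp0 := hp.2.pos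
    have hp' : (0 : ℝ) < p := by exact_mod_cast hp0
    refine (D.normSq_one_add_mm hp0 (by omega)).trans ?_
    have h1 : 1 - (D.u j p).re ≤ ∑ i, (1 - (D.u i p).re) :=
      single_le_sum (f := fun i => 1 - (D.u i p).re)
        (fun i _ => by have := D.re_u_le i hp0; linarith) (mem_univ j)
    calc 1 - (∑ i, (1 - (D.u i p).re)) / p ≤ 1 - (1 - (D.u j p).re) / p := by gcongr
      _ ≤ _ := by
        have := Real.add_one_le_exp (-((1 - (D.u j p).re) / p))
        linarith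

lemma exists_window (n₀ x : ℕ) (hx : Y (n₀ + 5) ≤ x) : ∃ n, n₀ ≤ n ∧ Y (n + 5) ≤ x ∧ x < Y (n + 6) := by
  classical
  have hex : ∃ m, x < Y m := ⟨x, lt_Y x⟩
  set m := Nat.find hex with hm
  have h1 : x < Y m := Nat.find_spec hex
  have h2 : n₀ + 5 < m := by
    by_contra hcon
    push Not at hcon
    have := Y_mono hcon
    omega
  have h3 : ¬ x < Y (m - 1) := Nat.find_min hex (by omega)
  refine ⟨m - 6, by omega, ?_, ?_⟩
  · rw [show m - 6 + 5 = m - 1 by omega]; omega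
  · rw [show m - 6 + 6 = m by omega]; exact h1

lemma small_term (c d : ℝ) : Tendsto (fun x : ℕ => ((x : ℝ) ^ (1 / 4 : ℝ)) * (c + d * Real.sqrt x) / x)
    atTop (𝓝 0) := by
  have h1 : Tendsto (fun x : ℝ => c * x ^ (-(3 / 4) : ℝ) + d * x ^ (-(1 / 4) : ℝ)) atTop (𝓝 0) := by
    have a1 := (tendsto_rpow_neg_atTop (show (0 : ℝ) < 3 / 4 by norm_num)).const_mul c
    have a2 := (tendsto_rpow_neg_atTop (show (0 : ℝ) < 1 / 4 by norm_num)).const_mul d
    simpa using a1.add a2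
  have h2 := h1.comp tendsto_natCast_atTop_atTop
  refine h2.congr' ?_
  filter_upwards [eventually_gt_atTop 0] with x hx
  have hx' : (0 : ℝ) < x := by exact_mod_cast hx
  simp only [Function.comp]
  rw [Real.sqrt_eq_rpow, mul_add, add_div]
  congr 1
  · rw [mul_comm, mul_div_right_comm]
    congr 1
    rw [eq_div_iff hx'.ne', ← Real.rpow_add_one hx'.ne']
    norm_num
  · rw [mul_left_comm, mul_div_assoc, ← Real.rpow_add hx']
    congr 1
    rw [eq_div_iff hx'.ne', ← Real.rpow_add_one hx'.ne']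
    norm_num

theorem core (hslow : Tendsto D.kap atTop (𝓝 0))
    (hdiv : ∃ j, ∀ (j₀ : ℕ) (M : ℝ), ∃ n₁, ∀ n ≥ n₁, M ≤ ∑ p ∈ rng j₀ n, (1 - (D.u j p).re) / p) :
    Tendsto (fun x : ℕ => (1 / (x : ℂ)) * ∑ m ∈ range x, D.F m) atTop (𝓝 0) := by
  classical
  rw [Metric.tendsto_atTop]
  intro ε' hε'
  set ε := ε' / 2 with hε
  have hε0 : 0 < ε := by rw [hε]; positivity
  -- constants
  set A : ℕ := ∑ i, (D.a i + D.b i) with hA
  have hAi : ∀ i, D.a i + D.b i ≤ A := fun i =>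
    single_le_sum (f := fun i => D.a i + D.b i) (fun _ _ => Nat.zero_le _) (mem_univ i)
  set B : ℕ := ∑ i, (D.a i + D.q i + ∑ j, D.a i * D.b j) with hB
  have hBi : ∀ i, D.a i + D.q i + ∑ j, D.a i * D.b j ≤ B := fun i =>
    single_le_sum (f := fun i => D.a i + D.q i + ∑ j, D.a i * D.b j) (fun _ _ => Nat.zero_le _) (mem_univ i)
  have hadm : ∀ y, B ≤ y → D.Adm y := by
    intro y hy
    refine ⟨fun i => ?_, fun i => ?_, fun i j => ?_⟩
    · have := hBi i; omega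
    · have := hBi i; omega
    · have h1 := hBi i
      have h2 : D.a i * D.b j ≤ ∑ j, D.a i * D.b j :=
        single_le_sum (f := fun j => D.a i * D.b j) (fun _ _ => Nat.zero_le _) (mem_univ j)
      omega
  set r : ℝ := (Fintype.card ι : ℝ) with hr
  have hr0 : 0 ≤ r := by rw [hr]; positivity
  have hA0 : (0 : ℝ) ≤ A := by positivity
  set κ : ℝ := min (1 / 2) (ε / (5 * (12 + 7 * A))) with hκ
  have hκ0 : 0 < κ := by rw [hκ]; apply lt_min (by norm_num); positivity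
  have hκ1 : κ ≤ 1 / 2 := min_le_left _ _
  have hκ2 : (12 + 7 * (A : ℝ)) * κ ≤ ε / 5 := by
    have : κ ≤ ε / (5 * (12 + 7 * A)) := min_le_right _ _
    rw [le_div_iff₀ (by positivity)] at this
    linarith
  obtain ⟨j₁, hj₁⟩ := (Metric.tendsto_atTop.1 hslow) κ hκ0
  obtain ⟨j₂, hj₂⟩ := exists_nat_ge (10 * r * A / ε)
  set j₀ : ℕ := max (max j₁ j₂) (max B (8 * Fintype.card ι + 2)) with hj₀
  have hjlt := lt_Y j₀
  have hadm' : D.Adm (Y j₀) := hadm _ (by omega)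
  have hrY : 8 * Fintype.card ι + 2 ≤ Y j₀ := by omega
  have hκj : ∀ j, j₀ ≤ j → D.kap j ≤ κ := by
    intro j hj
    have := hj₁ j (by omega)
    rw [Real.dist_eq, sub_zero] at this
    exact (le_abs_self _).trans this.le
  set y : ℝ := (Y j₀ : ℝ) with hy
  have hy0 : 0 < y := by rw [hy]; exact_mod_cast Y_pos j₀
  have hT5 : 2 * (r * (A / y)) ≤ ε / 5 := by
    have h1 : 10 * r * A / ε ≤ y := by
      refine hj₂.trans ?_
      rw [hy]
      exact_mod_cast (show j₂ ≤ Y j₀ by omega)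
    rw [div_le_iff₀ hε0] at h1
    have : 2 * (r * (A / y)) = (2 * r * A) / y := by ring
    rw [this, div_le_iff₀ hy0]
    nlinarith
  obtain ⟨K, hK⟩ := pow_unbounded_of_one_lt (10 * r * (y + 1) * A / ε) (show (1 : ℝ) < 2 by norm_num)
  have hT4 : 2 * (r * ((y + 1) * (A / 2 ^ K))) ≤ ε / 5 := by
    have h2 : (0 : ℝ) < 2 ^ K := by positivity
    have h1 := hK.le
    rw [div_le_iff₀ hε0] at h1
    have : 2 * (r * ((y + 1) * (A / 2 ^ K))) = (2 * r * (y + 1) * A) / 2 ^ K := by ring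
    rw [this, div_le_iff₀ h2]
    nlinarith
  set Q : ℕ := (Y j₀).factorial ^ (K + 1) with hQ
  obtain ⟨j, hj⟩ := hdiv
  -- main product small
  have hP : ∃ n₁, ∀ n ≥ n₁, 2 * ‖∏ p ∈ rng j₀ n, (1 + mm D.al p)‖ ≤ ε / 5 := by
    obtain ⟨n₁, hn₁⟩ := hj j₀ (-Real.log ((ε / 10) ^ 2))
    refine ⟨n₁, fun n hn => ?_⟩
    have h1 := D.normSq_prod_le (n := n) hrY j
    have h2 : Real.exp (-∑ p ∈ rng j₀ n, (1 - (D.u j p).re) / p) ≤ (ε / 10) ^ 2 := by
      rw [← Real.exp_log (show 0 < (ε / 10) ^ 2 by positivity)]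
      apply Real.exp_le_exp.2
      have := hn₁ n hn
      linarith
    have h3 := h1.trans h2
    have h4 := abs_le_of_sq_le_sq h3 (by positivity)
    rw [abs_of_nonneg (norm_nonneg _)] at h4
    linarith
  obtain ⟨n₁, hn₁⟩ := hP
  set C : ℝ := (Q : ℝ) * ∑ i, |D.t i| * D.a i with hC
  obtain ⟨x₁, hx₁⟩ := (Metric.tendsto_atTop.1 (small_term (Q + 1) (Q * (2 * C)))) (ε / 5) (by positivity)
  refine ⟨max (max (Y (max n₁ j₀ + 5)) x₁) (max Q (max A 1)), fun x hx => ?_⟩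
  have hxa : Y (max n₁ j₀ + 5) ≤ x := le_trans (by simp) hx
  have hxb : x₁ ≤ x := le_trans (by simp) hx
  have hxQ : Q ≤ x := le_trans (by simp) hx
  have hxA : A ≤ x := le_trans (by simp) hx
  have hx1 : 1 ≤ x := le_trans (by simp) hx
  obtain ⟨n, hn, hw1, hw2⟩ := exists_window _ x hxa
  have hnj : j₀ ≤ n := le_trans (le_max_right _ _) hn
  have hnn : n₁ ≤ n := le_trans (le_max_left _ _) hn
  have hmain := D.window (K := K) hnj hadm' hrY hAi κ hκ0.le hκ1 hκj hw1 hw2 hxA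
  have hxr : (0 : ℝ) < x := by exact_mod_cast hx1
  have hxQr : (Q : ℝ) ≤ x := by exact_mod_cast hxQ
  have hP := hn₁ n hnn
  set P : ℝ := ‖∏ p ∈ rng j₀ n, (1 + mm D.al p)‖ with hPdef
  have hP0 : 0 ≤ P := norm_nonneg _
  -- V bound
  have hV : (Y (n + 3) : ℝ) ≤ (x : ℝ) ^ (1 / 4 : ℝ) := by
    have h1 : Y (n + 3) ^ 4 ≤ x := by
      calc Y (n + 3) ^ 4 = Y (n + 5) := by
            have e1 : Y (n + 5) = Y (n + 4) ^ 2 := Y_succ (n + 4)
            have e2 : Y (n + 4) = Y (n + 3) ^ 2 := Y_succ (n + 3)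
            rw [e1, e2]; ring
        _ ≤ x := hw1
    have h2 : (Y (n + 3) : ℝ) ^ 4 ≤ x := by exact_mod_cast h1
    have h3 : (Y (n + 3) : ℝ) = ((Y (n + 3) : ℝ) ^ 4) ^ (1 / 4 : ℝ) := by
      rw [← Real.rpow_natCast, ← Real.rpow_mul (by positivity)]
      norm_num
    rw [h3]
    exact Real.rpow_le_rpow (by positivity) h2 (by norm_num)
  have hsm := hx₁ x hxb
  rw [Real.dist_eq, sub_zero] at hsm
  have hsm' := (le_abs_self _).trans hsm.le
  rw [dist_zero_right, norm_mul, norm_div, norm_one, Complex.norm_natCast, one_div, inv_mul_eq_div]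
  have hfin : ‖∑ m ∈ range x, D.F m‖ / x ≤ ε := by
    rw [div_le_iff₀ hxr]
    refine hmain.trans ?_
    -- collect
    have hsq0 : 0 ≤ Real.sqrt x := Real.sqrt_nonneg _
    have hC0 : 0 ≤ C := by
      rw [hC]; exact mul_nonneg (by positivity) (sum_nonneg fun i _ => by positivity)
    have t1 : ((x : ℝ) + Q) * (P + 4 * κ) ≤ x * (2 * P) + x * (8 * κ) := by nlinarith
    have t2 : (Q : ℝ) * (Y (n + 3) * (1 + 2 * C * Real.sqrt x)) + Y (n + 3) ≤ (ε / 5) * x := by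
      have h1 : (x : ℝ) ^ (1 / 4 : ℝ) * ((Q + 1) + (Q * (2 * C)) * Real.sqrt x) ≤ (ε / 5) * x := by
        rwa [div_le_iff₀ hxr] at hsm'
      refine le_trans ?_ h1
      calc (Q : ℝ) * (Y (n + 3) * (1 + 2 * C * Real.sqrt x)) + Y (n + 3)
          = Y (n + 3) * ((Q + 1) + (Q * (2 * C)) * Real.sqrt x) := by ring
        _ ≤ _ := by gcongr
    have t4 : 2 * (r * ((y + 1) * (A * x / 2 ^ K))) ≤ (ε / 5) * x := by
      calc _ = (2 * (r * ((y + 1) * (A / 2 ^ K)))) * x := by ring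
        _ ≤ _ := by gcongr
    have t5 : 2 * (r * (A * x / y)) ≤ (ε / 5) * x := by
      calc _ = (2 * (r * (A / y))) * x := by ring
        _ ≤ _ := by gcongr
    have t6 : x * (8 * κ) + x * (4 * κ) + A * x * (7 * κ) ≤ (ε / 5) * x := by
      calc _ = ((12 + 7 * (A : ℝ)) * κ) * x := by ring
        _ ≤ _ := by gcongr
    have t7 : x * (2 * P) ≤ (ε / 5) * x := by
      rw [mul_comm]; gcongr
    linarith
  linarith

end Sys

end Pool.H2.Ell
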