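import Mathlib
import Pool.Agent.H2.EllBlk

set_option autoImplicit false

open Finset

namespace Pool.H2.Ell

lemma sum_dyadic (k : ℕ) (hk : 1 ≤ k) :
    ∑ p ∈ (Ioc (2 ^ k) (2 ^ (k + 1))).filter Nat.Prime, (1 : ℝ) / p ≤ 4 / k := by
  have hk' : (1 : ℝ) ≤ k := by exact_mod_cast hk
  have hlog2 : 0 < Real.log 2 := Real.log_pos (by norm_num)
  have h2k : (0 : ℝ) < 2 ^ k := by positivity
  have h1 : ∀ p ∈ (Ioc (2 ^ k) (2 ^ (k + 1))).filter Nat.Prime,
      (1 : ℝ) / p ≤ (1 / (2 ^ k * (k * Real.log 2))) * Real.log p := by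
    intro p hp
    simp only [mem_filter, mem_Ioc] at hp
    have hp1 : (2 : ℝ) ^ k ≤ p := by exact_mod_cast hp.1.1.le
    have hp0 : (0 : ℝ) < p := lt_of_lt_of_le h2k hp1
    have hl : k * Real.log 2 ≤ Real.log p := by
      rw [← Real.log_pow]
      exact Real.log_le_log h2k hp1
    calc (1 : ℝ) / p ≤ 1 / 2 ^ k := by gcongr
      _ = (1 / (2 ^ k * (k * Real.log 2))) * (k * Real.log 2) := by field_simp
      _ ≤ _ := by gcongr
  have h2 : ∑ p ∈ (Ioc (2 ^ k) (2 ^ (k + 1))).filter Nat.Prime, Real.log p ≤ Real.log 4 * 2 ^ (k + 1) := by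
    have h3 := Chebyshev.theta_le_log4_mul_x (x := (2 : ℝ) ^ (k + 1)) (by positivity)
    refine le_trans ?_ h3
    rw [Chebyshev.theta]
    have hfl : ⌊(2 : ℝ) ^ (k + 1)⌋₊ = 2 ^ (k + 1) := by
      have : ((2 : ℝ) ^ (k + 1)) = ((2 ^ (k + 1) : ℕ) : ℝ) := by push_cast; rfl
      rw [this, Nat.floor_natCast]
    rw [hfl]
    apply sum_le_sum_of_subset_of_nonneg
    · intro p hp
      simp only [mem_filter, mem_Ioc] at hp ⊢
      exact ⟨⟨by omega, hp.1.2⟩, hp.2⟩
    · intro p hp _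
      simp only [mem_filter, mem_Ioc] at hp
      apply Real.log_nonneg
      exact_mod_cast hp.2.one_lt.le
  calc _ ≤ ∑ p ∈ (Ioc (2 ^ k) (2 ^ (k + 1))).filter Nat.Prime,
        (1 / (2 ^ k * (k * Real.log 2))) * Real.log p := sum_le_sum h1
    _ = (1 / (2 ^ k * (k * Real.log 2))) * ∑ p ∈ (Ioc (2 ^ k) (2 ^ (k + 1))).filter Nat.Prime,
        Real.log p := by rw [mul_sum]
    _ ≤ (1 / (2 ^ k * (k * Real.log 2))) * (Real.log 4 * 2 ^ (k + 1)) := by gcongr
    _ = 4 / k := by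
        have : Real.log 4 = 2 * Real.log 2 := by
          rw [show (4 : ℝ) = 2 ^ 2 by norm_num, Real.log_pow]; norm_num
        rw [this, pow_succ]
        field_simp
        norm_num

lemma sum_dyadic_range (n m : ℕ) (hn : 1 ≤ n) (hnm : n ≤ m) :
    ∑ p ∈ (Ioc (2 ^ n) (2 ^ m)).filter Nat.Prime, (1 : ℝ) / p ≤ ∑ k ∈ Ico n m, (4 : ℝ) / k := by
  induction m, hnm using Nat.le_induction with
  | base => simp
  | succ m hm ih =>
    rw [sum_Ico_succ_top hm]
    have h1 : (Ioc (2 ^ n) (2 ^ (m + 1))).filter Nat.Prime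
        = (Ioc (2 ^ n) (2 ^ m)).filter Nat.Prime ∪ (Ioc (2 ^ m) (2 ^ (m + 1))).filter Nat.Prime := by
      rw [← filter_union]
      congr 1
      rw [Ioc_union_Ioc_eq_Ioc]
      · exact Nat.pow_le_pow_right (by norm_num) hm
      · exact Nat.pow_le_pow_right (by norm_num) (Nat.le_succ m)
    rw [h1, sum_union]
    · exact add_le_add ih (sum_dyadic m (hn.trans hm))
    · rw [disjoint_left]
      intro p hp hp'
      simp only [mem_filter, mem_Ioc] at hp hp'
      omega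

lemma sum_blk_inv (j : ℕ) : ∑ p ∈ blk j, (1 : ℝ) / p ≤ 4 := by
  have h1 := sum_dyadic_range (2 ^ j) (2 ^ (j + 1)) Nat.one_le_two_pow
    (Nat.pow_le_pow_right (by norm_num) (Nat.le_succ j))
  have h2 : ∑ k ∈ Ico ((2 : ℕ) ^ j) (2 ^ (j + 1)), (4 : ℝ) / ((k : ℕ) : ℝ) ≤ 4 := by
    have hpos : (0 : ℝ) < 2 ^ j := by positivity
    calc _ ≤ ∑ _k ∈ Ico ((2 : ℕ) ^ j) (2 ^ (j + 1)), (4 : ℝ) / 2 ^ j := by
          apply sum_le_sum
          intro k hk
          rw [mem_Ico] at hk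
          have : (2 : ℝ) ^ j ≤ k := by exact_mod_cast hk.1
          gcongr
      _ = 4 := by
          rw [sum_const, Nat.card_Ico, nsmul_eq_mul]
          have : 2 ^ (j + 1) - 2 ^ j = 2 ^ j := by rw [pow_succ]; omega
          rw [this]
          push_cast
          field_simp
  exact h1.trans h2

end Pool.H2.Ell
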