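import Mathlib
import Pool.Agent.H2.EllLimit
import Pool.Agent.H2.EllMert
import Pool.Agent.H2.EllKatai

set_option autoImplicit false

open Finset Filter Topology

namespace Pool.H2.Ell

/-- squared pretentious distance -/
noncomputable def dist2 (g : ℕ → ℂ) {q : ℕ} (χ : DirichletCharacter ℂ q) (t : ℝ) (x : ℕ) : ℝ :=
  ∑ p ∈ Finset.filter Nat.Prime (Finset.Iic x),
    (1 - (g p * starRingEnd ℂ (χ (p : ZMod q) * (p : ℂ) ^ (Complex.I * (t : ℂ)))).re) / (p : ℝ)

lemma dist2_eq (g : ℕ → ℂ) {q : ℕ} (χ : DirichletCharacter ℂ q) (t : ℝ) (x : ℕ) :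
    dist2 g χ t x = ∑ p ∈ Finset.filter Nat.Prime (Finset.Iic x), (1 - (uu g χ t p).re) / (p : ℝ) := rfl

lemma norm_uu_le {g : ℕ → ℂ} (hg : ∀ n, ‖g n‖ ≤ 1) {q : ℕ} (χ : DirichletCharacter ℂ q) (t : ℝ)
    {p : ℕ} (hp : 0 < p) : ‖uu g χ t p‖ ≤ 1 := by
  unfold uu
  rw [norm_mul, RCLike.norm_conj, norm_mul, norm_tw _ hp, mul_one]
  exact mul_le_one₀ (hg _) (norm_nonneg _) (DirichletCharacter.norm_le_one _ _)

lemma dist2_sub (g : ℕ → ℂ) {q : ℕ} (χ : DirichletCharacter ℂ q) (t : ℝ) {j n : ℕ} (h : j ≤ n) :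
    dist2 g χ t (Y n) - dist2 g χ t (Y j) = ∑ p ∈ rng j n, (1 - (uu g χ t p).re) / (p : ℝ) := by
  rw [dist2_eq, dist2_eq]
  have h1 : Finset.filter Nat.Prime (Finset.Iic (Y n))
      = Finset.filter Nat.Prime (Finset.Iic (Y j)) ∪ rng j n := by
    ext p
    simp only [mem_union, mem_filter, mem_Iic, mem_rng]
    have := Y_mono h
    constructor
    · intro hp
      by_cases hpj : p ≤ Y j
      · left; exact ⟨hpj, hp.2⟩
      · right; exact ⟨⟨by omega, hp.1⟩, hp.2⟩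
    · rintro (hp | hp)
      · exact ⟨hp.1.trans this, hp.2⟩
      · exact ⟨hp.1.2, hp.2⟩
  rw [h1, sum_union]
  · ring
  · rw [disjoint_left]
    intro p hp hp'
    simp only [mem_filter, mem_Iic] at hp
    rw [mem_rng] at hp'
    omega

/-- slow in L² implies slow in L¹ along blocks -/
lemma slow_blocks {g : ℕ → ℂ} (hg : ∀ n, ‖g n‖ ≤ 1) {q : ℕ} (χ : DirichletCharacter ℂ q) (t : ℝ)
    (h : Tendsto (fun x : ℕ => dist2 g χ t (x ^ 2) - dist2 g χ t x) atTop (𝓝 0)) :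
    Tendsto (fun j => ∑ p ∈ blk j, ‖uu g χ t p - 1‖ / p) atTop (𝓝 0) := by
  have hY : Tendsto Y atTop atTop := Y_strictMono.tendsto_atTop
  have h1 := h.comp hY
  have h2 : Tendsto (fun j => Real.sqrt (8 * (dist2 g χ t (Y j ^ 2) - dist2 g χ t (Y j)))) atTop (𝓝 0) := by
    have h3 : Tendsto (fun j => 8 * (dist2 g χ t (Y j ^ 2) - dist2 g χ t (Y j))) atTop (𝓝 0) := by
      simpa using h1.const_mul 8
    have h4 := (Real.continuous_sqrt.tendsto 0).comp h3
    rw [Real.sqrt_zero] at h4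
    exact h4
  refine squeeze_zero (fun j => sum_nonneg fun p _ => by positivity) (fun j => ?_) h2
  apply Real.le_sqrt_of_sq_le
  rw [← Y_succ, dist2_sub g χ t (Nat.le_succ j)]
  have hr : rng j (j + 1) = blk j := by
    unfold rng; simp
  rw [hr]
  have hcs : (∑ p ∈ blk j, ‖uu g χ t p - 1‖ / p) ^ 2
      ≤ (∑ p ∈ blk j, ‖uu g χ t p - 1‖ ^ 2 / p) * ∑ p ∈ blk j, (1 : ℝ) / p := by
    have := Finset.sum_mul_sq_le_sq_mul_sq (blk j)
      (fun p => ‖uu g χ t p - 1‖ / Real.sqrt p) (fun p => 1 / Real.sqrt p)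
    have e1 : ∀ p ∈ blk j, ‖uu g χ t p - 1‖ / Real.sqrt p * (1 / Real.sqrt p)
        = ‖uu g χ t p - 1‖ / p := by
      intro p _
      rw [div_mul_div_comm, mul_one, Real.mul_self_sqrt (by positivity)]
    have e2 : ∀ p ∈ blk j, (‖uu g χ t p - 1‖ / Real.sqrt p) ^ 2 = ‖uu g χ t p - 1‖ ^ 2 / p := by
      intro p _
      rw [div_pow, Real.sq_sqrt (by positivity)]
    have e3 : ∀ p ∈ blk j, (1 / Real.sqrt p) ^ 2 = (1 : ℝ) / p := by
      intro p _
      rw [div_pow, Real.sq_sqrt (by positivity), one_pow]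
    rwa [sum_congr rfl e1, sum_congr rfl e2, sum_congr rfl e3] at this
  have hal : ∀ p ∈ blk j, ‖uu g χ t p - 1‖ ^ 2 / p ≤ 2 * ((1 - (uu g χ t p).re) / p) := by
    intro p hp
    have hp0 := (mem_blk.1 hp).2.pos
    have hn := norm_uu_le hg χ t hp0
    have h3 : ‖uu g χ t p - 1‖ ^ 2 ≤ 2 * (1 - (uu g χ t p).re) := by
      rw [← Complex.normSq_eq_norm_sq, Complex.normSq_sub]
      simp only [map_one, mul_one]
      have h1 : Complex.normSq (uu g χ t p) ≤ 1 := by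
        rw [Complex.normSq_eq_norm_sq]
        have h0 := norm_nonneg (uu g χ t p)
        nlinarith
      linarith
    rw [← mul_div_assoc]
    gcongr
  have hsum : ∑ p ∈ blk j, ‖uu g χ t p - 1‖ ^ 2 / p ≤ 2 * ∑ p ∈ blk j, (1 - (uu g χ t p).re) / p := by
    rw [mul_sum]; exact sum_le_sum hal
  have h0 : 0 ≤ ∑ p ∈ blk j, ‖uu g χ t p - 1‖ ^ 2 / p := sum_nonneg fun p _ => by positivity
  calc _ ≤ (∑ p ∈ blk j, ‖uu g χ t p - 1‖ ^ 2 / p) * ∑ p ∈ blk j, (1 : ℝ) / p := hcs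
    _ ≤ (2 * ∑ p ∈ blk j, (1 - (uu g χ t p).re) / p) * 4 := by
        have := sum_blk_inv j
        have h1 : 0 ≤ ∑ p ∈ blk j, (1 : ℝ) / p := sum_nonneg fun p _ => by positivity
        gcongr
        exact h0.trans hsum
    _ = _ := by ring

/-- the conjugated function -/
lemma uu_conj (g : ℕ → ℂ) {q : ℕ} [NeZero q] (χ : DirichletCharacter ℂ q) (t : ℝ) (p : ℕ) :
    uu (fun n => (starRingEnd ℂ) (g n)) χ⁻¹ (-t) p = (starRingEnd ℂ) (uu g χ t p) := by
  unfold uu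
  have h1 : χ⁻¹ (p : ZMod q) = (starRingEnd ℂ) (χ (p : ZMod q)) := (MulChar.star_apply' χ _).symm
  have h2 : tw (-t) p = (starRingEnd ℂ) (tw t p) := by
    unfold tw
    have e : Complex.I * ((-t : ℝ) : ℂ) = (starRingEnd ℂ) (Complex.I * (t : ℂ)) := by simp
    rw [e, Complex.cpow_conj _ _ (by rw [Complex.natCast_arg]; exact Real.pi_ne_zero.symm),
      Complex.conj_natCast]
  rw [h1, h2]
  simp only [map_mul]

lemma MB.conj {g : ℕ → ℂ} (hg : MB g) : MB (fun n => (starRingEnd ℂ) (g n)) where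
  one := by simp [hg.one]
  mul := fun m n h => by simp [hg.mul m n h]
  bdd := fun n => by rw [RCLike.norm_conj]; exact hg.bdd n

/-- shift invariance of means -/
lemma mean_shift (G : ℕ → ℂ) (hG : ∀ n, ‖G n‖ ≤ 1) (s : ℕ) :
    Tendsto (fun x : ℕ => (1 / (x : ℂ)) * ∑ m ∈ range x, G (m + s)) atTop (𝓝 0) ↔
    Tendsto (fun x : ℕ => (1 / (x : ℂ)) * ∑ m ∈ range x, G m) atTop (𝓝 0) := by
  have hdiff : Tendsto (fun x : ℕ => (1 / (x : ℂ)) * ∑ m ∈ range x, G (m + s)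
      - (1 / (x : ℂ)) * ∑ m ∈ range x, G m) atTop (𝓝 0) := by
    rw [tendsto_zero_iff_norm_tendsto_zero]
    have hlim : Tendsto (fun x : ℕ => (2 * (s : ℝ)) / x) atTop (𝓝 0) :=
      tendsto_const_div_atTop_nhds_zero_nat _
    refine squeeze_zero (fun _ => norm_nonneg _) (fun x => ?_) hlim
    rw [← mul_sub, norm_mul, norm_div, norm_one, Complex.norm_natCast, one_div, inv_mul_eq_div]
    have h1 : ∑ m ∈ range x, G (m + s) - ∑ m ∈ range x, G m
        = ∑ m ∈ range s, G (x + m) - ∑ m ∈ range s, G m := by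
      have a1 := sum_range_add G s x
      have a2 := sum_range_add G x s
      have a3 : ∑ m ∈ range x, G (s + m) = ∑ m ∈ range x, G (m + s) :=
        sum_congr rfl (fun m _ => by rw [add_comm])
      rw [add_comm s x, a2, a3] at a1
      linear_combination -a1
    rw [h1]
    gcongr
    refine (norm_sub_le _ _).trans ?_
    have b1 : ‖∑ m ∈ range s, G (x + m)‖ ≤ s := by
      refine (norm_sum_le _ _).trans ?_
      calc _ ≤ ∑ _m ∈ range s, (1 : ℝ) := sum_le_sum fun m _ => hG _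
        _ = s := by simp
    have b2 : ‖∑ m ∈ range s, G m‖ ≤ s := by
      refine (norm_sum_le _ _).trans ?_
      calc _ ≤ ∑ _m ∈ range s, (1 : ℝ) := sum_le_sum fun m _ => hG _
        _ = s := by simp
    linarith
  constructor
  · intro h
    have := h.sub hdiff
    simpa using this
  · intro h
    have := h.add hdiff
    simpa using this

end Pool.H2.Ell
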