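import Mathlib
import Pool.Agent.H2.EllAsm

set_option autoImplicit false

open Finset Filter Topology

namespace Pool.H2.Ell

variable {J : Type*} [Fintype J]

/-- coefficient -/
def cf (P Q : ℕ) : Bool → ℕ
  | true => P
  | false => Q

/-- function or its conjugate -/
noncomputable def fb (g : ℕ → ℂ) : Bool → ℕ → ℂ
  | true => g
  | false => fun n => (starRingEnd ℂ) (g n)

/-- character or its inverse -/
noncomputable def chb {q : ℕ} (χ : DirichletCharacter ℂ q) : Bool → DirichletCharacter ℂ q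
  | true => χ
  | false => χ⁻¹

/-- twist or its negative -/
def tb (t : ℝ) : Bool → ℝ
  | true => t
  | false => -t

/-- constant term -/
def bb (P Q m₀ : ℕ) (h : ℤ) (β : Bool) : ℕ := ((cf P Q β : ℤ) * m₀ + h).toNat

lemma bb_cast {P Q m₀ : ℕ} {h : ℤ} {β : Bool} (hP : 1 ≤ cf P Q β) (hm : |h| < m₀) :
    ((bb P Q m₀ h β : ℕ) : ℤ) = (cf P Q β : ℤ) * m₀ + h ∧ 1 ≤ bb P Q m₀ h β := by
  have h1 : (1 : ℤ) ≤ cf P Q β := by exact_mod_cast hP
  have h2 := abs_lt.1 hm
  have h3 : (m₀ : ℤ) ≤ (cf P Q β : ℤ) * m₀ := le_mul_of_one_le_left (by positivity) h1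
  unfold bb
  constructor
  · rw [Int.toNat_of_nonneg (by omega)]
  · omega

/-- the pair system -/
noncomputable def pairSys (g : J → ℕ → ℂ) (q : J → ℕ) (χ : ∀ i, DirichletCharacter ℂ (q i)) (t : J → ℝ)
    (h : J → ℤ) (hg : ∀ i, MB (g i)) (hq : ∀ i, 0 < q i) (hinj : Function.Injective h)
    (hne : ∀ i, h i ≠ 0) (m₀ P Q : ℕ) (hm : ∀ i, |h i| < m₀) (hP : P.Prime) (hQ : Q.Prime)
    (hPm : m₀ ≤ P) (hQm : m₀ ≤ Q) (hPQ : P ≠ Q) : Sys (J × Bool) where
  a := fun x => cf P Q x.2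
  b := fun x => bb P Q m₀ (h x.1) x.2
  f := fun x => fb (g x.1) x.2
  q := fun x => q x.1
  χ := fun x => chb (χ x.1) x.2
  t := fun x => tb (t x.1) x.2
  ha := by
    rintro ⟨i, β⟩
    cases β
    · exact hQ.one_lt.le
    · exact hP.one_lt.le
  hb := by
    rintro ⟨i, β⟩
    have h1 : 1 ≤ cf P Q β := by
      cases β
      · exact hQ.one_lt.le
      · exact hP.one_lt.le
    exact (bb_cast h1 (hm i)).2
  hab := by
    rintro ⟨i, β⟩ ⟨j, γ⟩ hij heq
    simp only at heq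
    have h1 : ∀ β, 1 ≤ cf P Q β := by
      intro β
      cases β
      · exact hQ.one_lt.le
      · exact hP.one_lt.le
    have h2 := (bb_cast (h1 β) (hm i)).1
    have h3 := (bb_cast (h1 γ) (hm j)).1
    have h4 : ((cf P Q β : ℕ) : ℤ) * bb P Q m₀ (h j) γ = (cf P Q γ : ℤ) * bb P Q m₀ (h i) β := by
      exact_mod_cast heq
    rw [h2, h3] at h4
    have h5 : ((cf P Q β : ℕ) : ℤ) * h j = (cf P Q γ : ℤ) * h i := by linarith
    have key : ∀ (A B : ℕ) (u v : ℤ), A.Prime → B.Prime → A ≠ B → m₀ ≤ A → |v| < m₀ →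
        (A : ℤ) * u = B * v → v = 0 := by
      intro A B u v hA hB hAB hmA hv he
      have hd : (A : ℤ) ∣ B * v := ⟨u, he.symm⟩
      have hc : IsCoprime (A : ℤ) (B : ℤ) := by
        rw [Nat.isCoprime_iff_coprime]; exact (Nat.coprime_primes hA hB).2 hAB
      have hd2 : (A : ℤ) ∣ v := hc.dvd_of_dvd_mul_left hd
      have : |v| < A := lt_of_lt_of_le hv (by exact_mod_cast hmA)
      exact Int.eq_zero_of_abs_lt_dvd hd2 this
    cases β <;> cases γ
    · simp only [cf] at h5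
      have hQ0 : (Q : ℤ) ≠ 0 := by exact_mod_cast hQ.ne_zero
      have := mul_left_cancel₀ hQ0 h5
      exact hij (by rw [hinj this])
    · simp only [cf] at h5
      exact hne i (key Q P (h j) (h i) hQ hP hPQ.symm hQm (hm i) h5)
    · simp only [cf] at h5
      exact hne i (key P Q (h j) (h i) hP hQ hPQ hPm (hm i) h5)
    · simp only [cf] at h5
      have hP0 : (P : ℤ) ≠ 0 := by exact_mod_cast hP.ne_zero
      have := mul_left_cancel₀ hP0 h5
      exact hij (by rw [hinj this])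
  hf := by
    rintro ⟨i, β⟩
    cases β
    · exact (hg i).conj
    · exact hg i
  hq := fun x => hq x.1

lemma uu_fb {q : ℕ} (hq : 0 < q) (g : ℕ → ℂ) (χ : DirichletCharacter ℂ q) (t : ℝ) (β : Bool) (p : ℕ) :
    ‖uu (fb g β) (chb χ β) (tb t β) p - 1‖ = ‖uu g χ t p - 1‖ := by
  haveI : NeZero q := ⟨hq.ne'⟩
  cases β
  · show ‖uu (fun n => (starRingEnd ℂ) (g n)) χ⁻¹ (-t) p - 1‖ = _
    rw [uu_conj]
    have : (starRingEnd ℂ) (uu g χ t p) - 1 = (starRingEnd ℂ) (uu g χ t p - 1) := by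
      rw [map_sub, map_one]
    rw [this, RCLike.norm_conj]
  · rfl

/-- the product of the slow functions -/
noncomputable def FF (g : J → ℕ → ℂ) (h : J → ℤ) (n : ℕ) : ℂ := ∏ i, g i ((n : ℤ) + h i).toNat

lemma norm_FF_le (g : J → ℕ → ℂ) (h : J → ℤ) (hg : ∀ i, MB (g i)) (n : ℕ) : ‖FF g h n‖ ≤ 1 := by
  unfold FF
  rw [norm_prod]
  exact prod_le_one (fun _ _ => norm_nonneg _) (fun i _ => (hg i).bdd _)

theorem pair_corr (g : J → ℕ → ℂ) (q : J → ℕ) (χ : ∀ i, DirichletCharacter ℂ (q i)) (t : J → ℝ)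
    (h : J → ℤ) (hg : ∀ i, MB (g i)) (hq : ∀ i, 0 < q i) (hinj : Function.Injective h)
    (hne : ∀ i, h i ≠ 0) (m₀ P Q : ℕ) (hm : ∀ i, |h i| < m₀) (hP : P.Prime) (hQ : Q.Prime)
    (hPm : m₀ ≤ P) (hQm : m₀ ≤ Q) (hPQ : P ≠ Q)
    (hslow : ∀ i, Tendsto (fun x : ℕ => dist2 (g i) (χ i) (t i) (x ^ 2) - dist2 (g i) (χ i) (t i) x)
      atTop (𝓝 0))
    (hdiv : ∃ i, Tendsto (dist2 (g i) (χ i) (t i)) atTop atTop) :
    Tendsto (fun x : ℕ => (1 / (x : ℂ)) * ∑ m ∈ range x, FF g h (P * m) * (starRingEnd ℂ) (FF g h (Q * m)))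
      atTop (𝓝 0) := by
  set D := pairSys g q χ t h hg hq hinj hne m₀ P Q hm hP hQ hPm hQm hPQ with hD
  have hbd : ∀ m, ‖FF g h (P * m) * (starRingEnd ℂ) (FF g h (Q * m))‖ ≤ 1 := by
    intro m
    rw [norm_mul, RCLike.norm_conj]
    exact mul_le_one₀ (norm_FF_le g h hg _) (norm_nonneg _) (norm_FF_le g h hg _)
  rw [← mean_shift _ hbd m₀]
  have hF : ∀ m, FF g h (P * (m + m₀)) * (starRingEnd ℂ) (FF g h (Q * (m + m₀))) = D.F m := by
    intro m
    unfold FF Sys.F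
    rw [map_prod, Fintype.prod_prod_type, ← prod_mul_distrib]
    apply prod_congr rfl
    intro i _
    rw [Fintype.prod_bool]
    have h1 : ∀ β, 1 ≤ cf P Q β := by
      intro β
      cases β
      · exact hQ.one_lt.le
      · exact hP.one_lt.le
    have eq1 : ∀ β, (((cf P Q β * (m + m₀) : ℕ) : ℤ) + h i).toNat = D.L (i, β) m := by
      intro β
      have h2 := (bb_cast (h1 β) (hm i)).1
      have h3 : (((cf P Q β * (m + m₀) : ℕ) : ℤ) + h i) = ((cf P Q β * m + bb P Q m₀ (h i) β : ℕ) : ℤ) := by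
        push_cast
        rw [h2]
        ring
      rw [h3, Int.toNat_natCast]
      rfl
    have e1 := eq1 true
    have e2 := eq1 false
    simp only [cf] at e1 e2
    rw [e1, e2]
    rfl
  simp only [hF]
  apply D.core
  · have h1 : ∀ x : J × Bool, Tendsto (fun j => ∑ p ∈ blk j, ‖D.al x p‖ / p) atTop (𝓝 0) := by
      rintro ⟨i, β⟩
      have h2 := slow_blocks (hg i).bdd (χ i) (t i) (hslow i)
      refine h2.congr (fun j => sum_congr rfl fun p _ => ?_)
      have h3 := uu_fb (hq i) (g i) (χ i) (t i) β p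
      show ‖uu (g i) (χ i) (t i) p - 1‖ / p = ‖uu (fb (g i) β) (chb (χ i) β) (tb (t i) β) p - 1‖ / p
      rw [h3]
    have h4 := tendsto_finsetSum (univ : Finset (J × Bool)) (fun x _ => h1 x)
    rw [sum_const_zero] at h4
    exact h4
  · obtain ⟨i, hi⟩ := hdiv
    refine ⟨(i, true), fun j₀ M => ?_⟩
    have hY : Tendsto Y atTop atTop := Y_strictMono.tendsto_atTop
    have h1 := (hi.comp hY).eventually_ge_atTop (M + dist2 (g i) (χ i) (t i) (Y j₀))
    obtain ⟨n₁, hn₁⟩ := eventually_atTop.1 h1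
    refine ⟨max n₁ j₀, fun n hn => ?_⟩
    have h2 := hn₁ n (le_trans (le_max_left _ _) hn)
    have h3 := dist2_sub (g i) (χ i) (t i) (le_trans (le_max_right _ _) hn : j₀ ≤ n)
    show M ≤ ∑ p ∈ rng j₀ n, (1 - (uu (g i) (χ i) (t i) p).re) / p
    rw [← h3]
    simp only [Function.comp] at h2
    linarith

end Pool.H2.Ell
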