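import Mathlib
import Pool.Agent.H2.EllPair

set_option autoImplicit false

open Finset Filter Topology

namespace Pool.H2.Ell

lemma MB_of {g : ArithmeticFunction ℂ} (hm : g.IsMultiplicative) (hb : ∀ n, ‖g n‖ ≤ 1) :
    MB (fun n => g n) where
  one := hm.map_one
  mul := fun _ _ h => hm.map_mul_of_coprime h
  bdd := hb

theorem mainB (k : ℕ) (g : Fin k → ArithmeticFunction ℂ)
    (hmul : ∀ i, (g i).IsMultiplicative) (hbd : ∀ i n, ‖g i n‖ ≤ 1) (i₀ : Fin k)
    (hslow : ∀ i, i ≠ i₀ → ∃ (q : ℕ) (χ : DirichletCharacter ℂ q) (t : ℝ), 0 < q ∧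
      Tendsto (fun x : ℕ => dist2 (g i) χ t (x ^ 2) - dist2 (g i) χ t x) atTop (𝓝 0))
    (hnp : ∃ j, j ≠ i₀ ∧ ∀ (q : ℕ) (χ : DirichletCharacter ℂ q) (t : ℝ), 0 < q →
      Tendsto (dist2 (g j) χ t) atTop atTop)
    (h : Fin k → ℤ) (hinj : Function.Injective h) :
    Tendsto (fun N : ℕ => (1 / (N : ℂ)) * ∑ n ∈ Finset.Icc 1 N, ∏ i, g i ((n : ℤ) + h i).toNat)
      atTop (𝓝 0) := by
  classical
  have hMB : ∀ i, MB (fun n => g i n) := fun i => MB_of (hmul i) (hbd i)
  have hsl : ∀ i : {i : Fin k // i ≠ i₀}, ∃ (q : ℕ) (χ : DirichletCharacter ℂ q) (t : ℝ), 0 < q ∧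
      Tendsto (fun x : ℕ => dist2 (g i) χ t (x ^ 2) - dist2 (g i) χ t x) atTop (𝓝 0) :=
    fun i => hslow i.1 i.2
  choose q χ t hq hs using hsl
  set h' : {i : Fin k // i ≠ i₀} → ℤ := fun i => h i.1 - h i₀ with hh'
  have hinj' : Function.Injective h' := by
    intro i j hij
    simp only [hh'] at hij
    exact Subtype.ext (hinj (by linarith))
  have hne' : ∀ i, h' i ≠ 0 := by
    intro i hi
    simp only [hh'] at hi
    exact i.2 (hinj (by linarith))
  set m₀ : ℕ := (∑ i, (h' i).natAbs) + 1 with hm₀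
  have hm : ∀ i, |h' i| < m₀ := by
    intro i
    have h1 : (h' i).natAbs ≤ ∑ i, (h' i).natAbs :=
      single_le_sum (f := fun i => (h' i).natAbs) (fun _ _ => Nat.zero_le _) (mem_univ i)
    rw [Int.abs_eq_natAbs, hm₀]
    exact_mod_cast Nat.lt_succ_of_le h1
  set G : {i : Fin k // i ≠ i₀} → ℕ → ℂ := fun i n => g i.1 n with hG
  have hGMB : ∀ i, MB (G i) := fun i => hMB i.1
  have hkat := katai (FF G h') (fun n => g i₀ n) (norm_FF_le G h' hGMB) (hMB i₀) m₀
    (fun P Q hP hQ hPm hQm hPQ => pair_corr G q χ t h' hGMB hq hinj' hne' m₀ P Q hm hP hQ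
      hPm.le hQm.le hPQ hs (by
        obtain ⟨j, hj, hjd⟩ := hnp
        exact ⟨⟨j, hj⟩, hjd _ _ _ (hq ⟨j, hj⟩)⟩))
  -- rewrite as a product over all indices
  set A : ℕ → ℂ := fun n => g i₀ n * FF G h' n with hA
  have hAb : ∀ n, ‖A n‖ ≤ 1 := by
    intro n
    rw [hA, norm_mul]
    exact mul_le_one₀ (hbd i₀ n) (norm_nonneg _) (norm_FF_le G h' hGMB n)
  set B : ℕ → ℂ := fun n => ∏ i, g i ((n : ℤ) + h i).toNat with hB
  have hBb : ∀ n, ‖B n‖ ≤ 1 := by
    intro n
    rw [hB, norm_prod]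
    exact prod_le_one (fun _ _ => norm_nonneg _) (fun i _ => hbd i _)
  have hsplit : ∀ (n : ℕ) (N : ℕ), (N : ℤ) = n + h i₀ → B n = A N := by
    intro n N hN
    simp only [hA, hB, FF, hG, hh']
    rw [Fintype.prod_eq_mul_prod_subtype_ne (fun i => g i ((n : ℤ) + h i).toNat) i₀, ← hN,
      Int.toNat_natCast]
    congr 1
    apply prod_congr rfl
    intro i _
    congr 2
    rw [hN]
    ring
  have hBlim : Tendsto (fun x : ℕ => (1 / (x : ℂ)) * ∑ n ∈ range x, B n) atTop (𝓝 0) := by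
    rcases le_total 0 (h i₀) with h0 | h0
    · obtain ⟨s, hs'⟩ := Int.eq_ofNat_of_zero_le h0
      have h1 : ∀ n, B n = A (n + s) := by
        intro n
        apply hsplit
        push_cast
        rw [hs']
      have h2 := (mean_shift A hAb s).2 hkat
      refine h2.congr (fun x => ?_)
      congr 1
      exact sum_congr rfl (fun n _ => (h1 n).symm)
    · obtain ⟨s, hs'⟩ := Int.eq_ofNat_of_zero_le (show 0 ≤ -(h i₀) by linarith)
      have h1 : ∀ n, B (n + s) = A n := by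
        intro n
        apply hsplit
        push_cast
        omega
      rw [← mean_shift B hBb s]
      refine hkat.congr (fun x => ?_)
      congr 1
      exact sum_congr rfl (fun n _ => (h1 n).symm)
  rw [← mean_shift B hBb 1] at hBlim
  refine hBlim.congr (fun x => ?_)
  congr 1
  rw [Finset.range_eq_Ico, Finset.sum_Ico_add' B 0 x 1]
  apply sum_congr _ (fun _ _ => rfl)
  ext n
  simp only [mem_Ico, mem_Icc]
  omega

end Pool.H2.Ell
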