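import Mathlib

set_option autoImplicit false

open Finset

namespace Pool.H2.Rand

/-- the primes exactly dividing `m` and not dividing `Δ` -/
def exactP (Δ m : ℕ) : Finset ℕ :=
  m.primeFactors.filter (fun p => m.factorization p = 1 ∧ ¬ p ∣ Δ)

/-- the square part -/
def dd (m : ℕ) : ℕ := ∏ p ∈ m.primeFactors, p ^ (m.factorization p / 2)

lemma dd_pos (m : ℕ) : 0 < dd m := by
  unfold dd
  apply Finset.prod_pos
  intro p hp
  exact pow_pos (Nat.prime_of_mem_primeFactors hp).pos _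

lemma dd_sq_dvd (m : ℕ) (hm : m ≠ 0) : dd m ^ 2 ∣ m := by
  have h1 : m = ∏ p ∈ m.primeFactors, p ^ (m.factorization p) := by
    conv_lhs => rw [← Nat.prod_factorization_pow_eq_self hm]
    rfl
  conv_rhs => rw [h1]
  unfold dd
  rw [← Finset.prod_pow]
  apply Finset.prod_dvd_prod_of_dvd
  intro p _
  rw [← pow_mul]
  apply pow_dvd_pow
  omega

lemma le_U_mul (Δ m : ℕ) (hΔ : Δ ≠ 0) (hm : m ≠ 0) :
    m ≤ (∏ p ∈ exactP Δ m, p) * Δ * dd m ^ 3 := by
  have h1 : m = ∏ p ∈ m.primeFactors, p ^ (m.factorization p) := by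
    conv_lhs => rw [← Nat.prod_factorization_pow_eq_self hm]
    rfl
  have h2 : ∏ p ∈ exactP Δ m, p
      = ∏ p ∈ m.primeFactors, (if m.factorization p = 1 ∧ ¬ p ∣ Δ then p else 1) := by
    unfold exactP
    rw [Finset.prod_filter]
  have h3 : ∏ p ∈ m.primeFactors, (if p ∣ Δ then p else 1) ≤ Δ := by
    rw [← Finset.prod_filter]
    apply Nat.le_of_dvd (Nat.pos_of_ne_zero hΔ)
    apply Finset.prod_primes_dvd
    · intro p hp
      exact (Nat.prime_of_mem_primeFactors (Finset.mem_filter.1 hp).1).prime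
    · intro p hp
      exact (Finset.mem_filter.1 hp).2
  calc m = ∏ p ∈ m.primeFactors, p ^ (m.factorization p) := h1
    _ ≤ ∏ p ∈ m.primeFactors, ((if m.factorization p = 1 ∧ ¬ p ∣ Δ then p else 1)
          * (if p ∣ Δ then p else 1) * (p ^ (m.factorization p / 2)) ^ 3) := by
        apply Finset.prod_le_prod' 
        intro p hp
        have hp1 : 1 ≤ p := (Nat.prime_of_mem_primeFactors hp).pos
        have hf : 1 ≤ m.factorization p := by
          have := (Nat.prime_of_mem_primeFactors hp).factorization_pos_of_dvd hm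
            (Nat.dvd_of_mem_primeFactors hp)
          omega
        by_cases h : m.factorization p = 1
        · rw [h]
          by_cases h' : p ∣ Δ
          · simp [h']
          · simp [h']
        · have h4 : m.factorization p ≤ (m.factorization p / 2) * 3 := by omega
          have h5 : p ^ (m.factorization p) ≤ (p ^ (m.factorization p / 2)) ^ 3 := by
            rw [← pow_mul]
            exact Nat.pow_le_pow_right hp1 h4
          have h6 : 1 ≤ (if m.factorization p = 1 ∧ ¬ p ∣ Δ then p else 1) := by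
            split_ifs <;> omega
          have h7 : 1 ≤ (if p ∣ Δ then p else 1) := by
            split_ifs <;> omega
          calc p ^ (m.factorization p) ≤ (p ^ (m.factorization p / 2)) ^ 3 := h5
            _ = 1 * 1 * (p ^ (m.factorization p / 2)) ^ 3 := by ring
            _ ≤ _ := by gcongr
    _ = (∏ p ∈ exactP Δ m, p) * (∏ p ∈ m.primeFactors, (if p ∣ Δ then p else 1)) * dd m ^ 3 := by
        rw [Finset.prod_mul_distrib, Finset.prod_mul_distrib, h2, Finset.prod_pow]
        rfl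
    _ ≤ _ := by gcongr

lemma card_le_of_modEq (N u : ℕ) (T : Finset ℕ) (hT : T ⊆ range N)
    (h : ∀ x ∈ T, ∀ y ∈ T, x ≡ y [MOD u]) : T.card ≤ N / u + 1 := by
  have : T.card ≤ (range (N / u + 1)).card := by
    apply card_le_card_of_injOn (fun x => x / u)
    · intro x hx
      have h1 := mem_range.1 (hT hx)
      have h2 := Nat.div_le_div_right (c := u) h1.le
      simp only [coe_range, Set.mem_Iio]
      omega
    · intro x hx y hy hxy
      have h1 : x % u = y % u := h x hx y hy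
      have hxy' : x / u = y / u := hxy
      calc x = u * (x / u) + x % u := (Nat.div_add_mod x u).symm
        _ = u * (y / u) + y % u := by rw [hxy', h1]
        _ = y := Nat.div_add_mod y u
  simpa using this

lemma dvd_sub_of_forms {a b p x y : ℕ} (hp : p.Prime) (hpa : ¬ p ∣ a) (_hxy : x ≤ y)
    (h1 : p ∣ a * x + b) (h2 : p ∣ a * y + b) : p ∣ y - x := by
  have h3 : p ∣ (a * y + b) - (a * x + b) := Nat.dvd_sub h2 h1
  have h4 : (a * y + b) - (a * x + b) = a * (y - x) := by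
    rw [Nat.mul_sub]; omega
  rw [h4] at h3
  exact (hp.dvd_mul.1 h3).resolve_left hpa

lemma card_bad {σ : Type*} [Fintype σ] [DecidableEq σ] (a b : σ → ℕ) (Q : Finset ℕ)
    (hQ : ∀ p ∈ Q, p.Prime) (ha : ∀ p ∈ Q, ∀ s, ¬ p ∣ a s) (N : ℕ) :
    ((range N).filter (fun n => ∀ p ∈ Q, ∃ s, p ∣ a s * n + b s)).card
      ≤ (Fintype.card σ) ^ Q.card * (N / (∏ p ∈ Q, p) + 1) := by
  classical
  have hsub : (range N).filter (fun n => ∀ p ∈ Q, ∃ s, p ∣ a s * n + b s)
      ⊆ (univ : Finset (Q → σ)).biUnion (fun φ => (range N).filter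
        (fun n => ∀ p : Q, (p : ℕ) ∣ a (φ p) * n + b (φ p))) := by
    intro n hn
    simp only [mem_filter, mem_biUnion, mem_univ, true_and] at hn ⊢
    obtain ⟨hn1, hn2⟩ := hn
    choose f hf using hn2
    exact ⟨fun p => f p.1 p.2, hn1, fun p => hf p.1 p.2⟩
  refine (card_le_card hsub).trans (card_biUnion_le.trans ?_)
  calc ∑ φ : Q → σ, ((range N).filter (fun n => ∀ p : Q, (p : ℕ) ∣ a (φ p) * n + b (φ p))).card
      ≤ ∑ _φ : Q → σ, (N / (∏ p ∈ Q, p) + 1) := by
        apply sum_le_sum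
        intro φ _
        apply card_le_of_modEq _ _ _ (filter_subset _ _)
        have key : ∀ x y : ℕ, x ≤ y → (∀ p : Q, (p : ℕ) ∣ a (φ p) * x + b (φ p)) →
            (∀ p : Q, (p : ℕ) ∣ a (φ p) * y + b (φ p)) → x ≡ y [MOD ∏ p ∈ Q, p] := by
          intro x y hxy hx hy
          rw [Nat.modEq_iff_dvd' hxy]
          apply Finset.prod_primes_dvd
          · intro p hp; exact (hQ p hp).prime
          · intro p hp
            exact dvd_sub_of_forms (hQ p hp) (ha p hp _) hxy (hx ⟨p, hp⟩) (hy ⟨p, hp⟩)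
        intro x hx y hy
        have hx' := (mem_filter.1 hx).2
        have hy' := (mem_filter.1 hy).2
        rcases le_total x y with h | h
        · exact key x y h hx' hy'
        · exact (key y x h hy' hx').symm
    _ = _ := by
        rw [sum_const, card_univ, Fintype.card_fun, Fintype.card_coe, smul_eq_mul]

lemma card_sq_dvd (a b d N T : ℕ) (ha : 0 < a) (hb : 0 < b) (hd : 0 < d)
    (hT : ∀ n < N, a * n + b ≤ T) :
    ((range N).filter (fun n => d ^ 2 ∣ a * n + b)).card ≤ T / d ^ 2 := by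
  have : ((range N).filter (fun n => d ^ 2 ∣ a * n + b)).card ≤ (Icc 1 (T / d ^ 2)).card := by
    apply card_le_card_of_injOn (fun n => (a * n + b) / d ^ 2)
    · intro n hn
      simp only [coe_filter, mem_range, Set.mem_ofPred_eq] at hn
      simp only [coe_Icc, Set.mem_Icc]
      constructor
      · apply Nat.div_pos _ (by positivity)
        exact Nat.le_of_dvd (by omega) hn.2
      · exact Nat.div_le_div_right (hT n hn.1)
    · intro n hn m hm hnm
      simp only [coe_filter, mem_range, Set.mem_ofPred_eq] at hn hm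
      have h1 : (a * n + b) / d ^ 2 * d ^ 2 = a * n + b := Nat.div_mul_cancel hn.2
      have h2 : (a * m + b) / d ^ 2 * d ^ 2 = a * m + b := Nat.div_mul_cancel hm.2
      have h3 : (a * n + b) / d ^ 2 = (a * m + b) / d ^ 2 := hnm
      rw [h3, h2] at h1
      have h4 : a * m = a * n := by omega
      exact (Nat.eq_of_mul_eq_mul_left ha h4).symm
  simpa using this


lemma sum_T_div (T M Δ : ℕ) (hM : 0 < M) (hΔ : 0 < Δ) :
    ∑ d ∈ (range (T + 1)).filter (fun d => M ^ 2 ≤ Δ * d), ((T / d ^ 2 : ℕ) : ℝ)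
      ≤ T * (2 * Δ / (M : ℝ) ^ 2) := by
  set k := (M ^ 2 - 1) / Δ with hk
  have hM2 : 1 ≤ M ^ 2 := Nat.one_le_iff_ne_zero.2 (by positivity)
  have h1 : (range (T + 1)).filter (fun d => M ^ 2 ≤ Δ * d) ⊆ Ioo k (T + 1) := by
    intro d hd
    rw [mem_filter, mem_range] at hd
    rw [mem_Ioo]
    refine ⟨?_, hd.1⟩
    by_contra hcon
    push Not at hcon
    have h2 : Δ * d ≤ Δ * k := by gcongr
    have h3 : Δ * k ≤ M ^ 2 - 1 := Nat.mul_div_le _ _
    omega
  have h2 : M ^ 2 ≤ Δ * (k + 1) := by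
    have := Nat.lt_mul_div_succ (M ^ 2 - 1) hΔ
    rw [← hk] at this
    omega
  have h3 : 2 / ((k : ℝ) + 1) ≤ 2 * Δ / (M : ℝ) ^ 2 := by
    have h4 : ((M : ℝ)) ^ 2 ≤ Δ * (k + 1) := by exact_mod_cast h2
    have hMr : (0 : ℝ) < (M : ℝ) ^ 2 := by positivity
    rw [div_le_div_iff₀ (by positivity) hMr]
    nlinarith
  calc ∑ d ∈ (range (T + 1)).filter (fun d => M ^ 2 ≤ Δ * d), ((T / d ^ 2 : ℕ) : ℝ)
      ≤ ∑ d ∈ Ioo k (T + 1), ((T / d ^ 2 : ℕ) : ℝ) :=
        sum_le_sum_of_subset_of_nonneg h1 (fun _ _ _ => by positivity)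
    _ ≤ ∑ d ∈ Ioo k (T + 1), (T : ℝ) * ((d : ℝ) ^ 2)⁻¹ := by
        apply sum_le_sum
        intro d _
        refine (Nat.cast_div_le).trans ?_
        rw [div_eq_mul_inv]
        push_cast
        exact le_rfl
    _ = T * ∑ d ∈ Ioo k (T + 1), ((d : ℝ) ^ 2)⁻¹ := by rw [mul_sum]
    _ ≤ T * (2 / ((k : ℝ) + 1)) := by
        gcongr
        exact sum_Ioo_inv_sq_le k (T + 1)
    _ ≤ _ := by gcongr

/-- `n` for which the exact part of `a n + b` is small are rare -/
lemma card_small (a b Δ M : ℕ) (ha : 0 < a) (hb : 0 < b) (hΔ : 0 < Δ) (hM : 0 < M) :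
    (((range (M ^ 12)).filter (fun n => ∏ p ∈ exactP Δ (a * n + b), p < M ^ 4)).card : ℝ)
      ≤ (1 + 2 * Δ * (a + b)) * ((M : ℝ) ^ 12 / M ^ 2) := by
  classical
  set N := M ^ 12 with hN
  set T := (a + b) * N with hT
  have hN1 : 1 ≤ N := Nat.one_le_iff_ne_zero.2 (by positivity)
  have hTn : ∀ n < N, a * n + b ≤ T := by
    intro n hn
    rw [hT]
    calc a * n + b ≤ a * N + b * N := by
          have h1 : a * n ≤ a * N := by gcongr
          have h2 : b * 1 ≤ b * N := by gcongr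
          omega
      _ = _ := by ring
  have hsub : (range N).filter (fun n => ∏ p ∈ exactP Δ (a * n + b), p < M ^ 4)
      ⊆ range (M ^ 10) ∪ ((range (T + 1)).filter (fun d => M ^ 2 ≤ Δ * d)).biUnion
        (fun d => (range N).filter (fun n => d ^ 2 ∣ a * n + b)) := by
    intro n hn
    rw [mem_filter, mem_range] at hn
    obtain ⟨hn1, hn2⟩ := hn
    rw [mem_union]
    by_cases h10 : n < M ^ 10
    · left; exact mem_range.2 h10
    · right
      push Not at h10
      have hm0 : a * n + b ≠ 0 := by omega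
      have hbig : M ^ 10 ≤ a * n + b := by
        have : 1 * n ≤ a * n := by gcongr; omega
        omega
      have h1 := le_U_mul Δ (a * n + b) hΔ.ne' hm0
      set d := dd (a * n + b) with hd
      have hd0 : 0 < d := dd_pos _
      have h2 : M ^ 10 ≤ M ^ 4 * Δ * d ^ 3 := by
        calc M ^ 10 ≤ _ := hbig
          _ ≤ _ := h1
          _ ≤ M ^ 4 * Δ * d ^ 3 := by gcongr
      have h3 : M ^ 6 ≤ Δ * d ^ 3 := by
        have h4 : M ^ 4 * M ^ 6 ≤ M ^ 4 * (Δ * d ^ 3) := by
          calc M ^ 4 * M ^ 6 = M ^ 10 := by ring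
            _ ≤ _ := h2
            _ = _ := by ring
        exact Nat.le_of_mul_le_mul_left h4 (by positivity)
      have h5 : (M ^ 2) ^ 3 ≤ (Δ * d) ^ 3 := by
        calc (M ^ 2) ^ 3 = M ^ 6 := by ring
          _ ≤ Δ * d ^ 3 := h3
          _ ≤ Δ ^ 3 * d ^ 3 := by
              gcongr
              calc Δ = Δ ^ 1 := by ring
                _ ≤ Δ ^ 3 := Nat.pow_le_pow_right hΔ (by norm_num)
          _ = _ := by ring
      have h6 : M ^ 2 ≤ Δ * d := le_of_pow_le_pow_left₀ (by norm_num) (by positivity) h5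
      have hdvd := dd_sq_dvd (a * n + b) hm0
      rw [mem_biUnion]
      refine ⟨d, ?_, ?_⟩
      · rw [mem_filter, mem_range]
        refine ⟨?_, h6⟩
        have h7 : d ^ 2 ≤ a * n + b := Nat.le_of_dvd (by omega) hdvd
        have h8 := hTn n hn1
        have h9 : d ≤ d ^ 2 := by nlinarith
        omega
      · rw [mem_filter, mem_range]
        exact ⟨hn1, hdvd⟩
  have hcard : (((range N).filter (fun n => ∏ p ∈ exactP Δ (a * n + b), p < M ^ 4)).card : ℝ)
      ≤ (M : ℝ) ^ 10 + T * (2 * Δ / (M : ℝ) ^ 2) := by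
    calc (((range N).filter (fun n => ∏ p ∈ exactP Δ (a * n + b), p < M ^ 4)).card : ℝ)
        ≤ ((range (M ^ 10) ∪ ((range (T + 1)).filter (fun d => M ^ 2 ≤ Δ * d)).biUnion
        (fun d => (range N).filter (fun n => d ^ 2 ∣ a * n + b))).card : ℝ) := by
          exact_mod_cast card_le_card hsub
      _ ≤ ((range (M ^ 10)).card : ℝ) + ((((range (T + 1)).filter (fun d => M ^ 2 ≤ Δ * d)).biUnion
        (fun d => (range N).filter (fun n => d ^ 2 ∣ a * n + b))).card : ℝ) := by
          exact_mod_cast card_union_le _ _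
      _ ≤ (M : ℝ) ^ 10 + ∑ d ∈ (range (T + 1)).filter (fun d => M ^ 2 ≤ Δ * d), ((T / d ^ 2 : ℕ) : ℝ) := by
          apply add_le_add
          · simp
          · calc ((((range (T + 1)).filter (fun d => M ^ 2 ≤ Δ * d)).biUnion
                (fun d => (range N).filter (fun n => d ^ 2 ∣ a * n + b))).card : ℝ)
                ≤ ∑ d ∈ (range (T + 1)).filter (fun d => M ^ 2 ≤ Δ * d),
                  (((range N).filter (fun n => d ^ 2 ∣ a * n + b)).card : ℝ) := by
                  exact_mod_cast card_biUnion_le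
              _ ≤ _ := by
                  apply sum_le_sum
                  intro d hd
                  have hd0 : 0 < d := by
                    rcases Nat.eq_zero_or_pos d with h | h
                    · rw [h] at hd
                      simp at hd
                      omega
                    · exact h
                  exact_mod_cast card_sq_dvd a b d N T ha hb hd0 hTn
      _ ≤ _ := by
          gcongr
          exact sum_T_div T M Δ hM hΔ
  refine hcard.trans (le_of_eq ?_)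
  have hMr : (M : ℝ) ≠ 0 := by exact_mod_cast hM.ne'
  rw [hT, hN]
  push_cast
  field_simp

lemma exactP_prod_le (Δ m : ℕ) (hm : m ≠ 0) : ∏ p ∈ exactP Δ m, p ≤ m := by
  apply Nat.le_of_dvd (Nat.pos_of_ne_zero hm)
  apply Finset.prod_primes_dvd
  · intro p hp
    exact (Nat.prime_of_mem_primeFactors (Finset.mem_filter.1 hp).1).prime
  · intro p hp
    exact Nat.dvd_of_mem_primeFactors (Finset.mem_filter.1 hp).1

lemma count_n {σ : Type*} [Fintype σ] [DecidableEq σ] (a b : σ → ℕ) (Q : Finset ℕ)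
    (hQ : ∀ p ∈ Q, p.Prime) (ha : ∀ p ∈ Q, ∀ s, ¬ p ∣ a s)
    (hr : ∀ p ∈ Q, (Fintype.card σ) ^ 2 ≤ p) (M K : ℕ) (hM : 0 < M)
    (hu : M ^ 4 ≤ ∏ p ∈ Q, p) (hm : ∏ p ∈ Q, p ≤ K ^ 2 * M ^ 12) :
    (((range (M ^ 12)).filter (fun n => ∀ p ∈ Q, ∃ s, p ∣ a s * n + b s)).card : ℝ)
      ≤ (1 + K) * ((M : ℝ) ^ 12 / M ^ 2) := by
  set u := ∏ p ∈ Q, p with hudef
  set R := (Fintype.card σ) ^ Q.card with hR
  have hMr : (0 : ℝ) < M := by exact_mod_cast hM
  have hM1 : (1 : ℝ) ≤ M := by exact_mod_cast hM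
  have hu0 : 0 < u := lt_of_lt_of_le (by positivity) hu
  have hur : (0 : ℝ) < u := by exact_mod_cast hu0
  have hR2 : R ^ 2 ≤ u := by
    rw [hR, ← pow_mul, mul_comm, pow_mul]
    exact Finset.pow_card_le_prod _ _ _ hr
  have hRs : (R : ℝ) ≤ √u := by
    apply Real.le_sqrt_of_sq_le
    exact_mod_cast hR2
  have hs0 : 0 < √(u : ℝ) := Real.sqrt_pos.2 hur
  have hsM : (M : ℝ) ^ 2 ≤ √u := by
    apply Real.le_sqrt_of_sq_le
    have : ((M : ℝ) ^ 2) ^ 2 = (M : ℝ) ^ 4 := by ring
    rw [this]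
    exact_mod_cast hu
  have hsK : √(u : ℝ) ≤ K * M ^ 6 := by
    apply Real.sqrt_le_iff.2
    refine ⟨by positivity, ?_⟩
    have : ((K : ℝ) * M ^ 6) ^ 2 = (K : ℝ) ^ 2 * M ^ 12 := by ring
    rw [this]
    exact_mod_cast hm
  have hcount := card_bad a b Q hQ ha (M ^ 12)
  have h1 : (((range (M ^ 12)).filter (fun n => ∀ p ∈ Q, ∃ s, p ∣ a s * n + b s)).card : ℝ)
      ≤ R * ((M : ℝ) ^ 12 / u + 1) := by
    calc (((range (M ^ 12)).filter (fun n => ∀ p ∈ Q, ∃ s, p ∣ a s * n + b s)).card : ℝ)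
        ≤ ((R * (M ^ 12 / u + 1) : ℕ) : ℝ) := by exact_mod_cast hcount
      _ ≤ _ := by
          push_cast
          gcongr
          refine (Nat.cast_div_le).trans ?_
          push_cast
          exact le_rfl
  have h2 : (M : ℝ) ^ 6 ≤ (M : ℝ) ^ 12 / M ^ 2 := by
    rw [le_div_iff₀ (by positivity)]
    calc (M : ℝ) ^ 6 * M ^ 2 = (M : ℝ) ^ 8 := by ring
      _ ≤ (M : ℝ) ^ 12 := pow_le_pow_right₀ hM1 (by norm_num)
  calc _ ≤ (R : ℝ) * ((M : ℝ) ^ 12 / u + 1) := h1
    _ ≤ √u * ((M : ℝ) ^ 12 / u + 1) := by gcongr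
    _ = (M : ℝ) ^ 12 / √u + √u := by
        have h3 : √(u : ℝ) * √(u : ℝ) = u := Real.mul_self_sqrt hur.le
        have h4 : √(u : ℝ) * ((M : ℝ) ^ 12 / u) = (M : ℝ) ^ 12 / √u := by
          rw [← mul_div_assoc, div_eq_div_iff hur.ne' hs0.ne']
          rw [mul_comm (√(u : ℝ)), mul_assoc, h3]
        rw [mul_add, h4, mul_one]
    _ ≤ (M : ℝ) ^ 12 / M ^ 2 + K * M ^ 6 := by gcongr
    _ ≤ (M : ℝ) ^ 12 / M ^ 2 + K * ((M : ℝ) ^ 12 / M ^ 2) := by gcongr
    _ = _ := by ring

/-- the number of bad pairs -/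
theorem count_pairs {σ : Type*} [Fintype σ] [DecidableEq σ] (a b : σ → ℕ) (ha : ∀ s, 0 < a s)
    (hb : ∀ s, 0 < b s) (s₀ : σ) (Δ : ℕ) (hΔ : 0 < Δ)
    (hΔa : ∀ p : ℕ, p.Prime → ¬ p ∣ Δ → ∀ s, ¬ p ∣ a s)
    (hΔr : ∀ p : ℕ, p.Prime → ¬ p ∣ Δ → (Fintype.card σ) ^ 2 ≤ p) :
    ∃ C : ℝ, 0 ≤ C ∧ ∀ M : ℕ, 0 < M →
      ∑ n ∈ range (M ^ 12), (((range (M ^ 12)).filter
        (fun n' => ∀ p ∈ exactP Δ (a s₀ * n + b s₀), ∃ s, p ∣ a s * n' + b s)).card : ℝ)
      ≤ C * (((M : ℝ) ^ 12) ^ 2 / M ^ 2) := by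
  set A := a s₀
  set B := b s₀
  set K := A + B with hK
  refine ⟨(1 + K) + (1 + 2 * Δ * (A + B)), by positivity, fun M hM => ?_⟩
  have hMr : (0 : ℝ) < M := by exact_mod_cast hM
  have hM1 : 1 ≤ M ^ 12 := Nat.one_le_iff_ne_zero.2 (by positivity)
  set f : ℕ → ℝ := fun n => (((range (M ^ 12)).filter
        (fun n' => ∀ p ∈ exactP Δ (A * n + B), ∃ s, p ∣ a s * n' + b s)).card : ℝ) with hf
  have hfN : ∀ n, f n ≤ (M : ℝ) ^ 12 := by
    intro n
    rw [hf]
    have := card_filter_le (range (M ^ 12))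
      (fun n' => ∀ p ∈ exactP Δ (A * n + B), ∃ s, p ∣ a s * n' + b s)
    rw [card_range] at this
    have h2 : ((((range (M ^ 12)).filter
        (fun n' => ∀ p ∈ exactP Δ (A * n + B), ∃ s, p ∣ a s * n' + b s)).card : ℕ) : ℝ)
        ≤ ((M ^ 12 : ℕ) : ℝ) := by exact_mod_cast this
    simpa using h2
  have hsplit := sum_filter_add_sum_filter_not (range (M ^ 12))
    (fun n => ∏ p ∈ exactP Δ (A * n + B), p < M ^ 4) f
  rw [← hsplit]
  have h1 : ∑ n ∈ (range (M ^ 12)).filter (fun n => ∏ p ∈ exactP Δ (A * n + B), p < M ^ 4), f n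
      ≤ (1 + 2 * Δ * (A + B)) * (((M : ℝ) ^ 12) ^ 2 / M ^ 2) := by
    calc _ ≤ ∑ n ∈ (range (M ^ 12)).filter (fun n => ∏ p ∈ exactP Δ (A * n + B), p < M ^ 4),
          (M : ℝ) ^ 12 := sum_le_sum fun n _ => hfN n
      _ = (((range (M ^ 12)).filter
            (fun n => ∏ p ∈ exactP Δ (A * n + B), p < M ^ 4)).card : ℝ) * (M : ℝ) ^ 12 := by
          rw [sum_const, nsmul_eq_mul]
      _ ≤ ((1 + 2 * Δ * (A + B)) * ((M : ℝ) ^ 12 / M ^ 2)) * (M : ℝ) ^ 12 := by
          gcongr
          exact card_small A B Δ M (ha s₀) (hb s₀) hΔ hM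
      _ = _ := by ring
  have h2 : ∑ n ∈ (range (M ^ 12)).filter (fun n => ¬ ∏ p ∈ exactP Δ (A * n + B), p < M ^ 4), f n
      ≤ (1 + K) * (((M : ℝ) ^ 12) ^ 2 / M ^ 2) := by
    calc _ ≤ ∑ n ∈ (range (M ^ 12)).filter (fun n => ¬ ∏ p ∈ exactP Δ (A * n + B), p < M ^ 4),
          (1 + (K : ℝ)) * ((M : ℝ) ^ 12 / M ^ 2) := by
          apply sum_le_sum
          intro n hn
          rw [mem_filter, mem_range] at hn
          obtain ⟨hn1, hn2⟩ := hn
          push Not at hn2
          have hm0 : A * n + B ≠ 0 := by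
            have := hb s₀
            omega
          apply count_n a b _ _ _ _ M K hM hn2
          · calc _ ≤ A * n + B := exactP_prod_le _ _ hm0
              _ ≤ A * M ^ 12 + B * M ^ 12 := by
                  have h1 : A * n ≤ A * M ^ 12 := by gcongr
                  have h2 : B * 1 ≤ B * M ^ 12 := by gcongr
                  omega
              _ = K * M ^ 12 := by rw [hK]; ring
              _ ≤ K ^ 2 * M ^ 12 := by
                  gcongr
                  have : 1 ≤ K := by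
                    have := hb s₀
                    omega
                  nlinarith
          · intro p hp
            exact Nat.prime_of_mem_primeFactors (Finset.mem_filter.1 hp).1
          · intro p hp
            have h3 := (Finset.mem_filter.1 hp)
            exact hΔa p (Nat.prime_of_mem_primeFactors h3.1) h3.2.2
          · intro p hp
            have h3 := (Finset.mem_filter.1 hp)
            exact hΔr p (Nat.prime_of_mem_primeFactors h3.1) h3.2.2
      _ = (((range (M ^ 12)).filter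
            (fun n => ¬ ∏ p ∈ exactP Δ (A * n + B), p < M ^ 4)).card : ℝ)
            * ((1 + (K : ℝ)) * ((M : ℝ) ^ 12 / M ^ 2)) := by
          rw [sum_const, nsmul_eq_mul]
      _ ≤ (M : ℝ) ^ 12 * ((1 + (K : ℝ)) * ((M : ℝ) ^ 12 / M ^ 2)) := by
          gcongr
          have := card_filter_le (range (M ^ 12))
            (fun n => ¬ ∏ p ∈ exactP Δ (A * n + B), p < M ^ 4)
          rw [card_range] at this
          exact_mod_cast this
      _ = _ := by ring
  calc _ ≤ (1 + 2 * Δ * (A + B)) * (((M : ℝ) ^ 12) ^ 2 / M ^ 2)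
        + (1 + K) * (((M : ℝ) ^ 12) ^ 2 / M ^ 2) := add_le_add h1 h2
    _ = _ := by ring

end Pool.H2.Rand
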