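import Mathlib
import Pool.Agent.H2.RandCount

set_option autoImplicit false

open Finset Filter Topology MeasureTheory ProbabilityTheory

namespace Pool.H2.Rand

/-- a family of random multiplicative functions -/
structure RandMult {Ω : Type*} [MeasurableSpace Ω] (μ : Measure Ω) {ι : Type*}
    (F : ι → Ω → ArithmeticFunction ℂ) : Prop where
  mul : ∀ i ω, (F i ω).IsMultiplicative
  bd : ∀ i ω n, ‖F i ω n‖ ≤ 1
  meas : ∀ i n, Measurable (fun ω => F i ω n)
  ind : iIndepFun (fun (p : Nat.Primes) (ω : Ω) (x : ι × ℕ) => F x.1 ω ((p : ℕ) ^ x.2)) μ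

section
variable {Ω : Type*} [mΩ : MeasurableSpace Ω] {μ : Measure Ω} {ι : Type*}
  {F : ι → Ω → ArithmeticFunction ℂ}

/-- the data at the prime `p` -/
def comp (F : ι → Ω → ArithmeticFunction ℂ) (p : Nat.Primes) (ω : Ω) (x : ι × ℕ) : ℂ :=
  F x.1 ω ((p : ℕ) ^ x.2)

/-- sigma algebra generated by the data at the primes other than `P` -/
@[reducible] noncomputable def sig (F : ι → Ω → ArithmeticFunction ℂ) (P : Nat.Primes) : MeasurableSpace Ω :=
  ⨆ q ∈ ({q | q ≠ P} : Set Nat.Primes), MeasurableSpace.comap (comp F q) inferInstance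

lemma comap_comp_le (hF : RandMult μ F) (q : Nat.Primes) :
    MeasurableSpace.comap (comp F q) inferInstance ≤ mΩ := by
  apply Measurable.comap_le
  apply measurable_pi_lambda
  intro x
  exact hF.meas x.1 _

lemma sig_le (hF : RandMult μ F) (P : Nat.Primes) : sig F P ≤ mΩ := by
  unfold sig
  exact iSup₂_le fun q _ => comap_comp_le hF q

lemma indep_sig [IsProbabilityMeasure μ] (hF : RandMult μ F) (P : Nat.Primes) :
    Indep (MeasurableSpace.comap (comp F P) inferInstance) (sig F P) μ := by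
  have h1 : iIndep (fun p : Nat.Primes => MeasurableSpace.comap (comp F p) inferInstance) μ :=
    (iIndepFun_iff_iIndep _ _ _).1 hF.ind
  have h2 := indep_iSup_of_disjoint (fun p => comap_comp_le hF p) h1
    (S := {P}) (T := {q | q ≠ P}) (by
      rw [Set.disjoint_left]
      intro x hx hx'
      exact hx' hx)
  have h3 : (⨆ i ∈ ({P} : Set Nat.Primes), MeasurableSpace.comap (comp F i) inferInstance)
      = MeasurableSpace.comap (comp F P) inferInstance := by
    simp
  rw [h3] at h2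
  exact h2

omit mΩ in
lemma meas_prime_pow (i : ι) (P q : Nat.Primes) (hq : q ≠ P) (k : ℕ) :
    Measurable[sig F P] (fun ω => F i ω ((q : ℕ) ^ k)) := by
  have h1 : Measurable[MeasurableSpace.comap (comp F q) inferInstance]
      (fun ω => F i ω ((q : ℕ) ^ k)) := by
    have h2 : Measurable[MeasurableSpace.comap (comp F q) inferInstance] (comp F q) :=
      comap_measurable _
    exact (measurable_pi_apply (i, k)).comp h2
  refine h1.mono ?_ le_rfl
  unfold sig
  exact le_iSup₂_of_le q hq le_rfl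

lemma meas_of_not_dvd (hF : RandMult μ F) (i : ι) (P : Nat.Primes) (m : ℕ) (hm : ¬ (P : ℕ) ∣ m) :
    Measurable[sig F P] (fun ω => F i ω m) := by
  have hm0 : m ≠ 0 := by
    rintro rfl
    exact hm (dvd_zero _)
  have h1 : (fun ω => F i ω m)
      = fun ω => ∏ q ∈ m.primeFactors, F i ω (q ^ (m.factorization q)) := by
    funext ω
    exact (hF.mul i ω).multiplicative_factorization _ hm0
  rw [h1]
  apply Finset.measurable_fun_prod
  intro q hq
  have hqp := Nat.prime_of_mem_primeFactors hq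
  exact meas_prime_pow i P ⟨q, hqp⟩ (by
    intro h
    apply hm
    rw [← h]
    exact Nat.dvd_of_mem_primeFactors hq) _

lemma integral_zero [IsProbabilityMeasure μ] (hF : RandMult μ F) (i : ι) (P : Nat.Primes)
    (hP : ∫ ω, F i ω (P : ℕ) ∂μ = 0) (m : ℕ) (hm0 : m ≠ 0) (hm : m.factorization P = 1)
    (R : Ω → ℂ) (hR : Measurable[sig F P] R) :
    ∫ ω, F i ω m * R ω ∂μ = 0 := by
  obtain ⟨m', hm'⟩ : (P : ℕ) ∣ m := by
    apply Nat.dvd_of_factorization_pos
    omega
  have hnd : ¬ (P : ℕ) ∣ m' := by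
    intro h
    obtain ⟨m'', hm''⟩ := h
    have h2 : (P : ℕ) ^ 2 ∣ m := ⟨m'', by rw [hm', hm'']; ring⟩
    have h3 := (P.2.pow_dvd_iff_le_factorization hm0).1 h2
    omega
  have hcop : Nat.Coprime (P : ℕ) m' := (Nat.Prime.coprime_iff_not_dvd P.2).2 hnd
  have h1 : ∀ ω, F i ω m * R ω = F i ω (P : ℕ) * (F i ω m' * R ω) := by
    intro ω
    rw [hm', (hF.mul i ω).map_mul_of_coprime hcop]
    ring
  simp_rw [h1]
  have hR2 : Measurable[sig F P] (fun ω => F i ω m' * R ω) :=
    (meas_of_not_dvd hF i P m' hnd).mul hR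
  have hind : IndepFun (fun ω => F i ω (P : ℕ)) (fun ω => F i ω m' * R ω) μ := by
    rw [IndepFun_iff_Indep]
    refine indep_of_indep_of_le_left (indep_of_indep_of_le_right (indep_sig hF P) ?_) ?_
    · exact hR2.comap_le
    · have h2 : Measurable[MeasurableSpace.comap (comp F P) inferInstance]
          (fun ω => F i ω (P : ℕ)) := by
        have h3 : Measurable[MeasurableSpace.comap (comp F P) inferInstance] (comp F P) :=
          comap_measurable _
        have h4 := (measurable_pi_apply (i, 1)).comp h3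
        have h5 : (fun ω => F i ω (P : ℕ)) = (fun b : ι × ℕ → ℂ => b (i, 1)) ∘ comp F P := by
          funext ω
          simp [comp]
        rw [h5]
        exact h4
      exact h2.comap_le
  rw [hind.integral_fun_mul_eq_mul_integral]
  · have : μ[fun ω => F i ω (P : ℕ)] = 0 := hP
    rw [this, zero_mul]
  · exact (hF.meas i _).aestronglyMeasurable
  · exact (hR2.mono (sig_le hF P) le_rfl).aestronglyMeasurable

/-- the product of the random factors -/
noncomputable def XX {σ : Type*} [Fintype σ] (F : ι → Ω → ArithmeticFunction ℂ) (c : σ → ι)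
    (a b : σ → ℕ) (n : ℕ) (ω : Ω) : ℂ := ∏ s, F (c s) ω (a s * n + b s)

lemma XX_bd {σ : Type*} [Fintype σ] (hF : RandMult μ F) (c : σ → ι) (a b : σ → ℕ) (n : ℕ) (ω : Ω) :
    ‖XX F c a b n ω‖ ≤ 1 := by
  unfold XX
  rw [norm_prod]
  exact Finset.prod_le_one (fun _ _ => norm_nonneg _) (fun s _ => hF.bd _ _ _)

lemma XX_meas {σ : Type*} [Fintype σ] (hF : RandMult μ F) (c : σ → ι) (a b : σ → ℕ) (n : ℕ) :
    Measurable (XX F c a b n) := by
  unfold XX
  apply Finset.measurable_fun_prod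
  intro s _
  exact hF.meas _ _

lemma pair_zero [IsProbabilityMeasure μ] {σ : Type*} [Fintype σ] [DecidableEq σ]
    (hF : RandMult μ F) (c : σ → ι) (a b : σ → ℕ) (hb : ∀ s, 0 < b s) (s₀ : σ) (n n' : ℕ)
    (P : Nat.Primes) (hP : ∫ ω, F (c s₀) ω (P : ℕ) ∂μ = 0)
    (h1 : (a s₀ * n + b s₀).factorization P = 1)
    (h2 : ∀ s, s ≠ s₀ → ¬ (P : ℕ) ∣ a s * n + b s)
    (h3 : ∀ s, ¬ (P : ℕ) ∣ a s * n' + b s) :
    ∫ ω, XX F c a b n ω * (starRingEnd ℂ) (XX F c a b n' ω) ∂μ = 0 := by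
  have e1 : ∀ ω, XX F c a b n ω * (starRingEnd ℂ) (XX F c a b n' ω)
      = F (c s₀) ω (a s₀ * n + b s₀) * ((∏ s ∈ univ.erase s₀, F (c s) ω (a s * n + b s)) *
        (starRingEnd ℂ) (∏ s, F (c s) ω (a s * n' + b s))) := by
    intro ω
    unfold XX
    rw [← mul_prod_erase univ _ (mem_univ s₀)]
    ring
  simp_rw [e1]
  apply integral_zero hF (c s₀) P hP _ (by have := hb s₀; omega) h1
  have m1 : Measurable[sig F P] (fun ω => ∏ s ∈ univ.erase s₀, F (c s) ω (a s * n + b s)) := by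
    apply Finset.measurable_fun_prod
    intro s hs
    exact meas_of_not_dvd hF _ P _ (h2 s (ne_of_mem_erase hs))
  have m2 : Measurable[sig F P] (fun ω => ∏ s, F (c s) ω (a s * n' + b s)) := by
    apply Finset.measurable_fun_prod
    intro s _
    exact meas_of_not_dvd hF _ P _ (h3 s)
  have m3 : Measurable[sig F P] (fun ω => (starRingEnd ℂ) (∏ s, F (c s) ω (a s * n' + b s))) :=
    (Complex.continuous_conj.measurable).comp m2
  exact m1.mul m3

/-- second moment bound by the number of bad pairs -/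
lemma second_moment [IsProbabilityMeasure μ] {σ : Type*} [Fintype σ] [DecidableEq σ]
    (hF : RandMult μ F) (c : σ → ι) (a b : σ → ℕ) (hb : ∀ s, 0 < b s) (s₀ : σ) (Δ : ℕ)
    (hΔ : ∀ p : ℕ, p.Prime → ¬ p ∣ Δ → ∀ n s, s ≠ s₀ → p ∣ a s₀ * n + b s₀ → ¬ p ∣ a s * n + b s)
    (hmean : ∀ p : ℕ, p.Prime → ¬ p ∣ Δ → ∫ ω, F (c s₀) ω p ∂μ = 0)
    (w : ℕ → ℂ) (hw : ∀ n, ‖w n‖ ≤ 1) (N : ℕ) :
    ∫ ω, ‖∑ n ∈ range N, w n * XX F c a b n ω‖ ^ 2 ∂μ
      ≤ ∑ n ∈ range N, (((range N).filter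
        (fun n' => ∀ p ∈ exactP Δ (a s₀ * n + b s₀), ∃ s, p ∣ a s * n' + b s)).card : ℝ) := by
  have hint : ∀ n n', Integrable (fun ω => (w n * XX F c a b n ω)
      * (starRingEnd ℂ) (w n' * XX F c a b n' ω)) μ := by
    intro n n'
    apply Integrable.of_bound (C := 1)
    · apply Measurable.aestronglyMeasurable
      apply Measurable.mul
      · exact (XX_meas hF c a b n).const_mul _
      · exact (Complex.continuous_conj.measurable).comp ((XX_meas hF c a b n').const_mul _)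
    · filter_upwards with ω
      rw [norm_mul, RCLike.norm_conj, norm_mul, norm_mul]
      have h1 := XX_bd hF c a b n ω
      have h2 := XX_bd hF c a b n' ω
      have h3 := hw n
      have h4 := hw n'
      exact mul_le_one₀ (mul_le_one₀ h3 (norm_nonneg _) h1)
        (mul_nonneg (norm_nonneg _) (norm_nonneg _)) (mul_le_one₀ h4 (norm_nonneg _) h2)
  have hexp : ∀ ω, ((‖∑ n ∈ range N, w n * XX F c a b n ω‖ ^ 2 : ℝ) : ℂ)
      = ∑ n ∈ range N, ∑ n' ∈ range N, (w n * XX F c a b n ω)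
      * (starRingEnd ℂ) (w n' * XX F c a b n' ω) := by
    intro ω
    rw [← Finset.sum_mul_sum, ← map_sum, Complex.mul_conj, Complex.normSq_eq_norm_sq]
  have h1 : ((∫ ω, ‖∑ n ∈ range N, w n * XX F c a b n ω‖ ^ 2 ∂μ : ℝ) : ℂ)
      = ∑ n ∈ range N, ∑ n' ∈ range N, ∫ ω, (w n * XX F c a b n ω)
      * (starRingEnd ℂ) (w n' * XX F c a b n' ω) ∂μ := by
    rw [← integral_complex_ofReal]
    simp_rw [hexp]
    rw [integral_finsetSum _ (fun n _ => integrable_finsetSum _ (fun n' _ => hint n n'))]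
    apply sum_congr rfl
    intro n _
    rw [integral_finsetSum _ (fun n' _ => hint n n')]
  have h2 : ∀ n n', ‖∫ ω, (w n * XX F c a b n ω) * (starRingEnd ℂ) (w n' * XX F c a b n' ω) ∂μ‖
      ≤ if (∀ p ∈ exactP Δ (a s₀ * n + b s₀), ∃ s, p ∣ a s * n' + b s) then 1 else 0 := by
    intro n n'
    split_ifs with hc
    · refine (norm_integral_le_of_norm_le_const (C := 1) ?_).trans (by simp)
      filter_upwards with ω
      rw [norm_mul, RCLike.norm_conj, norm_mul, norm_mul]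
      have h1 := XX_bd hF c a b n ω
      have h2 := XX_bd hF c a b n' ω
      have h3 := hw n
      have h4 := hw n'
      exact mul_le_one₀ (mul_le_one₀ h3 (norm_nonneg _) h1)
        (mul_nonneg (norm_nonneg _) (norm_nonneg _)) (mul_le_one₀ h4 (norm_nonneg _) h2)
    · push Not at hc
      obtain ⟨P, hP, hP'⟩ := hc
      obtain ⟨hP1, hP2, hP3⟩ := mem_filter.1 hP |>.imp_right (fun h => h)
      have hPp := Nat.prime_of_mem_primeFactors hP1
      have hz := pair_zero hF c a b hb s₀ n n' ⟨P, hPp⟩ (hmean P hPp hP3) hP2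
        (fun s hs => hΔ P hPp hP3 n s hs (Nat.dvd_of_mem_primeFactors hP1)) hP'
      have e : ∀ ω, (w n * XX F c a b n ω) * (starRingEnd ℂ) (w n' * XX F c a b n' ω)
          = (w n * (starRingEnd ℂ) (w n')) * (XX F c a b n ω * (starRingEnd ℂ) (XX F c a b n' ω)) := by
        intro ω
        rw [map_mul]; ring
      simp_rw [e]
      rw [integral_const_mul, hz, mul_zero, norm_zero]
  have h3 : 0 ≤ ∫ ω, ‖∑ n ∈ range N, w n * XX F c a b n ω‖ ^ 2 ∂μ :=
    integral_nonneg fun ω => by positivity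
  calc ∫ ω, ‖∑ n ∈ range N, w n * XX F c a b n ω‖ ^ 2 ∂μ
      = ‖((∫ ω, ‖∑ n ∈ range N, w n * XX F c a b n ω‖ ^ 2 ∂μ : ℝ) : ℂ)‖ := by
        rw [Complex.norm_real, Real.norm_of_nonneg h3]
    _ ≤ ∑ n ∈ range N, ∑ n' ∈ range N, ‖∫ ω, (w n * XX F c a b n ω)
      * (starRingEnd ℂ) (w n' * XX F c a b n' ω) ∂μ‖ := by
        rw [h1]
        exact (norm_sum_le _ _).trans (sum_le_sum fun n _ => norm_sum_le _ _)
    _ ≤ ∑ n ∈ range N, ∑ n' ∈ range N,
        (if (∀ p ∈ exactP Δ (a s₀ * n + b s₀), ∃ s, p ∣ a s * n' + b s) then (1 : ℝ) else 0) :=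
        sum_le_sum fun n _ => sum_le_sum fun n' _ => h2 n n'
    _ = _ := by
        apply sum_congr rfl
        intro n _
        rw [sum_boole]

end

/-- almost sure convergence from summable first moments -/
lemma ae_tendsto_of_moment {Ω : Type*} [MeasurableSpace Ω] {μ : Measure Ω} (Z : ℕ → Ω → ℝ)
    (hZ0 : ∀ M ω, 0 ≤ Z M ω) (hZm : ∀ M, Measurable (Z M)) (hZi : ∀ M, Integrable (Z M) μ)
    (B : ℕ → ℝ) (hB : Summable B) (h : ∀ M, ∫ ω, Z M ω ∂μ ≤ B M) :
    ∀ᵐ ω ∂μ, Tendsto (fun M => Z M ω) atTop (𝓝 0) := by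
  have hB0 : ∀ M, 0 ≤ B M := fun M => (integral_nonneg (hZ0 M)).trans (h M)
  have h1 : ∀ M, ∫⁻ ω, ENNReal.ofReal (Z M ω) ∂μ ≤ ENNReal.ofReal (B M) := by
    intro M
    rw [← ofReal_integral_eq_lintegral_ofReal (hZi M) (ae_of_all _ (hZ0 M))]
    exact ENNReal.ofReal_le_ofReal (h M)
  have h2 : ∫⁻ ω, ∑' M, ENNReal.ofReal (Z M ω) ∂μ ≠ ⊤ := by
    rw [lintegral_tsum (fun M => ((hZm M).ennreal_ofReal).aemeasurable)]
    refine ne_top_of_le_ne_top ?_ (ENNReal.tsum_le_tsum h1)
    rw [← ENNReal.ofReal_tsum_of_nonneg hB0 hB]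
    exact ENNReal.ofReal_ne_top
  have h3 := ae_lt_top (Measurable.tsum (fun M => (hZm M).ennreal_ofReal)) h2
  filter_upwards [h3] with ω hω
  have h4 := ENNReal.tendsto_atTop_zero_of_tsum_ne_top hω.ne
  have h5 := (ENNReal.tendsto_toReal ENNReal.zero_ne_top).comp h4
  simpa [Function.comp_def, ENNReal.toReal_ofReal (hZ0 _ _)] using h5

end Pool.H2.Rand
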