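import Mathlib
import Pool.Agent.H2.RandProb
import Pool.Agent.H2.EllMainB

set_option autoImplicit false

open Finset Filter Topology MeasureTheory ProbabilityTheory

namespace Pool.H2.Rand

/-- passing from 12th powers to all integers -/
lemma gap (y : ℕ → ℂ) (hy : ∀ n, ‖y n‖ ≤ 1)
    (h : Tendsto (fun M : ℕ => ‖∑ n ∈ range (M ^ 12), y n‖ ^ 2 / ((M : ℝ) ^ 12) ^ 2) atTop (𝓝 0)) :
    Tendsto (fun N : ℕ => (1 / (N : ℂ)) * ∑ n ∈ range N, y n) atTop (𝓝 0) := by
  -- norm version along 12th powers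
  have h1 : Tendsto (fun M : ℕ => ‖∑ n ∈ range (M ^ 12), y n‖ / (M : ℝ) ^ 12) atTop (𝓝 0) := by
    have h2 : Tendsto (fun M : ℕ => √(‖∑ n ∈ range (M ^ 12), y n‖ ^ 2 / ((M : ℝ) ^ 12) ^ 2))
        atTop (𝓝 0) := by
      have := (Real.continuous_sqrt.tendsto 0).comp h
      simpa [Function.comp_def] using this
    refine h2.congr (fun M => ?_)
    rw [← div_pow, Real.sqrt_sq (by positivity)]
  have h2 : Tendsto (fun M : ℕ => ((1 + 1 / (M : ℝ)) ^ 12 - 1)) atTop (𝓝 0) := by
    have h3 : Tendsto (fun M : ℕ => (1 / (M : ℝ))) atTop (𝓝 0) := tendsto_one_div_atTop_nhds_zero_nat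
    have h4 := ((h3.const_add 1).pow 12).sub_const 1
    simpa using h4
  have h3 := h1.add h2
  rw [add_zero] at h3
  -- the 12th root
  set r : ℕ → ℕ := fun N => Nat.findGreatest (fun m => m ^ 12 ≤ N) N with hr
  have hr1 : ∀ N, (r N) ^ 12 ≤ N := by
    intro N
    have := Nat.findGreatest_spec (P := fun m => m ^ 12 ≤ N) (m := 0) (n := N) (Nat.zero_le _)
      (by simp)
    exact this
  have hr2 : ∀ N, N < (r N + 1) ^ 12 := by
    intro N
    by_contra hcon
    push Not at hcon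
    have h5 : r N + 1 ≤ N := by
      calc r N + 1 ≤ (r N + 1) ^ 12 := Nat.le_self_pow (by norm_num) _
        _ ≤ N := hcon
    have h6 := Nat.le_findGreatest (P := fun m => m ^ 12 ≤ N) h5 hcon
    have h7 : r N + 1 ≤ r N := h6
    omega
  have hrt : Tendsto r atTop atTop := by
    rw [tendsto_atTop_atTop]
    intro b
    refine ⟨b ^ 12 + b, fun N hN => ?_⟩
    apply Nat.le_findGreatest
    · omega
    · omega
  have h4 := h3.comp hrt
  rw [tendsto_zero_iff_norm_tendsto_zero]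
  refine squeeze_zero' (Eventually.of_forall fun N => norm_nonneg _) ?_ h4
  filter_upwards [eventually_ge_atTop 1] with N hN
  set M := r N with hM
  have hM1 : 1 ≤ M := by
    by_contra hcon
    have h0 : M = 0 := by omega
    have := hr2 N
    rw [← hM, h0] at this
    simp at this
    omega
  have hMr : (0 : ℝ) < M := by exact_mod_cast hM1
  have hNr : (0 : ℝ) < N := by exact_mod_cast hN
  have e1 : (M : ℝ) ^ 12 ≤ N := by exact_mod_cast hr1 N
  have e2 : (N : ℝ) ≤ ((M : ℝ) + 1) ^ 12 := by exact_mod_cast (hr2 N).le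
  have e3 : ‖∑ n ∈ range N, y n‖ ≤ ‖∑ n ∈ range (M ^ 12), y n‖ + ((N : ℝ) - (M : ℝ) ^ 12) := by
    have h5 : ∑ n ∈ range N, y n = ∑ n ∈ range (M ^ 12), y n + ∑ n ∈ Ico (M ^ 12) N, y n :=
      (sum_range_add_sum_Ico y (hr1 N)).symm
    rw [h5]
    refine (norm_add_le _ _).trans ?_
    gcongr
    calc ‖∑ n ∈ Ico (M ^ 12) N, y n‖ ≤ ∑ n ∈ Ico (M ^ 12) N, (1 : ℝ) :=
          (norm_sum_le _ _).trans (sum_le_sum fun n _ => hy n)
      _ = _ := by
          rw [sum_const, Nat.card_Ico, nsmul_eq_mul, mul_one, Nat.cast_sub (hr1 N)]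
          push_cast
          rfl
  have e4 : (1 + 1 / (M : ℝ)) ^ 12 - 1 = (((M : ℝ) + 1) ^ 12 - (M : ℝ) ^ 12) / (M : ℝ) ^ 12 := by
    have : 1 + 1 / (M : ℝ) = ((M : ℝ) + 1) / M := by field_simp
    rw [this, div_pow]
    field_simp
  rw [norm_mul, norm_div, norm_one, Complex.norm_natCast]
  show 1 / (N : ℝ) * ‖∑ n ∈ range N, y n‖ ≤ ‖∑ n ∈ range (M ^ 12), y n‖ / (M : ℝ) ^ 12
    + ((1 + 1 / (M : ℝ)) ^ 12 - 1)
  rw [e4, one_div, inv_mul_eq_div, ← add_div]
  have e5 : ‖∑ n ∈ range (M ^ 12), y n‖ + ((N : ℝ) - (M : ℝ) ^ 12)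
      ≤ ‖∑ n ∈ range (M ^ 12), y n‖ + (((M : ℝ) + 1) ^ 12 - (M : ℝ) ^ 12) := by linarith
  apply div_le_div₀ _ (e3.trans e5) (by positivity) e1
  have : (M : ℝ) ^ 12 ≤ ((M : ℝ) + 1) ^ 12 := by gcongr; linarith
  have := norm_nonneg (∑ n ∈ range (M ^ 12), y n)
  linarith

section
variable {Ω : Type*} [mΩ : MeasurableSpace Ω] {μ : Measure Ω} {ι : Type*}
  {F : ι → Ω → ArithmeticFunction ℂ}

/-- Lemma L, natural number version -/
theorem lemmaL [IsProbabilityMeasure μ] {σ : Type*} [Fintype σ]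
    (hF : RandMult μ F) (c : σ → ι) (a b : σ → ℕ) (ha : ∀ s, 0 < a s) (hb : ∀ s, 0 < b s) (s₀ : σ)
    (hne : ∀ s, s ≠ s₀ → (a s : ℤ) * b s₀ ≠ a s₀ * b s)
    (hmean : ∀ᶠ p : ℕ in atTop, p.Prime → ∫ ω, F (c s₀) ω p ∂μ = 0)
    (w : ℕ → ℂ) (hw : ∀ n, ‖w n‖ ≤ 1) :
    ∀ᵐ ω ∂μ, Tendsto (fun N : ℕ => (1 / (N : ℂ)) * ∑ n ∈ range N, w n * XX F c a b n ω)
      atTop (𝓝 0) := by
  classical
  obtain ⟨P₀, hP₀⟩ := eventually_atTop.1 hmean
  set Δ : ℕ := (∏ s, a s) * (∏ s ∈ univ.erase s₀, ((a s : ℤ) * b s₀ - a s₀ * b s).natAbs)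
    * (P₀ + (Fintype.card σ) ^ 2).factorial with hΔdef
  have hΔ : 0 < Δ := by
    rw [hΔdef]
    apply Nat.mul_pos (Nat.mul_pos _ _) (Nat.factorial_pos _)
    · exact prod_pos fun s _ => ha s
    · apply prod_pos
      intro s hs
      rw [Nat.pos_iff_ne_zero, Ne, Int.natAbs_eq_zero]
      intro h
      exact hne s (ne_of_mem_erase hs) (by linarith)
  have hΔ1 : ∀ p : ℕ, p.Prime → ¬ p ∣ Δ → ∀ s, ¬ p ∣ a s := by
    intro p _ hp s h
    apply hp
    rw [hΔdef]
    exact Dvd.dvd.mul_right (Dvd.dvd.mul_right (h.trans (dvd_prod_of_mem _ (mem_univ s))) _) _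
  have hΔ2 : ∀ p : ℕ, p.Prime → ¬ p ∣ Δ → P₀ + (Fintype.card σ) ^ 2 < p := by
    intro p hpp hp
    by_contra hcon
    push Not at hcon
    apply hp
    rw [hΔdef]
    exact Dvd.dvd.mul_left ((hpp.dvd_factorial).2 hcon) _
  have hΔ3 : ∀ p : ℕ, p.Prime → ¬ p ∣ Δ → ∀ n s, s ≠ s₀ → p ∣ a s₀ * n + b s₀ →
      ¬ p ∣ a s * n + b s := by
    intro p hpp hp n s hs h1 h2
    apply hp
    have h3 : (p : ℤ) ∣ (a s : ℤ) * b s₀ - a s₀ * b s := by
      have e1 : (p : ℤ) ∣ (a s₀ : ℤ) * n + b s₀ := by exact_mod_cast h1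
      have e2 : (p : ℤ) ∣ (a s : ℤ) * n + b s := by exact_mod_cast h2
      have e3 := (e1.mul_left (a s : ℤ)).sub (e2.mul_left (a s₀ : ℤ))
      have e4 : (a s : ℤ) * ((a s₀ : ℤ) * n + b s₀) - (a s₀ : ℤ) * ((a s : ℤ) * n + b s)
        = (a s : ℤ) * b s₀ - a s₀ * b s := by ring
      rwa [e4] at e3
    have h4 : p ∣ ((a s : ℤ) * b s₀ - a s₀ * b s).natAbs := Int.natCast_dvd.1 h3
    rw [hΔdef]
    exact Dvd.dvd.mul_right (Dvd.dvd.mul_left (h4.trans (dvd_prod_of_mem
      (fun s => ((a s : ℤ) * b s₀ - a s₀ * b s).natAbs) (mem_erase.2 ⟨hs, mem_univ s⟩))) _) _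
  obtain ⟨C, hC0, hC⟩ := count_pairs a b ha hb s₀ Δ hΔ hΔ1
    (fun p hpp hp => by have := hΔ2 p hpp hp; omega)
  set Z : ℕ → Ω → ℝ := fun M ω =>
    ‖∑ n ∈ range (M ^ 12), w n * XX F c a b n ω‖ ^ 2 / ((M : ℝ) ^ 12) ^ 2 with hZ
  have hmeasS : ∀ M : ℕ, Measurable (fun ω => ∑ n ∈ range M, w n * XX F c a b n ω) := by
    intro M
    apply Finset.measurable_fun_sum
    intro n _
    exact (XX_meas hF c a b n).const_mul _
  have hZm : ∀ M, Measurable (Z M) := by
    intro M
    exact ((hmeasS _).norm.pow_const 2).div_const _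
  have hbdS : ∀ (N : ℕ) ω, ‖∑ n ∈ range N, w n * XX F c a b n ω‖ ≤ N := by
    intro N ω
    refine (norm_sum_le _ _).trans ?_
    calc ∑ n ∈ range N, ‖w n * XX F c a b n ω‖ ≤ ∑ n ∈ range N, (1 : ℝ) := by
          apply sum_le_sum
          intro n _
          rw [norm_mul]
          exact mul_le_one₀ (hw n) (norm_nonneg _) (XX_bd hF c a b n ω)
      _ = N := by simp
  have hconv := ae_tendsto_of_moment (μ := μ) Z (fun M ω => by rw [hZ]; positivity) hZm
    (fun M => by
      apply Integrable.of_bound (C := ((M ^ 12 : ℕ) : ℝ) ^ 2 / ((M : ℝ) ^ 12) ^ 2)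
        (hZm M).aestronglyMeasurable
      filter_upwards with ω
      rw [hZ, Real.norm_of_nonneg (by positivity)]
      exact div_le_div_of_nonneg_right (pow_le_pow_left₀ (norm_nonneg _) (hbdS _ ω) 2)
        (by positivity))
    (fun M => C * (1 / (M : ℝ) ^ 2))
    ((Real.summable_one_div_nat_pow.2 (by norm_num : 1 < 2)).mul_left C)
    (fun M => by
      rcases Nat.eq_zero_or_pos M with h0 | hM
      · subst h0
        simp [hZ]
      · have hMr : (0 : ℝ) < M := by exact_mod_cast hM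
        rw [hZ]
        simp only
        rw [integral_div, div_le_iff₀ (by positivity)]
        calc _ ≤ _ := second_moment hF c a b hb s₀ Δ hΔ3
              (fun p hpp hp => hP₀ p (by have := hΔ2 p hpp hp; omega) hpp) w hw (M ^ 12)
          _ ≤ _ := hC M hM
          _ = _ := by ring)
  filter_upwards [hconv] with ω hω
  apply gap _ _ hω
  intro n
  rw [norm_mul]
  exact mul_le_one₀ (hw n) (norm_nonneg _) (XX_bd hF c a b n ω)

/-- Lemma L, integer version -/
theorem lemmaZ [IsProbabilityMeasure μ] {σ : Type*} [Fintype σ]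
    (hF : RandMult μ F) (c : σ → ι) (a : σ → ℕ) (b : σ → ℤ) (ha : ∀ s, 0 < a s) (s₀ : σ)
    (hne : ∀ s, s ≠ s₀ → (a s : ℤ) * b s₀ ≠ a s₀ * b s)
    (hmean : ∀ᶠ p : ℕ in atTop, p.Prime → ∫ ω, F (c s₀) ω p ∂μ = 0)
    (w : ℕ → ℂ) (hw : ∀ n, ‖w n‖ ≤ 1) :
    ∀ᵐ ω ∂μ, Tendsto (fun N : ℕ => (1 / (N : ℂ)) * ∑ n ∈ range N,
      w n * ∏ s, F (c s) ω ((a s : ℤ) * n + b s).toNat) atTop (𝓝 0) := by
  classical
  set n₀ : ℕ := ∑ s, (b s).natAbs + 1 with hn₀
  have hn₀' : ∀ s, |b s| < n₀ := by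
    intro s
    have h1 : (b s).natAbs ≤ ∑ s, (b s).natAbs :=
      single_le_sum (f := fun s => (b s).natAbs) (fun _ _ => Nat.zero_le _) (mem_univ s)
    rw [Int.abs_eq_natAbs, hn₀]
    exact_mod_cast Nat.lt_succ_of_le h1
  have hpos : ∀ s, 0 < (a s : ℤ) * n₀ + b s := by
    intro s
    have h1 := abs_lt.1 (hn₀' s)
    have h2 : (1 : ℤ) ≤ a s := by exact_mod_cast ha s
    have h3 : (0 : ℤ) ≤ n₀ := by positivity
    nlinarith [h1.1]
  set b' : σ → ℕ := fun s => ((a s : ℤ) * n₀ + b s).toNat with hb'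
  have hb'c : ∀ s, (b' s : ℤ) = (a s : ℤ) * n₀ + b s := fun s => Int.toNat_of_nonneg (hpos s).le
  have hb'p : ∀ s, 0 < b' s := by
    intro s
    have h1 := hpos s
    rw [← hb'c s] at h1
    exact_mod_cast h1
  have hL := lemmaL hF c a b' ha hb'p s₀ (by
    intro s hs h
    apply hne s hs
    rw [hb'c, hb'c] at h
    linarith) hmean (fun n => w (n + n₀)) (fun n => hw _)
  filter_upwards [hL] with ω hω
  rw [← Pool.H2.Ell.mean_shift _ _ n₀]
  · refine hω.congr (fun x => ?_)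
    congr 1
    apply sum_congr rfl
    intro n _
    unfold XX
    congr 1
    apply prod_congr rfl
    intro s _
    congr 1
    have h1 : (a s : ℤ) * ((n + n₀ : ℕ) : ℤ) + b s = ((a s * n + b' s : ℕ) : ℤ) := by
      push_cast
      rw [hb'c]
      ring
    rw [h1, Int.toNat_natCast]
  · intro n
    rw [norm_mul, norm_prod]
    exact mul_le_one₀ (hw n) (prod_nonneg fun _ _ => norm_nonneg _)
      (prod_le_one (fun _ _ => norm_nonneg _) (fun s _ => hF.bd _ _ _))

/-- conjugate arithmetic function -/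
noncomputable def conjAF (f : ArithmeticFunction ℂ) : ArithmeticFunction ℂ :=
  ⟨fun n => (starRingEnd ℂ) (f n), by simp⟩

/-- the constant function one -/
noncomputable def oneAF : ArithmeticFunction ℂ := ⟨fun n => if n = 0 then 0 else 1, by simp⟩

/-- the extended family -/
noncomputable def ext (F : ι → Ω → ArithmeticFunction ℂ) :
    Option (ι × Bool) → Ω → ArithmeticFunction ℂ
  | none => fun _ => oneAF
  | some (i, false) => fun ω => F i ω
  | some (i, true) => fun ω => conjAF (F i ω)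

lemma ext_randMult (hF : RandMult μ F) : RandMult μ (ext F) where
  mul := by
    intro i ω
    match i with
    | none =>
      show oneAF.IsMultiplicative
      refine ⟨by simp [oneAF], ?_⟩
      intro m n _
      simp only [oneAF, ArithmeticFunction.coe_mk, mul_eq_zero]
      by_cases hm : m = 0 <;> by_cases hn : n = 0 <;> simp [hm, hn]
    | some (i, false) => exact hF.mul i ω
    | some (i, true) =>
      show (conjAF (F i ω)).IsMultiplicative
      refine ⟨by simp [conjAF, (hF.mul i ω).map_one], ?_⟩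
      intro m n hmn
      simp only [conjAF, ArithmeticFunction.coe_mk]
      rw [(hF.mul i ω).map_mul_of_coprime hmn, map_mul]
  bd := by
    intro i ω n
    match i with
    | none =>
      show ‖oneAF n‖ ≤ 1
      simp only [oneAF, ArithmeticFunction.coe_mk]
      split_ifs <;> simp
    | some (i, false) => exact hF.bd i ω n
    | some (i, true) =>
      show ‖conjAF (F i ω) n‖ ≤ 1
      simp only [conjAF, ArithmeticFunction.coe_mk, RCLike.norm_conj]
      exact hF.bd i ω n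
  meas := by
    intro i n
    match i with
    | none => exact measurable_const
    | some (i, false) => exact hF.meas i n
    | some (i, true) =>
      show Measurable (fun ω => (starRingEnd ℂ) (F i ω n))
      exact (Complex.continuous_conj.measurable).comp (hF.meas i n)
  ind := by
    set Φ : (ι × ℕ → ℂ) → (Option (ι × Bool) × ℕ → ℂ) := fun z x =>
      match x with
      | (none, _) => 1
      | (some (i, false), k) => z (i, k)
      | (some (i, true), k) => (starRingEnd ℂ) (z (i, k)) with hΦ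
    have hΦm : Measurable Φ := by
      apply measurable_pi_lambda
      rintro ⟨x, k⟩
      match x with
      | none => exact measurable_const
      | some (i, false) => exact measurable_pi_apply (i, k)
      | some (i, true) =>
        exact (Complex.continuous_conj.measurable).comp (measurable_pi_apply (i, k))
    have h1 := hF.ind.comp (fun _ => Φ) (fun _ => hΦm)
    have h2 : (fun (p : Nat.Primes) => Φ ∘ (fun (ω : Ω) (x : ι × ℕ) => F x.1 ω ((p : ℕ) ^ x.2)))
        = (fun (p : Nat.Primes) (ω : Ω) (x : Option (ι × Bool) × ℕ) =>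
          ext F x.1 ω ((p : ℕ) ^ x.2)) := by
      funext p ω x
      obtain ⟨x, k⟩ := x
      match x with
      | none =>
        show (1 : ℂ) = oneAF ((p : ℕ) ^ k)
        simp [oneAF, p.2.ne_zero]
      | some (i, false) => rfl
      | some (i, true) => rfl
    rw [h2] at h1
    exact h1

end

end Pool.H2.Rand
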