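import Mathlib
import Pool.Agent.H2.RandMain

set_option autoImplicit false

open Finset Filter Topology MeasureTheory ProbabilityTheory

namespace Pool.H2.Rand

variable {Ω : Type*} [mΩ : MeasurableSpace Ω] {μ : Measure Ω} {ι : Type*}
  {F : ι → Ω → ArithmeticFunction ℂ}

/-- the function in a given slot -/
def slot (F : ι → Ω → ArithmeticFunction ℂ) (D : ℕ → ArithmeticFunction ℂ) (ω : Ω) :
    ι ⊕ ℕ → ArithmeticFunction ℂ
  | Sum.inl i => F i ω
  | Sum.inr l => D l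

lemma slot_bd (hF : RandMult μ F) (D : ℕ → ArithmeticFunction ℂ) (hD : ∀ l n, ‖D l n‖ ≤ 1)
    (ω : Ω) (x : ι ⊕ ℕ) (n : ℕ) : ‖slot F D ω x n‖ ≤ 1 := by
  match x with
  | Sum.inl i => exact hF.bd i ω n
  | Sum.inr l => exact hD l n

/-- product over all slots except the arbitrary one, recentred at the arbitrary one -/
noncomputable def AA (F : ι → Ω → ArithmeticFunction ℂ) (D : ℕ → ArithmeticFunction ℂ) {k : ℕ}
    (i₀ : Fin k) (τ : Fin k → ι ⊕ ℕ) (h : Fin k → ℤ) (ω : Ω) (n : ℕ) : ℂ :=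
  ∏ j : {j : Fin k // j ≠ i₀}, slot F D ω (τ j.1) ((n : ℤ) + (h j.1 - h i₀)).toNat

lemma AA_bd (hF : RandMult μ F) (D : ℕ → ArithmeticFunction ℂ) (hD : ∀ l n, ‖D l n‖ ≤ 1) {k : ℕ}
    (i₀ : Fin k) (τ : Fin k → ι ⊕ ℕ) (h : Fin k → ℤ) (ω : Ω) (n : ℕ) :
    ‖AA F D i₀ τ h ω n‖ ≤ 1 := by
  unfold AA
  rw [norm_prod]
  exact prod_le_one (fun _ _ => norm_nonneg _) (fun _ _ => slot_bd hF D hD _ _ _)

lemma AA_corr [IsProbabilityMeasure μ] (hF : RandMult μ F)
    (hmean : ∀ i, ∀ᶠ p : ℕ in atTop, p.Prime → ∫ ω, F i ω p ∂μ = 0)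
    (D : ℕ → ArithmeticFunction ℂ) (hD : ∀ l n, ‖D l n‖ ≤ 1) {k : ℕ}
    (i₀ : Fin k) (τ : Fin k → ι ⊕ ℕ) (h : Fin k → ℤ) (hinj : Function.Injective h)
    (j₀ : Fin k) (hj₀ : j₀ ≠ i₀) (i : ι) (hτ : τ j₀ = Sum.inl i) (p q : ℕ)
    (hp : p.Prime) (hq : q.Prime) (hpq : p ≠ q) (hpb : (h j₀ - h i₀).natAbs < p) :
    ∀ᵐ ω ∂μ, Tendsto (fun x : ℕ => (1 / (x : ℂ)) * ∑ m ∈ range x,
      AA F D i₀ τ h ω (p * m) * (starRingEnd ℂ) (AA F D i₀ τ h ω (q * m))) atTop (𝓝 0) := by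
  classical
  set σ := {j : Fin k // j ≠ i₀} × Bool with hσ
  set c : σ → Option (ι × Bool) := fun s =>
    match τ s.1.1 with
    | Sum.inl i => some (i, s.2)
    | Sum.inr _ => none with hc
  set a : σ → ℕ := fun s => if s.2 then q else p with ha
  set b : σ → ℤ := fun s => h s.1.1 - h i₀ with hb
  set w : ℕ → ℂ := fun m => ∏ j : {j : Fin k // j ≠ i₀},
    match τ j.1 with
    | Sum.inl _ => 1
    | Sum.inr l => D l ((p : ℤ) * m + (h j.1 - h i₀)).toNat
        * (starRingEnd ℂ) (D l ((q : ℤ) * m + (h j.1 - h i₀)).toNat) with hw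
  have hw1 : ∀ m, ‖w m‖ ≤ 1 := by
    intro m
    rw [hw, norm_prod]
    refine prod_le_one (fun _ _ => norm_nonneg _) (fun j _ => ?_)
    match τ j.1 with
    | Sum.inl _ => simp
    | Sum.inr l =>
      show ‖D l ((p : ℤ) * m + (h j.1 - h i₀)).toNat
        * (starRingEnd ℂ) (D l ((q : ℤ) * m + (h j.1 - h i₀)).toNat)‖ ≤ 1
      rw [norm_mul, RCLike.norm_conj]
      exact mul_le_one₀ (hD _ _) (norm_nonneg _) (hD _ _)
  set s₀ : σ := (⟨j₀, hj₀⟩, false) with hs₀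
  have hcs₀ : c s₀ = some (i, false) := by
    simp only [hc, hs₀, hτ]
  have hZ := lemmaZ (ext_randMult hF) c a b
    (by
      intro s
      simp only [ha]
      split_ifs
      · exact hq.pos
      · exact hp.pos) s₀
    (by
      intro s hs heq
      obtain ⟨⟨j, hj⟩, e⟩ := s
      have hpz : (p : ℤ) ≠ 0 := by exact_mod_cast hp.ne_zero
      cases e with
      | false =>
        simp only [ha, hb, hs₀, Bool.false_eq_true, if_false] at heq
        have h1 := mul_left_cancel₀ hpz heq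
        have h2 : h j₀ = h j := by linarith
        apply hs
        rw [hs₀]
        congr 1
        exact Subtype.ext (hinj h2).symm
      | true =>
        simp only [ha, hb, hs₀, Bool.false_eq_true, if_false, if_true] at heq
        have h1 : (p : ℤ) ∣ (q : ℤ) * (h j₀ - h i₀) := ⟨_, heq⟩
        have h2 : (p : ℤ) ∣ (h j₀ - h i₀) := by
          refine (Int.Prime.dvd_mul' hp h1).resolve_left ?_
          intro h3
          have h4 : p ∣ q := by exact_mod_cast h3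
          exact hpq ((Nat.prime_dvd_prime_iff_eq hp hq).1 h4)
        have h3 : p ∣ (h j₀ - h i₀).natAbs := Int.natCast_dvd.1 h2
        have h4 : (h j₀ - h i₀).natAbs = 0 := Nat.eq_zero_of_dvd_of_lt h3 hpb
        have h5 : h j₀ = h i₀ := by
          have := Int.natAbs_eq_zero.1 h4
          linarith
        exact hj₀ (hinj h5))
    (by
      rw [hcs₀]
      exact hmean i)
    w hw1
  filter_upwards [hZ] with ω hω
  refine hω.congr (fun x => ?_)
  congr 1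
  apply sum_congr rfl
  intro m _
  unfold AA
  rw [map_prod, ← prod_mul_distrib, hw, Fintype.prod_prod_type, ← prod_mul_distrib]
  apply prod_congr rfl
  intro j _
  rw [Fintype.prod_bool]
  simp only [ha, hb, hc, Bool.false_eq_true, if_false, if_true]
  push_cast
  match τ j.1 with
  | Sum.inl i =>
    show 1 * ((starRingEnd ℂ) (F i ω ((q : ℤ) * m + (h j.1 - h i₀)).toNat)
      * F i ω ((p : ℤ) * m + (h j.1 - h i₀)).toNat)
      = F i ω ((p : ℤ) * m + (h j.1 - h i₀)).toNat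
        * (starRingEnd ℂ) (F i ω ((q : ℤ) * m + (h j.1 - h i₀)).toNat)
    ring
  | Sum.inr l =>
    show (D l ((p : ℤ) * m + (h j.1 - h i₀)).toNat
        * (starRingEnd ℂ) (D l ((q : ℤ) * m + (h j.1 - h i₀)).toNat))
      * (oneAF ((q : ℤ) * m + (h j.1 - h i₀)).toNat * oneAF ((p : ℤ) * m + (h j.1 - h i₀)).toNat)
      = D l ((p : ℤ) * m + (h j.1 - h i₀)).toNat
        * (starRingEnd ℂ) (D l ((q : ℤ) * m + (h j.1 - h i₀)).toNat)
    have key : ∀ x : ℕ, D l x * oneAF x = D l x := by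
      intro x
      rcases Nat.eq_zero_or_pos x with h0 | h0
      · subst h0; simp
      · simp [oneAF, h0.ne']
    have key' : ∀ x : ℕ, (starRingEnd ℂ) (D l x) * oneAF x = (starRingEnd ℂ) (D l x) := by
      intro x
      rcases Nat.eq_zero_or_pos x with h0 | h0
      · subst h0; simp
      · simp [oneAF, h0.ne']
    calc _ = (D l ((p : ℤ) * m + (h j.1 - h i₀)).toNat * oneAF ((p : ℤ) * m + (h j.1 - h i₀)).toNat)
          * ((starRingEnd ℂ) (D l ((q : ℤ) * m + (h j.1 - h i₀)).toNat)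
            * oneAF ((q : ℤ) * m + (h j.1 - h i₀)).toNat) := by ring
      _ = _ := by rw [key, key']

/-- main theorem -/
theorem mainR [IsProbabilityMeasure μ] [Countable ι] (hF : RandMult μ F)
    (hmean : ∀ i, ∀ᶠ p : ℕ in atTop, p.Prime → ∫ ω, F i ω p ∂μ = 0)
    (D : ℕ → ArithmeticFunction ℂ) (hD : ∀ l n, ‖D l n‖ ≤ 1) :
    ∀ᵐ ω ∂μ, ∀ (k : ℕ) (g : Fin k → ArithmeticFunction ℂ) (i₀ : Fin k),
      (g i₀).IsMultiplicative → (∀ n, ‖g i₀ n‖ ≤ 1) →
      (∀ j, j ≠ i₀ → (∃ i, g j = F i ω) ∨ (∃ l, g j = D l)) →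
      (∃ j, j ≠ i₀ ∧ ∃ i, g j = F i ω) →
      ∀ h : Fin k → ℤ, Function.Injective h →
      Tendsto (fun N : ℕ => (1 / (N : ℂ)) * ∑ n ∈ Finset.Icc 1 N, ∏ i, g i ((n : ℤ) + h i).toNat)
        atTop (𝓝 0) := by
  classical
  have hall : ∀ᵐ ω ∂μ, ∀ (k : ℕ) (i₀ : Fin k) (τ : Fin k → ι ⊕ ℕ) (h : Fin k → ℤ)
      (j₀ : Fin k) (i : ι) (p q : ℕ), Function.Injective h → j₀ ≠ i₀ → τ j₀ = Sum.inl i →
      p.Prime → q.Prime → p ≠ q → (h j₀ - h i₀).natAbs < p →
      Tendsto (fun x : ℕ => (1 / (x : ℂ)) * ∑ m ∈ range x,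
        AA F D i₀ τ h ω (p * m) * (starRingEnd ℂ) (AA F D i₀ τ h ω (q * m))) atTop (𝓝 0) := by
    simp only [ae_all_iff]
    intro k i₀ τ h j₀ i p q hinj hj₀ hτ hp hq hpq hpb
    exact AA_corr hF hmean D hD i₀ τ h hinj j₀ hj₀ i hτ p q hp hq hpq hpb
  filter_upwards [hall] with ω hω
  intro k g i₀ hmul hbd hslots hrand h hinj
  obtain ⟨j₀, hj₀, i, hi⟩ := hrand
  -- choose the slots
  have hchoose : ∀ j : Fin k, ∃ x : ι ⊕ ℕ, (j ≠ i₀ → g j = slot F D ω x) ∧
      (j = j₀ → x = Sum.inl i) := by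
    intro j
    by_cases h0 : j = j₀
    · exact ⟨Sum.inl i, fun _ => by rw [h0, hi]; rfl, fun _ => rfl⟩
    · by_cases h1 : j = i₀
      · exact ⟨Sum.inl i, fun h2 => absurd h1 h2, fun _ => rfl⟩
      · rcases hslots j h1 with ⟨i', hi'⟩ | ⟨l, hl⟩
        · exact ⟨Sum.inl i', fun _ => hi', fun h2 => absurd h2 h0⟩
        · exact ⟨Sum.inr l, fun _ => hl, fun h2 => absurd h2 h0⟩
  choose τ hτ1 hτ2 using hchoose
  have hkat := Pool.H2.Ell.katai (AA F D i₀ τ h ω) (fun n => g i₀ n) (AA_bd hF D hD i₀ τ h ω)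
    (Pool.H2.Ell.MB_of hmul hbd) ((h j₀ - h i₀).natAbs)
    (fun P Q hP hQ hPm _ hPQ => hω k i₀ τ h j₀ i P Q hinj hj₀ (hτ2 j₀ rfl) hP hQ hPQ hPm)
  set A : ℕ → ℂ := fun n => g i₀ n * AA F D i₀ τ h ω n with hA
  have hAb : ∀ n, ‖A n‖ ≤ 1 := by
    intro n
    rw [hA, norm_mul]
    exact mul_le_one₀ (hbd n) (norm_nonneg _) (AA_bd hF D hD i₀ τ h ω n)
  set B : ℕ → ℂ := fun n => ∏ i, g i ((n : ℤ) + h i).toNat with hB
  have hgb : ∀ j n, ‖g j n‖ ≤ 1 := by
    intro j n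
    by_cases h1 : j = i₀
    · rw [h1]; exact hbd n
    · rw [hτ1 j h1]; exact slot_bd hF D hD _ _ _
  have hBb : ∀ n, ‖B n‖ ≤ 1 := by
    intro n
    rw [hB, norm_prod]
    exact prod_le_one (fun _ _ => norm_nonneg _) (fun i _ => hgb i _)
  have hsplit : ∀ (n : ℕ) (N : ℕ), (N : ℤ) = n + h i₀ → B n = A N := by
    intro n N hN
    simp only [hA, hB, AA]
    rw [Fintype.prod_eq_mul_prod_subtype_ne (fun i => g i ((n : ℤ) + h i).toNat) i₀, ← hN,
      Int.toNat_natCast]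
    congr 1
    apply prod_congr rfl
    intro j _
    rw [hτ1 j.1 j.2]
    congr 2
    rw [hN]
    ring
  have hBlim : Tendsto (fun x : ℕ => (1 / (x : ℂ)) * ∑ n ∈ range x, B n) atTop (𝓝 0) := by
    rcases le_total 0 (h i₀) with h0 | h0
    · obtain ⟨s, hs'⟩ := Int.eq_ofNat_of_zero_le h0
      have h1 : ∀ n, B n = A (n + s) := by
        intro n
        apply hsplit
        push_cast
        rw [hs']
      have h2 := (Pool.H2.Ell.mean_shift A hAb s).2 hkat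
      refine h2.congr (fun x => ?_)
      congr 1
      exact sum_congr rfl (fun n _ => (h1 n).symm)
    · obtain ⟨s, hs'⟩ := Int.eq_ofNat_of_zero_le (show 0 ≤ -(h i₀) by linarith)
      have h1 : ∀ n, B (n + s) = A n := by
        intro n
        apply hsplit
        push_cast
        omega
      rw [← Pool.H2.Ell.mean_shift B hBb s]
      refine hkat.congr (fun x => ?_)
      congr 1
      exact sum_congr rfl (fun n _ => (h1 n).symm)
  rw [← Pool.H2.Ell.mean_shift B hBb 1] at hBlim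
  refine hBlim.congr (fun x => ?_)
  congr 1
  rw [Finset.range_eq_Ico, Finset.sum_Ico_add' B 0 x 1]
  apply sum_congr _ (fun _ _ => rfl)
  ext n
  simp only [mem_Ico, mem_Icc]
  omega

end Pool.H2.Rand
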