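import Mathlib
import Pool.Agent.H2.EllMert
import Pool.Agent.H2.RandCount

set_option autoImplicit false

open Finset Filter Topology

namespace Pool.H2.Sp

/-- indicator of `p ∣ A n + B` -/
noncomputable def ind (A B p n : ℕ) : ℝ := if p ∣ A * n + B then 1 else 0

/-- number of `n < x` with `d ∣ A n + B` -/
noncomputable def cnt (A B x d : ℕ) : ℝ := ∑ n ∈ range x, ind A B d n

lemma abs_cnt (A B d x : ℕ) (hd : 0 < d) (hc : Nat.Coprime A d) :
    |cnt A B x d - (x : ℝ) / d| ≤ 1 := by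
  classical
  haveI : NeZero d := ⟨hd.ne'⟩
  set c : ℕ := (-(B : ZMod d) * ((ZMod.unitOfCoprime A hc)⁻¹ : (ZMod d)ˣ)).val with hcdef
  have hA : (A : ZMod d) = (ZMod.unitOfCoprime A hc : ZMod d) := by simp
  have h1 : ∀ n, d ∣ A * n + B ↔ n ≡ c [MOD d] := by
    intro n
    rw [← ZMod.natCast_eq_zero_iff, ← ZMod.natCast_eq_natCast_iff, hcdef, ZMod.natCast_zmod_val]
    push_cast
    rw [hA]
    constructor
    · intro h
      have h2 : (ZMod.unitOfCoprime A hc : ZMod d) * n = -(B : ZMod d) := by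
        linear_combination h
      rw [← h2, mul_comm (ZMod.unitOfCoprime A hc : ZMod d), mul_assoc, Units.mul_inv, mul_one]
    · intro h
      rw [h, mul_comm (-(B : ZMod d)), ← mul_assoc, Units.mul_inv, one_mul]
      ring
  have h2 : cnt A B x d = (x.count (· ≡ c [MOD d]) : ℝ) := by
    unfold cnt ind
    rw [sum_boole, Nat.count_eq_card_filter_range]
    congr 2
    apply filter_congr
    intro n _
    exact h1 n
  rw [h2, Nat.count_modEq_card _ hd]
  have hdr : (0 : ℝ) < d := by exact_mod_cast hd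
  have h3 : ((x / d : ℕ) : ℝ) ≤ (x : ℝ) / d := Nat.cast_div_le
  have h4 : (x : ℝ) / d < (x / d : ℕ) + 1 := by
    rw [div_lt_iff₀ hdr]
    have := Nat.lt_div_mul_add (a := x) hd
    have h5 : x < (x / d + 1) * d := by
      rw [add_mul, one_mul]; exact this
    exact_mod_cast h5
  rw [abs_le]
  push_cast
  split_ifs <;> constructor <;> push_cast <;> linarith

/-- Turán–Kubilius for a finite set of primes and a linear form -/
lemma turan_kubilius (A B : ℕ) (S : Finset ℕ) (hS : ∀ p ∈ S, p.Prime ∧ ¬ p ∣ A) (x : ℕ) :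
    ∑ n ∈ range x, (∑ p ∈ S, (ind A B p n - 1 / p)) ^ 2
      ≤ x * ∑ p ∈ S, (1 : ℝ) / p + 4 * (S.card : ℝ) ^ 2 := by
  have hcop : ∀ p ∈ S, Nat.Coprime A p := fun p hp =>
    ((Nat.Prime.coprime_iff_not_dvd (hS p hp).1).2 (hS p hp).2).symm
  have key : ∀ p ∈ S, ∀ q ∈ S, ∑ n ∈ range x, ((ind A B p n - 1 / p)
      * (ind A B q n - 1 / q)) ≤ (if p = q then (x : ℝ) / p else 0) + 4 := by
    intro p hp q hq
    have hp0 := (hS p hp).1.pos
    have hq0 := (hS q hq).1.pos
    have hp1 : (1 : ℝ) ≤ p := by exact_mod_cast hp0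
    have hq1 : (1 : ℝ) ≤ q := by exact_mod_cast hq0
    have hpp : (0 : ℝ) < p := by linarith
    have hqp : (0 : ℝ) < q := by linarith
    have e1 : ∑ n ∈ range x, ((ind A B p n - 1 / p) * (ind A B q n - 1 / q))
        = ∑ n ∈ range x, (ind A B p n * ind A B q n)
          - (1 / q) * cnt A B x p - (1 / p) * cnt A B x q + x * (1 / p * (1 / q)) := by
      unfold cnt
      rw [mul_sum, mul_sum, ← sum_sub_distrib, ← sum_sub_distrib]
      have : (x : ℝ) * (1 / p * (1 / q)) = ∑ _n ∈ range x, (1 / (p : ℝ) * (1 / q)) := by simp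
      rw [this, ← sum_add_distrib]
      apply sum_congr rfl
      intro n _
      ring
    have hxp := abs_le.1 (abs_cnt A B p x hp0 (hcop p hp))
    have hxq := abs_le.1 (abs_cnt A B q x hq0 (hcop q hq))
    have h1q : 1 / (q : ℝ) ≤ 1 := by rw [div_le_one hqp]; exact hq1
    have h1p : 1 / (p : ℝ) ≤ 1 := by rw [div_le_one hpp]; exact hp1
    have h1q0 : 0 < 1 / (q : ℝ) := by positivity
    have h1p0 : 0 < 1 / (p : ℝ) := by positivity
    have b1 : (1 / q : ℝ) * cnt A B x p ≥ x * (1 / p * (1 / q)) - 1 := by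
      have : (1 / q : ℝ) * cnt A B x p ≥ (1 / q) * ((x : ℝ) / p - 1) := by
        apply mul_le_mul_of_nonneg_left _ h1q0.le
        linarith [hxp.1]
      have e : (1 / q : ℝ) * ((x : ℝ) / p - 1) = x * (1 / p * (1 / q)) - 1 / q := by ring
      linarith
    have b2 : (1 / p : ℝ) * cnt A B x q ≥ x * (1 / p * (1 / q)) - 1 := by
      have : (1 / p : ℝ) * cnt A B x q ≥ (1 / p) * ((x : ℝ) / q - 1) := by
        apply mul_le_mul_of_nonneg_left _ h1p0.le
        linarith [hxq.1]
      have e : (1 / p : ℝ) * ((x : ℝ) / q - 1) = x * (1 / p * (1 / q)) - 1 / p := by ring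
      linarith
    rw [e1]
    by_cases hpq : p = q
    · subst hpq
      rw [if_pos rfl]
      have e2 : ∑ n ∈ range x, (ind A B p n * ind A B p n) = cnt A B x p := by
        unfold cnt
        apply sum_congr rfl
        intro n _
        unfold ind
        split_ifs <;> simp
      rw [e2]
      have : 0 ≤ (x : ℝ) * (1 / p * (1 / p)) := by positivity
      linarith [hxp.2]
    · rw [if_neg hpq]
      have hcop' : Nat.Coprime p q := (Nat.coprime_primes (hS p hp).1 (hS q hq).1).2 hpq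
      have e2 : ∑ n ∈ range x, (ind A B p n * ind A B q n) = cnt A B x (p * q) := by
        unfold cnt
        apply sum_congr rfl
        intro n _
        unfold ind
        by_cases h1 : p ∣ A * n + B
        · by_cases h2 : q ∣ A * n + B
          · rw [if_pos h1, if_pos h2, if_pos (hcop'.mul_dvd_of_dvd_of_dvd h1 h2)]; simp
          · rw [if_pos h1, if_neg h2, if_neg (fun h => h2 (dvd_trans (dvd_mul_left _ _) h))]; simp
        · rw [if_neg h1, if_neg (fun h => h1 (dvd_trans (dvd_mul_right _ _) h))]; simp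
      rw [e2]
      have hxpq := abs_le.1 (abs_cnt A B (p * q) x (Nat.mul_pos hp0 hq0)
        (Nat.Coprime.mul_right (hcop p hp) (hcop q hq)))
      have e3 : (x : ℝ) / ((p * q : ℕ) : ℝ) = x * (1 / p * (1 / q)) := by
        push_cast; field_simp
      rw [e3] at hxpq
      linarith [hxpq.2]
  calc ∑ n ∈ range x, (∑ p ∈ S, (ind A B p n - 1 / p)) ^ 2
      = ∑ n ∈ range x, ∑ p ∈ S, ∑ q ∈ S, ((ind A B p n - 1 / p)
          * (ind A B q n - 1 / q)) := by
        apply sum_congr rfl
        intro n _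
        rw [pow_two, sum_mul_sum]
    _ = ∑ p ∈ S, ∑ q ∈ S, ∑ n ∈ range x, ((ind A B p n - 1 / p)
          * (ind A B q n - 1 / q)) := by
        rw [sum_comm]
        apply sum_congr rfl
        intro p _
        rw [sum_comm]
    _ ≤ ∑ p ∈ S, ∑ q ∈ S, ((if p = q then (x : ℝ) / p else 0) + 4) :=
        sum_le_sum fun p hp => sum_le_sum fun q hq => key p hp q hq
    _ = _ := by
        have : ∀ p ∈ S, ∑ q ∈ S, ((if p = q then (x : ℝ) / p else 0) + 4)
            = (x : ℝ) / p + 4 * S.card := by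
          intro p hp
          rw [sum_add_distrib, sum_ite_eq, if_pos hp]
          simp
          ring
        rw [sum_congr rfl this, sum_add_distrib, mul_sum]
        congr 1
        · apply sum_congr rfl; intro p _; ring
        · rw [sum_const, nsmul_eq_mul]; ring

/-- few `n` have no prime factor in `S` -/
lemma card_none (A B : ℕ) (S : Finset ℕ) (hS : ∀ p ∈ S, p.Prime ∧ ¬ p ∣ A) (x : ℕ)
    (hcard : S.card ^ 2 ≤ x) (hE : 1 ≤ ∑ p ∈ S, (1 : ℝ) / p) :
    (((range x).filter (fun n => ∀ p ∈ S, ¬ p ∣ A * n + B)).card : ℝ)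
      ≤ 5 * x / ∑ p ∈ S, (1 : ℝ) / p := by
  set E := ∑ p ∈ S, (1 : ℝ) / p with hEdef
  have h1 := turan_kubilius A B S hS x
  have h2 : (((range x).filter (fun n => ∀ p ∈ S, ¬ p ∣ A * n + B)).card : ℝ) * E ^ 2
      ≤ ∑ n ∈ range x, (∑ p ∈ S, (ind A B p n - 1 / p)) ^ 2 := by
    calc _ = ∑ n ∈ (range x).filter (fun n => ∀ p ∈ S, ¬ p ∣ A * n + B), E ^ 2 := by
          rw [sum_const, nsmul_eq_mul]
      _ ≤ ∑ n ∈ (range x).filter (fun n => ∀ p ∈ S, ¬ p ∣ A * n + B),
          (∑ p ∈ S, (ind A B p n - 1 / p)) ^ 2 := by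
          apply sum_le_sum
          intro n hn
          apply le_of_eq
          have h3 : ∑ p ∈ S, (ind A B p n - 1 / p) = - E := by
            rw [hEdef, ← sum_neg_distrib]
            apply sum_congr rfl
            intro p hp
            unfold ind
            rw [if_neg ((mem_filter.1 hn).2 p hp)]
            ring
          rw [h3]
          ring
      _ ≤ _ := sum_le_sum_of_subset_of_nonneg (filter_subset _ _) (fun _ _ _ => by positivity)
  have h3 : (S.card : ℝ) ^ 2 ≤ x := by exact_mod_cast hcard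
  have hx : (0 : ℝ) ≤ x := by positivity
  rw [le_div_iff₀ (by linarith)]
  have h4 : (((range x).filter (fun n => ∀ p ∈ S, ¬ p ∣ A * n + B)).card : ℝ) * E ^ 2
      ≤ 5 * x * E := by nlinarith
  have h5 : (((range x).filter (fun n => ∀ p ∈ S, ¬ p ∣ A * n + B)).card : ℝ) * E * E
      ≤ 5 * x * E := by nlinarith
  exact le_of_mul_le_mul_right h5 (by linarith)

/-- few `n` have a repeated prime factor in `S` -/
lemma card_square (A B : ℕ) (hA : 0 < A) (hB : 0 < B) (S : Finset ℕ) (y : ℕ) (hy : 0 < y)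
    (hS : ∀ p ∈ S, y < p) (x : ℕ) :
    (((range x).filter (fun n => ∃ p ∈ S, p ^ 2 ∣ A * n + B)).card : ℝ)
      ≤ (A + B) * x * (2 / y) := by
  classical
  have h1 : (range x).filter (fun n => ∃ p ∈ S, p ^ 2 ∣ A * n + B)
      ⊆ S.biUnion (fun p => (range x).filter (fun n => p ^ 2 ∣ A * n + B)) := by
    intro n hn
    simp only [mem_filter, mem_biUnion] at hn ⊢
    obtain ⟨hn1, p, hp, hd⟩ := hn
    exact ⟨p, hp, hn1, hd⟩
  obtain ⟨M, hM⟩ : ∃ M, ∀ p ∈ S, p < M := ⟨S.sup id + 1, fun p hp =>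
    Nat.lt_succ_of_le (le_sup (f := id) hp)⟩
  calc (((range x).filter (fun n => ∃ p ∈ S, p ^ 2 ∣ A * n + B)).card : ℝ)
      ≤ ∑ p ∈ S, (((range x).filter (fun n => p ^ 2 ∣ A * n + B)).card : ℝ) := by
        exact_mod_cast (card_le_card h1).trans card_biUnion_le
    _ ≤ ∑ p ∈ S, ((A + B) * x : ℝ) * ((p : ℝ) ^ 2)⁻¹ := by
        apply sum_le_sum
        intro p hp
        have hp0 : 0 < p := (Nat.zero_le y).trans_lt (hS p hp)
        have h2 := Pool.H2.Rand.card_sq_dvd A B p x ((A + B) * x) hA hB hp0 (by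
          intro n hn
          have h1 : A * n ≤ A * x := by gcongr
          have h2 : B * 1 ≤ B * x := by gcongr; omega
          nlinarith)
        calc (((range x).filter (fun n => p ^ 2 ∣ A * n + B)).card : ℝ)
            ≤ (((A + B) * x / p ^ 2 : ℕ) : ℝ) := by exact_mod_cast h2
          _ ≤ _ := by
              refine Nat.cast_div_le.trans ?_
              push_cast
              rw [div_eq_mul_inv]
    _ = ((A + B) * x : ℝ) * ∑ p ∈ S, ((p : ℝ) ^ 2)⁻¹ := by rw [mul_sum]
    _ ≤ ((A + B) * x : ℝ) * (2 / y) := by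
        gcongr
        calc ∑ p ∈ S, ((p : ℝ) ^ 2)⁻¹ ≤ ∑ p ∈ Ioo y M, ((p : ℝ) ^ 2)⁻¹ := by
              apply sum_le_sum_of_subset_of_nonneg
              · intro p hp
                exact mem_Ioo.2 ⟨hS p hp, hM p hp⟩
              · intro _ _ _; positivity
          _ ≤ 2 / ((y : ℝ) + 1) := sum_Ioo_inv_sq_le y M
          _ ≤ 2 / y := by
              gcongr
              linarith

/-- Mertens type upper bound -/
lemma mertens_pow (x : ℕ) (hx : 2 ≤ x) :
    ∑ p ∈ (Ioc x (x ^ 4)).filter Nat.Prime, (1 : ℝ) / p ≤ 28 := by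
  set m := Nat.log 2 x with hm
  have hm1 : 1 ≤ m := by
    rw [hm]
    exact Nat.log_pos (by norm_num) hx
  have h1 : 2 ^ m ≤ x := Nat.pow_log_le_self 2 (by omega)
  have h2 : x < 2 ^ (m + 1) := Nat.lt_pow_succ_log_self (by norm_num) x
  have h3 : x ^ 4 ≤ 2 ^ (8 * m) := by
    calc x ^ 4 ≤ (2 ^ (m + 1)) ^ 4 := by gcongr
      _ = 2 ^ (4 * (m + 1)) := by rw [← pow_mul]; ring_nf
      _ ≤ 2 ^ (8 * m) := Nat.pow_le_pow_right (by norm_num) (by omega)
  have hmr : (0 : ℝ) < m := by exact_mod_cast hm1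
  calc ∑ p ∈ (Ioc x (x ^ 4)).filter Nat.Prime, (1 : ℝ) / p
      ≤ ∑ p ∈ (Ioc (2 ^ m) (2 ^ (8 * m))).filter Nat.Prime, (1 : ℝ) / p := by
        apply sum_le_sum_of_subset_of_nonneg
        · intro p hp
          simp only [mem_filter, mem_Ioc] at hp ⊢
          exact ⟨⟨by omega, by omega⟩, hp.2⟩
        · intro _ _ _; positivity
    _ ≤ ∑ k ∈ Ico m (8 * m), (4 : ℝ) / k := Pool.H2.Ell.sum_dyadic_range m (8 * m) hm1 (by omega)
    _ ≤ ∑ _k ∈ Ico m (8 * m), (4 : ℝ) / m := by
        apply sum_le_sum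
        intro k hk
        rw [mem_Ico] at hk
        have : (m : ℝ) ≤ k := by exact_mod_cast hk.1
        gcongr
    _ = 28 := by
        rw [sum_const, Nat.card_Ico, nsmul_eq_mul]
        have : 8 * m - m = 7 * m := by omega
        rw [this]
        push_cast
        field_simp
        norm_num

end Pool.H2.Sp
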