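import Mathlib
import Pool.Agent.H2.SpCount

set_option autoImplicit false

open Finset Filter Topology

namespace Pool.H2.Sp

open Classical in
/-- the sum of `1/p` over the primes `log N < p ≤ N` with the property `Q` tends to infinity -/
def Div (Q : ℕ → Prop) : Prop :=
  Tendsto (fun N : ℕ => ∑ p ∈ (Icc 1 N).filter (fun p => p.Prime ∧ Q p ∧ Real.log N < p),
    (1 : ℝ) / p) atTop atTop

/-- the cut -/
noncomputable def el (N : ℕ) : ℕ := ⌊Real.log N⌋₊ + 1

lemma log_lt_el (N : ℕ) : Real.log N < el N := by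
  unfold el
  push_cast
  exact Nat.lt_floor_add_one _

lemma el_le (N : ℕ) : (el N : ℝ) ≤ Real.log N + 1 := by
  unfold el
  push_cast
  have := Nat.floor_le (Real.log_natCast_nonneg N)
  linarith

lemma el_pos (N : ℕ) : 0 < el N := by unfold el; omega

open Classical in
/-- primes in the window -/
noncomputable def win (Q : ℕ → Prop) (Δ N : ℕ) : Finset ℕ :=
  (Icc 1 N).filter (fun p => p.Prime ∧ Q p ∧ ¬ p ∣ Δ ∧ el N ^ 4 < p ∧ p ^ 2 ≤ N)

lemma win_tendsto (Q : ℕ → Prop) (hQ : Div Q) (Δ : ℕ) (hΔ : 0 < Δ) :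
    Tendsto (fun N : ℕ => ∑ p ∈ win Q Δ N, (1 : ℝ) / p) atTop atTop := by
  classical
  have h1 : ∀ᶠ N : ℕ in atTop, (∑ p ∈ (Icc 1 N).filter (fun p => p.Prime ∧ Q p ∧ Real.log N < p),
      (1 : ℝ) / p) + (- (58 + Δ : ℝ)) ≤ ∑ p ∈ win Q Δ N, (1 : ℝ) / p := by
    filter_upwards [eventually_ge_atTop 3] with N hN
    have hl2 : 2 ≤ el N := by
      unfold el
      have h3 : (1 : ℝ) ≤ Real.log N := by
        rw [Real.le_log_iff_exp_le (by positivity)]
        have := Real.exp_one_lt_d9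
        have h4 : (3 : ℝ) ≤ N := by exact_mod_cast hN
        linarith
      have : 1 ≤ ⌊Real.log N⌋₊ := Nat.one_le_floor_iff _ |>.2 h3
      omega
    set l := el N with hl
    set z := Nat.sqrt N with hz
    have hz1 : 1 ≤ z := by
      rw [hz]; exact Nat.sqrt_pos.2 (by omega)
    have hz2 : N < (z + 1) ^ 2 := by
      have := Nat.lt_succ_sqrt N
      rw [pow_two]; exact this
    have hsub : (Icc 1 N).filter (fun p => p.Prime ∧ Q p ∧ Real.log N < p)
        ⊆ win Q Δ N ∪ (Δ.primeFactors ∪ (({l} ∪ (Ioc l (l ^ 4)).filter Nat.Prime)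
          ∪ ({z + 1} ∪ (Ioc (z + 1) ((z + 1) ^ 4)).filter Nat.Prime))) := by
      intro p hp
      rw [mem_filter, mem_Icc] at hp
      obtain ⟨⟨hp1, hpN⟩, hpp, hpQ, hpl⟩ := hp
      have hlp : l ≤ p := by
        have h5 := Nat.floor_lt (Real.log_natCast_nonneg N) |>.2 hpl
        rw [hl]; unfold el; omega
      simp only [mem_union, mem_filter, mem_singleton, mem_Ioc, Nat.mem_primeFactors, win, mem_Icc]
      by_cases h2 : p ∣ Δ
      · right; left; exact ⟨hpp, h2, hΔ.ne'⟩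
      · by_cases h3 : l ^ 4 < p
        · by_cases h4 : p ^ 2 ≤ N
          · left; exact ⟨⟨hp1, hpN⟩, hpp, hpQ, h2, h3, h4⟩
          · right; right; right
            push Not at h4
            have h5 : z < p := by
              rw [hz]; exact Nat.sqrt_lt'.2 h4
            rcases Nat.lt_or_ge (z + 1) p with h6 | h6
            · right
              refine ⟨⟨h6, ?_⟩, hpp⟩
              calc p ≤ N := hpN
                _ ≤ (z + 1) ^ 2 := hz2.le
                _ ≤ (z + 1) ^ 4 := Nat.pow_le_pow_right (by omega) (by norm_num)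
            · left; omega
        · right; right; left
          push Not at h3
          rcases Nat.lt_or_ge l p with h6 | h6
          · right; exact ⟨⟨h6, h3⟩, hpp⟩
          · left; omega
    have hnn : ∀ p : ℕ, (0 : ℝ) ≤ 1 / p := fun p => by positivity
    have hu : ∀ S T : Finset ℕ, ∑ p ∈ S ∪ T, (1 : ℝ) / p ≤ ∑ p ∈ S, (1 : ℝ) / p + ∑ p ∈ T, (1 : ℝ) / p := by
      intro S T
      have := sum_union_inter (s₁ := S) (s₂ := T) (f := fun p : ℕ => (1 : ℝ) / p)
      have h7 : 0 ≤ ∑ p ∈ S ∩ T, (1 : ℝ) / p := sum_nonneg fun p _ => hnn p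
      linarith
    have hsing : ∀ a : ℕ, 1 ≤ a → ∑ p ∈ ({a} : Finset ℕ), (1 : ℝ) / p ≤ 1 := by
      intro a ha
      rw [sum_singleton]
      have : (1 : ℝ) ≤ a := by exact_mod_cast ha
      rw [div_le_one (by linarith)]
      exact this
    have hD : ∑ p ∈ Δ.primeFactors, (1 : ℝ) / p ≤ Δ := by
      calc ∑ p ∈ Δ.primeFactors, (1 : ℝ) / p ≤ ∑ p ∈ Δ.primeFactors, (1 : ℝ) := by
            apply sum_le_sum
            intro p hp
            have : (1 : ℝ) ≤ p := by exact_mod_cast (Nat.prime_of_mem_primeFactors hp).one_lt.le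
            rw [div_le_one (by linarith)]
            exact this
        _ = (Δ.primeFactors.card : ℝ) := by simp
        _ ≤ Δ := by
            have h8 : Δ.primeFactors ⊆ Icc 1 Δ := by
              intro p hp
              rw [mem_Icc]
              exact ⟨(Nat.prime_of_mem_primeFactors hp).one_lt.le,
                Nat.le_of_dvd hΔ (Nat.dvd_of_mem_primeFactors hp)⟩
            have := card_le_card h8
            simp at this
            exact_mod_cast this
    have hM1 := mertens_pow l hl2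
    have hM2 := mertens_pow (z + 1) (by omega)
    have h9 : ∑ p ∈ (Icc 1 N).filter (fun p => p.Prime ∧ Q p ∧ Real.log N < p), (1 : ℝ) / p
        ≤ ∑ p ∈ win Q Δ N, (1 : ℝ) / p + (Δ + ((1 + 28) + (1 + 28))) := by
      refine (sum_le_sum_of_subset_of_nonneg hsub (fun p _ _ => hnn p)).trans ?_
      refine (hu _ _).trans ?_
      gcongr
      refine (hu _ _).trans ?_
      gcongr
      refine (hu _ _).trans ?_
      gcongr
      · refine (hu _ _).trans ?_
        gcongr
        exact hsing l (by omega)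
      · refine (hu _ _).trans ?_
        gcongr
        exact hsing (z + 1) (by omega)
    linarith
  exact tendsto_atTop_mono' _ h1 (tendsto_atTop_add_const_right _ _ hQ)

open Classical in
/-- the bad set -/
noncomputable def bad (Q : ℕ → Prop) (Δ A B N : ℕ) : Finset ℕ :=
  (range N).filter (fun n => ∀ p, p.Prime → Q p → ¬ p ∣ Δ → el N ^ 4 < p →
    (A * n + B).factorization p ≠ 1)

lemma bad_tendsto (Q : ℕ → Prop) (hQ : Div Q) (Δ A B : ℕ) (hΔ : 0 < Δ) (hA : 0 < A) (hB : 0 < B)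
    (hAΔ : ∀ p : ℕ, p.Prime → ¬ p ∣ Δ → ¬ p ∣ A) :
    Tendsto (fun N : ℕ => ((bad Q Δ A B N).card : ℝ) / N) atTop (𝓝 0) := by
  classical
  have hE := win_tendsto Q hQ Δ hΔ
  have hel : Tendsto (fun N : ℕ => ((el N : ℝ)) ^ 4) atTop atTop := by
    apply (tendsto_pow_atTop (by norm_num)).comp
    refine tendsto_atTop_mono (fun N => (log_lt_el N).le) ?_
    exact Real.tendsto_log_atTop.comp tendsto_natCast_atTop_atTop
  have hlim : Tendsto (fun N : ℕ => 5 / (∑ p ∈ win Q Δ N, (1 : ℝ) / p)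
      + (A + B : ℝ) * (2 / (el N : ℝ) ^ 4)) atTop (𝓝 0) := by
    have h1 : Tendsto (fun N : ℕ => 5 / (∑ p ∈ win Q Δ N, (1 : ℝ) / p)) atTop (𝓝 0) :=
      hE.const_div_atTop 5
    have h2 : Tendsto (fun N : ℕ => 2 / (el N : ℝ) ^ 4) atTop (𝓝 0) := hel.const_div_atTop 2
    have h3 := h1.add (h2.const_mul (A + B : ℝ))
    simpa using h3
  refine squeeze_zero' (Eventually.of_forall fun N => by positivity) ?_ hlim
  filter_upwards [hE.eventually_ge_atTop 1, eventually_ge_atTop 1] with N hN1 hN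
  have hNr : (0 : ℝ) < N := by exact_mod_cast hN
  have hsub : bad Q Δ A B N ⊆ (range N).filter (fun n => ∀ p ∈ win Q Δ N, ¬ p ∣ A * n + B)
      ∪ (range N).filter (fun n => ∃ p ∈ win Q Δ N, p ^ 2 ∣ A * n + B) := by
    intro n hn
    simp only [bad, mem_filter] at hn
    simp only [mem_union, mem_filter]
    by_cases h : ∀ p ∈ win Q Δ N, ¬ p ∣ A * n + B
    · left; exact ⟨hn.1, h⟩
    · right
      refine ⟨hn.1, ?_⟩
      push Not at h
      obtain ⟨p, hp, hpd⟩ := h
      refine ⟨p, hp, ?_⟩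
      simp only [win, mem_filter] at hp
      have h1 := hn.2 p hp.2.1 hp.2.2.1 hp.2.2.2.1 hp.2.2.2.2.1
      have h2 : A * n + B ≠ 0 := by omega
      have h3 := hp.2.1.factorization_pos_of_dvd h2 hpd
      rw [hp.2.1.pow_dvd_iff_le_factorization h2]
      omega
  have hS : ∀ p ∈ win Q Δ N, p.Prime ∧ ¬ p ∣ A := by
    intro p hp
    simp only [win, mem_filter] at hp
    exact ⟨hp.2.1, hAΔ p hp.2.1 hp.2.2.2.1⟩
  have hcard : (win Q Δ N).card ^ 2 ≤ N := by
    have h1 : win Q Δ N ⊆ Icc 1 (Nat.sqrt N) := by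
      intro p hp
      simp only [win, mem_filter, mem_Icc] at hp
      rw [mem_Icc]
      exact ⟨hp.1.1, Nat.le_sqrt'.2 hp.2.2.2.2.2⟩
    have h2 := card_le_card h1
    simp only [Nat.card_Icc, add_tsub_cancel_right] at h2
    calc (win Q Δ N).card ^ 2 ≤ (Nat.sqrt N) ^ 2 := by gcongr
      _ ≤ N := Nat.sqrt_le' N
  have h1 := card_none A B (win Q Δ N) hS N hcard hN1
  have hy : 0 < el N ^ 4 := pow_pos (el_pos N) 4
  have h2 := card_square A B hA hB (win Q Δ N) (el N ^ 4) hy (by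
    intro p hp
    simp only [win, mem_filter] at hp
    exact hp.2.2.2.2.1) N
  rw [div_le_iff₀ hNr]
  calc ((bad Q Δ A B N).card : ℝ)
      ≤ (((range N).filter (fun n => ∀ p ∈ win Q Δ N, ¬ p ∣ A * n + B)).card : ℝ)
        + (((range N).filter (fun n => ∃ p ∈ win Q Δ N, p ^ 2 ∣ A * n + B)).card : ℝ) := by
        exact_mod_cast (card_le_card hsub).trans (card_union_le _ _)
    _ ≤ 5 * N / (∑ p ∈ win Q Δ N, (1 : ℝ) / p) + (A + B) * N * (2 / ((el N ^ 4 : ℕ) : ℝ)) := by
        gcongr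
    _ = _ := by
        push_cast
        ring

/-- the sequence of scales -/
noncomputable def sc (j : ℕ) : ℕ := ⌈Real.exp (√(j + 1))⌉₊

lemma sc_ge (j : ℕ) : Real.exp (√(j + 1)) ≤ sc j := Nat.le_ceil _

lemma sc_lt (j : ℕ) : (sc j : ℝ) < Real.exp (√(j + 1)) + 1 :=
  Nat.ceil_lt_add_one (Real.exp_pos _).le

lemma sc_pos (j : ℕ) : 0 < sc j := by
  have := (Real.exp_pos (√((j : ℝ) + 1))).trans_le (sc_ge j)
  exact_mod_cast this

lemma sc_mono : Monotone sc := by
  intro i j hij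
  unfold sc
  apply Nat.ceil_le_ceil
  apply Real.exp_le_exp.2
  apply Real.sqrt_le_sqrt
  have : (i : ℝ) ≤ j := by exact_mod_cast hij
  linarith

lemma sqrt_tendsto : Tendsto (fun j : ℕ => √((j : ℝ) + 1)) atTop atTop := by
  apply Real.tendsto_sqrt_atTop.comp
  exact tendsto_atTop_add_const_right _ _ tendsto_natCast_atTop_atTop

lemma sc_tendsto : Tendsto sc atTop atTop := by
  rw [← tendsto_natCast_atTop_iff (R := ℝ)]
  exact tendsto_atTop_mono sc_ge (Real.tendsto_exp_atTop.comp sqrt_tendsto)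

lemma sc_ratio : Tendsto (fun j => (sc (j + 1) : ℝ) / sc j) atTop (𝓝 1) := by
  have h1 : Tendsto (fun j : ℕ => √((j : ℝ) + 1 + 1) - √((j : ℝ) + 1)) atTop (𝓝 0) := by
    have h2 : ∀ j : ℕ, √((j : ℝ) + 1 + 1) - √((j : ℝ) + 1) ≤ 1 / √((j : ℝ) + 1) := by
      intro j
      have hj : (0 : ℝ) < √((j : ℝ) + 1) := Real.sqrt_pos.2 (by positivity)
      have h3 : √((j : ℝ) + 1 + 1) ≤ √((j : ℝ) + 1) + 1 / √((j : ℝ) + 1) := by
        apply Real.sqrt_le_iff.2
        refine ⟨by positivity, ?_⟩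
        have h4 : √((j : ℝ) + 1) ^ 2 = (j : ℝ) + 1 := Real.sq_sqrt (by positivity)
        have h5 : (√((j : ℝ) + 1) + 1 / √((j : ℝ) + 1)) ^ 2
            = √((j : ℝ) + 1) ^ 2 + 2 + (1 / √((j : ℝ) + 1)) ^ 2 := by
          field_simp
          ring
        rw [h5, h4]
        have : 0 ≤ (1 / √((j : ℝ) + 1)) ^ 2 := by positivity
        linarith
      linarith
    refine squeeze_zero (fun j => ?_) h2 ?_
    · rw [sub_nonneg]
      apply Real.sqrt_le_sqrt
      linarith
    · exact sqrt_tendsto.const_div_atTop 1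
  have h2 : Tendsto (fun j : ℕ => Real.exp (√((j : ℝ) + 1 + 1) - √((j : ℝ) + 1))
      + Real.exp (-√((j : ℝ) + 1))) atTop (𝓝 1) := by
    have h3 := (Real.continuous_exp.tendsto 0).comp h1
    rw [Real.exp_zero] at h3
    have h4 : Tendsto (fun j : ℕ => Real.exp (-√((j : ℝ) + 1))) atTop (𝓝 0) :=
      Real.tendsto_exp_neg_atTop_nhds_zero.comp sqrt_tendsto
    have h5 := h3.add h4
    rw [add_zero] at h5
    exact h5
  refine tendsto_of_tendsto_of_tendsto_of_le_of_le tendsto_const_nhds h2 ?_ ?_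
  · intro j
    have h3 : (0 : ℝ) < sc j := by exact_mod_cast sc_pos j
    show 1 ≤ (sc (j + 1) : ℝ) / sc j
    rw [le_div_iff₀ h3, one_mul]
    exact_mod_cast sc_mono (Nat.le_succ j)
  · intro j
    have h3 : (0 : ℝ) < sc j := by exact_mod_cast sc_pos j
    have hex := Real.exp_pos (√((j : ℝ) + 1))
    show (sc (j + 1) : ℝ) / sc j ≤ _
    have h4 := sc_lt (j + 1)
    have h5 := sc_ge j
    push_cast at h4
    calc (sc (j + 1) : ℝ) / sc j ≤ (Real.exp (√((j : ℝ) + 1 + 1)) + 1) / Real.exp (√((j : ℝ) + 1)) := by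
          gcongr
      _ = _ := by
          rw [add_div, ← Real.exp_sub]
          simp only [Real.exp_neg, one_div]

lemma sc_sum (C : ℝ) :
    Summable (fun j => C * (1 / (el (sc j) : ℝ) ^ 4 + 1 / (sc j : ℝ))) := by
  apply Summable.mul_left
  have h0 : Summable (fun j : ℕ => 25 * (1 / (((j + 1 : ℕ) : ℝ)) ^ 2)) := by
    apply Summable.mul_left
    exact (summable_nat_add_iff 1).2 (Real.summable_one_div_nat_pow.2 (by norm_num : 1 < 2))
  refine Summable.of_nonneg_of_le (fun j => by positivity) (fun j => ?_) h0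
  have hj : (0 : ℝ) < (j : ℝ) + 1 := by positivity
  have hs0 : 0 < √((j : ℝ) + 1) := Real.sqrt_pos.2 hj
  have hs4 : √((j : ℝ) + 1) ^ 4 = ((j : ℝ) + 1) ^ 2 := by
    have : √((j : ℝ) + 1) ^ 4 = (√((j : ℝ) + 1) ^ 2) ^ 2 := by ring
    rw [this, Real.sq_sqrt hj.le]
  have h1 : √((j : ℝ) + 1) ≤ el (sc j) := by
    refine le_trans ?_ (log_lt_el _).le
    rw [Real.le_log_iff_exp_le (by exact_mod_cast sc_pos j)]
    exact sc_ge j
  have h2 : ((j : ℝ) + 1) ^ 2 ≤ (el (sc j) : ℝ) ^ 4 := by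
    rw [← hs4]
    gcongr
  have h3 : ((j : ℝ) + 1) ^ 2 / 24 ≤ sc j := by
    refine le_trans ?_ (sc_ge j)
    have h4 := Real.pow_div_factorial_le_exp (x := √((j : ℝ) + 1)) hs0.le 4
    rw [hs4] at h4
    have h5 : ((Nat.factorial 4 : ℕ) : ℝ) = 24 := by norm_num [Nat.factorial]
    rw [h5] at h4
    exact h4
  have hp : (0 : ℝ) < ((j : ℝ) + 1) ^ 2 := by positivity
  have h4 : 1 / (el (sc j) : ℝ) ^ 4 ≤ 1 / ((j : ℝ) + 1) ^ 2 := by gcongr
  have h5 : 1 / (sc j : ℝ) ≤ 24 / ((j : ℝ) + 1) ^ 2 := by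
    rw [div_le_div_iff₀ (by exact_mod_cast sc_pos j) hp]
    linarith
  push_cast
  calc _ ≤ 1 / ((j : ℝ) + 1) ^ 2 + 24 / ((j : ℝ) + 1) ^ 2 := add_le_add h4 h5
    _ = _ := by ring

/-- passing from a subsequence to all integers -/
lemma gap (y : ℕ → ℂ) (hy : ∀ n, ‖y n‖ ≤ 1) (u : ℕ → ℕ) (hu0 : ∀ j, 0 < u j) (hum : Monotone u)
    (hut : Tendsto u atTop atTop)
    (hur : Tendsto (fun j => (u (j + 1) : ℝ) / u j) atTop (𝓝 1))
    (h : Tendsto (fun j : ℕ => ‖∑ n ∈ range (u j), y n‖ / (u j : ℝ)) atTop (𝓝 0)) :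
    Tendsto (fun N : ℕ => (1 / (N : ℂ)) * ∑ n ∈ range N, y n) atTop (𝓝 0) := by
  have h3 := h.add (hur.sub_const 1)
  rw [sub_self, add_zero] at h3
  have hex : ∀ N : ℕ, ∃ m, N < u m := by
    intro N
    obtain ⟨m, hm⟩ := (hut.eventually_gt_atTop N).exists
    exact ⟨m, hm⟩
  set r : ℕ → ℕ := fun N => Nat.find (hex N) - 1 with hr
  have hr1 : ∀ N, u 0 ≤ N → u (r N) ≤ N := by
    intro N hN
    have h5 : Nat.find (hex N) ≠ 0 := by
      intro h6
      have := Nat.find_spec (hex N)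
      rw [h6] at this
      omega
    have := Nat.find_min (hex N) (m := r N) (by rw [hr]; simp only; omega)
    omega
  have hr2 : ∀ N, u 0 ≤ N → N < u (r N + 1) := by
    intro N hN
    have h5 : Nat.find (hex N) ≠ 0 := by
      intro h6
      have := Nat.find_spec (hex N)
      rw [h6] at this
      omega
    have h6 : r N + 1 = Nat.find (hex N) := by rw [hr]; simp only; omega
    rw [h6]
    exact Nat.find_spec (hex N)
  have hrt : Tendsto r atTop atTop := by
    rw [tendsto_atTop_atTop]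
    intro b
    refine ⟨u (b + 1) + u 0, fun N hN => ?_⟩
    by_contra hcon
    push Not at hcon
    have h5 := hr2 N (by omega)
    have h6 := hum (show r N + 1 ≤ b + 1 by omega)
    omega
  have h4 := h3.comp hrt
  rw [tendsto_zero_iff_norm_tendsto_zero]
  refine squeeze_zero' (Eventually.of_forall fun N => norm_nonneg _) ?_ h4
  filter_upwards [eventually_ge_atTop (u 0)] with N hN
  set M := r N with hM
  have hMr : (0 : ℝ) < u M := by exact_mod_cast hu0 M
  have hNr : (0 : ℝ) < N := by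
    have := (hu0 0).trans_le hN
    exact_mod_cast this
  have e1 : (u M : ℝ) ≤ N := by exact_mod_cast hr1 N hN
  have e2 : (N : ℝ) ≤ u (M + 1) := by exact_mod_cast (hr2 N hN).le
  have e3 : ‖∑ n ∈ range N, y n‖ ≤ ‖∑ n ∈ range (u M), y n‖ + ((N : ℝ) - u M) := by
    have h5 : ∑ n ∈ range N, y n = ∑ n ∈ range (u M), y n + ∑ n ∈ Ico (u M) N, y n :=
      (sum_range_add_sum_Ico y (hr1 N hN)).symm
    rw [h5]
    refine (norm_add_le _ _).trans ?_
    gcongr
    calc ‖∑ n ∈ Ico (u M) N, y n‖ ≤ ∑ n ∈ Ico (u M) N, (1 : ℝ) :=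
          (norm_sum_le _ _).trans (sum_le_sum fun n _ => hy n)
      _ = _ := by
          rw [sum_const, Nat.card_Ico, nsmul_eq_mul, mul_one, Nat.cast_sub (hr1 N hN)]
  rw [norm_mul, norm_div, norm_one, Complex.norm_natCast]
  show 1 / (N : ℝ) * ‖∑ n ∈ range N, y n‖ ≤ ‖∑ n ∈ range (u M), y n‖ / (u M : ℝ)
    + ((u (M + 1) : ℝ) / u M - 1)
  have e4 : ‖∑ n ∈ range (u M), y n‖ / (u M : ℝ) + ((u (M + 1) : ℝ) / u M - 1)
      = (‖∑ n ∈ range (u M), y n‖ + ((u (M + 1) : ℝ) - u M)) / u M := by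
    field_simp
  rw [e4, one_div, inv_mul_eq_div]
  have e5 : ‖∑ n ∈ range (u M), y n‖ + ((N : ℝ) - u M)
      ≤ ‖∑ n ∈ range (u M), y n‖ + ((u (M + 1) : ℝ) - u M) := by linarith
  apply div_le_div₀ _ (e3.trans e5) hMr e1
  have := norm_nonneg (∑ n ∈ range (u M), y n)
  linarith

end Pool.H2.Sp
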