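import Mathlib
import Pool.Agent.H2.RandMain
import Pool.Agent.H2.SpDiv

set_option autoImplicit false

open Finset Filter Topology MeasureTheory ProbabilityTheory

namespace Pool.H2.Sp

open Pool.H2.Rand

section
variable {Ω : Type*} [mΩ : MeasurableSpace Ω] {μ : Measure Ω} {ι : Type*}
  {F : ι → Ω → ArithmeticFunction ℂ}

/-- second moment bound by the number of bad pairs, general version -/
lemma second_moment [IsProbabilityMeasure μ] {σ : Type*} [Fintype σ]
    (hF : RandMult μ F) (c : σ → ι) (a b : σ → ℕ)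
    (w : ℕ → ℂ) (hw : ∀ n, ‖w n‖ ≤ 1) (N : ℕ) (Bad : ℕ → ℕ → Prop) [∀ n, DecidablePred (Bad n)]
    (K : ℝ) (hK0 : 0 ≤ K)
    (hz : ∀ n n', w n ≠ 0 → ¬ Bad n n' →
      ∫ ω, XX F c a b n ω * (starRingEnd ℂ) (XX F c a b n' ω) ∂μ = 0)
    (hK : ∀ n ∈ range N, w n ≠ 0 → (((range N).filter (Bad n)).card : ℝ) ≤ K) :
    ∫ ω, ‖∑ n ∈ range N, w n * XX F c a b n ω‖ ^ 2 ∂μ ≤ N * K := by
  have hint : ∀ n n', Integrable (fun ω => (w n * XX F c a b n ω)
      * (starRingEnd ℂ) (w n' * XX F c a b n' ω)) μ := by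
    intro n n'
    apply Integrable.of_bound (C := 1)
    · apply Measurable.aestronglyMeasurable
      apply Measurable.mul
      · exact (XX_meas hF c a b n).const_mul _
      · exact (Complex.continuous_conj.measurable).comp ((XX_meas hF c a b n').const_mul _)
    · filter_upwards with ω
      rw [norm_mul, RCLike.norm_conj, norm_mul, norm_mul]
      have h1 := XX_bd hF c a b n ω
      have h2 := XX_bd hF c a b n' ω
      have h3 := hw n
      have h4 := hw n'
      exact mul_le_one₀ (mul_le_one₀ h3 (norm_nonneg _) h1)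
        (mul_nonneg (norm_nonneg _) (norm_nonneg _)) (mul_le_one₀ h4 (norm_nonneg _) h2)
  have hexp : ∀ ω, ((‖∑ n ∈ range N, w n * XX F c a b n ω‖ ^ 2 : ℝ) : ℂ)
      = ∑ n ∈ range N, ∑ n' ∈ range N, (w n * XX F c a b n ω)
      * (starRingEnd ℂ) (w n' * XX F c a b n' ω) := by
    intro ω
    rw [← Finset.sum_mul_sum, ← map_sum, Complex.mul_conj, Complex.normSq_eq_norm_sq]
  have h1 : ((∫ ω, ‖∑ n ∈ range N, w n * XX F c a b n ω‖ ^ 2 ∂μ : ℝ) : ℂ)
      = ∑ n ∈ range N, ∑ n' ∈ range N, ∫ ω, (w n * XX F c a b n ω)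
      * (starRingEnd ℂ) (w n' * XX F c a b n' ω) ∂μ := by
    rw [← integral_complex_ofReal]
    simp_rw [hexp]
    rw [integral_finsetSum _ (fun n _ => integrable_finsetSum _ (fun n' _ => hint n n'))]
    apply sum_congr rfl
    intro n _
    rw [integral_finsetSum _ (fun n' _ => hint n n')]
  have h2 : ∀ n, w n ≠ 0 → ∀ n', ‖∫ ω, (w n * XX F c a b n ω) * (starRingEnd ℂ) (w n' * XX F c a b n' ω) ∂μ‖
      ≤ if Bad n n' then 1 else 0 := by
    intro n hn n'
    split_ifs with hc
    · refine (norm_integral_le_of_norm_le_const (C := 1) ?_).trans (by simp)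
      filter_upwards with ω
      rw [norm_mul, RCLike.norm_conj, norm_mul, norm_mul]
      have h1 := XX_bd hF c a b n ω
      have h2 := XX_bd hF c a b n' ω
      have h3 := hw n
      have h4 := hw n'
      exact mul_le_one₀ (mul_le_one₀ h3 (norm_nonneg _) h1)
        (mul_nonneg (norm_nonneg _) (norm_nonneg _)) (mul_le_one₀ h4 (norm_nonneg _) h2)
    · have e : ∀ ω, (w n * XX F c a b n ω) * (starRingEnd ℂ) (w n' * XX F c a b n' ω)
          = (w n * (starRingEnd ℂ) (w n')) * (XX F c a b n ω * (starRingEnd ℂ) (XX F c a b n' ω)) := by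
        intro ω
        rw [map_mul]; ring
      simp_rw [e]
      rw [integral_const_mul, hz n n' hn hc, mul_zero, norm_zero]
  have h3 : 0 ≤ ∫ ω, ‖∑ n ∈ range N, w n * XX F c a b n ω‖ ^ 2 ∂μ :=
    integral_nonneg fun ω => by positivity
  calc ∫ ω, ‖∑ n ∈ range N, w n * XX F c a b n ω‖ ^ 2 ∂μ
      = ‖((∫ ω, ‖∑ n ∈ range N, w n * XX F c a b n ω‖ ^ 2 ∂μ : ℝ) : ℂ)‖ := by
        rw [Complex.norm_real, Real.norm_of_nonneg h3]
    _ ≤ ∑ n ∈ range N, ∑ n' ∈ range N, ‖∫ ω, (w n * XX F c a b n ω)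
      * (starRingEnd ℂ) (w n' * XX F c a b n' ω) ∂μ‖ := by
        rw [h1]
        exact (norm_sum_le _ _).trans (sum_le_sum fun n _ => norm_sum_le _ _)
    _ ≤ ∑ n ∈ range N, K := by
        apply sum_le_sum
        intro n hn
        by_cases h0 : w n = 0
        · refine le_trans (le_of_eq ?_) hK0
          apply sum_eq_zero
          intro n' _
          simp [h0]
        · calc _ ≤ ∑ n' ∈ range N, (if Bad n n' then (1 : ℝ) else 0) :=
                sum_le_sum fun n' _ => h2 n h0 n'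
            _ = _ := by rw [sum_boole]
            _ ≤ K := hK n hn h0
    _ = _ := by rw [sum_const, card_range, nsmul_eq_mul]

/-- Lemma L, natural number version -/
theorem lemmaL [IsProbabilityMeasure μ] {σ : Type*} [Fintype σ]
    (hF : RandMult μ F) (c : σ → ι) (a b : σ → ℕ) (ha : ∀ s, 0 < a s) (hb : ∀ s, 0 < b s) (s₀ : σ)
    (hne : ∀ s, s ≠ s₀ → (a s : ℤ) * b s₀ ≠ a s₀ * b s)
    (hmean : Div (fun p => ∫ ω, F (c s₀) ω p ∂μ = 0))
    (w : ℕ → ℂ) (hw : ∀ n, ‖w n‖ ≤ 1) :
    ∀ᵐ ω ∂μ, Tendsto (fun N : ℕ => (1 / (N : ℂ)) * ∑ n ∈ range N, w n * XX F c a b n ω)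
      atTop (𝓝 0) := by
  classical
  set Q : ℕ → Prop := fun p => ∫ ω, F (c s₀) ω p ∂μ = 0 with hQdef
  set Δ : ℕ := (∏ s, a s) * (∏ s ∈ univ.erase s₀, ((a s : ℤ) * b s₀ - a s₀ * b s).natAbs)
    with hΔdef
  have hΔ : 0 < Δ := by
    rw [hΔdef]
    apply Nat.mul_pos
    · exact prod_pos fun s _ => ha s
    · apply prod_pos
      intro s hs
      rw [Nat.pos_iff_ne_zero, Ne, Int.natAbs_eq_zero]
      intro h
      exact hne s (ne_of_mem_erase hs) (by linarith)
  have hΔ1 : ∀ p : ℕ, p.Prime → ¬ p ∣ Δ → ∀ s, ¬ p ∣ a s := by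
    intro p _ hp s h
    apply hp
    rw [hΔdef]
    exact Dvd.dvd.mul_right (h.trans (dvd_prod_of_mem _ (mem_univ s))) _
  have hΔ3 : ∀ p : ℕ, p.Prime → ¬ p ∣ Δ → ∀ n s, s ≠ s₀ → p ∣ a s₀ * n + b s₀ →
      ¬ p ∣ a s * n + b s := by
    intro p hpp hp n s hs h1 h2
    apply hp
    have h3 : (p : ℤ) ∣ (a s : ℤ) * b s₀ - a s₀ * b s := by
      have e1 : (p : ℤ) ∣ (a s₀ : ℤ) * n + b s₀ := by exact_mod_cast h1
      have e2 : (p : ℤ) ∣ (a s : ℤ) * n + b s := by exact_mod_cast h2
      have e3 := (e1.mul_left (a s : ℤ)).sub (e2.mul_left (a s₀ : ℤ))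
      have e4 : (a s : ℤ) * ((a s₀ : ℤ) * n + b s₀) - (a s₀ : ℤ) * ((a s : ℤ) * n + b s)
        = (a s : ℤ) * b s₀ - a s₀ * b s := by ring
      rwa [e4] at e3
    have h4 : p ∣ ((a s : ℤ) * b s₀ - a s₀ * b s).natAbs := Int.natCast_dvd.1 h3
    rw [hΔdef]
    exact Dvd.dvd.mul_left (h4.trans (dvd_prod_of_mem
      (fun s => ((a s : ℤ) * b s₀ - a s₀ * b s).natAbs) (mem_erase.2 ⟨hs, mem_univ s⟩))) _
  -- the restricted weights
  set w' : ℕ → ℕ → ℂ := fun N n => if n ∈ bad Q Δ (a s₀) (b s₀) N then 0 else w n with hw'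
  have hw'1 : ∀ N n, ‖w' N n‖ ≤ 1 := by
    intro N n
    rw [hw']
    simp only
    split_ifs
    · simp
    · exact hw n
  set r : ℝ := (Fintype.card σ : ℝ) with hr
  have hmom : ∀ N : ℕ, 0 < N → ∫ ω, ‖∑ n ∈ range N, w' N n * XX F c a b n ω‖ ^ 2 ∂μ
      ≤ N * (r * ((N : ℝ) / (el N : ℝ) ^ 4 + 1)) := by
    intro N hN
    -- choice of a prime for every good `n`
    have hch : ∀ n, ∃ ℓ : ℕ, n ∈ range N → n ∉ bad Q Δ (a s₀) (b s₀) N →
        ℓ.Prime ∧ Q ℓ ∧ ¬ ℓ ∣ Δ ∧ el N ^ 4 < ℓ ∧ (a s₀ * n + b s₀).factorization ℓ = 1 := by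
      intro n
      by_cases h1 : n ∈ range N
      · by_cases h2 : n ∉ bad Q Δ (a s₀) (b s₀) N
        · simp only [bad, mem_filter, not_and, not_forall] at h2
          obtain ⟨ℓ, x1, x2, x3, x4, x5⟩ := h2 h1
          exact ⟨ℓ, fun _ _ => ⟨x1, x2, x3, x4, not_not.1 x5⟩⟩
        · exact ⟨0, fun _ h => absurd h h2⟩
      · exact ⟨0, fun h => absurd h h1⟩
    choose ℓ hℓ using hch
    set w2 : ℕ → ℂ := fun n => if n ∈ range N then w' N n else 0 with hw2
    have hw2' : ∀ n, w2 n ≠ 0 → n ∈ range N ∧ n ∉ bad Q Δ (a s₀) (b s₀) N := by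
      intro n hn
      rw [hw2] at hn
      simp only at hn
      by_cases h1 : n ∈ range N
      · refine ⟨h1, ?_⟩
        rw [if_pos h1, hw'] at hn
        simp only at hn
        intro h2
        rw [if_pos h2] at hn
        exact hn rfl
      · rw [if_neg h1] at hn
        exact absurd rfl hn
    have hsm := second_moment (μ := μ) hF c a b w2 (by
        intro n
        rw [hw2]
        simp only
        split_ifs
        · exact hw'1 N n
        · simp) N (fun n n' => ∃ s, ℓ n ∣ a s * n' + b s) (r * ((N : ℝ) / (el N : ℝ) ^ 4 + 1))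
        (by positivity)
      (by
        intro n n' hn hbad
        obtain ⟨h1, h2⟩ := hw2' n hn
        obtain ⟨x1, x2, x3, x4, x5⟩ := hℓ n h1 h2
        push Not at hbad
        apply pair_zero hF c a b hb s₀ n n' ⟨ℓ n, x1⟩ x2 x5 _ hbad
        intro s hs
        apply hΔ3 (ℓ n) x1 x3 n s hs
        apply Nat.dvd_of_factorization_pos
        omega)
      (by
        intro n _ hn
        obtain ⟨h1, h2⟩ := hw2' n hn
        obtain ⟨x1, x2, x3, x4, x5⟩ := hℓ n h1 h2
        have hsub : (range N).filter (fun n' => ∃ s, ℓ n ∣ a s * n' + b s)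
            ⊆ univ.biUnion (fun s => (range N).filter (fun n' => ℓ n ∣ a s * n' + b s)) := by
          intro n' hn'
          simp only [mem_filter, mem_biUnion, mem_univ, true_and] at hn' ⊢
          obtain ⟨y1, s, y2⟩ := hn'
          exact ⟨s, y1, y2⟩
        have h3 : ∀ s, ((range N).filter (fun n' => ℓ n ∣ a s * n' + b s)).card ≤ N / ℓ n + 1 := by
          intro s
          apply card_le_of_modEq _ _ _ (filter_subset _ _)
          have key : ∀ x y : ℕ, x ≤ y → ℓ n ∣ a s * x + b s → ℓ n ∣ a s * y + b s →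
              x ≡ y [MOD ℓ n] := by
            intro x y hxy hx hy
            rw [Nat.modEq_iff_dvd' hxy]
            exact dvd_sub_of_forms x1 (hΔ1 _ x1 x3 s) hxy hx hy
          intro x hx y hy
          have hx' := (mem_filter.1 hx).2
          have hy' := (mem_filter.1 hy).2
          rcases le_total x y with h | h
          · exact key x y h hx' hy'
          · exact (key y x h hy' hx').symm
        have h4 : ((N / ℓ n : ℕ) : ℝ) ≤ (N : ℝ) / (el N : ℝ) ^ 4 := by
          refine Nat.cast_div_le.trans ?_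
          have h5 : ((el N : ℝ)) ^ 4 ≤ ℓ n := by exact_mod_cast x4.le
          have h6 : (0 : ℝ) < (el N : ℝ) ^ 4 := by
            have : (0 : ℝ) < el N := by exact_mod_cast el_pos N
            positivity
          gcongr
        calc (((range N).filter (fun n' => ∃ s, ℓ n ∣ a s * n' + b s)).card : ℝ)
            ≤ ∑ s, (((range N).filter (fun n' => ℓ n ∣ a s * n' + b s)).card : ℝ) := by
              exact_mod_cast (card_le_card hsub).trans card_biUnion_le
          _ ≤ ∑ _s : σ, ((N : ℝ) / (el N : ℝ) ^ 4 + 1) := by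
              apply sum_le_sum
              intro s _
              have : (((range N).filter (fun n' => ℓ n ∣ a s * n' + b s)).card : ℝ)
                  ≤ ((N / ℓ n : ℕ) : ℝ) + 1 := by exact_mod_cast h3 s
              linarith
          _ = _ := by
              rw [sum_const, card_univ, nsmul_eq_mul])
    have hcongr : ∀ ω, ∑ n ∈ range N, w' N n * XX F c a b n ω
        = ∑ n ∈ range N, w2 n * XX F c a b n ω := by
      intro ω
      apply sum_congr rfl
      intro n hn
      rw [hw2]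
      simp only [if_pos hn]
    simp_rw [hcongr]
    exact hsm
  set Z : ℕ → Ω → ℝ := fun j ω =>
    ‖∑ n ∈ range (sc j), w' (sc j) n * XX F c a b n ω‖ ^ 2 / (sc j : ℝ) ^ 2 with hZ
  have hmeasS : ∀ (v : ℕ → ℂ) (M : ℕ), Measurable (fun ω => ∑ n ∈ range M, v n * XX F c a b n ω) := by
    intro v M
    apply Finset.measurable_fun_sum
    intro n _
    exact (XX_meas hF c a b n).const_mul _
  have hZm : ∀ j, Measurable (Z j) := by
    intro j
    exact ((hmeasS _ _).norm.pow_const 2).div_const _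
  have hbdS : ∀ (N j : ℕ) ω, ‖∑ n ∈ range N, w' j n * XX F c a b n ω‖ ≤ N := by
    intro N j ω
    refine (norm_sum_le _ _).trans ?_
    calc ∑ n ∈ range N, ‖w' j n * XX F c a b n ω‖ ≤ ∑ n ∈ range N, (1 : ℝ) := by
          apply sum_le_sum
          intro n _
          rw [norm_mul]
          exact mul_le_one₀ (hw'1 j n) (norm_nonneg _) (XX_bd hF c a b n ω)
      _ = N := by simp
  have hconv := ae_tendsto_of_moment (μ := μ) Z (fun M ω => by rw [hZ]; positivity) hZm
    (fun j => by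
      apply Integrable.of_bound (C := ((sc j : ℕ) : ℝ) ^ 2 / (sc j : ℝ) ^ 2)
        (hZm j).aestronglyMeasurable
      filter_upwards with ω
      rw [hZ, Real.norm_of_nonneg (by positivity)]
      exact div_le_div_of_nonneg_right (pow_le_pow_left₀ (norm_nonneg _) (hbdS _ _ ω) 2)
        (by positivity))
    (fun j => r * (1 / (el (sc j) : ℝ) ^ 4 + 1 / (sc j : ℝ)))
    (sc_sum r)
    (fun j => by
      have hj : (0 : ℝ) < sc j := by exact_mod_cast sc_pos j
      rw [hZ]
      simp only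
      rw [integral_div, div_le_iff₀ (by positivity)]
      refine (hmom (sc j) (sc_pos j)).trans (le_of_eq ?_)
      field_simp)
  have hbadt := (bad_tendsto Q hmean Δ (a s₀) (b s₀) hΔ (ha s₀) (hb s₀)
    (fun p hp h => hΔ1 p hp h s₀)).comp sc_tendsto
  filter_upwards [hconv] with ω hω
  apply Pool.H2.Sp.gap _ _ sc sc_pos sc_mono sc_tendsto sc_ratio
  · have h1 : Tendsto (fun j : ℕ => √(Z j ω)) atTop (𝓝 0) := by
      have := (Real.continuous_sqrt.tendsto 0).comp hω
      simpa [Function.comp_def] using this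
    have h2 := hbadt.add h1
    rw [add_zero] at h2
    refine squeeze_zero (fun j => by positivity) (fun j => ?_) h2
    have hj : (0 : ℝ) < sc j := by exact_mod_cast sc_pos j
    have h3 : √(Z j ω) = ‖∑ n ∈ range (sc j), w' (sc j) n * XX F c a b n ω‖ / (sc j : ℝ) := by
      rw [hZ]
      simp only
      rw [← div_pow, Real.sqrt_sq (by positivity)]
    rw [h3]
    simp only [Function.comp_apply]
    rw [← add_div]
    apply div_le_div_of_nonneg_right _ hj.le
    have h4 : ∑ n ∈ range (sc j), w n * XX F c a b n ω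
        = ∑ n ∈ bad Q Δ (a s₀) (b s₀) (sc j), w n * XX F c a b n ω
          + ∑ n ∈ range (sc j), w' (sc j) n * XX F c a b n ω := by
      have h5 : ∑ n ∈ bad Q Δ (a s₀) (b s₀) (sc j), w n * XX F c a b n ω
          = ∑ n ∈ range (sc j), if n ∈ bad Q Δ (a s₀) (b s₀) (sc j) then w n * XX F c a b n ω else 0 := by
        rw [← sum_filter]
        apply sum_congr _ (fun _ _ => rfl)
        ext n
        simp only [mem_filter]
        constructor
        · intro h
          exact ⟨by simp only [bad, mem_filter] at h; exact h.1, h⟩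
        · exact fun h => h.2
      rw [h5, ← sum_add_distrib]
      apply sum_congr rfl
      intro n _
      rw [hw']
      simp only
      split_ifs <;> ring
    rw [h4]
    refine (norm_add_le _ _).trans ?_
    gcongr
    calc ‖∑ n ∈ bad Q Δ (a s₀) (b s₀) (sc j), w n * XX F c a b n ω‖
        ≤ ∑ n ∈ bad Q Δ (a s₀) (b s₀) (sc j), (1 : ℝ) := by
          refine (norm_sum_le _ _).trans (sum_le_sum fun n _ => ?_)
          rw [norm_mul]
          exact mul_le_one₀ (hw n) (norm_nonneg _) (XX_bd hF c a b n ω)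
      _ = _ := by simp
  · intro n
    rw [norm_mul]
    exact mul_le_one₀ (hw n) (norm_nonneg _) (XX_bd hF c a b n ω)

/-- Lemma L, integer version -/
theorem lemmaZ [IsProbabilityMeasure μ] {σ : Type*} [Fintype σ]
    (hF : RandMult μ F) (c : σ → ι) (a : σ → ℕ) (b : σ → ℤ) (ha : ∀ s, 0 < a s) (s₀ : σ)
    (hne : ∀ s, s ≠ s₀ → (a s : ℤ) * b s₀ ≠ a s₀ * b s)
    (hmean : Div (fun p => ∫ ω, F (c s₀) ω p ∂μ = 0))
    (w : ℕ → ℂ) (hw : ∀ n, ‖w n‖ ≤ 1) :
    ∀ᵐ ω ∂μ, Tendsto (fun N : ℕ => (1 / (N : ℂ)) * ∑ n ∈ range N,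
      w n * ∏ s, F (c s) ω ((a s : ℤ) * n + b s).toNat) atTop (𝓝 0) := by
  classical
  set n₀ : ℕ := ∑ s, (b s).natAbs + 1 with hn₀
  have hn₀' : ∀ s, |b s| < n₀ := by
    intro s
    have h1 : (b s).natAbs ≤ ∑ s, (b s).natAbs :=
      single_le_sum (f := fun s => (b s).natAbs) (fun _ _ => Nat.zero_le _) (mem_univ s)
    rw [Int.abs_eq_natAbs, hn₀]
    exact_mod_cast Nat.lt_succ_of_le h1
  have hpos : ∀ s, 0 < (a s : ℤ) * n₀ + b s := by
    intro s
    have h1 := abs_lt.1 (hn₀' s)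
    have h2 : (1 : ℤ) ≤ a s := by exact_mod_cast ha s
    have h3 : (0 : ℤ) ≤ n₀ := by positivity
    nlinarith [h1.1]
  set b' : σ → ℕ := fun s => ((a s : ℤ) * n₀ + b s).toNat with hb'
  have hb'c : ∀ s, (b' s : ℤ) = (a s : ℤ) * n₀ + b s := fun s => Int.toNat_of_nonneg (hpos s).le
  have hb'p : ∀ s, 0 < b' s := by
    intro s
    have h1 := hpos s
    rw [← hb'c s] at h1
    exact_mod_cast h1
  have hL := Pool.H2.Sp.lemmaL hF c a b' ha hb'p s₀ (by
    intro s hs h
    apply hne s hs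
    rw [hb'c, hb'c] at h
    linarith) hmean (fun n => w (n + n₀)) (fun n => hw _)
  filter_upwards [hL] with ω hω
  rw [← Pool.H2.Ell.mean_shift _ _ n₀]
  · refine hω.congr (fun x => ?_)
    congr 1
    apply sum_congr rfl
    intro n _
    unfold XX
    congr 1
    apply prod_congr rfl
    intro s _
    congr 1
    have h1 : (a s : ℤ) * ((n + n₀ : ℕ) : ℤ) + b s = ((a s * n + b' s : ℕ) : ℤ) := by
      push_cast
      rw [hb'c]
      ring
    rw [h1, Int.toNat_natCast]
  · intro n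
    rw [norm_mul, norm_prod]
    exact mul_le_one₀ (hw n) (prod_nonneg fun _ _ => norm_nonneg _)
      (prod_le_one (fun _ _ => norm_nonneg _) (fun s _ => hF.bd _ _ _))

end

end Pool.H2.Sp
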