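import Mathlib
import Pool.Agent.H2.SpFinal

set_option autoImplicit false

open Finset Filter Topology MeasureTheory ProbabilityTheory

namespace Pool.H2.Sp

open Pool.H2.Rand

/-- the conclusion: Elliott correlations of the twists `f i * r`, of fixed functions and of one
arbitrary multiplicative function -/
def Holds {ι : Type} (f : ι → ArithmeticFunction ℂ) (D : ℕ → ArithmeticFunction ℂ)
    (r : ArithmeticFunction ℂ) : Prop :=
  ∀ (k : ℕ) (g : Fin k → ArithmeticFunction ℂ) (i₀ : Fin k),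
      (g i₀).IsMultiplicative → (∀ n, ‖g i₀ n‖ ≤ 1) →
      (∀ j, j ≠ i₀ → (∃ i, ∀ n, g j n = f i n * r n) ∨ (∃ l, g j = D l)) →
      (∃ j, j ≠ i₀ ∧ ∃ i, ∀ n, g j n = f i n * r n) →
      ∀ h : Fin k → ℤ, Function.Injective h →
      Tendsto (fun N : ℕ => (1 / (N : ℂ)) * ∑ n ∈ Finset.Icc 1 N, ∏ i, g i ((n : ℤ) + h i).toNat)
        atTop (𝓝 0)

open Classical in
/-- the thickness condition on a set of primes -/
def Thick (P : Set ℕ) : Prop :=
  Tendsto (fun N : ℕ => ∑ p ∈ (Finset.Icc 1 N).filter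
    (fun p => p.Prime ∧ p ∈ P ∧ Real.log N < p), (1 : ℝ) / p) atTop atTop

lemma Div.mono {Q Q' : ℕ → Prop} (h : ∀ p, p.Prime → Q p → Q' p) (hQ : Div Q) : Div Q' := by
  classical
  refine tendsto_atTop_mono (fun N => ?_) hQ
  apply sum_le_sum_of_subset_of_nonneg
  · intro p hp
    rw [mem_filter] at hp ⊢
    exact ⟨hp.1, hp.2.1, h p hp.2.1 hp.2.2.1, hp.2.2.2⟩
  · intro _ _ _; positivity

section
variable {Ω : Type} [mΩ : MeasurableSpace Ω] {μ : Measure Ω} {ι : Type}

lemma cm_norm (r : ArithmeticFunction ℂ) (h1 : r 1 = 1) (hm : ∀ m n, r (m * n) = r m * r n)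
    (hb : ∀ p : ℕ, p.Prime → ‖r p‖ ≤ 1) (n : ℕ) : ‖r n‖ ≤ 1 := by
  induction n using Nat.recOnMul with
  | zero => simp
  | one => simp [h1]
  | prime p hp => exact hb p hp
  | mul a b ha hb' =>
    rw [hm, norm_mul]
    exact mul_le_one₀ ha (norm_nonneg _) hb'

lemma cm_pow (r : ArithmeticFunction ℂ) (h1 : r 1 = 1) (hm : ∀ m n, r (m * n) = r m * r n)
    (p k : ℕ) : r (p ^ k) = r p ^ k := by
  induction k with
  | zero => simp [h1]
  | succ k ih => rw [pow_succ, hm, ih, pow_succ]

/-- random twists -/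
theorem twist_ae [IsProbabilityMeasure μ] [Countable ι] (P : Set ℕ) (hP : Thick P)
    (R : Ω → ArithmeticFunction ℂ) (hR1 : ∀ ω, R ω 1 = 1)
    (hRm : ∀ ω m n, R ω (m * n) = R ω m * R ω n)
    (hRb : ∀ ω p, p.Prime → ‖R ω p‖ ≤ 1)
    (hRmeas : ∀ n, Measurable (fun ω => R ω n))
    (hRind : iIndepFun (fun (p : Nat.Primes) (ω : Ω) => R ω (p : ℕ)) μ)
    (hRmean : ∀ p ∈ P, p.Prime → ∫ ω, R ω p ∂μ = 0)
    (f : ι → ArithmeticFunction ℂ) (hf : ∀ i, (f i).IsMultiplicative) (hfb : ∀ i n, ‖f i n‖ ≤ 1)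
    (D : ℕ → ArithmeticFunction ℂ) (hD : ∀ l n, ‖D l n‖ ≤ 1) :
    ∀ᵐ ω ∂μ, Holds f D (R ω) := by
  set F : ι → Ω → ArithmeticFunction ℂ := fun i ω => (f i).pmul (R ω) with hFdef
  have hRmul : ∀ ω, (R ω).IsMultiplicative := fun ω => ⟨hR1 ω, fun {m n} _ => hRm ω m n⟩
  have hF : RandMult μ F := by
    refine ⟨fun i ω => (hf i).pmul (hRmul ω), ?_, ?_, ?_⟩
    · intro i ω n
      simp only [hFdef, ArithmeticFunction.pmul_apply, norm_mul]
      exact mul_le_one₀ (hfb i n) (norm_nonneg _) (cm_norm _ (hR1 ω) (hRm ω) (hRb ω) n)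
    · intro i n
      simp only [hFdef, ArithmeticFunction.pmul_apply]
      exact (hRmeas n).const_mul _
    · have h1 := hRind.comp (fun (p : Nat.Primes) (z : ℂ) (x : ι × ℕ) =>
        f x.1 ((p : ℕ) ^ x.2) * z ^ x.2) (fun p => by
          apply measurable_pi_lambda
          intro x
          exact (measurable_id.pow_const _).const_mul _)
      have h2 : (fun (p : Nat.Primes) => (fun (z : ℂ) (x : ι × ℕ) => f x.1 ((p : ℕ) ^ x.2) * z ^ x.2)
          ∘ (fun ω => R ω (p : ℕ)))
          = (fun (p : Nat.Primes) (ω : Ω) (x : ι × ℕ) => F x.1 ω ((p : ℕ) ^ x.2)) := by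
        funext p ω x
        simp only [hFdef, Function.comp_apply, ArithmeticFunction.pmul_apply]
        rw [cm_pow _ (hR1 ω) (hRm ω)]
      rw [h2] at h1
      exact h1
  have hmean : ∀ i, Div (fun p => ∫ ω, F i ω p ∂μ = 0) := by
    intro i
    apply Div.mono (Q := fun p => p ∈ P) _ hP
    intro p hp hpP
    simp only [hFdef, ArithmeticFunction.pmul_apply]
    rw [integral_const_mul, hRmean p hpP hp, mul_zero]
  have hmain := Pool.H2.Sp.mainR hF hmean D hD
  filter_upwards [hmain] with ω hω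
  intro k g i₀ hmul hbd hslots hrand h hinj
  refine hω k g i₀ hmul hbd ?_ ?_ h hinj
  · intro j hj
    rcases hslots j hj with ⟨i, hi⟩ | hl
    · left
      refine ⟨i, ?_⟩
      ext n
      rw [hi n]
      simp [hFdef]
    · right; exact hl
  · obtain ⟨j, hj, i, hi⟩ := hrand
    refine ⟨j, hj, i, ?_⟩
    ext n
    rw [hi n]
    simp [hFdef]

end

/-- the sign attached to a boolean -/
def sgn (b : Bool) : ℂ := if b then 1 else -1

open Classical in
/-- the completely multiplicative function with the given signs at the primes of `P` -/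
noncomputable def rad (P : Set ℕ) (ω : ℕ → Bool) : ArithmeticFunction ℂ :=
  ⟨fun n => if n = 0 then 0 else ∏ p ∈ n.primeFactors,
    (if p ∈ P then sgn (ω p) else 1) ^ (n.factorization p), by simp⟩

lemma rad_one (P : Set ℕ) (ω : ℕ → Bool) : rad P ω 1 = 1 := by
  simp [rad]

lemma rad_mul (P : Set ℕ) (ω : ℕ → Bool) (m n : ℕ) :
    rad P ω (m * n) = rad P ω m * rad P ω n := by
  classical
  by_cases hm : m = 0
  · simp [hm]
  by_cases hn : n = 0
  · simp [hn]
  have hmn : m * n ≠ 0 := mul_ne_zero hm hn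
  simp only [rad, ArithmeticFunction.coe_mk, if_neg hm, if_neg hn, if_neg hmn]
  have key : ∀ x : ℕ, x ≠ 0 → x.primeFactors ⊆ (m * n).primeFactors →
      ∏ p ∈ x.primeFactors, (if p ∈ P then sgn (ω p) else 1) ^ (x.factorization p)
      = ∏ p ∈ (m * n).primeFactors, (if p ∈ P then sgn (ω p) else 1) ^ (x.factorization p) := by
    intro x _ hsub
    apply prod_subset hsub
    intro p _ hp
    have : x.factorization p = 0 := by
      rw [← Finsupp.notMem_support_iff, Nat.support_factorization]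
      exact hp
    rw [this, pow_zero]
  rw [key m hm (Nat.primeFactors_mono (dvd_mul_right _ _) hmn),
    key n hn (Nat.primeFactors_mono (dvd_mul_left _ _) hmn), ← prod_mul_distrib]
  apply prod_congr rfl
  intro p _
  rw [← pow_add, Nat.factorization_mul hm hn]
  rfl

lemma rad_prime (P : Set ℕ) [DecidablePred (· ∈ P)] (ω : ℕ → Bool) (p : ℕ) (hp : p.Prime) :
    rad P ω p = if p ∈ P then sgn (ω p) else 1 := by
  classical
  simp only [rad, ArithmeticFunction.coe_mk, if_neg hp.ne_zero, hp.primeFactors, prod_singleton,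
    hp.factorization_self, pow_one]
  by_cases hpP : p ∈ P <;> simp [hpP]

/-- the coin -/
noncomputable def coin : Measure Bool := (PMF.uniformOfFintype Bool).toMeasure

instance : IsProbabilityMeasure coin := by unfold coin; infer_instance

lemma coin_mean : ∫ b, sgn b ∂coin = 0 := by
  unfold coin
  rw [PMF.integral_eq_sum]
  simp [sgn]

/-- random signs -/
theorem twist_rad {ι : Type} [Countable ι] (P : Set ℕ) (hP : Thick P)
    (f : ι → ArithmeticFunction ℂ) (hf : ∀ i, (f i).IsMultiplicative) (hfb : ∀ i n, ‖f i n‖ ≤ 1)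
    (D : ℕ → ArithmeticFunction ℂ) (hD : ∀ l n, ‖D l n‖ ≤ 1) :
    ∀ᵐ ω ∂(Measure.infinitePi (fun _ : ℕ => coin)), Holds f D (rad P ω) := by
  classical
  have hmeas : ∀ n, Measurable (fun ω : ℕ → Bool => rad P ω n) := by
    intro n
    simp only [rad, ArithmeticFunction.coe_mk]
    by_cases hn : n = 0
    · simp only [hn, if_true]
      exact measurable_const
    · simp only [if_neg hn]
      apply Finset.measurable_fun_prod
      intro p _
      apply Measurable.pow_const
      by_cases hp : p ∈ P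
      · simp only [if_pos hp]
        exact (Measurable.of_discrete (f := sgn)).comp (measurable_pi_apply p)
      · simp only [if_neg hp]
        exact measurable_const
  have hindω : iIndepFun (fun (i : ℕ) (ω : ℕ → Bool) => ω i)
      (Measure.infinitePi (fun _ : ℕ => coin)) :=
    iIndepFun_infinitePi (P := fun _ : ℕ => coin) (X := fun _ b => b) (fun _ => measurable_id)
  apply twist_ae P hP (fun ω => rad P ω) (rad_one P) (rad_mul P)
  · intro ω p hp
    rw [rad_prime P ω p hp]
    unfold sgn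
    split_ifs <;> simp
  · exact hmeas
  · have h1 := hindω.precomp (g := fun p : Nat.Primes => (p : ℕ)) Subtype.val_injective
    have h2 := h1.comp (fun (p : Nat.Primes) (b : Bool) => if (p : ℕ) ∈ P then sgn b else 1)
      (fun p => Measurable.of_discrete)
    have h3 : (fun (p : Nat.Primes) => (fun (b : Bool) => if (p : ℕ) ∈ P then sgn b else 1)
        ∘ (fun (ω : ℕ → Bool) => ω (p : ℕ))) = (fun (p : Nat.Primes) ω => rad P ω (p : ℕ)) := by
      funext p ω
      rw [rad_prime P ω p p.2]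
      rfl
    have h4 := h3 ▸ h2
    exact h4
  · intro p hpP hp
    have h1 : ∀ ω : ℕ → Bool, rad P ω p = sgn (ω p) := by
      intro ω
      rw [rad_prime P ω p hp, if_pos hpP]
    simp_rw [h1]
    have h2 : (Measure.infinitePi (fun _ : ℕ => coin)).map (fun ω => ω p) = coin :=
      Measure.infinitePi_map_eval _ p
    have h3 : ∫ ω, sgn (ω p) ∂(Measure.infinitePi (fun _ : ℕ => coin))
        = ∫ b, sgn b ∂((Measure.infinitePi (fun _ : ℕ => coin)).map (fun ω => ω p)) := by
      rw [integral_map (measurable_pi_apply p).aemeasurable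
        (Measurable.of_discrete).aestronglyMeasurable]
    rw [h3, h2]
    exact coin_mean
  · exact hf
  · exact hfb
  · exact hD

/-- uniqueness -/
lemma eq_rad (P : Set ℕ) (ω : ℕ → Bool) (r : ArithmeticFunction ℂ) (h1 : r 1 = 1)
    (hm : ∀ m n, r (m * n) = r m * r n)
    (hin : ∀ p ∈ P, p.Prime → r p = if ω p then 1 else -1) (hout : ∀ p ∉ P, p.Prime → r p = 1) :
    r = rad P ω := by
  classical
  ext n
  induction n using Nat.recOnMul with
  | zero => simp
  | one => rw [h1, rad_one]
  | prime p hp =>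
    rw [rad_prime P ω p hp]
    by_cases hpP : p ∈ P
    · rw [if_pos hpP, hin p hpP hp]; rfl
    · rw [if_neg hpP, hout p hpP hp]
  | mul a b ha hb => rw [hm, rad_mul, ha, hb]

end Pool.H2.Sp
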