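import Mathlib
import Pool.Agent.H2.EllMainB

set_option autoImplicit false

open Filter Topology

namespace Pool.Agent.Results.MP_0c9a68_nt.AllButOneSlow

/-- The squared pretentious distance between `g` and `n ↦ χ(n) n^{it}` up to `x`:
the sum over primes `p ≤ x` of `(1 - Re (g(p) * conj (χ(p) p^{it}))) / p`. -/
noncomputable def distSq (g : ℕ → ℂ) {q : ℕ} (χ : DirichletCharacter ℂ q) (t : ℝ) (x : ℕ) : ℝ :=
  ∑ p ∈ Finset.filter Nat.Prime (Finset.Iic x),
    (1 - (g p * starRingEnd ℂ (χ (p : ZMod q) * (p : ℂ) ^ (Complex.I * (t : ℂ)))).re) / (p : ℝ)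

/-- `g` is slowly pretentious: for some Dirichlet character `χ` and real `t`, the squared distance to
`χ(n) n^{it}` grows slowly, in that its increment over `(x, x^2]` tends to zero. -/
def SlowlyPretentious (g : ℕ → ℂ) : Prop :=
  ∃ (q : ℕ) (χ : DirichletCharacter ℂ q) (t : ℝ), 0 < q ∧
    Tendsto (fun x : ℕ => distSq g χ t (x ^ 2) - distSq g χ t x) atTop (𝓝 0)

/-- `g` is non-pretentious: for every Dirichlet character `χ` and every fixed real `t`, the distance
to `χ(n) n^{it}` tends to infinity. -/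
def NonPretentious (g : ℕ → ℂ) : Prop :=
  ∀ (q : ℕ) (χ : DirichletCharacter ℂ q) (t : ℝ), 0 < q → Tendsto (distSq g χ t) atTop atTop

/-- Elliott's conjecture when all but one of the functions are slowly pretentious and one of these is
non-pretentious; the remaining function is arbitrary. -/
theorem result (k : ℕ) (g : Fin k → ArithmeticFunction ℂ)
    (hmul : ∀ i, (g i).IsMultiplicative) (hbd : ∀ i n, ‖g i n‖ ≤ 1) (i₀ : Fin k)
    (hslow : ∀ i, i ≠ i₀ → SlowlyPretentious (fun n => g i n))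
    (hnp : ∃ j, j ≠ i₀ ∧ NonPretentious (fun n => g j n))
    (h : Fin k → ℤ) (hinj : Function.Injective h) :
    Tendsto (fun N : ℕ => (1 / (N : ℂ)) * ∑ n ∈ Finset.Icc 1 N, ∏ i, g i ((n : ℤ) + h i).toNat)
      atTop (𝓝 0) :=
  Pool.H2.Ell.mainB k g hmul hbd i₀ hslow hnp h hinj

end Pool.Agent.Results.MP_0c9a68_nt.AllButOneSlow
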