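import Mathlib
import Pool.Agent.H2.EllMert

set_option autoImplicit false

open Finset Filter Topology Asymptotics

namespace Pool.H2.Ell

lemma cheb_small : ∃ n₀ : ℕ, ∀ n : ℕ, n₀ ≤ n →
    Real.log (n + 1) + 2 * Real.sqrt n * Real.log n ≤ (1 / 8) * (n * Real.log 2) := by
  have hlog2 : 0 < Real.log 2 := Real.log_pos (by norm_num)
  have h1 : Tendsto (fun x : ℝ => Real.log x / x ^ (1 / 4 : ℝ)) atTop (𝓝 0) :=
    (isLittleO_log_rpow_atTop (by norm_num : (0 : ℝ) < 1 / 4)).tendsto_div_nhds_zero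
  have h2 : Tendsto (fun x : ℝ => 2 * x ^ (-(1 / 4) : ℝ)) atTop (𝓝 0) := by
    simpa using (tendsto_rpow_neg_atTop (show (0 : ℝ) < 1 / 4 by norm_num)).const_mul 2
  have e1 := h1.eventually_le_const (show (0 : ℝ) < 1 by norm_num)
  have e2 := h2.eventually_le_const (show (0 : ℝ) < Real.log 2 / 32 by positivity)
  obtain ⟨X, hX⟩ := eventually_atTop.1 (e1.and e2)
  obtain ⟨n₀, hn₀⟩ := exists_nat_ge X
  refine ⟨max n₀ 1, fun n hn => ?_⟩
  have hn1 : 1 ≤ n := le_trans (le_max_right _ _) hn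
  have hnX : X ≤ n := hn₀.trans (by exact_mod_cast le_trans (le_max_left _ _) hn)
  obtain ⟨a1, a2⟩ := hX n hnX
  have hn0 : (0 : ℝ) < n := by exact_mod_cast hn1
  have hn1' : (1 : ℝ) ≤ n := by exact_mod_cast hn1
  have hp : 0 < (n : ℝ) ^ (1 / 4 : ℝ) := Real.rpow_pos_of_pos hn0 _
  have hlog : Real.log n ≤ (n : ℝ) ^ (1 / 4 : ℝ) := by
    rw [div_le_one hp] at a1; exact a1
  have hlog' : Real.log (n + 1) ≤ 2 * (n : ℝ) ^ (1 / 4 : ℝ) := by
    have h3 : Real.log (n + 1) ≤ Real.log (2 * n) := Real.log_le_log (by positivity) (by linarith)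
    rw [Real.log_mul (by norm_num) hn0.ne'] at h3
    have h4 : Real.log 2 ≤ 1 := by have := Real.log_two_lt_d9; linarith
    have h5 : (1 : ℝ) ≤ (n : ℝ) ^ (1 / 4 : ℝ) := Real.one_le_rpow hn1' (by norm_num)
    linarith
  have hs : Real.sqrt n * (n : ℝ) ^ (1 / 4 : ℝ) = n * (n : ℝ) ^ (-(1 / 4) : ℝ) := by
    rw [Real.sqrt_eq_rpow, ← Real.rpow_add hn0]
    conv_rhs => rw [← Real.rpow_one_add' hn0.le (by norm_num)]
    norm_num
  have hs1 : (1 : ℝ) ≤ Real.sqrt n := by rw [Real.one_le_sqrt]; exact hn1'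
  calc Real.log (n + 1) + 2 * Real.sqrt n * Real.log n
      ≤ 2 * (n : ℝ) ^ (1 / 4 : ℝ) + 2 * Real.sqrt n * (n : ℝ) ^ (1 / 4 : ℝ) := by gcongr
    _ ≤ 2 * (Real.sqrt n * (n : ℝ) ^ (1 / 4 : ℝ)) + 2 * (Real.sqrt n * (n : ℝ) ^ (1 / 4 : ℝ)) := by
        have : (n : ℝ) ^ (1 / 4 : ℝ) ≤ Real.sqrt n * (n : ℝ) ^ (1 / 4 : ℝ) := le_mul_of_one_le_left hp.le hs1
        linarith
    _ = 2 * n * (2 * (n : ℝ) ^ (-(1 / 4) : ℝ)) := by rw [hs]; ring
    _ ≤ 2 * n * (Real.log 2 / 32) := by gcongr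
    _ ≤ _ := by nlinarith

lemma sum_three (k₀ : ℕ) (hk₀ : ∀ n : ℕ, k₀ ≤ n →
    Real.log (n + 1) + 2 * Real.sqrt n * Real.log n ≤ (1 / 8) * (n * Real.log 2)) (k : ℕ) (hk : k₀ ≤ k) :
    5 / (8 * ((k : ℝ) + 3)) ≤ ∑ p ∈ (Ioc (2 ^ k) (2 ^ (k + 3))).filter Nat.Prime, (1 : ℝ) / p := by
  have hlog2 : 0 < Real.log 2 := Real.log_pos (by norm_num)
  have h2k : (0 : ℝ) < 2 ^ k := by positivity
  have hk3 : (0 : ℝ) < (k : ℝ) + 3 := by positivity
  set L : ℝ := ((k : ℝ) + 3) * Real.log 2 with hL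
  have hL0 : 0 < L := by positivity
  have h1 : ∀ p ∈ (Ioc (2 ^ k) (2 ^ (k + 3))).filter Nat.Prime,
      (1 / (2 ^ (k + 3) * L)) * Real.log p ≤ (1 : ℝ) / p := by
    intro p hp
    simp only [mem_filter, mem_Ioc] at hp
    have hp0 : (0 : ℝ) < p := by exact_mod_cast hp.2.pos
    have hp2 : (p : ℝ) ≤ 2 ^ (k + 3) := by exact_mod_cast hp.1.2
    have hl : Real.log p ≤ L := by
      have : Real.log p ≤ Real.log (2 ^ (k + 3)) := Real.log_le_log hp0 hp2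
      rw [Real.log_pow] at this
      push_cast at this
      exact this
    calc (1 / (2 ^ (k + 3) * L)) * Real.log p ≤ (1 / (2 ^ (k + 3) * L)) * L := by gcongr
      _ = 1 / 2 ^ (k + 3) := by field_simp
      _ ≤ _ := by gcongr
  have hθ1 : ∑ p ∈ (Ioc (2 ^ k) (2 ^ (k + 3))).filter Nat.Prime, Real.log p
      = Chebyshev.theta ((2 ^ (k + 3) : ℕ) : ℝ) - Chebyshev.theta ((2 ^ k : ℕ) : ℝ) := by
    rw [Chebyshev.theta, Chebyshev.theta, Nat.floor_natCast, Nat.floor_natCast]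
    have : (Ioc 0 (2 ^ (k + 3))).filter Nat.Prime
        = (Ioc 0 (2 ^ k)).filter Nat.Prime ∪ (Ioc (2 ^ k) (2 ^ (k + 3))).filter Nat.Prime := by
      rw [← filter_union]
      congr 1
      rw [Ioc_union_Ioc_eq_Ioc]
      · exact Nat.zero_le _
      · exact Nat.pow_le_pow_right (by norm_num) (by omega)
    rw [this, sum_union]
    · ring
    · rw [disjoint_left]
      intro p hp hp'
      simp only [mem_filter, mem_Ioc] at hp hp'
      omega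
  have hθ2 := Chebyshev.theta_ge (2 ^ (k + 3))
  have hθ3 := Chebyshev.theta_le_log4_mul_x (x := ((2 ^ k : ℕ) : ℝ)) (by positivity)
  have hsm := hk₀ (2 ^ (k + 3)) (by
    have : k < 2 ^ k := Nat.lt_two_pow_self
    have h3 : 2 ^ k ≤ 2 ^ (k + 3) := Nat.pow_le_pow_right (by norm_num) (by omega)
    omega)
  have hlog4 : Real.log 4 = 2 * Real.log 2 := by
    rw [show (4 : ℝ) = 2 ^ 2 by norm_num, Real.log_pow]; norm_num
  have hdiff : 5 * 2 ^ k * Real.log 2 ≤ ∑ p ∈ (Ioc (2 ^ k) (2 ^ (k + 3))).filter Nat.Prime, Real.log p := by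
    rw [hθ1]
    rw [hlog4] at hθ3
    push_cast at hθ2 hθ3 hsm ⊢
    have e : (2 : ℝ) ^ (k + 3) = 8 * 2 ^ k := by rw [pow_add]; ring
    rw [e] at hθ2 hsm ⊢
    nlinarith
  calc 5 / (8 * ((k : ℝ) + 3)) = (1 / (2 ^ (k + 3) * L)) * (5 * 2 ^ k * Real.log 2) := by
        rw [hL, pow_add]; field_simp; norm_num
    _ ≤ (1 / (2 ^ (k + 3) * L)) * ∑ p ∈ (Ioc (2 ^ k) (2 ^ (k + 3))).filter Nat.Prime, Real.log p := by
        gcongr
    _ = ∑ p ∈ (Ioc (2 ^ k) (2 ^ (k + 3))).filter Nat.Prime, (1 / (2 ^ (k + 3) * L)) * Real.log p := by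
        rw [mul_sum]
    _ ≤ _ := sum_le_sum h1

lemma sum_steps (k₀ : ℕ) (hk₀ : ∀ n : ℕ, k₀ ≤ n →
    Real.log (n + 1) + 2 * Real.sqrt n * Real.log n ≤ (1 / 8) * (n * Real.log 2)) (a L : ℕ) (ha : k₀ ≤ a)
    (n : ℕ) (hn : a + 3 * n ≤ L) :
    (n : ℝ) * (5 / (8 * (L : ℝ))) ≤ ∑ p ∈ (Ioc (2 ^ a) (2 ^ (a + 3 * n))).filter Nat.Prime, (1 : ℝ) / p := by
  induction n with
  | zero => simp
  | succ n ih =>
    have ih' := ih (by omega)
    have h1 := sum_three k₀ hk₀ (a + 3 * n) (by omega)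
    have hL0 : (0 : ℝ) < ((a + 3 * n : ℕ) : ℝ) + 3 := by positivity
    have hL : ((a + 3 * n : ℕ) : ℝ) + 3 ≤ L := by
      have : a + 3 * n + 3 ≤ L := by omega
      exact_mod_cast this
    have h2 : 5 / (8 * (L : ℝ)) ≤ 5 / (8 * (((a + 3 * n : ℕ) : ℝ) + 3)) := by gcongr
    have h3 : (Ioc (2 ^ a) (2 ^ (a + 3 * (n + 1)))).filter Nat.Prime
        = (Ioc (2 ^ a) (2 ^ (a + 3 * n))).filter Nat.Prime
          ∪ (Ioc (2 ^ (a + 3 * n)) (2 ^ (a + 3 * n + 3))).filter Nat.Prime := by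
      rw [← filter_union]
      congr 1
      rw [Ioc_union_Ioc_eq_Ioc]
      · rfl
      · exact Nat.pow_le_pow_right (by norm_num) (by omega)
      · exact Nat.pow_le_pow_right (by norm_num) (by omega)
    rw [h3, sum_union]
    · push_cast at h1 h2 ⊢
      linarith
    · rw [disjoint_left]
      intro p hp hp'
      simp only [mem_filter, mem_Ioc] at hp hp'
      omega

lemma blk_lower : ∃ j₁ : ℕ, ∀ j ≥ j₁, (1 : ℝ) / 20 ≤ ∑ p ∈ blk j, (1 : ℝ) / p := by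
  obtain ⟨k₀, hk₀⟩ := cheb_small
  refine ⟨max k₀ 4, fun j hj => ?_⟩
  have hj1 : k₀ ≤ j := le_trans (le_max_left _ _) hj
  have hj2 : 4 ≤ j := le_trans (le_max_right _ _) hj
  have h2j : 16 ≤ 2 ^ j := by
    calc 16 = 2 ^ 4 := by norm_num
      _ ≤ 2 ^ j := Nat.pow_le_pow_right (by norm_num) hj2
  have hjj : j < 2 ^ j := Nat.lt_two_pow_self
  set n := 2 ^ j / 3 with hn
  have hn1 : 3 * n ≤ 2 ^ j := by omega
  have hn2 : 2 ^ j ≤ 4 * n := by omega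
  have h1 := sum_steps k₀ hk₀ (2 ^ j) (2 ^ (j + 1)) (by omega) n (by rw [pow_succ]; omega)
  have h2 : (1 : ℝ) / 20 ≤ (n : ℝ) * (5 / (8 * ((2 ^ (j + 1) : ℕ) : ℝ))) := by
    have h3 : (2 : ℝ) ^ j ≤ 4 * n := by exact_mod_cast hn2
    have h4 : (0 : ℝ) < 2 ^ j := by positivity
    push_cast
    rw [pow_succ]
    have h5 : (5 : ℝ) / 64 ≤ (n : ℝ) * (5 / (8 * (2 ^ j * 2))) := by
      rw [mul_div_assoc', le_div_iff₀ (by positivity)]
      nlinarith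
    linarith
  refine h2.trans (h1.trans ?_)
  unfold blk Y
  apply sum_le_sum_of_subset_of_nonneg
  · intro p hp
    simp only [mem_filter, mem_Ioc] at hp ⊢
    refine ⟨⟨hp.1.1, hp.1.2.trans ?_⟩, hp.2⟩
    apply Nat.pow_le_pow_right (by norm_num)
    rw [pow_succ]; omega
  · intro p _ _; positivity

end Pool.H2.Ell
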