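import Mathlib
import Pool.Agent.H2.EllFactor

set_option autoImplicit false

open Finset

namespace Pool.H2.Ell

/-- the completely multiplicative function with prescribed values at the primes -/
noncomputable def mk (g : ℕ → ℂ) (n : ℕ) : ℂ := n.factorization.prod (fun p k => g p ^ k)

lemma mk_one (g : ℕ → ℂ) : mk g 1 = 1 := by simp [mk]

lemma mk_mul (g : ℕ → ℂ) {m n : ℕ} (hm : m ≠ 0) (hn : n ≠ 0) : mk g (m * n) = mk g m * mk g n := by
  unfold mk
  rw [Nat.factorization_mul hm hn, Finsupp.prod_add_index']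
  · intro p; simp
  · intro p a b; exact pow_add _ _ _

lemma mk_prime (g : ℕ → ℂ) {p : ℕ} (hp : p.Prime) : mk g p = g p := by
  unfold mk
  rw [hp.factorization]
  simp

lemma norm_mk (g : ℕ → ℂ) (hg : ∀ p, p.Prime → ‖g p‖ = 1) (n : ℕ) : ‖mk g n‖ = 1 := by
  unfold mk
  rw [Finsupp.prod, norm_prod]
  apply Finset.prod_eq_one
  intro p hp
  have : p.Prime := Nat.prime_of_mem_primeFactors (by simpa using hp)
  rw [norm_pow, hg p this, one_pow]

lemma mk_approx (g : ℕ → ℂ) (hg : ∀ p, p.Prime → ‖g p‖ = 1) (t : ℝ) (T : Finset ℕ) (n : ℕ)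
    (hn : n ≠ 0) (hT : ∀ p, p.Prime → p ∣ n → p ∈ T) :
    ‖mk g n - tw t n‖ ≤ ∑ p ∈ T, (n.factorization p : ℝ) * ‖g p - tw t p‖ := by
  induction n using Nat.recOnMul with
  | zero => exact absurd rfl hn
  | one => simp [mk_one, tw_one]
  | prime p hp =>
    rw [mk_prime g hp]
    have h1 : ((p.factorization p : ℕ) : ℝ) * ‖g p - tw t p‖
        ≤ ∑ q ∈ T, (p.factorization q : ℝ) * ‖g q - tw t q‖ :=
      Finset.single_le_sum (f := fun q => (p.factorization q : ℝ) * ‖g q - tw t q‖)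
        (fun q _ => by positivity) (hT p hp dvd_rfl)
    rw [hp.factorization_self] at h1
    simpa using h1
  | mul a b iha ihb =>
    have ha : a ≠ 0 := by rintro rfl; simp at hn
    have hb : b ≠ 0 := by rintro rfl; simp at hn
    have h1 := iha ha (fun p hp h => hT p hp (h.mul_right b))
    have h2 := ihb hb (fun p hp h => hT p hp (h.mul_left a))
    rw [mk_mul g ha hb, Nat.factorization_mul ha hb, tw_mul]
    have e2 : mk g a * mk g b - tw t a * tw t b
        = (mk g a - tw t a) * mk g b + tw t a * (mk g b - tw t b) := by ring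
    rw [e2]
    refine (norm_add_le _ _).trans ?_
    rw [norm_mul, norm_mul, norm_mk g hg, norm_tw t (Nat.pos_of_ne_zero ha), mul_one, one_mul]
    have e3 : ∑ p ∈ T, (((a.factorization + b.factorization) p : ℕ) : ℝ) * ‖g p - tw t p‖
        = ∑ p ∈ T, (a.factorization p : ℝ) * ‖g p - tw t p‖
          + ∑ p ∈ T, (b.factorization p : ℝ) * ‖g p - tw t p‖ := by
      rw [← Finset.sum_add_distrib]
      apply Finset.sum_congr rfl
      intro p _
      rw [Finsupp.add_apply]
      push_cast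
      ring
    rw [e3]
    linarith

lemma sum_mk_approx (g : ℕ → ℂ) (hg : ∀ p, p.Prime → ‖g p‖ = 1) (t : ℝ) (Z : ℕ) :
    ∑ n ∈ Finset.Icc 1 Z, ‖mk g n - tw t n‖
      ≤ Z * ∑ p ∈ (Z + 1).primesBelow, ‖g p - tw t p‖ := by
  have h1 : ∑ n ∈ Finset.Icc 1 Z, ‖mk g n - tw t n‖
      ≤ ∑ n ∈ Finset.Icc 1 Z, ∑ p ∈ (Z + 1).primesBelow,
        (n.factorization p : ℝ) * ‖g p - tw t p‖ := by
    apply Finset.sum_le_sum
    intro n hn
    rw [Finset.mem_Icc] at hn
    apply mk_approx g hg t _ n (by omega)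
    intro p hp hpn
    rw [Nat.mem_primesBelow]
    have := Nat.le_of_dvd (by omega) hpn
    exact ⟨by omega, hp⟩
  refine h1.trans ?_
  rw [Finset.sum_comm, Finset.mul_sum]
  apply Finset.sum_le_sum
  intro p hp
  rw [← Finset.sum_mul]
  apply mul_le_mul_of_nonneg_right _ (norm_nonneg _)
  have hp' := Nat.prime_of_mem_primesBelow hp
  have h2 : ∑ n ∈ Finset.Icc 1 Z, n.factorization p = (Z.factorial).factorization p := by
    have h6 : Finset.Icc 1 Z = Finset.Ico 1 (Z + 1) := by ext; simp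
    rw [← Finset.prod_Ico_id_eq_factorial, h6, Nat.factorization_prod (by
      intro n hn
      rw [Finset.mem_Ico] at hn
      show n ≠ 0
      omega)]
    rw [Finset.sum_apply']
  have h3 := Nat.factorization_factorial_le_div_pred hp' Z
  have h4 : Z / (p - 1) ≤ Z := Nat.div_le_self _ _
  have h5 : ∑ n ∈ Finset.Icc 1 Z, n.factorization p ≤ Z := by rw [h2]; omega
  exact_mod_cast h5

/-- partial summation: `S(Z) ≤ ε Z` implies a logarithmic bound -/
lemma sum_div_le (v : ℕ → ℝ) (ε : ℝ) (hε : 0 ≤ ε) (x : ℕ)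
    (h : ∀ Z ≤ x, ∑ n ∈ Finset.Icc 1 Z, v n ≤ ε * Z) :
    ∑ n ∈ Finset.Icc 1 x, v n / n ≤ ε * (2 + Real.log x) := by
  have key : ∀ Z ≤ x, ∑ n ∈ Finset.Icc 1 Z, v n / n
      = (∑ n ∈ Finset.Icc 1 Z, v n) / (Z + 1)
        + ∑ n ∈ Finset.Icc 1 Z, (∑ k ∈ Finset.Icc 1 n, v k) * (1 / n - 1 / (n + 1)) := by
    intro Z hZ
    induction Z with
    | zero => simp
    | succ Z ih =>
      rw [Finset.sum_Icc_succ_top (by omega), Finset.sum_Icc_succ_top (by omega),
        Finset.sum_Icc_succ_top (by omega), ih (by omega), Finset.sum_Icc_succ_top (by omega)]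
      have h1 : ((Z : ℝ) + 1) ≠ 0 := by positivity
      have h2 : ((Z : ℝ) + 1 + 1) ≠ 0 := by positivity
      push_cast
      field_simp
      ring
  rw [key x le_rfl]
  have h1 : (∑ n ∈ Finset.Icc 1 x, v n) / (x + 1) ≤ ε := by
    rw [div_le_iff₀ (by positivity)]
    have := h x le_rfl
    nlinarith
  have h2 : ∑ n ∈ Finset.Icc 1 x, (∑ k ∈ Finset.Icc 1 n, v k) * ((1 : ℝ) / n - 1 / (n + 1))
      ≤ ∑ n ∈ Finset.Icc 1 x, ε * (1 / (n : ℝ)) := by
    apply Finset.sum_le_sum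
    intro n hn
    rw [Finset.mem_Icc] at hn
    have hn0 : (0 : ℝ) < n := by exact_mod_cast hn.1
    have h3 := h n hn.2
    have h4 : (1 : ℝ) / n - 1 / (n + 1) = 1 / (n * (n + 1)) := by field_simp; ring
    rw [h4]
    calc (∑ k ∈ Finset.Icc 1 n, v k) * (1 / ((n : ℝ) * (n + 1)))
        ≤ (ε * n) * (1 / ((n : ℝ) * (n + 1))) := by gcongr
      _ = ε * (1 / ((n : ℝ) + 1)) := by field_simp
      _ ≤ _ := by
        apply mul_le_mul_of_nonneg_left _ hε
        apply one_div_le_one_div_of_le hn0; linarith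
  have h3 : ∑ n ∈ Finset.Icc 1 x, (1 : ℝ) / n ≤ 1 + Real.log x := by
    have := harmonic_le_one_add_log x
    rw [harmonic_eq_sum_Icc] at this
    push_cast at this
    simpa [one_div] using this
  rw [← Finset.mul_sum] at h2
  have h5 : ε * ∑ n ∈ Finset.Icc 1 x, (1 : ℝ) / n ≤ ε * (1 + Real.log x) := by gcongr
  calc _ ≤ ε + ε * (1 + Real.log x) := add_le_add h1 (h2.trans h5)
    _ = _ := by ring

end Pool.H2.Ell
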