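import Mathlib
import Pool.Agent.H2.EllMk
import Pool.Agent.H2.EllCount

set_option autoImplicit false

open Finset Filter Topology

namespace Pool.H2.Ell

lemma sum_inv_le_log (x : ℕ) : ∑ n ∈ Finset.Icc 1 x, (1 : ℝ) / n ≤ 1 + Real.log x := by
  have := harmonic_le_one_add_log x
  rw [harmonic_eq_sum_Icc] at this
  push_cast at this
  simpa [one_div] using this

lemma log_le_sum_inv (x : ℕ) : Real.log x ≤ ∑ n ∈ Finset.Icc 1 x, (1 : ℝ) / n := by
  have := log_add_one_le_harmonic x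
  rw [harmonic_eq_sum_Icc] at this
  push_cast at this
  have h2 : Real.log x ≤ Real.log (x + 1) := by
    rcases Nat.eq_zero_or_pos x with h0 | h0
    · subst h0; simp
    · apply Real.log_le_log (by exact_mod_cast h0); linarith
  simpa [one_div] using h2.trans this

section
variable (g : ℕ → ℂ) (hg : ∀ n, 0 < n → ‖g n‖ = 1) (U : ℝ) (hU : 0 ≤ U) (x : ℕ) (ε : ℝ) (hε : 0 ≤ ε)
  (hv : ∀ Z ≤ x, ∑ n ∈ Finset.Icc 1 Z, ‖g n - tw U n‖ ≤ ε * Z)

include hg in
lemma corr_pt (n : ℕ) (hn : 0 < n) : ‖g n * (starRingEnd ℂ) (g (n + 1)) - 1‖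
    ≤ ‖g n - tw U n‖ + ‖g (n + 1) - tw U (n + 1)‖ + ‖tw U (n + 1) - tw U n‖ := by
  have h1 : (starRingEnd ℂ) (tw U (n + 1)) * tw U (n + 1) = 1 :=
    conj_mul_of_norm_one (norm_tw U (Nat.succ_pos n))
  have e : g n * (starRingEnd ℂ) (g (n + 1)) - 1
      = (g n - tw U n) * (starRingEnd ℂ) (g (n + 1))
        + tw U n * (starRingEnd ℂ) (g (n + 1) - tw U (n + 1))
        + (-(tw U (n + 1) - tw U n)) * (starRingEnd ℂ) (tw U (n + 1)) := by
    rw [map_sub]
    linear_combination h1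
  rw [e]
  refine (norm_add_le _ _).trans (add_le_add ((norm_add_le _ _).trans (add_le_add ?_ ?_)) ?_)
  · rw [norm_mul, RCLike.norm_conj, hg (n + 1) (Nat.succ_pos n), mul_one]
  · rw [norm_mul, RCLike.norm_conj, norm_tw U hn, one_mul]
  · rw [norm_mul, RCLike.norm_conj, norm_tw U (Nat.succ_pos n), mul_one, norm_neg]

include hU in
lemma w_le (n : ℕ) (hn : 0 < n) : ‖tw U (n + 1) - tw U n‖ ≤ U / n := by
  have := norm_tw_sub_le U hn (Nat.le_succ n)
  refine this.trans (le_of_eq ?_)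
  rw [abs_of_nonneg hU]
  push_cast
  ring

lemma w_le_two (n : ℕ) (hn : 0 < n) : ‖tw U (n + 1) - tw U n‖ ≤ 2 := by
  refine (norm_sub_le _ _).trans ?_
  rw [norm_tw U (Nat.succ_pos n), norm_tw U hn]; norm_num

include hg in
lemma v_le_two (n : ℕ) (hn : 0 < n) : ‖g n - tw U n‖ ≤ 2 := by
  refine (norm_sub_le _ _).trans ?_
  rw [hg n hn, norm_tw U hn]; norm_num

lemma sum_shift (f : ℕ → ℝ) (x : ℕ) : ∑ n ∈ Finset.Icc 1 x, f (n + 1) + f 1 = ∑ n ∈ Finset.Icc 1 x, f n + f (x + 1) := by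
  induction x with
  | zero => simp
  | succ x ih =>
    rw [Finset.sum_Icc_succ_top (by omega), Finset.sum_Icc_succ_top (by omega)]
    linarith

include hg hU hv in
lemma corr_cesaro : ∑ n ∈ Finset.Icc 1 x, ‖g n * (starRingEnd ℂ) (g (n + 1)) - 1‖
    ≤ 2 * ε * x + 2 + U * (1 + Real.log x) := by
  calc _ ≤ ∑ n ∈ Finset.Icc 1 x, (‖g n - tw U n‖ + ‖g (n + 1) - tw U (n + 1)‖ + U * (1 / n)) := by
        apply sum_le_sum
        intro n hn
        rw [mem_Icc] at hn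
        refine (corr_pt g hg U n hn.1).trans ?_
        have := w_le U hU n hn.1
        rw [mul_one_div]
        linarith
    _ = ∑ n ∈ Finset.Icc 1 x, ‖g n - tw U n‖ + ∑ n ∈ Finset.Icc 1 x, ‖g (n + 1) - tw U (n + 1)‖
        + U * ∑ n ∈ Finset.Icc 1 x, (1 : ℝ) / n := by
        rw [sum_add_distrib, sum_add_distrib, mul_sum]
    _ ≤ _ := by
        have h1 := hv x le_rfl
        have h2 := sum_shift (fun n => ‖g n - tw U n‖) x
        have h3 := v_le_two g hg U (x + 1) (Nat.succ_pos x)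
        have h4 : U * ∑ n ∈ Finset.Icc 1 x, (1 : ℝ) / n ≤ U * (1 + Real.log x) := by
          have := sum_inv_le_log x
          gcongr
        have h5 : 0 ≤ ‖g 1 - tw U 1‖ := norm_nonneg _
        linarith

include hg hU hε hv in
lemma corr_log (N' : ℕ) (hN' : U ≤ N') (hN1 : 1 ≤ N') :
    ∑ n ∈ Finset.Icc 1 x, ‖g n * (starRingEnd ℂ) (g (n + 1)) - 1‖ / n
    ≤ 3 * ε * (2 + Real.log x) + 7 + 2 * Real.log N' := by
  have hN0 : (0 : ℝ) < N' := by exact_mod_cast hN1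
  have hA : ∑ n ∈ Finset.Icc 1 x, ‖g n - tw U n‖ / n ≤ ε * (2 + Real.log x) :=
    sum_div_le (fun n => ‖g n - tw U n‖) ε hε x hv
  have hB : ∑ n ∈ Finset.Icc 1 x, ‖g (n + 1) - tw U (n + 1)‖ / n ≤ 2 * (ε * (2 + Real.log x)) + 4 := by
    have h1 : ∀ n ∈ Finset.Icc 1 x, ‖g (n + 1) - tw U (n + 1)‖ / n
        ≤ 2 * (‖g (n + 1) - tw U (n + 1)‖ / ((n + 1 : ℕ) : ℝ)) := by
      intro n hn
      rw [mem_Icc] at hn
      have hn0 : (0 : ℝ) < n := by exact_mod_cast hn.1
      have hn1 : (1 : ℝ) ≤ n := by exact_mod_cast hn.1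
      push_cast
      rw [← mul_div_assoc, div_le_div_iff₀ hn0 (by positivity)]
      have h0 := norm_nonneg (g (n + 1) - tw U (n + 1))
      nlinarith
    refine (sum_le_sum h1).trans ?_
    rw [← mul_sum]
    have h2 := sum_shift (fun n => ‖g n - tw U n‖ / n) x
    have h3 := v_le_two g hg U (x + 1) (Nat.succ_pos x)
    have h4 : ‖g (x + 1) - tw U (x + 1)‖ / ((x + 1 : ℕ) : ℝ) ≤ 2 := by
      rw [div_le_iff₀ (by positivity)]
      push_cast
      have : (0 : ℝ) ≤ x := by positivity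
      nlinarith
    have h5 : 0 ≤ ‖g 1 - tw U 1‖ / ((1 : ℕ) : ℝ) := by positivity
    linarith
  have hC : ∑ n ∈ Finset.Icc 1 x, ‖tw U (n + 1) - tw U n‖ / n ≤ 2 * (1 + Real.log N') + 1 := by
    have h1 : ∑ n ∈ Finset.Icc 1 x, ‖tw U (n + 1) - tw U n‖ / n
        ≤ ∑ n ∈ (Finset.Icc 1 x).filter (fun n => n ≤ N'), 2 * ((1 : ℝ) / n)
          + ∑ n ∈ (Finset.Icc 1 x).filter (fun n => ¬ n ≤ N'), U * ((n : ℝ) ^ 2)⁻¹ := by
      rw [← sum_filter_add_sum_filter_not (Finset.Icc 1 x) (fun n => n ≤ N')]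
      apply add_le_add
      · apply sum_le_sum
        intro n hn
        rw [mem_filter, mem_Icc] at hn
        have := w_le_two U n hn.1.1
        rw [mul_one_div]
        gcongr
      · apply sum_le_sum
        intro n hn
        rw [mem_filter, mem_Icc] at hn
        have hn0 : (0 : ℝ) < n := by exact_mod_cast hn.1.1
        have := w_le U hU n hn.1.1
        calc ‖tw U (n + 1) - tw U n‖ / n ≤ (U / n) / n := by gcongr
          _ = _ := by field_simp
    refine h1.trans (add_le_add ?_ ?_)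
    · rw [← mul_sum]
      have h2 : ∑ n ∈ (Finset.Icc 1 x).filter (fun n => n ≤ N'), (1 : ℝ) / n
          ≤ ∑ n ∈ Finset.Icc 1 N', (1 : ℝ) / n := by
        apply sum_le_sum_of_subset_of_nonneg
        · intro n hn
          rw [mem_filter, mem_Icc] at hn
          rw [mem_Icc]; exact ⟨hn.1.1, hn.2⟩
        · intro n _ _; positivity
      have h3 := sum_inv_le_log N'
      linarith
    · rw [← mul_sum]
      have h2 : ∑ n ∈ (Finset.Icc 1 x).filter (fun n => ¬ n ≤ N'), ((n : ℝ) ^ 2)⁻¹ ≤ 1 / N' := by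
        rcases le_total N' x with hNx | hNx
        · have h3 : ∑ n ∈ (Finset.Icc 1 x).filter (fun n => ¬ n ≤ N'), ((n : ℝ) ^ 2)⁻¹
              ≤ ∑ n ∈ Ioc N' x, ((n : ℝ) ^ 2)⁻¹ := by
            apply sum_le_sum_of_subset_of_nonneg
            · intro n hn
              rw [mem_filter, mem_Icc] at hn
              rw [mem_Ioc]; omega
            · intro n _ _; positivity
          refine h3.trans ((sum_Ioc_inv_sq_le_sub (by omega) hNx).trans ?_)
          rw [one_div]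
          have : (0 : ℝ) ≤ (x : ℝ)⁻¹ := by positivity
          linarith
        · have : (Finset.Icc 1 x).filter (fun n => ¬ n ≤ N') = ∅ := by
            apply filter_eq_empty_iff.2
            intro n hn
            rw [mem_Icc] at hn
            omega
          rw [this, sum_empty]; positivity
      calc U * ∑ n ∈ (Finset.Icc 1 x).filter (fun n => ¬ n ≤ N'), ((n : ℝ) ^ 2)⁻¹
          ≤ N' * (1 / N') := by gcongr
        _ = 1 := by field_simp
  calc _ ≤ ∑ n ∈ Finset.Icc 1 x, (‖g n - tw U n‖ / n + ‖g (n + 1) - tw U (n + 1)‖ / n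
          + ‖tw U (n + 1) - tw U n‖ / n) := by
        apply sum_le_sum
        intro n hn
        rw [mem_Icc] at hn
        rw [← add_div, ← add_div]
        have := corr_pt g hg U n hn.1
        gcongr
    _ = ∑ n ∈ Finset.Icc 1 x, ‖g n - tw U n‖ / n + ∑ n ∈ Finset.Icc 1 x, ‖g (n + 1) - tw U (n + 1)‖ / n
        + ∑ n ∈ Finset.Icc 1 x, ‖tw U (n + 1) - tw U n‖ / n := by
        rw [sum_add_distrib, sum_add_distrib]
    _ ≤ _ := by linarith

end

/-- distance of an average from 1 -/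
lemma norm_avg_sub_one (c : ℕ → ℂ) (w : ℕ → ℝ) (s : Finset ℕ) (hw : ∀ n ∈ s, 0 ≤ w n)
    (hW : 0 < ∑ n ∈ s, w n) :
    ‖(∑ n ∈ s, (w n : ℂ) * c n) / ((∑ n ∈ s, w n : ℝ) : ℂ) - 1‖
      ≤ (∑ n ∈ s, w n * ‖c n - 1‖) / ∑ n ∈ s, w n := by
  have hne : ((∑ n ∈ s, w n : ℝ) : ℂ) ≠ 0 := by exact_mod_cast hW.ne'
  have e : (∑ n ∈ s, (w n : ℂ) * c n) / ((∑ n ∈ s, w n : ℝ) : ℂ) - 1
      = (∑ n ∈ s, (w n : ℂ) * (c n - 1)) / ((∑ n ∈ s, w n : ℝ) : ℂ) := by
    rw [eq_div_iff hne, sub_mul, div_mul_cancel₀ _ hne, one_mul]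
    push_cast
    rw [← sum_sub_distrib]
    apply sum_congr rfl
    intro n _
    ring
  rw [e, norm_div, Complex.norm_real, Real.norm_eq_abs, abs_of_pos hW]
  gcongr
  refine (norm_sum_le _ _).trans (sum_le_sum fun n hn => ?_)
  rw [norm_mul, Complex.norm_real, Real.norm_eq_abs, abs_of_nonneg (hw n hn)]

end Pool.H2.Ell
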