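import Mathlib
import Pool.Agent.H2.EllMV

set_option autoImplicit false

open Finset MeasureTheory

namespace Pool.H2.Ell

/-- kernel factor -/
noncomputable def kf (K : ℕ) (θ : ℕ → ℂ) (U : ℝ) (p : ℕ) : ℂ :=
  ∑ e ∈ range K, ((starRingEnd ℂ) (θ p) * tw U p) ^ e

/-- kernel -/
noncomputable def ker (P : Finset ℕ) (K : ℕ) (θ : ℕ → ℂ) (U : ℝ) : ℂ := ∏ p ∈ P, kf K θ U p

lemma tw_pow (t : ℝ) (n e : ℕ) : tw t (n ^ e) = tw t n ^ e := by
  induction e with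
  | zero => simp [tw_one]
  | succ e ih => rw [pow_succ, tw_mul, ih, pow_succ]

/-- a representation of a function as a Dirichlet polynomial with unimodular coefficients -/
structure Rep (P : Finset ℕ) (C : ℕ) (A : ℝ → ℂ) where
  α : Type
  s : Finset α
  ν : α → ℕ
  c : α → ℂ
  pos : ∀ a ∈ s, 0 < ν a
  smooth : ∀ a ∈ s, ∀ p : ℕ, p.Prime → p ∣ ν a → p ∈ P
  inj : Set.InjOn ν s
  norm_c : ∀ a ∈ s, ‖c a‖ = 1
  card : s.card = C
  eq : ∀ U, A U = ∑ a ∈ s, c a * tw U (ν a)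

lemma rep_ker (K : ℕ) (θ : ℕ → ℂ) (P : Finset ℕ) (hP : ∀ p ∈ P, p.Prime)
    (hθ : ∀ p ∈ P, ‖θ p‖ = 1) : Nonempty (Rep P (K ^ P.card) (ker P K θ)) := by
  classical
  induction P using Finset.induction_on with
  | empty =>
    refine ⟨⟨Unit, univ, fun _ => 1, fun _ => 1, ?_, ?_, ?_, ?_, ?_, ?_⟩⟩
    · intro _ _; exact one_pos
    · intro _ _ p hp hd; exact absurd (Nat.dvd_one.1 hd) hp.one_lt.ne'
    · intro a _ b _ _; exact Subsingleton.elim a b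
    · intro _ _; simp
    · simp
    · intro U; simp [ker, tw_one]
  | insert p P hp ih =>
    obtain ⟨R⟩ := ih (fun p' hp' => hP p' (mem_insert_of_mem hp'))
      (fun p' hp' => hθ p' (mem_insert_of_mem hp'))
    have hpr := hP p (mem_insert_self _ _)
    have hθp := hθ p (mem_insert_self _ _)
    have hcop : ∀ a ∈ R.s, ¬ p ∣ R.ν a := fun a ha hd => hp (R.smooth a ha p hpr hd)
    refine ⟨⟨ℕ × R.α, range K ×ˢ R.s, fun x => p ^ x.1 * R.ν x.2,
      fun x => ((starRingEnd ℂ) (θ p)) ^ x.1 * R.c x.2, ?_, ?_, ?_, ?_, ?_, ?_⟩⟩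
    · rintro ⟨e, a⟩ hx
      rw [mem_product] at hx
      exact Nat.mul_pos (pow_pos hpr.pos _) (R.pos a hx.2)
    · rintro ⟨e, a⟩ hx p' hp' hd
      rw [mem_product] at hx
      rcases (Nat.Prime.dvd_mul hp').1 hd with h1 | h1
      · have := (Nat.prime_dvd_prime_iff_eq hp' hpr).1 (hp'.dvd_of_dvd_pow h1)
        rw [this]; exact mem_insert_self _ _
      · exact mem_insert_of_mem (R.smooth a hx.2 p' hp' h1)
    · rintro ⟨e, a⟩ hx ⟨e', a'⟩ hx' heq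
      simp only [coe_product, Set.mem_prod, mem_coe] at hx hx'
      simp only at heq
      have hv : ∀ (e : ℕ) (a : R.α), a ∈ R.s → (p ^ e * R.ν a).factorization p = e := by
        intro e a ha
        rw [Nat.factorization_mul (pow_pos hpr.pos _).ne' (R.pos a ha).ne', Finsupp.add_apply,
          hpr.factorization_pow, Finsupp.single_eq_same,
          Nat.factorization_eq_zero_of_not_dvd (hcop a ha), add_zero]
      have h1 : e = e' := by
        rw [← hv e a hx.2, heq, hv e' a' hx'.2]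
      subst h1
      have h2 : R.ν a = R.ν a' := Nat.eq_of_mul_eq_mul_left (pow_pos hpr.pos e) heq
      rw [R.inj hx.2 hx'.2 h2]
    · rintro ⟨e, a⟩ hx
      rw [mem_product] at hx
      rw [norm_mul, norm_pow, RCLike.norm_conj, hθp, one_pow, one_mul, R.norm_c a hx.2]
    · rw [card_product, card_range, R.card, card_insert_of_notMem hp, pow_succ, mul_comm]
    · intro U
      unfold ker
      rw [prod_insert hp]
      have h1 := R.eq U
      unfold ker at h1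
      rw [h1, kf, sum_product, sum_mul]
      apply sum_congr rfl
      intro e _
      rw [mul_sum]
      apply sum_congr rfl
      intro a _
      rw [mul_pow, tw_mul, tw_pow]
      ring

lemma norm_tw_sub_mul_ker (P : Finset ℕ) (K : ℕ) (θ : ℕ → ℂ) (U : ℝ) {p : ℕ} (hp : p ∈ P)
    (hpr : p.Prime) (hθ : ‖θ p‖ = 1) :
    ‖tw U p - θ p‖ ^ 2 * ‖ker P K θ U‖ ^ 2 ≤ 4 * ‖ker (P.erase p) K θ U‖ ^ 2 := by
  set z := (starRingEnd ℂ) (θ p) * tw U p with hz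
  have hz1 : ‖z‖ = 1 := by
    rw [hz, norm_mul, RCLike.norm_conj, hθ, norm_tw U hpr.pos, mul_one]
  have h1 : tw U p - θ p = θ p * (z - 1) := by
    rw [hz]
    have h2 : (starRingEnd ℂ) (θ p) * θ p = 1 := conj_mul_of_norm_one hθ
    linear_combination -(tw U p) * h2
  have h2 : ker P K θ U = kf K θ U p * ker (P.erase p) K θ U := by
    unfold ker
    rw [mul_prod_erase P _ hp]
  have h3 : (z - 1) * kf K θ U p = z ^ K - 1 := by
    unfold kf
    rw [mul_comm]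
    exact geom_sum_mul z K
  have h4 : (tw U p - θ p) * ker P K θ U = θ p * (z ^ K - 1) * ker (P.erase p) K θ U := by
    rw [h1, h2, ← h3]; ring
  rw [← mul_pow, ← norm_mul, h4, norm_mul, norm_mul, hθ, one_mul, mul_pow]
  have h5 : ‖z ^ K - 1‖ ≤ 2 := by
    refine (norm_sub_le _ _).trans ?_
    rw [norm_pow, hz1, one_pow, norm_one]; norm_num
  have h6 : ‖z ^ K - 1‖ ^ 2 ≤ 4 := by
    have := norm_nonneg (z ^ K - 1)
    nlinarith
  gcongr

lemma tw_continuous (n : ℕ) (hn : 0 < n) : Continuous (fun U : ℝ => tw U n) := by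
  have : (fun U : ℝ => tw U n) = fun U : ℝ => Complex.exp (((Real.log n : ℝ) : ℂ) * Complex.I * (U : ℂ)) := by
    funext U; exact tw_eq_exp U hn
  rw [this]
  fun_prop

lemma ker_continuous (P : Finset ℕ) (hP : ∀ p ∈ P, p.Prime) (K : ℕ) (θ : ℕ → ℂ) :
    Continuous (ker P K θ) := by
  unfold ker kf
  apply continuous_finsetProd
  intro p hp
  apply continuous_finsetSum
  intro e _
  exact ((tw_continuous p (hP p hp).pos).const_mul _).pow e

/-- two-sided mean value for the kernel -/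
lemma ker_mv (K : ℕ) (θ : ℕ → ℂ) (P : Finset ℕ) (hP : ∀ p ∈ P, p.Prime)
    (hθ : ∀ p ∈ P, ‖θ p‖ = 1) : ∃ M : ℕ, ∀ N : ℝ,
    |(∫ U in (0 : ℝ)..N, ‖ker P K θ U‖ ^ 2) - N * (K : ℝ) ^ P.card| ≤ 2 * M ^ 2 * (K : ℝ) ^ P.card := by
  classical
  obtain ⟨R⟩ := rep_ker K θ P hP hθ
  refine ⟨R.s.sup R.ν, fun N => ?_⟩
  have h := mv R.s R.ν R.c (R.s.sup R.ν) (fun a ha => ⟨R.pos a ha, le_sup ha⟩) R.inj N
  have h1 : ∑ a ∈ R.s, ‖R.c a‖ ^ 2 = (K : ℝ) ^ P.card := by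
    rw [sum_congr rfl (fun a ha => by rw [R.norm_c a ha, one_pow]), sum_const, R.card]
    simp
  rw [h1] at h
  simp_rw [R.eq]
  exact h

/-- mean value for the kernel times a prime polynomial with large primes -/
lemma ker_mul_mv (K : ℕ) (θ : ℕ → ℂ) (P : Finset ℕ) (hP : ∀ p ∈ P, p.Prime)
    (hθ : ∀ p ∈ P, ‖θ p‖ = 1) : ∃ M : ℕ, ∀ (B : Finset ℕ) (Z : ℕ) (_ : ∀ p ∈ B, p.Prime ∧ p ∉ P ∧ p ≤ Z)
    (w : ℕ → ℂ) (N : ℝ),
    (∫ U in (0 : ℝ)..N, ‖ker P K θ U‖ ^ 2 * ‖∑ p ∈ B, w p * tw U p‖ ^ 2)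
      ≤ (N + 2 * (M * Z : ℕ) ^ 2) * ((K : ℝ) ^ P.card * ∑ p ∈ B, ‖w p‖ ^ 2) := by
  classical
  obtain ⟨R⟩ := rep_ker K θ P hP hθ
  refine ⟨R.s.sup R.ν, fun B Z hB w N => ?_⟩
  have h := mv (R.s ×ˢ B) (fun x => R.ν x.1 * x.2) (fun x => R.c x.1 * w x.2) (R.s.sup R.ν * Z)
    (by
      rintro ⟨a, p⟩ hx
      rw [mem_product] at hx
      exact ⟨Nat.mul_pos (R.pos a hx.1) (hB p hx.2).1.pos, Nat.mul_le_mul (le_sup hx.1) (hB p hx.2).2.2⟩)
    (by
      rintro ⟨a, p⟩ hx ⟨a', p'⟩ hx' heq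
      simp only [coe_product, Set.mem_prod, mem_coe] at hx hx'
      simp only at heq
      have h1 : p ∣ R.ν a' * p' := ⟨R.ν a, by rw [← heq]; ring⟩
      have h2 : ¬ p ∣ R.ν a' := fun hd => (hB p hx.2).2.1 (R.smooth a' hx'.1 p (hB p hx.2).1 hd)
      have h3 : p ∣ p' := ((Nat.Prime.dvd_mul (hB p hx.2).1).1 h1).resolve_left h2
      have h4 : p = p' := (Nat.prime_dvd_prime_iff_eq (hB p hx.2).1 (hB p' hx'.2).1).1 h3
      subst h4
      have h5 : R.ν a = R.ν a' := Nat.eq_of_mul_eq_mul_right (hB p hx.2).1.pos heq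
      rw [R.inj hx.1 hx'.1 h5]) N
  have h1 : ∑ x ∈ R.s ×ˢ B, ‖R.c x.1 * w x.2‖ ^ 2 = (K : ℝ) ^ P.card * ∑ p ∈ B, ‖w p‖ ^ 2 := by
    rw [sum_product]
    have : ∀ a ∈ R.s, ∑ p ∈ B, ‖R.c a * w p‖ ^ 2 = ∑ p ∈ B, ‖w p‖ ^ 2 := by
      intro a ha
      apply sum_congr rfl
      intro p _
      rw [norm_mul, R.norm_c a ha, one_mul]
    rw [sum_congr rfl this, sum_const, R.card]
    simp
  rw [h1] at h
  have h2 : ∀ U : ℝ, ‖ker P K θ U‖ ^ 2 * ‖∑ p ∈ B, w p * tw U p‖ ^ 2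
      = ‖∑ x ∈ R.s ×ˢ B, R.c x.1 * w x.2 * tw U (R.ν x.1 * x.2)‖ ^ 2 := by
    intro U
    rw [← mul_pow, ← norm_mul, R.eq, sum_mul_sum, sum_product]
    congr 2
    apply sum_congr rfl
    intro a _
    apply sum_congr rfl
    intro p _
    rw [tw_mul]
    ring
  simp_rw [h2]
  have h3 := (abs_le.1 h).2
  push_cast at h3 ⊢
  linarith

end Pool.H2.Ell
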