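import Mathlib
import Pool.Agent.H2.EllKernel
import Pool.Agent.H2.EllMert
import Pool.Agent.H2.EllWindow

set_option autoImplicit false

open Finset MeasureTheory

namespace Pool.H2.Ell

lemma norm_tw_sub_tw (s t : ℝ) {n : ℕ} (hn : 0 < n) : ‖tw s n - tw t n‖ ≤ |s - t| * Real.log n := by
  rw [tw_eq_exp s hn, tw_eq_exp t hn]
  have h1 : Complex.exp (((Real.log n : ℝ) : ℂ) * Complex.I * (s : ℂ))
      - Complex.exp (((Real.log n : ℝ) : ℂ) * Complex.I * (t : ℂ))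
      = Complex.exp (((Real.log n * t : ℝ) : ℂ) * Complex.I)
        * (Complex.exp (Complex.I * ((Real.log n * (s - t) : ℝ) : ℂ)) - 1) := by
    rw [mul_sub, ← Complex.exp_add, mul_one]
    congr 2
    · push_cast; ring
    · push_cast; ring
  rw [h1, norm_mul, Complex.norm_exp_ofReal_mul_I, one_mul]
  refine (Real.norm_exp_I_mul_ofReal_sub_one_le).trans ?_
  rw [Real.norm_eq_abs, abs_mul, mul_comm]
  have : 0 ≤ Real.log n := Real.log_natCast_nonneg n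
  rw [abs_of_nonneg this]

/-- block polynomial -/
noncomputable def bp (j : ℕ) (ξ : ℕ → ℂ) (τ U : ℝ) : ℂ :=
  ∑ p ∈ blk j, ((starRingEnd ℂ) (ξ p) * (starRingEnd ℂ) (tw τ p) / p) * tw U p

lemma log_Y (j : ℕ) : Real.log (Y j) = 2 ^ j * Real.log 2 := by
  unfold Y
  push_cast
  rw [Real.log_pow]
  push_cast
  ring

lemma bp_lip (j : ℕ) (ξ : ℕ → ℂ) (hξ : ∀ n, ‖ξ n‖ ≤ 1) (τ τ' U : ℝ) :
    ‖bp j ξ τ U - bp j ξ τ' U‖ ≤ |τ - τ'| * 2 ^ (j + 3) := by
  unfold bp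
  rw [← sum_sub_distrib]
  calc _ ≤ ∑ p ∈ blk j, |τ - τ'| * (2 ^ (j + 1) * Real.log 2) * (1 / p) := by
        refine (norm_sum_le _ _).trans (sum_le_sum fun p hp => ?_)
        rw [mem_blk] at hp
        have hp0 := hp.2.pos
        have e : (starRingEnd ℂ) (ξ p) * (starRingEnd ℂ) (tw τ p) / p * tw U p
            - (starRingEnd ℂ) (ξ p) * (starRingEnd ℂ) (tw τ' p) / p * tw U p
            = (starRingEnd ℂ) (ξ p) * (starRingEnd ℂ) (tw τ p - tw τ' p) / p * tw U p := by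
          rw [map_sub]; ring
        rw [e, norm_mul, norm_div, norm_mul, RCLike.norm_conj, RCLike.norm_conj, norm_tw U hp0, mul_one,
          Complex.norm_natCast]
        have h1 := norm_tw_sub_tw τ τ' hp0
        have h2 : Real.log p ≤ 2 ^ (j + 1) * Real.log 2 := by
          rw [← log_Y]
          apply Real.log_le_log (by exact_mod_cast hp0)
          exact_mod_cast hp.1.2
        have h3 : ‖ξ p‖ * ‖tw τ p - tw τ' p‖ ≤ |τ - τ'| * (2 ^ (j + 1) * Real.log 2) := by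
          calc ‖ξ p‖ * ‖tw τ p - tw τ' p‖ ≤ 1 * (|τ - τ'| * Real.log p) := by
                gcongr; exact hξ p
            _ ≤ _ := by rw [one_mul]; gcongr
        rw [mul_one_div]
        gcongr
    _ = |τ - τ'| * (2 ^ (j + 1) * Real.log 2) * ∑ p ∈ blk j, (1 : ℝ) / p := by rw [mul_sum]
    _ ≤ |τ - τ'| * (2 ^ (j + 1) * 1) * 4 := by
        have h1 := sum_blk_inv j
        have h2 : Real.log 2 ≤ 1 := by
          have := Real.log_two_lt_d9; linarith
        have h3 : 0 ≤ Real.log 2 := Real.log_nonneg (by norm_num)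
        gcongr
    _ = _ := by ring

lemma bp_coeff_sq (j : ℕ) (ξ : ℕ → ℂ) (hξ : ∀ n, ‖ξ n‖ ≤ 1) (τ : ℝ) :
    ∑ p ∈ blk j, ‖(starRingEnd ℂ) (ξ p) * (starRingEnd ℂ) (tw τ p) / (p : ℂ)‖ ^ 2 ≤ 1 / Y j := by
  have h := Sys.sum_inv_sq_rng j (j + 1)
  have hr : rng j (j + 1) = blk j := by unfold rng; simp
  rw [hr] at h
  refine le_trans (sum_le_sum fun p hp => ?_) h
  have hp0 := (mem_blk.1 hp).2.pos
  rw [norm_div, norm_mul, RCLike.norm_conj, RCLike.norm_conj, norm_tw τ hp0, mul_one, Complex.norm_natCast,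
    div_pow]
  push_cast
  have h1 : ‖ξ p‖ ^ 2 ≤ 1 := pow_le_one₀ (norm_nonneg _) (hξ p)
  gcongr

lemma bp_re (j : ℕ) (ξ : ℕ → ℂ) (τ U : ℝ) :
    ∑ p ∈ blk j, (1 - ((starRingEnd ℂ) (ξ p) * (starRingEnd ℂ) (tw τ p) * tw U p).re) / p
      = ∑ p ∈ blk j, (1 : ℝ) / p - (bp j ξ τ U).re := by
  unfold bp
  rw [Complex.re_sum, ← sum_sub_distrib]
  apply sum_congr rfl
  intro p _
  have : (starRingEnd ℂ) (ξ p) * (starRingEnd ℂ) (tw τ p) / (p : ℂ) * tw U p
      = ((starRingEnd ℂ) (ξ p) * (starRingEnd ℂ) (tw τ p) * tw U p) / (p : ℂ) := by ring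
  rw [this, Complex.div_natCast_re]
  ring

lemma bp_continuous (j : ℕ) (ξ : ℕ → ℂ) (τ : ℝ) : Continuous (bp j ξ τ) := by
  unfold bp
  apply continuous_finsetSum
  intro p hp
  exact (tw_continuous p (mem_blk.1 hp).2.pos).const_mul _

/-- net index set -/
noncomputable def net (j : ℕ) : Finset ℤ := Icc (-((Y (j - 2) * (640 * 2 ^ j) + 1 : ℕ) : ℤ)) ((Y (j - 2) * (640 * 2 ^ j) + 1 : ℕ) : ℤ)

lemma card_net (j : ℕ) : (net j).card ≤ 5 * (Y (j - 2) * (640 * 2 ^ j)) := by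
  unfold net
  rw [Int.card_Icc]
  have h1 : 1 ≤ Y (j - 2) * (640 * 2 ^ j) := by
    have := Y_pos (j - 2)
    have h2 : 0 < 640 * 2 ^ j := by positivity
    exact Nat.mul_pos this h2
  omega

lemma net_approx (j : ℕ) (τ : ℝ) (hτ : |τ| ≤ Y (j - 2)) :
    ∃ k ∈ net j, |τ - (k : ℝ) / (640 * 2 ^ j)| ≤ 1 / (640 * 2 ^ j) := by
  set G : ℝ := 640 * 2 ^ j with hG
  have hG0 : 0 < G := by positivity
  refine ⟨⌊τ * G⌋, ?_, ?_⟩
  · unfold net
    rw [mem_Icc]
    have h1 : |τ * G| ≤ Y (j - 2) * G := by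
      rw [abs_mul, abs_of_pos hG0]; gcongr
    have h2 := abs_le.1 h1
    have h3 : ((Y (j - 2) * (640 * 2 ^ j) + 1 : ℕ) : ℝ) = Y (j - 2) * G + 1 := by
      push_cast; rfl
    constructor
    · rw [Int.le_floor]
      push_cast at h3 ⊢
      linarith
    · have h4 := Int.floor_le (τ * G)
      have h5 : ((⌊τ * G⌋ : ℤ) : ℝ) ≤ ((Y (j - 2) * (640 * 2 ^ j) + 1 : ℕ) : ℝ) := by
        rw [h3]; linarith
      exact_mod_cast h5
  · have h1 := Int.floor_le (τ * G)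
    have h2 := Int.lt_floor_add_one (τ * G)
    have e : τ - (⌊τ * G⌋ : ℝ) / G = (τ * G - ⌊τ * G⌋) / G := by field_simp
    rw [e, abs_div, abs_of_pos hG0]
    gcongr
    rw [abs_le]
    constructor <;> linarith

lemma sum_net_le (a b : ℕ) (ha : 2 ≤ a) :
    ∑ j ∈ Ico a b, ((net j).card : ℝ) / Y j ≤ 51200 / 2 ^ a := by
  have h1 : ∀ j ∈ Ico a b, ((net j).card : ℝ) / Y j ≤ 25600 / 2 ^ j := by
    intro j hj
    rw [mem_Ico] at hj
    have hY2 : (0 : ℝ) < Y (j - 2) := by exact_mod_cast Y_pos _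
    have hc : ((net j).card : ℝ) ≤ 5 * (Y (j - 2) * (640 * 2 ^ j)) := by exact_mod_cast card_net j
    have hYj : (Y j : ℝ) = (Y (j - 2) : ℝ) ^ 4 := by
      obtain ⟨i, rfl⟩ : ∃ i, j = i + 2 := ⟨j - 2, by omega⟩
      simp only [Nat.add_sub_cancel]
      rw [show i + 2 = i + 1 + 1 by ring, Y_succ, Y_succ]
      push_cast; ring
    have h2j : (2 : ℝ) ^ j ≤ 4 * Y (j - 2) := by
      obtain ⟨i, rfl⟩ : ∃ i, j = i + 2 := ⟨j - 2, by omega⟩
      simp only [Nat.add_sub_cancel]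
      have : (2 : ℕ) ^ i ≤ Y i := by unfold Y; exact Nat.lt_two_pow_self.le
      have h3 : (2 : ℝ) ^ i ≤ Y i := by exact_mod_cast this
      rw [pow_add]; linarith
    have h2j' : (2 : ℝ) ^ j ≤ 2 * (Y (j - 2) : ℝ) ^ 2 := by
      obtain ⟨i, rfl⟩ : ∃ i, j = i + 2 := ⟨j - 2, by omega⟩
      simp only [Nat.add_sub_cancel]
      have : (2 : ℕ) ^ (i + 1) ≤ Y (i + 1) := by unfold Y; exact Nat.lt_two_pow_self.le
      have h3 : (2 : ℝ) ^ (i + 1) ≤ Y (i + 1) := by exact_mod_cast this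
      rw [Y_succ] at h3
      push_cast at h3
      rw [show i + 2 = i + 1 + 1 by ring, pow_succ]
      linarith
    have hpos : (0 : ℝ) < 2 ^ j := by positivity
    rw [hYj, div_le_div_iff₀ (by positivity) hpos]
    calc ((net j).card : ℝ) * 2 ^ j ≤ (5 * (Y (j - 2) * (640 * 2 ^ j))) * 2 ^ j := by gcongr
      _ = 3200 * Y (j - 2) * (2 ^ j * 2 ^ j) := by ring
      _ ≤ 3200 * Y (j - 2) * ((4 * Y (j - 2)) * (2 * (Y (j - 2) : ℝ) ^ 2)) := by gcongr
      _ = 25600 * (Y (j - 2) : ℝ) ^ 4 := by ring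
  refine (sum_le_sum h1).trans ?_
  rcases le_total a b with hab | hab
  · have h2 : ∑ j ∈ Ico a b, (25600 : ℝ) / 2 ^ j + 51200 / 2 ^ b ≤ 51200 / 2 ^ a := by
      induction b, hab using Nat.le_induction with
      | base => simp
      | succ b hb ih =>
        rw [sum_Ico_succ_top hb]
        have ih' := ih (fun j hj => h1 j (by rw [mem_Ico] at hj ⊢; omega))
        have : (25600 : ℝ) / 2 ^ b + 51200 / 2 ^ (b + 1) = 51200 / 2 ^ b := by
          rw [pow_succ]; field_simp; norm_num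
        linarith
    have : (0 : ℝ) ≤ 51200 / 2 ^ b := by positivity
    linarith
  · rw [Ico_eq_empty_of_le hab, sum_empty]; positivity

end Pool.H2.Ell
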