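import Mathlib
import Pool.Agent.H2.EllKeyA

set_option autoImplicit false

open Finset MeasureTheory

namespace Pool.H2.Ell

/-- primes up to `Y a` -/
def pr (a : ℕ) : Finset ℕ := (range (Y a + 1)).filter Nat.Prime

lemma mem_pr {a p : ℕ} : p ∈ pr a ↔ p ≤ Y a ∧ p.Prime := by
  unfold pr; simp

/-- Key selection lemma -/
theorem key_select (a : ℕ) (ha : 2 ≤ a) (θ : ℕ → ℂ) (hθ : ∀ p, p.Prime → ‖θ p‖ = 1) (δ : ℝ) (hδ : 0 < δ)
    (Ξ : Finset (ℕ → ℂ)) (hΞ : ∀ ξ ∈ Ξ, ∀ n, ‖ξ n‖ ≤ 1) (hcard : 2621440000 * (Ξ.card : ℝ) ≤ 2 ^ a) :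
    ∃ b₀ : ℕ, ∀ b ≥ b₀, ∃ U : ℝ, 0 ≤ U ∧ U ≤ Y b ∧
      (∀ p, p.Prime → p ≤ Y a → ‖tw U p - θ p‖ < δ) ∧
      (∀ j, a ≤ j → j + 4 ≤ b → ∀ ξ ∈ Ξ, ∀ k ∈ net j, ‖bp j ξ ((k : ℝ) / (640 * 2 ^ j)) U‖ < 1 / 80) := by
  classical
  have hP : ∀ p ∈ pr a, p.Prime := fun p hp => (mem_pr.1 hp).2
  have hθP : ∀ p ∈ pr a, ‖θ p‖ = 1 := fun p hp => hθ p (hP p hp)
  -- choose K
  obtain ⟨K, hK⟩ := exists_nat_ge (max 1 (32 * (pr a).card / δ ^ 2))
  have hK1 : (1 : ℝ) ≤ K := (le_max_left _ _).trans hK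
  have hK2 : 32 * ((pr a).card : ℝ) / δ ^ 2 ≤ K := (le_max_right _ _).trans hK
  have hK0 : (0 : ℝ) < K := by linarith
  obtain ⟨M₀, hM₀⟩ := ker_mv K θ (pr a) hP hθP
  obtain ⟨M₁, hM₁⟩ := ker_mul_mv K θ (pr a) hP hθP
  have hMp : ∀ p : ℕ, ∃ M : ℕ, p ∈ pr a → ∀ N : ℝ,
      (∫ U in (0 : ℝ)..N, ‖ker ((pr a).erase p) K θ U‖ ^ 2)
        ≤ (N + 2 * M ^ 2) * (K : ℝ) ^ ((pr a).card - 1) := by
    intro p
    by_cases hp : p ∈ pr a
    · obtain ⟨M, hM⟩ := ker_mv K θ ((pr a).erase p) (fun p' hp' => hP p' (mem_of_mem_erase hp'))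
        (fun p' hp' => hθP p' (mem_of_mem_erase hp'))
      refine ⟨M, fun _ N => ?_⟩
      have h1 := (abs_le.1 (hM N)).2
      rw [card_erase_of_mem hp] at h1
      linarith
    · exact ⟨0, fun h => absurd h hp⟩
  choose Mp hMp using hMp
  set Mmax : ℕ := ∑ p ∈ pr a, Mp p with hMmax
  have hMmax' : ∀ p ∈ pr a, Mp p ≤ Mmax := fun p hp =>
    single_le_sum (f := Mp) (fun _ _ => Nat.zero_le _) hp
  refine ⟨max (max (8 * M₀ ^ 2) (2 * Mmax ^ 2)) (2 * M₁ ^ 2 + 4), fun b hb => ?_⟩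
  have hb1 : 8 * M₀ ^ 2 ≤ b := le_trans (le_trans (le_max_left _ _) (le_max_left _ _)) hb
  have hb2 : 2 * Mmax ^ 2 ≤ b := le_trans (le_trans (le_max_right _ _) (le_max_left _ _)) hb
  have hb3 : 2 * M₁ ^ 2 + 4 ≤ b := le_trans (le_max_right _ _) hb
  set N : ℝ := (Y b : ℝ) with hN
  have hbN : (b : ℝ) ≤ N := by rw [hN]; exact_mod_cast (lt_Y b).le
  have hN0 : 0 < N := by rw [hN]; exact_mod_cast Y_pos b
  have hb1r : 8 * (M₀ : ℝ) ^ 2 ≤ N := by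
    refine le_trans ?_ hbN; exact_mod_cast hb1
  have hb2r : 2 * (Mmax : ℝ) ^ 2 ≤ N := by
    refine le_trans ?_ hbN; exact_mod_cast hb2
  by_contra hcon
  push Not at hcon
  -- pointwise bound
  have hpt : ∀ U ∈ Set.Icc (0 : ℝ) N, ‖ker (pr a) K θ U‖ ^ 2
      ≤ ∑ p ∈ pr a, (4 / δ ^ 2) * ‖ker ((pr a).erase p) K θ U‖ ^ 2
        + ∑ j ∈ Ico a (b - 3), ∑ ξ ∈ Ξ, ∑ k ∈ net j,
          6400 * (‖ker (pr a) K θ U‖ ^ 2 * ‖bp j ξ ((k : ℝ) / (640 * 2 ^ j)) U‖ ^ 2) := by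
    intro U hU
    have hnn1 : 0 ≤ ∑ p ∈ pr a, (4 / δ ^ 2) * ‖ker ((pr a).erase p) K θ U‖ ^ 2 :=
      sum_nonneg fun p _ => by positivity
    have hnn2 : 0 ≤ ∑ j ∈ Ico a (b - 3), ∑ ξ ∈ Ξ, ∑ k ∈ net j,
          6400 * (‖ker (pr a) K θ U‖ ^ 2 * ‖bp j ξ ((k : ℝ) / (640 * 2 ^ j)) U‖ ^ 2) :=
      sum_nonneg fun j _ => sum_nonneg fun ξ _ => sum_nonneg fun k _ => by positivity
    by_cases h1 : ∀ p, p.Prime → p ≤ Y a → ‖tw U p - θ p‖ < δ
    · obtain ⟨j, hj1, hj2, ξ, hξ, k, hk, hbig⟩ := hcon U hU.1 hU.2 h1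
      have hjm : j ∈ Ico a (b - 3) := by rw [mem_Ico]; omega
      have h2 : (1 : ℝ) ≤ 6400 * ‖bp j ξ ((k : ℝ) / (640 * 2 ^ j)) U‖ ^ 2 := by
        have : (1 / 80 : ℝ) ^ 2 ≤ ‖bp j ξ ((k : ℝ) / (640 * 2 ^ j)) U‖ ^ 2 :=
          pow_le_pow_left₀ (by norm_num) hbig 2
        linarith
      have h3 : ‖ker (pr a) K θ U‖ ^ 2
          ≤ 6400 * (‖ker (pr a) K θ U‖ ^ 2 * ‖bp j ξ ((k : ℝ) / (640 * 2 ^ j)) U‖ ^ 2) := by
        have h0 : 0 ≤ ‖ker (pr a) K θ U‖ ^ 2 := by positivity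
        calc ‖ker (pr a) K θ U‖ ^ 2 = ‖ker (pr a) K θ U‖ ^ 2 * 1 := by ring
          _ ≤ ‖ker (pr a) K θ U‖ ^ 2 * (6400 * ‖bp j ξ ((k : ℝ) / (640 * 2 ^ j)) U‖ ^ 2) := by gcongr
          _ = _ := by ring
      have h4 : 6400 * (‖ker (pr a) K θ U‖ ^ 2 * ‖bp j ξ ((k : ℝ) / (640 * 2 ^ j)) U‖ ^ 2)
          ≤ ∑ j ∈ Ico a (b - 3), ∑ ξ ∈ Ξ, ∑ k ∈ net j,
          6400 * (‖ker (pr a) K θ U‖ ^ 2 * ‖bp j ξ ((k : ℝ) / (640 * 2 ^ j)) U‖ ^ 2) := by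
        calc _ ≤ ∑ k ∈ net j, 6400 * (‖ker (pr a) K θ U‖ ^ 2 * ‖bp j ξ ((k : ℝ) / (640 * 2 ^ j)) U‖ ^ 2) :=
              single_le_sum (f := fun k : ℤ => 6400 * (‖ker (pr a) K θ U‖ ^ 2
                * ‖bp j ξ ((k : ℝ) / (640 * 2 ^ j)) U‖ ^ 2)) (fun _ _ => by positivity) hk
          _ ≤ ∑ ξ ∈ Ξ, ∑ k ∈ net j, 6400 * (‖ker (pr a) K θ U‖ ^ 2
                * ‖bp j ξ ((k : ℝ) / (640 * 2 ^ j)) U‖ ^ 2) :=
              single_le_sum (f := fun ξ : ℕ → ℂ => ∑ k ∈ net j, 6400 * (‖ker (pr a) K θ U‖ ^ 2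
                * ‖bp j ξ ((k : ℝ) / (640 * 2 ^ j)) U‖ ^ 2))
                (fun _ _ => sum_nonneg fun _ _ => by positivity) hξ
          _ ≤ _ := single_le_sum (f := fun j => ∑ ξ ∈ Ξ, ∑ k ∈ net j, 6400 * (‖ker (pr a) K θ U‖ ^ 2
                * ‖bp j ξ ((k : ℝ) / (640 * 2 ^ j)) U‖ ^ 2))
                (fun _ _ => sum_nonneg fun _ _ => sum_nonneg fun _ _ => by positivity) hjm
      linarith
    · push Not at h1
      obtain ⟨p, hp, hpa, hbig⟩ := h1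
      have hpm : p ∈ pr a := mem_pr.2 ⟨hpa, hp⟩
      have h2 := norm_tw_sub_mul_ker (pr a) K θ U hpm hp (hθ p hp)
      have h3 : ‖ker (pr a) K θ U‖ ^ 2 ≤ (4 / δ ^ 2) * ‖ker ((pr a).erase p) K θ U‖ ^ 2 := by
        have h4 : δ ^ 2 * ‖ker (pr a) K θ U‖ ^ 2 ≤ 4 * ‖ker ((pr a).erase p) K θ U‖ ^ 2 := by
          refine le_trans ?_ h2
          gcongr
        have hδ2 : 0 < δ ^ 2 := by positivity
        rw [div_mul_eq_mul_div, le_div_iff₀ hδ2]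
        linarith
      have h4 : (4 / δ ^ 2) * ‖ker ((pr a).erase p) K θ U‖ ^ 2
          ≤ ∑ p ∈ pr a, (4 / δ ^ 2) * ‖ker ((pr a).erase p) K θ U‖ ^ 2 :=
        single_le_sum (f := fun p => (4 / δ ^ 2) * ‖ker ((pr a).erase p) K θ U‖ ^ 2)
          (fun _ _ => by positivity) hpm
      linarith
  -- integrate
  have hc0 : Continuous (fun U => ‖ker (pr a) K θ U‖ ^ 2) := ((ker_continuous _ hP K θ).norm.pow 2)
  have hc1 : ∀ p, Continuous (fun U => (4 / δ ^ 2) * ‖ker ((pr a).erase p) K θ U‖ ^ 2) := fun p =>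
    ((ker_continuous _ (fun p' hp' => hP p' (mem_of_mem_erase hp')) K θ).norm.pow 2).const_mul _
  have hc2 : ∀ (j : ℕ) (ξ : ℕ → ℂ) (k : ℤ), Continuous (fun U => 6400 * (‖ker (pr a) K θ U‖ ^ 2
      * ‖bp j ξ ((k : ℝ) / (640 * 2 ^ j)) U‖ ^ 2)) := fun j ξ k =>
    (hc0.mul ((bp_continuous j ξ _).norm.pow 2)).const_mul _
  have hint : (∫ U in (0 : ℝ)..N, ‖ker (pr a) K θ U‖ ^ 2)
      ≤ ∑ p ∈ pr a, (4 / δ ^ 2) * (∫ U in (0 : ℝ)..N, ‖ker ((pr a).erase p) K θ U‖ ^ 2)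
        + ∑ j ∈ Ico a (b - 3), ∑ ξ ∈ Ξ, ∑ k ∈ net j,
          6400 * (∫ U in (0 : ℝ)..N, ‖ker (pr a) K θ U‖ ^ 2 * ‖bp j ξ ((k : ℝ) / (640 * 2 ^ j)) U‖ ^ 2) := by
    have i0 : IntervalIntegrable (fun U => ‖ker (pr a) K θ U‖ ^ 2) volume 0 N := hc0.intervalIntegrable 0 N
    have c1 : Continuous (fun U => ∑ p ∈ pr a, (4 / δ ^ 2) * ‖ker ((pr a).erase p) K θ U‖ ^ 2) :=
      continuous_finsetSum (pr a) (fun p _ => hc1 p)
    have c2 : ∀ (j : ℕ) (ξ : ℕ → ℂ), Continuous (fun U => ∑ k ∈ net j, 6400 * (‖ker (pr a) K θ U‖ ^ 2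
      * ‖bp j ξ ((k : ℝ) / (640 * 2 ^ j)) U‖ ^ 2)) := fun j ξ =>
      continuous_finsetSum (net j) (fun k _ => hc2 j ξ k)
    have c3 : ∀ (j : ℕ), Continuous (fun U => ∑ ξ ∈ Ξ, ∑ k ∈ net j, 6400 * (‖ker (pr a) K θ U‖ ^ 2
      * ‖bp j ξ ((k : ℝ) / (640 * 2 ^ j)) U‖ ^ 2)) := fun j =>
      continuous_finsetSum Ξ (fun ξ _ => c2 j ξ)
    have c4 : Continuous (fun U => ∑ j ∈ Ico a (b - 3), ∑ ξ ∈ Ξ, ∑ k ∈ net j,
      6400 * (‖ker (pr a) K θ U‖ ^ 2 * ‖bp j ξ ((k : ℝ) / (640 * 2 ^ j)) U‖ ^ 2)) :=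
      continuous_finsetSum (Ico a (b - 3)) (fun j _ => c3 j)
    have i1 : IntervalIntegrable (fun U => ∑ p ∈ pr a, (4 / δ ^ 2) * ‖ker ((pr a).erase p) K θ U‖ ^ 2)
      volume 0 N := c1.intervalIntegrable 0 N
    have i4 : IntervalIntegrable (fun U => ∑ j ∈ Ico a (b - 3), ∑ ξ ∈ Ξ, ∑ k ∈ net j,
      6400 * (‖ker (pr a) K θ U‖ ^ 2 * ‖bp j ξ ((k : ℝ) / (640 * 2 ^ j)) U‖ ^ 2)) volume 0 N :=
      c4.intervalIntegrable 0 N
    have h1 := intervalIntegral.integral_mono_on hN0.le i0 (i1.add i4) hpt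
    refine h1.trans (le_of_eq ?_)
    rw [intervalIntegral.integral_add i1 i4]
    congr 1
    · rw [intervalIntegral.integral_finsetSum (fun p _ => (hc1 p).intervalIntegrable 0 N)]
      apply sum_congr rfl
      intro p _
      rw [intervalIntegral.integral_const_mul]
    · rw [intervalIntegral.integral_finsetSum (fun j _ => (c3 j).intervalIntegrable 0 N)]
      apply sum_congr rfl
      intro j _
      rw [intervalIntegral.integral_finsetSum (fun ξ _ => (c2 j ξ).intervalIntegrable 0 N)]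
      apply sum_congr rfl
      intro ξ _
      rw [intervalIntegral.integral_finsetSum (fun k _ => (hc2 j ξ k).intervalIntegrable 0 N)]
      apply sum_congr rfl
      intro k _
      rw [intervalIntegral.integral_const_mul]
  have hKc : (0 : ℝ) < (K : ℝ) ^ (pr a).card := by positivity
  have hlow : (3 / 4) * (N * (K : ℝ) ^ (pr a).card) ≤ ∫ U in (0 : ℝ)..N, ‖ker (pr a) K θ U‖ ^ 2 := by
    have h1 := (abs_le.1 (hM₀ N)).1
    have h2 : 2 * (M₀ : ℝ) ^ 2 * (K : ℝ) ^ (pr a).card ≤ (N / 4) * (K : ℝ) ^ (pr a).card := by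
      gcongr; linarith
    linarith
  have hup1 : ∑ p ∈ pr a, (4 / δ ^ 2) * (∫ U in (0 : ℝ)..N, ‖ker ((pr a).erase p) K θ U‖ ^ 2)
      ≤ (1 / 4) * (N * (K : ℝ) ^ (pr a).card) := by
    rcases Nat.eq_zero_or_pos (pr a).card with h0 | h0
    · rw [card_eq_zero.1 h0]
      simp only [sum_empty]
      positivity
    · calc _ ≤ ∑ _p ∈ pr a, (4 / δ ^ 2) * ((2 * N) * (K : ℝ) ^ ((pr a).card - 1)) := by
            apply sum_le_sum
            intro p hp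
            have h1 := hMp p hp N
            have h2 : (Mp p : ℝ) ≤ Mmax := by exact_mod_cast hMmax' p hp
            have h3 : N + 2 * (Mp p : ℝ) ^ 2 ≤ 2 * N := by
              have : (Mp p : ℝ) ^ 2 ≤ (Mmax : ℝ) ^ 2 := by gcongr
              linarith
            have h4 : (∫ U in (0 : ℝ)..N, ‖ker ((pr a).erase p) K θ U‖ ^ 2)
                ≤ (2 * N) * (K : ℝ) ^ ((pr a).card - 1) := by
              refine h1.trans ?_
              gcongr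
            gcongr
        _ = (8 * ((pr a).card : ℝ) / δ ^ 2) * (N * (K : ℝ) ^ ((pr a).card - 1)) := by
            rw [sum_const, nsmul_eq_mul]; ring
        _ ≤ (K / 4) * (N * (K : ℝ) ^ ((pr a).card - 1)) := by
            have : 8 * ((pr a).card : ℝ) / δ ^ 2 ≤ K / 4 := by
              have e : 8 * ((pr a).card : ℝ) / δ ^ 2 = (32 * ((pr a).card : ℝ) / δ ^ 2) / 4 := by ring
              rw [e]; gcongr
            gcongr
        _ = _ := by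
            have : (K : ℝ) ^ (pr a).card = K * (K : ℝ) ^ ((pr a).card - 1) := by
              rw [← pow_succ', Nat.sub_add_cancel h0]
            rw [this]; ring
  have hup2 : ∑ j ∈ Ico a (b - 3), ∑ ξ ∈ Ξ, ∑ k ∈ net j,
      6400 * (∫ U in (0 : ℝ)..N, ‖ker (pr a) K θ U‖ ^ 2 * ‖bp j ξ ((k : ℝ) / (640 * 2 ^ j)) U‖ ^ 2)
      ≤ (1 / 4) * (N * (K : ℝ) ^ (pr a).card) := by
    calc _ ≤ ∑ j ∈ Ico a (b - 3), ∑ ξ ∈ Ξ, ∑ _k ∈ net j,
          6400 * ((2 * N) * ((K : ℝ) ^ (pr a).card * (1 / Y j))) := by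
          apply sum_le_sum; intro j hj
          apply sum_le_sum; intro ξ hξ
          apply sum_le_sum; intro k _
          rw [mem_Ico] at hj
          have h1 := hM₁ (blk j) (Y (j + 1)) (fun p hp => by
            rw [mem_blk] at hp
            refine ⟨hp.2, fun h => ?_, hp.1.2⟩
            have := (mem_pr.1 h).1
            have := Y_mono hj.1
            omega)
            (fun p => (starRingEnd ℂ) (ξ p) * (starRingEnd ℂ) (tw ((k : ℝ) / (640 * 2 ^ j)) p) / (p : ℂ)) N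
          have h2 := bp_coeff_sq j ξ (hΞ ξ hξ) ((k : ℝ) / (640 * 2 ^ j))
          have h3 : N + 2 * ((M₁ * Y (j + 1) : ℕ) : ℝ) ^ 2 ≤ 2 * N := by
            have h4 : 2 * (M₁ * Y (j + 1)) ^ 2 ≤ Y b := by
              have e1 : Y (j + 1) ≤ Y (b - 3) := Y_mono (by omega)
              have e2 : Y b = Y (b - 2) ^ 4 := by
                obtain ⟨i, rfl⟩ : ∃ i, b = i + 2 := ⟨b - 2, by omega⟩
                simp only [Nat.add_sub_cancel]
                rw [show i + 2 = i + 1 + 1 by ring, Y_succ, Y_succ]; ring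
              have e3 : Y (b - 2) = Y (b - 3) ^ 2 := by
                rw [← Y_succ]; congr 1; omega
              have e4 : 2 * M₁ ^ 2 ≤ Y (b - 2) := by
                have := lt_Y (b - 2)
                omega
              have e5 : 1 ≤ Y (b - 2) := Y_pos _
              calc 2 * (M₁ * Y (j + 1)) ^ 2 ≤ 2 * (M₁ * Y (b - 3)) ^ 2 := by gcongr
                _ = (2 * M₁ ^ 2) * Y (b - 3) ^ 2 := by ring
                _ ≤ Y (b - 2) * Y (b - 2) := by rw [← e3]; exact Nat.mul_le_mul_right _ e4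
                _ ≤ Y (b - 2) ^ 4 := by
                    calc Y (b - 2) * Y (b - 2) = Y (b - 2) ^ 2 := by ring
                      _ ≤ _ := Nat.pow_le_pow_right e5 (by norm_num)
                _ = Y b := e2.symm
            have h5 : 2 * ((M₁ * Y (j + 1) : ℕ) : ℝ) ^ 2 ≤ (Y b : ℝ) := by exact_mod_cast h4
            linarith
          have h6 : (∫ U in (0 : ℝ)..N, ‖ker (pr a) K θ U‖ ^ 2 * ‖bp j ξ ((k : ℝ) / (640 * 2 ^ j)) U‖ ^ 2)
              ≤ (2 * N) * ((K : ℝ) ^ (pr a).card * (1 / Y j)) := by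
            refine h1.trans ?_
            gcongr
          gcongr
      _ = (12800 * (Ξ.card : ℝ)) * (N * (K : ℝ) ^ (pr a).card) * ∑ j ∈ Ico a (b - 3), ((net j).card : ℝ) / Y j := by
          rw [mul_sum]
          apply sum_congr rfl
          intro j _
          rw [sum_const, sum_const, nsmul_eq_mul, nsmul_eq_mul]
          ring
      _ ≤ (12800 * (Ξ.card : ℝ)) * (N * (K : ℝ) ^ (pr a).card) * (51200 / 2 ^ a) := by
          have := sum_net_le a (b - 3) ha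
          gcongr
      _ = (655360000 * (Ξ.card : ℝ) / 2 ^ a) * (N * (K : ℝ) ^ (pr a).card) := by ring
      _ ≤ (1 / 4) * (N * (K : ℝ) ^ (pr a).card) := by
          have h2a : (0 : ℝ) < 2 ^ a := by positivity
          have : 655360000 * (Ξ.card : ℝ) / 2 ^ a ≤ 1 / 4 := by
            rw [div_le_iff₀ h2a]; linarith
          gcongr
  have hpos : 0 < N * (K : ℝ) ^ (pr a).card := by positivity
  linarith

end Pool.H2.Ell
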