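import Mathlib
import Pool.Agent.H2.EllKeyB
import Pool.Agent.H2.EllCheb

set_option autoImplicit false

open Finset Filter Topology

namespace Pool.H2.Ell

theorem key (a : ℕ) (ha : 2 ≤ a) (hlow : ∀ j ≥ a, (1 : ℝ) / 20 ≤ ∑ p ∈ blk j, (1 : ℝ) / p)
    (θ : ℕ → ℂ) (hθ : ∀ p, p.Prime → ‖θ p‖ = 1) (δ : ℝ) (hδ : 0 < δ)
    (Ξ : Finset (ℕ → ℂ)) (hΞ : ∀ ξ ∈ Ξ, ∀ n, ‖ξ n‖ ≤ 1) (hcard : 2621440000 * (Ξ.card : ℝ) ≤ 2 ^ a) :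
    ∃ b₀ : ℕ, ∀ b ≥ b₀, ∃ U : ℝ, 0 ≤ U ∧ U ≤ Y b ∧
      (∀ p, p.Prime → p ≤ Y a → ‖tw U p - θ p‖ < δ) ∧
      (∀ j, a ≤ j → j + 4 ≤ b → ∀ ξ ∈ Ξ, ∀ τ : ℝ, |τ| ≤ Y (j - 2) →
        1 / 40 ≤ ∑ p ∈ blk j, (1 - ((starRingEnd ℂ) (ξ p) * (starRingEnd ℂ) (tw τ p) * tw U p).re) / p) := by
  obtain ⟨b₀, hb₀⟩ := key_select a ha θ hθ δ hδ Ξ hΞ hcard
  refine ⟨b₀, fun b hb => ?_⟩
  obtain ⟨U, h0, h1, h2, h3⟩ := hb₀ b hb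
  refine ⟨U, h0, h1, h2, fun j hj hjb ξ hξ τ hτ => ?_⟩
  obtain ⟨k, hk, hkτ⟩ := net_approx j τ hτ
  have h4 := h3 j hj hjb ξ hξ k hk
  have h5 := bp_lip j ξ (hΞ ξ hξ) τ ((k : ℝ) / (640 * 2 ^ j)) U
  have h6 : |τ - (k : ℝ) / (640 * 2 ^ j)| * 2 ^ (j + 3) ≤ 1 / 80 := by
    calc |τ - (k : ℝ) / (640 * 2 ^ j)| * 2 ^ (j + 3) ≤ 1 / (640 * 2 ^ j) * 2 ^ (j + 3) := by gcongr
      _ = 1 / 80 := by rw [pow_add]; field_simp; norm_num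
  have h7 : ‖bp j ξ τ U‖ ≤ 1 / 40 := by
    have e : bp j ξ τ U = (bp j ξ τ U - bp j ξ ((k : ℝ) / (640 * 2 ^ j)) U)
        + bp j ξ ((k : ℝ) / (640 * 2 ^ j)) U := by ring
    rw [e]
    refine (norm_add_le _ _).trans ?_
    linarith
  rw [bp_re]
  have h8 := hlow j hj
  have h9 := (Complex.re_le_norm (bp j ξ τ U)).trans h7
  linarith

/-- finite list of characters of small modulus -/
lemma exists_Xi (m : ℕ) : ∃ Ξ : Finset (ℕ → ℂ), (∀ ξ ∈ Ξ, ∀ n, ‖ξ n‖ ≤ 1) ∧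
    ∀ q : ℕ, 0 < q → q ≤ m → ∀ χ : DirichletCharacter ℂ q, (fun n : ℕ => χ (n : ZMod q)) ∈ Ξ := by
  classical
  have hfin : ∀ q : ℕ, 0 < q →
      (Set.range (fun χ : DirichletCharacter ℂ q => (fun n : ℕ => χ (n : ZMod q)))).Finite := by
    intro q hq
    haveI : NeZero q := ⟨hq.ne'⟩
    exact Set.finite_range _
  have hfin2 : (⋃ q ∈ Set.Icc 1 m,
      Set.range (fun χ : DirichletCharacter ℂ q => (fun n : ℕ => χ (n : ZMod q)))).Finite := by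
    apply Set.Finite.biUnion (Set.finite_Icc 1 m)
    intro q hq
    exact hfin q hq.1
  refine ⟨hfin2.toFinset, ?_, ?_⟩
  · intro ξ hξ n
    rw [Set.Finite.mem_toFinset] at hξ
    simp only [Set.mem_iUnion, Set.mem_range] at hξ
    obtain ⟨q, _, χ, rfl⟩ := hξ
    exact DirichletCharacter.norm_le_one χ _
  · intro q hq hqm χ
    rw [Set.Finite.mem_toFinset]
    simp only [Set.mem_iUnion, Set.mem_range]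
    exact ⟨q, ⟨hq, hqm⟩, χ, rfl⟩

/-- threshold for ψ -/
lemma exists_thr (ψ : ℝ → ℝ) (hψ : ∀ ε : ℝ, 0 < ε → ∀ᶠ X in atTop, ψ X ≤ X ^ ε) (r : ℕ) :
    ∃ h : ℕ, ∀ s ≥ h, r ≤ s ∧ ∀ X : ℝ, (Y s : ℝ) ≤ X → X < Y (s + 1) → ψ X ≤ Y (s - r) := by
  have hε : (0 : ℝ) < 1 / 2 ^ (r + 1) := by positivity
  obtain ⟨X₀, hX₀⟩ := eventually_atTop.1 (hψ _ hε)
  obtain ⟨n₀, hn₀⟩ := exists_nat_ge X₀
  refine ⟨max n₀ r, fun s hs => ⟨le_trans (le_max_right _ _) hs, fun X hX1 hX2 => ?_⟩⟩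
  have hs1 : n₀ ≤ s := le_trans (le_max_left _ _) hs
  have hs2 : r ≤ s := le_trans (le_max_right _ _) hs
  have hXX : X₀ ≤ X := by
    have h1 : (n₀ : ℝ) ≤ s := by exact_mod_cast hs1
    have h2 : (s : ℝ) ≤ Y s := by exact_mod_cast (lt_Y s).le
    linarith
  have hY0 : (0 : ℝ) < Y s := by exact_mod_cast Y_pos s
  have hX0 : 0 < X := lt_of_lt_of_le hY0 hX1
  refine (hX₀ X hXX).trans ?_
  have e : (Y (s - r) : ℝ) = (Y (s + 1) : ℝ) ^ ((1 : ℝ) / 2 ^ (r + 1)) := by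
    unfold Y
    push_cast
    rw [← Real.rpow_natCast 2 (2 ^ (s - r)), ← Real.rpow_natCast 2 (2 ^ (s + 1)),
      ← Real.rpow_mul (by norm_num)]
    congr 1
    push_cast
    rw [mul_one_div, eq_div_iff (by positivity), ← pow_add]
    congr 1
    omega
  rw [e]
  exact Real.rpow_le_rpow hX0.le hX2.le hε.le

/-- the step relation -/
structure Step (Ξ : ℕ → Finset (ℕ → ℂ)) (h : ℕ → ℕ) (m a : ℕ) (θ : ℕ → ℂ) (b : ℕ) (U : ℝ)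
    (a' : ℕ) (θ' : ℕ → ℂ) : Prop where
  hb : a + m + 4 ≤ b
  hh : h (m + 2) ≤ b
  ha' : a' = b + (m + 1)
  hcard : 2621440000 * ((Ξ (m + 2)).card : ℝ) ≤ 2 ^ b
  U0 : 0 ≤ U
  U1 : U ≤ Y b
  app : ∀ p, p.Prime → p ≤ Y a → ‖tw U p - θ p‖ < 1 / ((m + 1) * (Y a + 1))
  blkc : ∀ j, a ≤ j → j + 4 ≤ b → ∀ ξ ∈ Ξ (m + 1), ∀ τ : ℝ, |τ| ≤ Y (j - 2) →
        1 / 40 ≤ ∑ p ∈ blk j, (1 - ((starRingEnd ℂ) (ξ p) * (starRingEnd ℂ) (tw τ p) * tw U p).re) / p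
  θ1 : ∀ p, p ≤ Y a → θ' p = θ p
  θ2 : ∀ p, Y a < p → θ' p = tw U p

/-- valid state at stage `m` -/
structure Val (Ξ : ℕ → Finset (ℕ → ℂ)) (m a : ℕ) (θ : ℕ → ℂ) : Prop where
  ha : 2 ≤ a
  hlow : ∀ j ≥ a, (1 : ℝ) / 20 ≤ ∑ p ∈ blk j, (1 : ℝ) / p
  hθ : ∀ p, p.Prime → ‖θ p‖ = 1
  hcard : 2621440000 * ((Ξ (m + 1)).card : ℝ) ≤ 2 ^ a

lemma exists_step (Ξ : ℕ → Finset (ℕ → ℂ)) (hΞ : ∀ m, ∀ ξ ∈ Ξ m, ∀ n, ‖ξ n‖ ≤ 1) (h : ℕ → ℕ)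
    (m a : ℕ) (θ : ℕ → ℂ) (hv : Val Ξ m a θ) :
    ∃ (b : ℕ) (U : ℝ) (a' : ℕ) (θ' : ℕ → ℂ), Step Ξ h m a θ b U a' θ' ∧ Val Ξ (m + 1) a' θ' := by
  have hδ : (0 : ℝ) < 1 / (((m : ℝ) + 1) * ((Y a : ℝ) + 1)) := by positivity
  obtain ⟨b₀, hb₀⟩ := key a hv.ha hv.hlow θ hv.hθ _ hδ (Ξ (m + 1)) (hΞ (m + 1)) hv.hcard
  obtain ⟨c, hc⟩ := pow_unbounded_of_one_lt (2621440000 * ((Ξ (m + 2)).card : ℝ)) (show (1 : ℝ) < 2 by norm_num)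
  set b := max (max b₀ (a + m + 4)) (max (h (m + 2)) c) with hb
  have hb1 : b₀ ≤ b := by omega
  have hb2 : a + m + 4 ≤ b := by omega
  have hb3 : h (m + 2) ≤ b := by omega
  have hb4 : c ≤ b := by omega
  have hcb : 2621440000 * ((Ξ (m + 2)).card : ℝ) ≤ 2 ^ b :=
    hc.le.trans (pow_le_pow_right₀ (by norm_num) hb4)
  obtain ⟨U, hU0, hU1, hU2, hU3⟩ := hb₀ b hb1
  refine ⟨b, U, b + (m + 1), fun p => if p ≤ Y a then θ p else tw U p, ?_, ?_⟩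
  · exact ⟨hb2, hb3, rfl, hcb, hU0, hU1, hU2, hU3, fun p hp => if_pos hp,
      fun p hp => if_neg (by omega)⟩
  · refine ⟨by have := hv.ha; omega, fun j hj => hv.hlow j (by omega), fun p hp => ?_, ?_⟩
    · by_cases h1 : p ≤ Y a
      · simp only [if_pos h1]; exact hv.hθ p hp
      · simp only [if_neg h1]; exact norm_tw U hp.pos
    · refine hcb.trans (pow_le_pow_right₀ (by norm_num) (by omega))

theorem exists_seq (Ξ : ℕ → Finset (ℕ → ℂ)) (hΞ : ∀ m, ∀ ξ ∈ Ξ m, ∀ n, ‖ξ n‖ ≤ 1) (h : ℕ → ℕ) :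
    ∃ (a b : ℕ → ℕ) (U : ℕ → ℝ) (θ : ℕ → ℕ → ℂ), h 1 ≤ a 0 ∧ (∀ m, Val Ξ m (a m) (θ m)) ∧
      ∀ m, Step Ξ h m (a m) (θ m) (b m) (U m) (a (m + 1)) (θ (m + 1)) := by
  classical
  obtain ⟨j₁, hj₁⟩ := blk_lower
  obtain ⟨c, hc⟩ := pow_unbounded_of_one_lt (2621440000 * ((Ξ 1).card : ℝ)) (show (1 : ℝ) < 2 by norm_num)
  set a₀ := max (max j₁ 2) (max (h 1) c) with ha₀
  have hv0 : Val Ξ 0 a₀ (fun _ => 1) := by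
    refine ⟨by omega, fun j hj => hj₁ j (by omega), fun p _ => by simp, ?_⟩
    exact hc.le.trans (pow_le_pow_right₀ (by norm_num) (by omega))
  let State := fun m => {s : ℕ × (ℕ → ℂ) // Val Ξ m s.1 s.2}
  have hstep : ∀ m (s : State m), ∃ (b : ℕ) (U : ℝ) (s' : State (m + 1)),
      Step Ξ h m s.1.1 s.1.2 b U s'.1.1 s'.1.2 := by
    intro m s
    obtain ⟨b, U, a', θ', h1, h2⟩ := exists_step Ξ hΞ h m s.1.1 s.1.2 s.2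
    exact ⟨b, U, ⟨(a', θ'), h2⟩, h1⟩
  choose bf Uf sf hsf using hstep
  let seq : ∀ m, State m := fun m => Nat.rec (⟨(a₀, fun _ => 1), hv0⟩ : State 0) (fun m s => sf m s) m
  refine ⟨fun m => (seq m).1.1, fun m => bf m (seq m), fun m => Uf m (seq m), fun m => (seq m).1.2,
    ?_, fun m => (seq m).2, fun m => hsf m (seq m)⟩
  show h 1 ≤ a₀
  omega

end Pool.H2.Ell
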