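import Mathlib
import Pool.Agent.H2.EllKeyC
import Pool.Agent.H2.EllMk

set_option autoImplicit false

open Finset Filter Topology

namespace Pool.H2.Ell

section
variable {Ξ : ℕ → Finset (ℕ → ℂ)} {h : ℕ → ℕ} {a b : ℕ → ℕ} {U : ℕ → ℝ} {θ : ℕ → ℕ → ℂ}

lemma a_strict (hs : ∀ m, Step Ξ h m (a m) (θ m) (b m) (U m) (a (m + 1)) (θ (m + 1))) : StrictMono a := by
  apply strictMono_nat_of_lt_succ
  intro m
  have h1 := (hs m).hb
  have h2 := (hs m).ha'
  omega

lemma θ_stable (hs : ∀ m, Step Ξ h m (a m) (θ m) (b m) (U m) (a (m + 1)) (θ (m + 1)))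
    {m m' p : ℕ} (hm : m ≤ m') (hp : p ≤ Y (a m)) : θ m' p = θ m p := by
  induction m', hm using Nat.le_induction with
  | base => rfl
  | succ m' hm' ih =>
    have h1 : p ≤ Y (a m') := hp.trans (Y_mono ((a_strict hs).monotone hm'))
    rw [(hs m').θ1 p h1, ih]

lemma G_eq (hs : ∀ m, Step Ξ h m (a m) (θ m) (b m) (U m) (a (m + 1)) (θ (m + 1)))
    {m p : ℕ} (hp : p ≤ Y (a m)) : θ p p = θ m p := by
  rcases le_total m p with h1 | h1
  · exact θ_stable hs h1 hp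
  · have h2 : p ≤ Y (a p) := by
      have h3 : p ≤ a p := (a_strict hs).le_apply
      exact h3.trans (lt_Y _).le
    exact (θ_stable hs h1 h2).symm

lemma G_eq_tw (hs : ∀ m, Step Ξ h m (a m) (θ m) (b m) (U m) (a (m + 1)) (θ (m + 1)))
    {m p : ℕ} (hp : Y (a m) < p) (hp' : p ≤ Y (a (m + 1))) : θ p p = tw (U m) p := by
  rw [G_eq hs hp', (hs m).θ2 p hp]

lemma G_norm (hv : ∀ m, Val Ξ m (a m) (θ m)) (p : ℕ) (hp : p.Prime) : ‖θ p p‖ = 1 :=
  (hv p).hθ p hp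

lemma G_sum (hs : ∀ m, Step Ξ h m (a m) (θ m) (b m) (U m) (a (m + 1)) (θ (m + 1)))
    (m Z : ℕ) (hZ : Z ≤ Y (a (m + 1))) :
    ∑ p ∈ (Z + 1).primesBelow, ‖θ p p - tw (U m) p‖ ≤ 1 / ((m : ℝ) + 1) := by
  have hpos : (0 : ℝ) < ((m : ℝ) + 1) * ((Y (a m) : ℝ) + 1) := by positivity
  have h1 : ∀ p ∈ (Z + 1).primesBelow, ‖θ p p - tw (U m) p‖
      ≤ if p ≤ Y (a m) then 1 / (((m : ℝ) + 1) * ((Y (a m) : ℝ) + 1)) else 0 := by
    intro p hp
    rw [Nat.mem_primesBelow] at hp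
    by_cases hpa : p ≤ Y (a m)
    · rw [if_pos hpa, G_eq hs hpa, norm_sub_rev]
      exact ((hs m).app p hp.2 hpa).le
    · rw [if_neg hpa, G_eq_tw hs (m := m) (by omega) (by omega)]
      simp
  refine (sum_le_sum h1).trans ?_
  rw [← sum_filter, sum_const, nsmul_eq_mul]
  have hc : (((Z + 1).primesBelow.filter (fun p => p ≤ Y (a m))).card : ℝ) ≤ (Y (a m) : ℝ) + 1 := by
    have : ((Z + 1).primesBelow.filter (fun p => p ≤ Y (a m))).card ≤ (range (Y (a m) + 1)).card := by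
      apply card_le_card
      intro p hp
      rw [mem_filter] at hp
      rw [mem_range]; omega
    rw [card_range] at this
    exact_mod_cast this
  calc _ ≤ ((Y (a m) : ℝ) + 1) * (1 / (((m : ℝ) + 1) * ((Y (a m) : ℝ) + 1))) := by gcongr
    _ = _ := by field_simp

lemma dist_lower (hv : ∀ m, Val Ξ m (a m) (θ m))
    (hs : ∀ m, Step Ξ h m (a m) (θ m) (b m) (U m) (a (m + 1)) (θ (m + 1)))
    (hΞ : ∀ m, ∀ ξ ∈ Ξ m, ∀ n, ‖ξ n‖ ≤ 1)
    (m s n : ℕ) (hs1 : a m + m + 1 ≤ s) (hs2 : s < a (m + 1) + m + 2) (ξ : ℕ → ℂ) (hξ : ξ ∈ Ξ (m + 1))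
    (τ : ℝ) (hτ : |τ| ≤ Y (s - (3 * (m + 1) + 20))) (hn : Y s ≤ n) :
    ((m : ℝ) + 1) / 40 ≤ ∑ p ∈ Finset.filter Nat.Prime (Finset.Iic n),
      (1 - (θ p p * starRingEnd ℂ (ξ p * tw τ p)).re) / (p : ℝ) := by
  have hb := (hs m).hb
  have ha' := (hs m).ha'
  set c := min (s - 1) (b m - 4) with hc
  have hcm : a m + m ≤ c := by omega
  -- each block
  have hblk : ∀ j ∈ Ico (c - m) (c + 1), (1 : ℝ) / 40 ≤ ∑ p ∈ blk j,
      (1 - (θ p p * starRingEnd ℂ (ξ p * tw τ p)).re) / (p : ℝ) := by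
    intro j hj
    rw [mem_Ico] at hj
    have h1 : |τ| ≤ Y (j - 2) := by
      refine hτ.trans ?_
      have : Y (s - (3 * (m + 1) + 20)) ≤ Y (j - 2) := Y_mono (by omega)
      exact_mod_cast this
    have h2 := (hs m).blkc j (by omega) (by omega) ξ hξ τ h1
    refine h2.trans (le_of_eq ?_)
    apply sum_congr rfl
    intro p hp
    rw [mem_blk] at hp
    have h3 : Y (a m) ≤ Y j := Y_mono (by omega)
    have h4 : Y (j + 1) ≤ Y (a (m + 1)) := Y_mono (by omega)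
    rw [G_eq_tw hs (show Y (a m) < p by omega) (by omega), map_mul]
    congr 3
    ring
  have hterm : ∀ p, p.Prime → 0 ≤ (1 - (θ p p * starRingEnd ℂ (ξ p * tw τ p)).re) / (p : ℝ) := by
    intro p hp
    apply div_nonneg _ (by positivity)
    have : (θ p p * starRingEnd ℂ (ξ p * tw τ p)).re ≤ 1 := by
      refine (Complex.re_le_norm _).trans ?_
      rw [norm_mul, RCLike.norm_conj, norm_mul, G_norm hv p hp, norm_tw τ hp.pos, mul_one, one_mul]
      exact hΞ _ ξ hξ p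
    linarith
  calc ((m : ℝ) + 1) / 40 = ∑ _j ∈ Ico (c - m) (c + 1), (1 : ℝ) / 40 := by
        rw [sum_const, Nat.card_Ico, nsmul_eq_mul]
        have : c + 1 - (c - m) = m + 1 := by omega
        rw [this]; push_cast; ring
    _ ≤ ∑ j ∈ Ico (c - m) (c + 1), ∑ p ∈ blk j,
        (1 - (θ p p * starRingEnd ℂ (ξ p * tw τ p)).re) / (p : ℝ) := sum_le_sum hblk
    _ = ∑ p ∈ rng (c - m) (c + 1), (1 - (θ p p * starRingEnd ℂ (ξ p * tw τ p)).re) / (p : ℝ) := by
        rw [sum_rng]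
    _ ≤ _ := by
        apply sum_le_sum_of_subset_of_nonneg
        · intro p hp
          rw [mem_rng] at hp
          rw [mem_filter, mem_Iic]
          refine ⟨?_, hp.2⟩
          have : Y (c + 1) ≤ Y s := Y_mono (by omega)
          omega
        · intro p hp _
          exact hterm p (mem_filter.1 hp).2

/-- existence of a scale -/
lemma exists_scale (X : ℝ) (s₀ : ℕ) (hX : (Y s₀ : ℝ) ≤ X) :
    ∃ s, s₀ ≤ s ∧ (Y s : ℝ) ≤ X ∧ X < Y (s + 1) ∧ Y s ≤ ⌊X⌋₊ := by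
  classical
  have hY0 : (0 : ℝ) < Y s₀ := by exact_mod_cast Y_pos s₀
  have hex : ∃ m, X < (Y m : ℝ) := by
    obtain ⟨n, hn⟩ := exists_nat_gt X
    exact ⟨n, hn.trans (by exact_mod_cast lt_Y n)⟩
  set m := Nat.find hex with hm
  have h1 : X < Y m := Nat.find_spec hex
  have h2 : s₀ < m := by
    by_contra hcon
    push Not at hcon
    have h3 : (Y m : ℝ) ≤ Y s₀ := by exact_mod_cast Y_mono hcon
    linarith
  have h3 : ¬ X < (Y (m - 1) : ℝ) := Nat.find_min hex (by omega)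
  push Not at h3
  refine ⟨m - 1, by omega, h3, ?_, ?_⟩
  · rw [Nat.sub_add_cancel (by omega)]; exact h1
  · exact Nat.le_floor h3

/-- existence of a period -/
lemma exists_period (hs : ∀ m, Step Ξ h m (a m) (θ m) (b m) (U m) (a (m + 1)) (θ (m + 1)))
    (m₀ s : ℕ) (hs0 : a m₀ + m₀ + 1 ≤ s) :
    ∃ m, m₀ ≤ m ∧ a m + m + 1 ≤ s ∧ s < a (m + 1) + m + 2 := by
  classical
  have hmono : StrictMono a := a_strict hs
  have hex : ∃ m, s < a m + m + 1 := ⟨s, by omega⟩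
  set m := Nat.find hex with hm
  have h1 : s < a m + m + 1 := Nat.find_spec hex
  have h2 : m₀ < m := by
    by_contra hcon
    push Not at hcon
    have := hmono.monotone hcon
    omega
  have h3 : ¬ s < a (m - 1) + (m - 1) + 1 := Nat.find_min hex (by omega)
  refine ⟨m - 1, by omega, by omega, ?_⟩
  rw [Nat.sub_add_cancel (by omega)]
  omega

end

end Pool.H2.Ell
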