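import Mathlib
import Pool.Agent.H2.EllRec
import Pool.Agent.H2.EllCorrA

set_option autoImplicit false

open Finset Filter Topology

namespace Pool.H2.Ell

theorem mainA (ψ : ℝ → ℝ) (hψ : ∀ ε : ℝ, 0 < ε → ∀ᶠ X in atTop, ψ X ≤ X ^ ε) :
    ∃ (g : ArithmeticFunction ℂ) (x : ℕ → ℕ), g 1 = 1 ∧ (∀ m n, g (m * n) = g m * g n) ∧
      (∀ n, 0 < n → ‖g n‖ = 1) ∧
      (∀ (q : ℕ) (χ : DirichletCharacter ℂ q), 0 < q →
        ∀ M : ℝ, ∃ X₀ : ℝ, ∀ X : ℝ, X₀ ≤ X → ∀ t : ℝ, |t| ≤ ψ X →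
          M ≤ ∑ p ∈ Finset.filter Nat.Prime (Finset.Iic ⌊X⌋₊),
            (1 - (g p * starRingEnd ℂ (χ (p : ZMod q) * (p : ℂ) ^ (Complex.I * (t : ℂ)))).re) / (p : ℝ)) ∧
      StrictMono x ∧
      Tendsto (fun m => (∑ n ∈ Finset.Icc 1 (x m), g n * starRingEnd ℂ (g (n + 1))) / (x m : ℂ))
        atTop (𝓝 1) ∧
      Tendsto (fun m => (∑ n ∈ Finset.Icc 1 (x m), g n * starRingEnd ℂ (g (n + 1)) / (n : ℂ))
        / (∑ n ∈ Finset.Icc 1 (x m), (1 : ℂ) / (n : ℂ))) atTop (𝓝 1) := by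
  classical
  choose Ξ hΞ1 hΞ2 using exists_Xi
  have hthr : ∀ m : ℕ, ∃ h : ℕ, ∀ s ≥ h, 3 * m + 20 ≤ s ∧ ∀ X : ℝ, (Y s : ℝ) ≤ X → X < Y (s + 1) →
      ψ X ≤ Y (s - (3 * m + 20)) := fun m => exists_thr ψ hψ (3 * m + 20)
  choose h hh using hthr
  obtain ⟨a, b, U, θ, h0, hv, hs⟩ := exists_seq Ξ hΞ1 h
  set G : ℕ → ℂ := fun p => θ p p with hG
  have hGn : ∀ p, p.Prime → ‖G p‖ = 1 := fun p hp => G_norm hv p hp
  set g : ArithmeticFunction ℂ := ⟨fun n => if n = 0 then 0 else mk G n, by simp⟩ with hg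
  have hg0 : ∀ n, n ≠ 0 → g n = mk G n := fun n hn => if_neg hn
  have hgz : g 0 = 0 := ArithmeticFunction.map_zero
  have hgn : ∀ n, 0 < n → ‖g n‖ = 1 := by
    intro n hn
    rw [hg0 n hn.ne', norm_mk G hGn]
  have hgp : ∀ p : ℕ, p.Prime → g p = G p := by
    intro p hp
    rw [hg0 p hp.ne_zero, mk_prime G hp]
  have hmono := a_strict hs
  refine ⟨g, fun m => Y (a (m + 2)), ?_, ?_, hgn, ?_, ?_, ?_, ?_⟩
  · rw [hg0 1 one_ne_zero, mk_one]
  · intro m n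
    by_cases hm : m = 0
    · subst hm; rw [zero_mul, hgz, zero_mul]
    · by_cases hn : n = 0
      · subst hn; rw [mul_zero, hgz, mul_zero]
      · rw [hg0 _ (mul_ne_zero hm hn), hg0 m hm, hg0 n hn, mk_mul G hm hn]
  · intro q χ hq M
    obtain ⟨m₁, hm₁⟩ := exists_nat_ge (40 * M)
    set m₀ := max m₁ q with hm₀
    refine ⟨Y (a m₀ + m₀ + 1), fun X hX t ht => ?_⟩
    obtain ⟨s, hs1, hs2, hs3, hs4⟩ := exists_scale X _ hX
    obtain ⟨m, hm1, hm2, hm3⟩ := exists_period hs m₀ s hs1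
    have hhs : h (m + 1) ≤ s := by
      rcases Nat.eq_zero_or_pos m with hm0 | hm0
      · subst hm0
        simp only [Nat.zero_add]
        omega
      · obtain ⟨m', rfl⟩ : ∃ m', m = m' + 1 := ⟨m - 1, by omega⟩
        have h1 := (hs m').hh
        have h2 := (hs m').ha'
        have h3 : m' + 1 + 1 = m' + 2 := rfl
        rw [h3]
        omega
    have hψX : |t| ≤ Y (s - (3 * (m + 1) + 20)) := ht.trans ((hh (m + 1) s hhs).2 X hs2 hs3)
    have hmem := hΞ2 (m + 1) q hq (by omega) χ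
    have hlow := dist_lower hv hs hΞ1 m s ⌊X⌋₊ hm2 hm3 _ hmem t hψX hs4
    have hM : M ≤ ((m : ℝ) + 1) / 40 := by
      have h1 : (m₁ : ℝ) ≤ m := by exact_mod_cast (show m₁ ≤ m by omega)
      linarith
    refine hM.trans (hlow.trans (le_of_eq ?_))
    apply sum_congr rfl
    intro p hp
    rw [hgp p (mem_filter.1 hp).2]
    rfl
  · intro m m' hmm
    exact Y_strictMono (hmono (by omega))
  -- common bounds
  all_goals
    have hvb : ∀ m, ∀ Z ≤ Y (a (m + 2)), ∑ n ∈ Finset.Icc 1 Z, ‖g n - tw (U (m + 1)) n‖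
        ≤ (1 / ((m : ℝ) + 2)) * Z := by
      intro m Z hZ
      have h1 := sum_mk_approx G hGn (U (m + 1)) Z
      have h2 := G_sum hs (m + 1) Z hZ
      have h3 : ∑ n ∈ Finset.Icc 1 Z, ‖g n - tw (U (m + 1)) n‖
          = ∑ n ∈ Finset.Icc 1 Z, ‖mk G n - tw (U (m + 1)) n‖ := by
        apply sum_congr rfl
        intro n hn
        rw [mem_Icc] at hn
        rw [hg0 n (by omega)]
      rw [h3]
      refine h1.trans ?_
      rw [mul_comm]
      have h4 : (((m + 1 : ℕ) : ℝ) + 1) = (m : ℝ) + 2 := by push_cast; ring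
      rw [h4] at h2
      gcongr
    have hbm : ∀ m, m + 2 ≤ b (m + 1) := by
      intro m
      have := (hs (m + 1)).hb
      omega
    have ham : ∀ m, a (m + 2) = b (m + 1) + (m + 2) := fun m => (hs (m + 1)).ha'
    have hlim : Tendsto (fun m : ℕ => (18 : ℝ) / ((m : ℝ) + 2)) atTop (𝓝 0) := by
      have h1 : Tendsto (fun m : ℕ => ((m : ℝ) + 2)) atTop atTop :=
        tendsto_atTop_add_const_right _ _ tendsto_natCast_atTop_atTop
      exact h1.const_div_atTop 18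
    rw [tendsto_iff_norm_sub_tendsto_zero]
    refine squeeze_zero (fun _ => norm_nonneg _) (fun m => ?_) hlim
    have hx0 : 0 < Y (a (m + 2)) := Y_pos _
    have hxr : (0 : ℝ) < Y (a (m + 2)) := by exact_mod_cast hx0
    have hm2 : (0 : ℝ) < (m : ℝ) + 2 := by positivity
    have hU0 := (hs (m + 1)).U0
    have hU1 := (hs (m + 1)).U1
  · -- Cesàro
    have h1 := corr_cesaro (fun n => g n) hgn (U (m + 1)) hU0 (Y (a (m + 2))) (1 / ((m : ℝ) + 2)) (hvb m)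
    have h2 := norm_avg_sub_one (fun n => g n * starRingEnd ℂ (g (n + 1))) (fun _ => 1)
      (Finset.Icc 1 (Y (a (m + 2)))) (fun _ _ => zero_le_one) (by simpa using hx0)
    simp only [Complex.ofReal_one, one_mul, sum_const, Nat.card_Icc, Nat.add_sub_cancel, nsmul_eq_mul,
      mul_one, Complex.ofReal_natCast] at h2
    refine h2.trans ?_
    rw [div_le_div_iff₀ hxr hm2]
    set X : ℝ := (Y (a (m + 2)) : ℝ) with hX
    -- sqrt
    obtain ⟨A, hA⟩ : ∃ A, a (m + 2) = A + 1 := ⟨a (m + 2) - 1, by rw [ham]; omega⟩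
    have hXA : X = (Y A : ℝ) ^ 2 := by rw [hX, hA, Y_succ]; push_cast; rfl
    have hYA0 : (0 : ℝ) < Y A := by exact_mod_cast Y_pos A
    have hlog : 1 + Real.log X ≤ 2 * Y A := by
      rw [hXA, Real.log_pow]
      have := Real.log_le_sub_one_of_pos hYA0
      push_cast
      linarith
    have hUA : U (m + 1) * ((m : ℝ) + 2) ≤ Y A := by
      have h3 : (Y (b (m + 1)) : ℝ) * Y (b (m + 1)) ≤ Y A := by
        have h4 : Y (b (m + 1) + 1) ≤ Y A := Y_mono (by have := ham m; omega)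
        rw [Y_succ, pow_two] at h4
        exact_mod_cast h4
      have h4 : ((m : ℝ) + 2) ≤ Y (b (m + 1)) := by
        have := (hbm m).trans (lt_Y (b (m + 1))).le
        exact_mod_cast this
      calc U (m + 1) * ((m : ℝ) + 2) ≤ Y (b (m + 1)) * Y (b (m + 1)) := by gcongr
        _ ≤ _ := h3
    have hmX : (m : ℝ) + 2 ≤ X := by
      have h4 : m + 2 ≤ Y (a (m + 2)) := le_trans (by rw [ham]; omega) (lt_Y _).le
      rw [hX]; exact_mod_cast h4
    have h5 : (2 * (1 / ((m : ℝ) + 2)) * X + 2 + U (m + 1) * (1 + Real.log X)) * ((m : ℝ) + 2) ≤ 18 * X := by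
      have e1 : (2 * (1 / ((m : ℝ) + 2)) * X) * ((m : ℝ) + 2) = 2 * X := by field_simp
      have e2 : U (m + 1) * (1 + Real.log X) * ((m : ℝ) + 2) ≤ 2 * X := by
        calc U (m + 1) * (1 + Real.log X) * ((m : ℝ) + 2)
            = (U (m + 1) * ((m : ℝ) + 2)) * (1 + Real.log X) := by ring
          _ ≤ Y A * (2 * Y A) := by
              have h0' : 0 ≤ U (m + 1) * ((m : ℝ) + 2) := by positivity
              have hl0 : 0 ≤ 1 + Real.log X := by
                have : 0 ≤ Real.log X := Real.log_nonneg (by rw [hX]; exact_mod_cast hx0)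
                linarith
              gcongr
          _ = 2 * X := by rw [hXA]; ring
      calc _ = (2 * (1 / ((m : ℝ) + 2)) * X) * ((m : ℝ) + 2) + 2 * ((m : ℝ) + 2)
            + U (m + 1) * (1 + Real.log X) * ((m : ℝ) + 2) := by ring
        _ ≤ 2 * X + 2 * X + 2 * X := by rw [e1]; gcongr
        _ ≤ 18 * X := by linarith
    calc _ ≤ (2 * (1 / ((m : ℝ) + 2)) * X + 2 + U (m + 1) * (1 + Real.log X)) * ((m : ℝ) + 2) := by
          gcongr
      _ ≤ _ := h5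
  · -- logarithmic
    have hN1 : 1 ≤ Y (b (m + 1)) := Y_pos _
    have h1 := corr_log (fun n => g n) hgn (U (m + 1)) hU0 (Y (a (m + 2))) (1 / ((m : ℝ) + 2))
      (by positivity) (hvb m) (Y (b (m + 1))) hU1 hN1
    have hlogx : Real.log (Y (a (m + 2))) = 2 ^ (a (m + 2)) * Real.log 2 := log_Y _
    have hlogb : Real.log (Y (b (m + 1))) = 2 ^ (b (m + 1)) * Real.log 2 := log_Y _
    have hl2 : 1 / 2 ≤ Real.log 2 := by have := Real.log_two_gt_d9; linarith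
    have hl2' : 0 < Real.log 2 := by linarith
    set Λ : ℝ := Real.log (Y (a (m + 2))) with hΛ
    have hΛ1 : Λ = 2 ^ (m + 2) * (2 ^ (b (m + 1)) * Real.log 2) := by
      rw [hlogx, ham, pow_add]; ring
    have hpm : (m : ℝ) + 2 ≤ 2 ^ (m + 2) := by
      have : m + 2 ≤ 2 ^ (m + 2) := Nat.lt_two_pow_self.le
      exact_mod_cast this
    have hpb : (2 : ℝ) ≤ 2 ^ (b (m + 1)) := by
      have h3 : 1 ≤ b (m + 1) := by have := hbm m; omega
      calc (2 : ℝ) = 2 ^ 1 := by norm_num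
        _ ≤ _ := pow_le_pow_right₀ (by norm_num) h3
    have hb1 : 1 ≤ (2 : ℝ) ^ (b (m + 1)) * Real.log 2 := by nlinarith
    have hΛm : (m : ℝ) + 2 ≤ Λ := by
      rw [hΛ1]; nlinarith
    have hΛ0 : 0 < Λ := by linarith
    have hH : Λ ≤ ∑ n ∈ Finset.Icc 1 (Y (a (m + 2))), (1 : ℝ) / n := log_le_sum_inv _
    have hH0 : 0 < ∑ n ∈ Finset.Icc 1 (Y (a (m + 2))), (1 : ℝ) / n := lt_of_lt_of_le hΛ0 hH
    have h2 := norm_avg_sub_one (fun n => g n * starRingEnd ℂ (g (n + 1))) (fun n => 1 / (n : ℝ))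
      (Finset.Icc 1 (Y (a (m + 2)))) (fun _ _ => by positivity) hH0
    have e1 : (∑ n ∈ Finset.Icc 1 (Y (a (m + 2))), g n * starRingEnd ℂ (g (n + 1)) / (n : ℂ))
        / (∑ n ∈ Finset.Icc 1 (Y (a (m + 2))), (1 : ℂ) / (n : ℂ))
        = (∑ n ∈ Finset.Icc 1 (Y (a (m + 2))), ((1 / (n : ℝ) : ℝ) : ℂ) * (g n * starRingEnd ℂ (g (n + 1))))
        / ((∑ n ∈ Finset.Icc 1 (Y (a (m + 2))), (1 : ℝ) / n : ℝ) : ℂ) := by
      push_cast
      congr 1
      apply sum_congr rfl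
      intro n _
      ring
    rw [e1]
    refine h2.trans ?_
    have e2 : ∑ n ∈ Finset.Icc 1 (Y (a (m + 2))), 1 / (n : ℝ) * ‖g n * starRingEnd ℂ (g (n + 1)) - 1‖
        = ∑ n ∈ Finset.Icc 1 (Y (a (m + 2))), ‖g n * starRingEnd ℂ (g (n + 1)) - 1‖ / n := by
      apply sum_congr rfl
      intro n _
      ring
    rw [e2, div_le_div_iff₀ hH0 hm2]
    have h3 : (3 * (1 / ((m : ℝ) + 2)) * (2 + Λ) + 7 + 2 * (2 ^ (b (m + 1)) * Real.log 2)) * ((m : ℝ) + 2)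
        ≤ 18 * Λ := by
      have e3 : (3 * (1 / ((m : ℝ) + 2)) * (2 + Λ)) * ((m : ℝ) + 2) = 3 * (2 + Λ) := by field_simp
      have e4 : (2 * (2 ^ (b (m + 1)) * Real.log 2)) * ((m : ℝ) + 2) ≤ 2 * Λ := by
        rw [hΛ1]
        have h0' : 0 ≤ (2 : ℝ) ^ (b (m + 1)) * Real.log 2 := by positivity
        nlinarith
      have hΛ2 : 2 ≤ Λ := by
        have : (0 : ℝ) ≤ m := by positivity
        linarith
      calc _ = (3 * (1 / ((m : ℝ) + 2)) * (2 + Λ)) * ((m : ℝ) + 2) + 7 * ((m : ℝ) + 2)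
            + (2 * (2 ^ (b (m + 1)) * Real.log 2)) * ((m : ℝ) + 2) := by ring
        _ ≤ 3 * (2 + Λ) + 7 * Λ + 2 * Λ := by rw [e3]; gcongr
        _ ≤ 18 * Λ := by linarith
    rw [hlogb] at h1
    calc _ ≤ (3 * (1 / ((m : ℝ) + 2)) * (2 + Λ) + 7 + 2 * (2 ^ (b (m + 1)) * Real.log 2)) * ((m : ℝ) + 2) := by
          gcongr
      _ ≤ 18 * Λ := h3
      _ ≤ _ := by gcongr

end Pool.H2.Ell
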