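import Mathlib

namespace Pool.Agent.H2.Sofic

/-- Sofic monoids in the sense of Ceccherini-Silberstein and Coornaert. The finite nonempty set is
`Fin n` with `0 < n`. -/
def IsSofic (M : Type) [Monoid M] : Prop :=
  ∀ (K : Finset M) (ε : ℝ), 0 < ε → ∃ (n : ℕ) (act : M → Fin n → Fin n), 0 < n ∧
    (∀ x, act 1 x = x) ∧
    (∀ g ∈ K, ∀ h ∈ K,
      (1 - ε) * n ≤ (({x | act g (act h x) = act (g * h) x} : Set (Fin n)).ncard : ℝ)) ∧
    (∀ g ∈ K, ∀ h ∈ K, g ≠ h →
      (({x | act g x = act h x} : Set (Fin n)).ncard : ℝ) ≤ ε * n)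

section Count

variable {n : ℕ}

/-- the number of points satisfying `P`, as a real number -/
noncomputable def cnt (P : Fin n → Prop) : ℝ := (({x | P x} : Set (Fin n)).ncard : ℝ)

lemma cnt_nonneg (P : Fin n → Prop) : 0 ≤ cnt P := by
  unfold cnt; positivity

lemma cnt_mono {P Q : Fin n → Prop} (h : ∀ x, P x → Q x) : cnt P ≤ cnt Q := by
  unfold cnt
  exact_mod_cast Set.ncard_le_ncard (fun x hx => h x hx) (Set.toFinite _)

lemma cnt_or (P Q : Fin n → Prop) : cnt (fun x => P x ∨ Q x) ≤ cnt P + cnt Q := by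
  unfold cnt
  exact_mod_cast Set.ncard_union_le {x | P x} {x | Q x}

lemma cnt_not (P : Fin n → Prop) : cnt P + cnt (fun x => ¬ P x) = n := by
  unfold cnt
  have := Set.ncard_add_ncard_compl ({x | P x} : Set (Fin n))
  have h2 : Nat.card (Fin n) = n := by simp
  rw [h2] at this
  exact_mod_cast this

lemma cnt_eq_zero {P : Fin n → Prop} (h : ∀ x, ¬ P x) : cnt P = 0 := by
  have : ({x | P x} : Set (Fin n)) = ∅ := Set.eq_empty_of_forall_notMem h
  unfold cnt
  rw [this]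
  simp

lemma cnt_le (P : Fin n → Prop) : cnt P ≤ n := by
  have := cnt_not P
  have := cnt_nonneg (fun x => ¬ P x)
  linarith

lemma cnt_inj {P Q : Fin n → Prop} (φ : Fin n → Fin n) (h : ∀ x, P x → Q (φ x))
    (hinj : ∀ x y, P x → P y → φ x = φ y → x = y) : cnt P ≤ cnt Q := by
  unfold cnt
  exact_mod_cast Set.ncard_le_ncard_of_injOn φ (fun x hx => h x hx)
    (fun x hx y hy hxy => hinj x y hx hy hxy) (Set.toFinite _)

/-- pull back along a map which is injective outside of a small set -/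
lemma cnt_pull (P : Fin n → Prop) (φ ψ : Fin n → Fin n) :
    cnt (fun x => P (φ x)) ≤ cnt P + cnt (fun x => ψ (φ x) ≠ x) := by
  have h1 : cnt (fun x => P (φ x) ∧ ψ (φ x) = x) ≤ cnt P :=
    cnt_inj φ (fun x hx => hx.1) (fun x y hx hy hxy => by rw [← hx.2, ← hy.2, hxy])
  calc cnt (fun x => P (φ x)) ≤ cnt (fun x => (P (φ x) ∧ ψ (φ x) = x) ∨ ψ (φ x) ≠ x) :=
        cnt_mono (fun x hx => by by_cases h : ψ (φ x) = x <;> tauto)
    _ ≤ _ := (cnt_or _ _).trans (by linarith)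

/-- push forward along a map which is surjective outside of a small set -/
lemma cnt_push (P : Fin n → Prop) (φ ψ : Fin n → Fin n) :
    cnt P ≤ cnt (fun x => P (φ x)) + cnt (fun y => φ (ψ y) ≠ y) := by
  have h1 : cnt (fun y => P y ∧ φ (ψ y) = y) ≤ cnt (fun x => P (φ x)) :=
    cnt_inj ψ (fun x hx => by rw [hx.2]; exact hx.1)
      (fun x y hx hy hxy => by rw [← hx.2, ← hy.2, hxy])
  calc cnt P ≤ cnt (fun x => (P x ∧ φ (ψ x) = x) ∨ φ (ψ x) ≠ x) :=
        cnt_mono (fun x hx => by by_cases h : φ (ψ x) = x <;> tauto)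
    _ ≤ _ := (cnt_or _ _).trans (by linarith)

/-- the size of the fibre of `f` through `x` -/
noncomputable def fib (f : Fin n → Fin n) (x : Fin n) : ℝ := cnt (fun y => f y = f x)

lemma fib_pos (f : Fin n → Fin n) (x : Fin n) : 0 < fib f x := by
  unfold fib cnt
  norm_cast
  apply (Set.ncard_pos (Set.toFinite _)).2
  exact ⟨x, rfl⟩

lemma cnt_sum (f : Fin n → Fin n) (C : Fin n → Prop) :
    cnt C = ∑ v : Fin n, cnt (fun x => C x ∧ f x = v) := by
  classical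
  unfold cnt
  have e : ∀ P : Fin n → Prop, ({x | P x} : Set (Fin n)).ncard
      = (Finset.univ.filter P).card := by
    intro P
    rw [Set.ncard_eq_toFinset_card']
    congr 1
    ext x
    simp
  rw [e, Finset.card_eq_sum_card_fiberwise (f := f) (t := Finset.univ) (by intro x _; simp)]
  push_cast
  apply Finset.sum_congr rfl
  intro v _
  rw [e, Finset.filter_filter]
  congr

lemma cnt_heavy (f : Fin n → Fin n) (B : Fin n → Prop) :
    cnt (fun x => fib f x ≤ 4 * cnt (fun y => B y ∧ f y = f x)) ≤ 4 * cnt B := by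
  rw [cnt_sum f, cnt_sum f B, Finset.mul_sum]
  apply Finset.sum_le_sum
  intro v _
  by_cases h : ∃ x, fib f x ≤ 4 * cnt (fun y => B y ∧ f y = f x) ∧ f x = v
  · obtain ⟨x, hx, rfl⟩ := h
    exact (cnt_mono (fun y hy => hy.2)).trans hx
  · have h0 : cnt (fun x => fib f x ≤ 4 * cnt (fun y => B y ∧ f y = f x) ∧ f x = v) = 0 :=
      cnt_eq_zero (fun x hx => h ⟨x, hx⟩)
    rw [h0]
    have := cnt_nonneg (fun x => B x ∧ f x = v)
    positivity

lemma fib_sub (f : Fin n → Fin n) (B : Fin n → Prop) (w : Fin n) :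
    fib f w - cnt (fun y => B y ∧ f y = f w) ≤ cnt (fun y => ¬ B y ∧ f y = f w) := by
  have : fib f w ≤ cnt (fun y => (B y ∧ f y = f w) ∨ (¬ B y ∧ f y = f w)) :=
    cnt_mono (fun y hy => by tauto)
  have := this.trans (cnt_or _ _)
  linarith

lemma cnt_disj (P Q : Fin n → Prop) (h : ∀ x, P x → Q x → False) :
    cnt P + cnt Q ≤ cnt (fun x => P x ∨ Q x) := by
  unfold cnt
  have := Set.ncard_union_eq (s := {x | P x}) (t := {x | Q x})
    (Set.disjoint_left.2 (fun x hx hy => h x hx hy)) (Set.toFinite _) (Set.toFinite _)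
  exact_mod_cast this.ge

/-- two disjoint injections into a fibre -/
lemma fib_add (f : Fin n → Fin n) (B : Fin n → Prop) (φ ψ : Fin n → Fin n) (x x' z : Fin n)
    (hne : f x ≠ f x')
    (h1 : ∀ y, ¬ B y → f y = f x → f (φ y) = f z)
    (h2 : ∀ y, ¬ B y → f y = f x' → f (φ y) = f z)
    (hinj : ∀ y, ¬ B y → ψ (φ y) = y) :
    (fib f x - cnt (fun y => B y ∧ f y = f x)) + (fib f x' - cnt (fun y => B y ∧ f y = f x'))
      ≤ fib f z := by
  have k1 := fib_sub f B x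
  have k2 := fib_sub f B x'
  have k3 := cnt_disj (fun y => ¬ B y ∧ f y = f x) (fun y => ¬ B y ∧ f y = f x')
    (fun y hy hy' => hne (hy.2.symm.trans hy'.2))
  have k4 : cnt (fun y => (¬ B y ∧ f y = f x) ∨ (¬ B y ∧ f y = f x')) ≤ fib f z := by
    apply cnt_inj φ
    · rintro y (hy | hy)
      · exact h1 y hy.1 hy.2
      · exact h2 y hy.1 hy.2
    · intro y y' hy hy' hyy
      have a1 : ¬ B y := by tauto
      have a2 : ¬ B y' := by tauto
      rw [← hinj y a1, ← hinj y' a2, hyy]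
  linarith

lemma fib_le (f : Fin n → Fin n) (B : Fin n → Prop) (φ ψ : Fin n → Fin n) (x z : Fin n)
    (h1 : ∀ y, ¬ B y → f y = f x → f (φ y) = f z)
    (hinj : ∀ y, ¬ B y → ψ (φ y) = y) :
    fib f x - cnt (fun y => B y ∧ f y = f x) ≤ fib f z := by
  refine (fib_sub f B x).trans ?_
  apply cnt_inj φ
  · intro y hy
    exact h1 y hy.1 hy.2
  · intro y y' hy hy' hyy
    rw [← hinj y hy.1, ← hinj y' hy'.1, hyy]

end Count

lemma split_or {P Q : Prop} (h : P) : (P ∧ ¬ Q) ∨ Q := by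
  by_cases hq : Q
  · exact Or.inr hq
  · exact Or.inl ⟨h, hq⟩

/-- The combinatorial core: a family of maps on `Fin n` with the relations of the monoid, each
failing on at most `δ` points, forces `n` to be at most `3000 * δ`. -/
theorem core {n : ℕ} (δ : ℝ) (hδ : 0 ≤ δ)
    (f t t' U U' L L' a r q u l τ : Fin n → Fin n)
    (ht : cnt (fun x => t' (t x) ≠ x) ≤ δ)
    (hU : cnt (fun x => U' (U x) ≠ x) ≤ δ)
    (hL : cnt (fun x => L' (L x) ≠ x) ≤ δ)
    (hu : cnt (fun x => u (f x) ≠ f (U x)) ≤ 3 * δ)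
    (hl : cnt (fun x => l (f x) ≠ f (L x)) ≤ 3 * δ)
    (hτ : cnt (fun x => τ (f x) ≠ f (t x)) ≤ 3 * δ)
    (hut : cnt (fun x => u (f (t x)) ≠ u (f x)) ≤ 3 * δ)
    (hlt : cnt (fun x => l (f (t x)) ≠ l (f x)) ≤ 3 * δ)
    (hft : cnt (fun x => f (t x) = f x) ≤ 3 * δ)
    (haa : cnt (fun x => a (a x) ≠ x) ≤ δ)
    (hUa : cnt (fun x => U (a x) ≠ r x) ≤ δ)
    (hLa : cnt (fun x => L (a x) ≠ q x) ≤ δ)
    (hrr : cnt (fun x => r (r x) ≠ q x) ≤ δ)
    (hqq : cnt (fun x => q (q x) ≠ r x) ≤ δ)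
    (hrq : cnt (fun x => r (q x) ≠ x) ≤ δ)
    (hqr : cnt (fun x => q (r x) ≠ x) ≤ δ) :
    (n : ℝ) ≤ 3000 * δ := by
  -- the set of bad points
  set B : Fin n → Prop := fun x => t' (t x) ≠ x ∨ U' (U x) ≠ x ∨ L' (L x) ≠ x ∨
    u (f x) ≠ f (U x) ∨ l (f x) ≠ f (L x) ∨ τ (f x) ≠ f (t x) ∨ u (f (t x)) ≠ u (f x) ∨
    l (f (t x)) ≠ l (f x) ∨ f (t x) = f x with hB
  have hBc : cnt B ≤ 21 * δ := by
    have e1 := cnt_or (fun x => t' (t x) ≠ x) (fun x => U' (U x) ≠ x ∨ L' (L x) ≠ x ∨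
      u (f x) ≠ f (U x) ∨ l (f x) ≠ f (L x) ∨ τ (f x) ≠ f (t x) ∨ u (f (t x)) ≠ u (f x) ∨
      l (f (t x)) ≠ l (f x) ∨ f (t x) = f x)
    have e2 := cnt_or (fun x => U' (U x) ≠ x) (fun x => L' (L x) ≠ x ∨
      u (f x) ≠ f (U x) ∨ l (f x) ≠ f (L x) ∨ τ (f x) ≠ f (t x) ∨ u (f (t x)) ≠ u (f x) ∨
      l (f (t x)) ≠ l (f x) ∨ f (t x) = f x)
    have e3 := cnt_or (fun x => L' (L x) ≠ x) (fun x =>
      u (f x) ≠ f (U x) ∨ l (f x) ≠ f (L x) ∨ τ (f x) ≠ f (t x) ∨ u (f (t x)) ≠ u (f x) ∨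
      l (f (t x)) ≠ l (f x) ∨ f (t x) = f x)
    have e4 := cnt_or (fun x => u (f x) ≠ f (U x)) (fun x =>
      l (f x) ≠ f (L x) ∨ τ (f x) ≠ f (t x) ∨ u (f (t x)) ≠ u (f x) ∨
      l (f (t x)) ≠ l (f x) ∨ f (t x) = f x)
    have e5 := cnt_or (fun x => l (f x) ≠ f (L x)) (fun x => τ (f x) ≠ f (t x) ∨
      u (f (t x)) ≠ u (f x) ∨ l (f (t x)) ≠ l (f x) ∨ f (t x) = f x)
    have e6 := cnt_or (fun x => τ (f x) ≠ f (t x)) (fun x =>
      u (f (t x)) ≠ u (f x) ∨ l (f (t x)) ≠ l (f x) ∨ f (t x) = f x)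
    have e7 := cnt_or (fun x => u (f (t x)) ≠ u (f x)) (fun x =>
      l (f (t x)) ≠ l (f x) ∨ f (t x) = f x)
    have e8 := cnt_or (fun x => l (f (t x)) ≠ l (f x)) (fun x => f (t x) = f x)
    have e0 : cnt B = cnt (fun x => t' (t x) ≠ x ∨ U' (U x) ≠ x ∨ L' (L x) ≠ x ∨
      u (f x) ≠ f (U x) ∨ l (f x) ≠ f (L x) ∨ τ (f x) ≠ f (t x) ∨ u (f (t x)) ≠ u (f x) ∨
      l (f (t x)) ≠ l (f x) ∨ f (t x) = f x) := rfl
    rw [e0]
    linarith
  -- the heavy classes
  set C : Fin n → Prop := fun x => fib f x ≤ 4 * cnt (fun y => B y ∧ f y = f x) with hC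
  have hCc : cnt C ≤ 84 * δ := (cnt_heavy f B).trans (by linarith)
  -- key inequality
  have key : ∀ x, ¬ B x → ¬ C x → ¬ C (t x) →
      fib f x < fib f (U x) ∧ fib f x < fib f (L x) := by
    intro x hx hCx hCtx
    have hx' : t' (t x) = x ∧ U' (U x) = x ∧ L' (L x) = x ∧
      u (f x) = f (U x) ∧ l (f x) = f (L x) ∧ τ (f x) = f (t x) ∧ u (f (t x)) = u (f x) ∧
      l (f (t x)) = l (f x) ∧ f (t x) ≠ f x := by
      simp only [hB] at hx
      push Not at hx
      exact hx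
    obtain ⟨x1, x2, x3, x4, x5, x6, x7, x8, x9⟩ := hx'
    have hy : ∀ y, ¬ B y → t' (t y) = y ∧ U' (U y) = y ∧ L' (L y) = y ∧
      u (f y) = f (U y) ∧ l (f y) = f (L y) ∧ τ (f y) = f (t y) := by
      intro y hy
      simp only [hB] at hy
      push Not at hy
      obtain ⟨y1, y2, y3, y4, y5, y6, -⟩ := hy
      exact ⟨y1, y2, y3, y4, y5, y6⟩
    have s1 : 4 * cnt (fun y => B y ∧ f y = f x) < fib f x := not_le.1 hCx
    have s2 : 4 * cnt (fun y => B y ∧ f y = f (t x)) < fib f (t x) := not_le.1 hCtx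
    have s3 := fib_le f B t t' x (t x)
      (fun y hy1 hy2 => by rw [← (hy y hy1).2.2.2.2.2, hy2, x6])
      (fun y hy1 => (hy y hy1).1)
    have s4 := fib_add f B U U' x (t x) (U x) (fun h => x9 h.symm)
      (fun y hy1 hy2 => by rw [← (hy y hy1).2.2.2.1, hy2, x4])
      (fun y hy1 hy2 => by rw [← (hy y hy1).2.2.2.1, hy2, x7, x4])
      (fun y hy1 => (hy y hy1).2.1)
    have s5 := fib_add f B L L' x (t x) (L x) (fun h => x9 h.symm)
      (fun y hy1 hy2 => by rw [← (hy y hy1).2.2.2.2.1, hy2, x5])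
      (fun y hy1 hy2 => by rw [← (hy y hy1).2.2.2.2.1, hy2, x8, x5])
      (fun y hy1 => (hy y hy1).2.2.1)
    have s6 := fib_pos f x
    constructor <;> linarith
  -- the set of points where the key inequality is not available
  set W : Fin n → Prop := fun x => B x ∨ C x ∨ C (t x) with hW
  have hWc : cnt W ≤ 190 * δ := by
    have e1 := cnt_or B (fun x => C x ∨ C (t x))
    have e2 := cnt_or C (fun x => C (t x))
    have e3 := cnt_pull C t t'
    have e0 : cnt W = cnt (fun x => B x ∨ C x ∨ C (t x)) := rfl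
    rw [e0]
    linarith
  set D : Fin n → Prop := fun x => W (a x) ∨ U (a x) ≠ r x ∨ L (a x) ≠ q x with hD
  have hDc : cnt D ≤ 193 * δ := by
    have e1 := cnt_or (fun x => W (a x)) (fun x => U (a x) ≠ r x ∨ L (a x) ≠ q x)
    have e2 := cnt_or (fun x => U (a x) ≠ r x) (fun x => L (a x) ≠ q x)
    have e3 := cnt_pull W a a
    have e0 : cnt D = cnt (fun x => W (a x) ∨ U (a x) ≠ r x ∨ L (a x) ≠ q x) := rfl
    rw [e0]
    linarith
  have key2 : ∀ x, ¬ D x → fib f (a x) < fib f (r x) ∧ fib f (a x) < fib f (q x) := by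
    intro x hx
    simp only [hD, hW] at hx
    push Not at hx
    obtain ⟨⟨h1, h2, h3⟩, h4, h5⟩ := hx
    have := key (a x) h1 (by simpa using h2) (by simpa using h3)
    rw [h4, h5] at this
    exact this
  set E : Fin n → Prop := fun x => fib f x ≤ fib f (a x) with hE
  -- exceptional set
  set Z : Fin n → Prop := fun x => D x ∨ D (r x) ∨ D (q x) ∨ q (r x) ≠ x ∨ r (q x) ≠ x ∨
    r (r x) ≠ q x ∨ q (q x) ≠ r x with hZ
  have hZc : cnt Z ≤ 600 * δ := by
    have e1 := cnt_or D (fun x => D (r x) ∨ D (q x) ∨ q (r x) ≠ x ∨ r (q x) ≠ x ∨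
      r (r x) ≠ q x ∨ q (q x) ≠ r x)
    have e2 := cnt_or (fun x => D (r x)) (fun x => D (q x) ∨ q (r x) ≠ x ∨ r (q x) ≠ x ∨
      r (r x) ≠ q x ∨ q (q x) ≠ r x)
    have e3 := cnt_or (fun x => D (q x)) (fun x => q (r x) ≠ x ∨ r (q x) ≠ x ∨
      r (r x) ≠ q x ∨ q (q x) ≠ r x)
    have e4 := cnt_or (fun x => q (r x) ≠ x) (fun x => r (q x) ≠ x ∨
      r (r x) ≠ q x ∨ q (q x) ≠ r x)
    have e5 := cnt_or (fun x => r (q x) ≠ x) (fun x => r (r x) ≠ q x ∨ q (q x) ≠ r x)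
    have e6 := cnt_or (fun x => r (r x) ≠ q x) (fun x => q (q x) ≠ r x)
    have e7 := cnt_pull D r q
    have e8 := cnt_pull D q r
    have e0 : cnt Z = cnt (fun x => D x ∨ D (r x) ∨ D (q x) ∨ q (r x) ≠ x ∨ r (q x) ≠ x ∨
      r (r x) ≠ q x ∨ q (q x) ≠ r x) := rfl
    rw [e0]
    linarith
  have atmost : ∀ x, ¬ Z x → (E x → E (r x) → False) ∧ (E x → E (q x) → False) ∧
      (E (r x) → E (q x) → False) := by
    intro x hx
    simp only [hZ] at hx
    push Not at hx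
    obtain ⟨z1, z2, z3, z4, z5, z6, z7⟩ := hx
    have k1 := key2 x z1
    have k2 := key2 (r x) z2
    have k3 := key2 (q x) z3
    rw [z4, z6] at k2
    rw [z5, z7] at k3
    simp only [hE]
    refine ⟨fun h1 h2 => ?_, fun h1 h2 => ?_, fun h1 h2 => ?_⟩
    · linarith [k1.1, k2.2]
    · linarith [k1.2, k3.1]
    · linarith [k2.1, k3.2]
  -- counting
  have c1 : cnt E + cnt (fun x => E (r x)) + cnt (fun x => E (q x)) ≤ n + 2 * cnt Z := by
    have d1 := cnt_disj (fun x => E x ∧ ¬ Z x) (fun x => E (r x) ∧ ¬ Z x)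
      (fun x h1 h2 => (atmost x h1.2).1 h1.1 h2.1)
    have d2 := cnt_disj (fun x => (E x ∧ ¬ Z x) ∨ (E (r x) ∧ ¬ Z x)) (fun x => E (q x) ∧ ¬ Z x)
      (fun x h1 h2 => by
        rcases h1 with h1 | h1
        · exact (atmost x h1.2).2.1 h1.1 h2.1
        · exact (atmost x h1.2).2.2 h1.1 h2.1)
    have d3 : cnt (fun x => ((E x ∧ ¬ Z x) ∨ (E (r x) ∧ ¬ Z x)) ∨ (E (q x) ∧ ¬ Z x))
        ≤ cnt (fun x => ¬ Z x) := cnt_mono (fun x hx => by
          rcases hx with (hx | hx) | hx <;> exact hx.2)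
    have d4 := cnt_not Z
    have f1 : cnt E ≤ cnt (fun x => E x ∧ ¬ Z x) + cnt Z :=
      (cnt_mono (fun x hx => split_or hx)).trans (cnt_or (fun x => E x ∧ ¬ Z x) Z)
    have f2 : cnt (fun x => E (r x)) ≤ cnt (fun x => E (r x) ∧ ¬ Z x) + cnt Z :=
      (cnt_mono (fun x hx => split_or hx)).trans (cnt_or (fun x => E (r x) ∧ ¬ Z x) Z)
    have f3 : cnt (fun x => E (q x)) ≤ cnt (fun x => E (q x) ∧ ¬ Z x) + cnt Z :=
      (cnt_mono (fun x hx => split_or hx)).trans (cnt_or (fun x => E (q x) ∧ ¬ Z x) Z)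
    linarith
  have c2 : cnt E ≤ cnt (fun x => E (r x)) + δ := (cnt_push E r q).trans (by linarith)
  have c3 : cnt E ≤ cnt (fun x => E (q x)) + δ := (cnt_push E q r).trans (by linarith)
  have c4 : (n : ℝ) ≤ cnt E + cnt (fun x => E (a x)) + δ := by
    have d1 : cnt (fun x : Fin n => True) ≤ cnt (fun x => E x ∨ (E (a x) ∨ a (a x) ≠ x)) := by
      apply cnt_mono
      intro x _
      simp only [hE]
      by_cases h : a (a x) = x
      · rw [h]
        rcases le_total (fib f x) (fib f (a x)) with h1 | h1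
        · left; exact h1
        · right; left; exact h1
      · right; right; exact h
    have d2 := cnt_or E (fun x => E (a x) ∨ a (a x) ≠ x)
    have d3 := cnt_or (fun x => E (a x)) (fun x => a (a x) ≠ x)
    have d4 : cnt (fun x : Fin n => True) = n := by
      have := cnt_not (fun x : Fin n => True)
      have h0 : cnt (fun x : Fin n => ¬ True) = 0 := by
        unfold cnt
        simp
      linarith
    linarith
  have c5 : cnt (fun x => E (a x)) ≤ cnt E + δ := (cnt_pull E a a).trans (by linarith)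
  linarith

end Pool.Agent.H2.Sofic
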