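import Mathlib
import Pool.Agent.H2.SoficCount

namespace Pool.Agent.H2.Sofic

/-! ### Transfer of soficity and residually finite groups -/

theorem IsSofic.of_injective {M N : Type} [Monoid M] [Monoid N] (φ : M →* N)
    (hφ : Function.Injective φ) (h : IsSofic N) : IsSofic M := by
  classical
  intro K ε hε
  obtain ⟨n, act, hn, h1, h2, h3⟩ := h (K.image φ) ε hε
  refine ⟨n, fun m => act (φ m), hn, ?_, ?_, ?_⟩
  · intro x
    simpa using h1 x
  · intro g hg k hk
    have := h2 (φ g) (Finset.mem_image_of_mem _ hg) (φ k) (Finset.mem_image_of_mem _ hk)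
    simpa [map_mul] using this
  · intro g hg k hk hgk
    exact h3 (φ g) (Finset.mem_image_of_mem _ hg) (φ k) (Finset.mem_image_of_mem _ hk)
      (fun h => hgk (hφ h))

theorem isSofic_pi (H : ℕ → Type) [∀ n, Group (H n)] [∀ n, Finite (H n)] :
    IsSofic (∀ n, H n) := by
  classical
  intro K ε hε
  -- choose a bound for the separating coordinates
  have hsep : ∀ g h : ∀ n, H n, g ≠ h → ∃ n, g n ≠ h n := fun g h hgh => by
    by_contra hcon
    push Not at hcon
    exact hgh (funext hcon)
  choose! c hc using hsep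
  let N : ℕ := (K ×ˢ K).sup (fun p => c p.1 p.2) + 1
  let Q : Type := ∀ i : Fin N, H i
  have : Finite Q := inferInstance
  have hcard : 0 < Nat.card Q := Nat.card_pos
  let e : Q ≃ Fin (Nat.card Q) := Finite.equivFin Q
  let ρ : (∀ n, H n) → Q := fun g i => g i
  have hρ : ∀ g h, ρ (g * h) = ρ g * ρ h := fun g h => rfl
  refine ⟨Nat.card Q, fun g x => e (ρ g * e.symm x), hcard, ?_, ?_, ?_⟩
  · intro x
    have : ρ 1 = 1 := rfl
    simp [this]
  · intro g _ h _
    have : ({x | e (ρ g * e.symm (e (ρ h * e.symm x))) = e (ρ (g * h) * e.symm x)} :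
        Set (Fin (Nat.card Q))) = Set.univ := by
      ext x
      simp [hρ, mul_assoc]
    rw [this, Set.ncard_univ, Nat.card_fin]
    nlinarith [show (0 : ℝ) ≤ (Nat.card Q : ℝ) from by positivity]
  · intro g hg h hh hgh
    have : ({x | e (ρ g * e.symm x) = e (ρ h * e.symm x)} :
        Set (Fin (Nat.card Q))) = ∅ := by
      apply Set.eq_empty_of_forall_notMem
      intro x hx
      have h1 : ρ g * e.symm x = ρ h * e.symm x := e.injective hx
      have h2 : ρ g = ρ h := mul_right_cancel h1
      have hlt : c g h < N := by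
        have : c g h ≤ (K ×ˢ K).sup (fun p => c p.1 p.2) :=
          Finset.le_sup (f := fun p : (∀ n, H n) × (∀ n, H n) => c p.1 p.2) (b := (g, h))
            (Finset.mk_mem_product hg hh)
        omega
      have h3 : ρ g ⟨c g h, hlt⟩ = ρ h ⟨c g h, hlt⟩ := by rw [h2]
      exact hc g h hgh h3
    rw [this]
    simp
    positivity

/-! ### The monoid attached to a group action -/

/-- The monoid `G ⊔ End_G(S) ⊔ S ⊔ {0}` attached to a `G`-set `S`. -/
inductive Mon (G S : Type) [Group G] [MulAction G S] : Type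
  | g : G → Mon G S
  | p : (S →[G] S) → Mon G S
  | s : S → Mon G S
  | z : Mon G S

namespace Mon

variable {G S : Type} [Group G] [MulAction G S]

/-- multiplication -/
def mul : Mon G S → Mon G S → Mon G S
  | g a, g b => g (a * b)
  | g _, p f => p f
  | g _, s x => s x
  | g _, z => z
  | p f, g _ => p f
  | p f, p h => p (f.comp h)
  | p f, s x => s (f x)
  | p _, z => z
  | s x, g b => s (b⁻¹ • x)
  | s _, p _ => z
  | s _, s _ => z
  | s _, z => z
  | z, _ => z

instance : Monoid (Mon G S) where
  mul := mul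
  one := g 1
  mul_assoc := by
    rintro (a | f | x | _) (b | f' | x' | _) (c | f'' | x'' | _) <;>
      first
        | rfl
        | (show mul (mul _ _) _ = mul _ (mul _ _)
           simp [mul, mul_assoc, mul_smul, MulActionHom.comp_assoc, MulActionHom.map_smul])
  one_mul := by
    rintro (a | f | x | _)
    · exact congrArg g (one_mul a)
    · rfl
    · rfl
    · rfl
  mul_one := by
    rintro (a | f | x | _)
    · exact congrArg g (mul_one a)
    · rfl
    · show s ((1 : G)⁻¹ • x) = s x
      simp
    · rfl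

@[simp] lemma g_mul_g (a b : G) : (g a * g b : Mon G S) = g (a * b) := rfl
@[simp] lemma g_mul_p (a : G) (f : S →[G] S) : (g a * p f : Mon G S) = p f := rfl
@[simp] lemma g_mul_s (a : G) (x : S) : (g a * s x : Mon G S) = s x := rfl
@[simp] lemma p_mul_g (a : G) (f : S →[G] S) : (p f * g a : Mon G S) = p f := rfl
@[simp] lemma p_mul_s (f : S →[G] S) (x : S) : (p f * s x : Mon G S) = s (f x) := rfl
@[simp] lemma s_mul_g (a : G) (x : S) : (s x * g a : Mon G S) = s (a⁻¹ • x) := rfl
lemma one_def : (1 : Mon G S) = g 1 := rfl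

/-- an element is in the group part -/
def IsG : Mon G S → Prop
  | g _ => True
  | _ => False

lemma isG_mul (x y : Mon G S) : IsG (x * y) ↔ IsG x ∧ IsG y := by
  rcases x with (a | f | x | _) <;> rcases y with (b | f' | x' | _) <;>
    simp [HMul.hMul, Mul.mul, mul, IsG]

/-- the group coordinate -/
def toG : Mon G S → G
  | g a => a
  | _ => 1

lemma isG_iff (x : Mon G S) : IsG x ↔ x = g (toG x) := by
  rcases x with (a | f | x | _) <;> simp [IsG, toG]

lemma isUnit_iff (x : Mon G S) : IsUnit x ↔ IsG x := by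
  constructor
  · rintro ⟨u, rfl⟩
    have h : IsG ((u : Mon G S) * (↑u⁻¹ : Mon G S)) := by
      rw [Units.mul_inv, one_def]; trivial
    exact ((isG_mul _ _).1 h).1
  · intro h
    rw [(isG_iff x).1 h]
    exact ⟨⟨g (toG x), g (toG x)⁻¹, by simp [one_def], by simp [one_def]⟩, rfl⟩

/-- the homomorphism from the unit group to `G` -/
def unitsHom : (Mon G S)ˣ →* G where
  toFun u := toG (u : Mon G S)
  map_one' := rfl
  map_mul' u v := by
    have hu := (isG_iff _).1 ((isUnit_iff _).1 u.isUnit)
    have hv := (isG_iff _).1 ((isUnit_iff _).1 v.isUnit)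
    rw [Units.val_mul, hu, hv]
    rfl

lemma unitsHom_injective : Function.Injective (unitsHom : (Mon G S)ˣ →* G) := by
  intro u v h
  have hu := (isG_iff _).1 ((isUnit_iff _).1 u.isUnit)
  have hv := (isG_iff _).1 ((isUnit_iff _).1 v.isUnit)
  ext
  rw [hu, hv]
  exact congrArg g h

end Mon

/-- The `J`-class of the identity of `M`: all `x` with `M x M = M`. -/
def JOne (M : Type) [Monoid M] : Set M := {x | ∀ m : M, ∃ a b : M, a * x * b = m}

lemma jOne_mon (G S : Type) [Group G] [MulAction G S] :
    JOne (Mon G S) = {x | IsUnit x} := by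
  ext x
  constructor
  · intro h
    obtain ⟨a, b, hab⟩ := h 1
    have h1 : Mon.IsG (a * x * b) := by rw [hab, Mon.one_def]; trivial
    rw [Mon.isG_mul, Mon.isG_mul] at h1
    exact (Mon.isUnit_iff x).2 h1.1.2
  · rintro ⟨u, rfl⟩ m
    exact ⟨m, ↑u⁻¹, by rw [mul_assoc, Units.mul_inv, mul_one]⟩

end Pool.Agent.H2.Sofic
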