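import Mathlib
import Pool.Agent.H2.SoficMonoid

namespace Pool.Agent.H2.Sofic

/-! ### Equivariant maps of a coset space -/

section Coset

variable {G : Type} [Group G] (K : Subgroup G)

/-- `g K ↦ g h⁻¹ K`, for `h` with `h K h⁻¹ ≤ K`. -/
def shiftMap (h : G) (hh : ∀ k ∈ K, h * k * h⁻¹ ∈ K) : (G ⧸ K) →[G] (G ⧸ K) where
  toFun := Quotient.map' (fun g => g * h⁻¹) (by
    intro a b hab
    rw [QuotientGroup.leftRel_apply] at hab ⊢
    have := hh _ hab
    convert this using 1
    group)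
  map_smul' := by
    intro m x
    induction x using Quotient.inductionOn' with
    | h g =>
      show (Quotient.mk'' ((m * g) * h⁻¹) : G ⧸ K) = Quotient.mk'' (m * (g * h⁻¹))
      rw [mul_assoc]

lemma shiftMap_mk (h : G) (hh : ∀ k ∈ K, h * k * h⁻¹ ∈ K) (g : G) :
    shiftMap K h hh (g : G ⧸ K) = ((g * h⁻¹ : G) : G ⧸ K) := rfl

end Coset

/-- **Non-soficity.** The relations in `G` and `K` below make the monoid `Mon G (G ⧸ K)`
non-sofic. -/
theorem not_isSofic_mon {G : Type} [Group G] (K : Subgroup G) (a r t : G)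
    (ha : a * a = 1) (hr : r * r * r = 1)
    (hU : ∀ k ∈ K, (r * a) * k * (r * a)⁻¹ ∈ K)
    (hL : ∀ k ∈ K, (r * r * a) * k * (r * r * a)⁻¹ ∈ K)
    (ht : ∀ k ∈ K, t * k * t⁻¹ ∈ K)
    (hUt : (r * a) * t * (r * a)⁻¹ ∈ K)
    (hLt : (r * r * a) * t * (r * r * a)⁻¹ ∈ K)
    (htK : t ∉ K) : ¬ IsSofic (Mon G (G ⧸ K)) := by
  classical
  intro hs
  let gt : Mon G (G ⧸ K) := Mon.g t
  let gt' : Mon G (G ⧸ K) := Mon.g t⁻¹
  let gU : Mon G (G ⧸ K) := Mon.g (r * a)
  let gU' : Mon G (G ⧸ K) := Mon.g (r * a)⁻¹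
  let gL : Mon G (G ⧸ K) := Mon.g (r * r * a)
  let gL' : Mon G (G ⧸ K) := Mon.g (r * r * a)⁻¹
  let ga : Mon G (G ⧸ K) := Mon.g a
  let gr : Mon G (G ⧸ K) := Mon.g r
  let gq : Mon G (G ⧸ K) := Mon.g (r * r)
  let s : Mon G (G ⧸ K) := Mon.s ((1 : G) : G ⧸ K)
  let u : Mon G (G ⧸ K) := Mon.p (shiftMap K (r * a) hU)
  let l : Mon G (G ⧸ K) := Mon.p (shiftMap K (r * r * a) hL)
  let τ : Mon G (G ⧸ K) := Mon.p (shiftMap K t ht)
  let st : Mon G (G ⧸ K) := s * gt
  -- relations in the monoid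
  have hsg : ∀ h : G, s * Mon.g h = Mon.s ((h⁻¹ : G) : G ⧸ K) := by
    intro h
    show Mon.s (h⁻¹ • ((1 : G) : G ⧸ K)) = _
    rw [MulAction.Quotient.smul_coe, smul_eq_mul, mul_one]
  have r_us : u * s = s * gU := by
    rw [hsg]
    show Mon.s (shiftMap K (r * a) hU ((1 : G) : G ⧸ K)) = _
    rw [shiftMap_mk, one_mul]
  have r_ls : l * s = s * gL := by
    rw [hsg]
    show Mon.s (shiftMap K (r * r * a) hL ((1 : G) : G ⧸ K)) = _
    rw [shiftMap_mk, one_mul]
  have r_ts : τ * s = s * gt := by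
    rw [hsg]
    show Mon.s (shiftMap K t ht ((1 : G) : G ⧸ K)) = _
    rw [shiftMap_mk, one_mul]
  have r_ust : u * st = u * s := by
    show u * (s * gt) = u * s
    rw [hsg]
    show Mon.s (shiftMap K (r * a) hU ((t⁻¹ : G) : G ⧸ K))
      = Mon.s (shiftMap K (r * a) hU ((1 : G) : G ⧸ K))
    rw [shiftMap_mk, shiftMap_mk]
    congr 1
    rw [QuotientGroup.eq]
    convert hUt using 1
    group
  have r_lst : l * st = l * s := by
    show l * (s * gt) = l * s
    rw [hsg]
    show Mon.s (shiftMap K (r * r * a) hL ((t⁻¹ : G) : G ⧸ K))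
      = Mon.s (shiftMap K (r * r * a) hL ((1 : G) : G ⧸ K))
    rw [shiftMap_mk, shiftMap_mk]
    congr 1
    rw [QuotientGroup.eq]
    have e : ((t⁻¹ * (r * r * a)⁻¹)⁻¹ * (1 * (r * r * a)⁻¹) : G)
        = (r * r * a) * t * (r * r * a)⁻¹ := by
      rw [mul_inv_rev, inv_inv, inv_inv, one_mul]
    rw [e]
    exact hLt
  have r_st : st ≠ s := by
    show s * gt ≠ s
    rw [hsg]
    intro h
    have h1 : ((t⁻¹ : G) : G ⧸ K) = ((1 : G) : G ⧸ K) := by
      injection h
    rw [QuotientGroup.eq] at h1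
    apply htK
    simpa using h1
  let F : Finset (Mon G (G ⧸ K)) := {gt, gt', gU, gU', gL, gL', ga, gr, gq, s, u, l, τ, st}
  obtain ⟨n, act, hn, h1, h2, h3⟩ := hs F (1 / 6000) (by norm_num)
  set δ : ℝ := n / 6000 with hδ
  have hnn : (0 : ℝ) < n := by exact_mod_cast hn
  have rel : ∀ g ∈ F, ∀ h ∈ F, cnt (fun x => act g (act h x) ≠ act (g * h) x) ≤ δ := by
    intro g hg h hh
    have e1 := h2 g hg h hh
    have e2 := cnt_not (fun x : Fin n => act g (act h x) = act (g * h) x)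
    have e3 : cnt (fun x : Fin n => act g (act h x) = act (g * h) x)
      = (({x | act g (act h x) = act (g * h) x} : Set (Fin n)).ncard : ℝ) := rfl
    have e4 : cnt (fun x : Fin n => act g (act h x) ≠ act (g * h) x)
      = cnt (fun x : Fin n => ¬ act g (act h x) = act (g * h) x) := rfl
    rw [e4]
    linarith
  have rel1 : ∀ g ∈ F, ∀ h ∈ F, g * h = 1 → cnt (fun x => act g (act h x) ≠ x) ≤ δ := by
    intro g hg h hh hgh
    have := rel g hg h hh
    rw [hgh] at this
    simpa only [h1] using this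
  have rel2 : ∀ g ∈ F, ∀ h ∈ F, ∀ k, g * h = k →
      cnt (fun x => act g (act h x) ≠ act k x) ≤ δ := by
    rintro g hg h hh k rfl
    exact rel g hg h hh
  have rel4 : ∀ g ∈ F, ∀ h ∈ F, ∀ g' ∈ F, ∀ h' ∈ F, g * h = g' * h' →
      cnt (fun x => act g (act h x) ≠ act g' (act h' x)) ≤ 2 * δ := by
    intro g hg h hh g' hg' h' hh' e
    have e1 := rel g hg h hh
    have e2 := rel g' hg' h' hh'
    rw [← e] at e2
    have e3 := cnt_or (fun x => act g (act h x) ≠ act (g * h) x)
      (fun x => act g' (act h' x) ≠ act (g * h) x)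
    have e4 : cnt (fun x => act g (act h x) ≠ act g' (act h' x)) ≤
      cnt (fun x => act g (act h x) ≠ act (g * h) x ∨ act g' (act h' x) ≠ act (g * h) x) := by
      apply cnt_mono
      intro x hx
      by_contra hcon
      push Not at hcon
      exact hx (hcon.1.trans hcon.2.symm)
    linarith
  have m1 : gt ∈ F := by simp [F]
  have m2 : gt' ∈ F := by simp [F]
  have m3 : gU ∈ F := by simp [F]
  have m4 : gU' ∈ F := by simp [F]
  have m5 : gL ∈ F := by simp [F]
  have m6 : gL' ∈ F := by simp [F]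
  have m7 : ga ∈ F := by simp [F]
  have m8 : gr ∈ F := by simp [F]
  have m9 : gq ∈ F := by simp [F]
  have m10 : s ∈ F := by simp [F]
  have m11 : u ∈ F := by simp [F]
  have m12 : l ∈ F := by simp [F]
  have m13 : τ ∈ F := by simp [F]
  have m14 : st ∈ F := by simp [F]
  have gmul : ∀ x y : G, (Mon.g x * Mon.g y : Mon G (G ⧸ K)) = Mon.g (x * y) := fun x y => rfl
  have gone : (1 : Mon G (G ⧸ K)) = Mon.g 1 := rfl
  have hst : ∀ v ∈ F, v * st = v * s →
      cnt (fun x => act v (act s (act gt x)) ≠ act v (act s x)) ≤ 3 * δ := by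
    intro v hv hvs
    have e1 := rel s m10 gt m1
    have e2 := rel4 v hv st m14 v hv s m10 hvs
    have e3 := cnt_or (fun x => act s (act gt x) ≠ act (s * gt) x)
      (fun x => act v (act st x) ≠ act v (act s x))
    have e4 : cnt (fun x => act v (act s (act gt x)) ≠ act v (act s x)) ≤
      cnt (fun x => act s (act gt x) ≠ act (s * gt) x ∨ act v (act st x) ≠ act v (act s x)) := by
      apply cnt_mono
      intro x hx
      by_contra hcon
      push Not at hcon
      apply hx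
      rw [hcon.1]
      exact hcon.2
    linarith
  have fin := core δ (by positivity) (act s) (act gt) (act gt') (act gU) (act gU') (act gL)
    (act gL') (act ga) (act gr) (act gq) (act u) (act l) (act τ)
    (rel1 _ m2 _ m1 (by rw [gone, gmul]; simp))
    (rel1 _ m4 _ m3 (by rw [gone, gmul]; simp))
    (rel1 _ m6 _ m5 (by rw [gone, gmul, inv_mul_cancel]))
    ((rel4 _ m11 _ m10 _ m10 _ m3 r_us).trans (by linarith [show (0 : ℝ) ≤ δ by positivity]))
    ((rel4 _ m12 _ m10 _ m10 _ m5 r_ls).trans (by linarith [show (0 : ℝ) ≤ δ by positivity]))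
    ((rel4 _ m13 _ m10 _ m10 _ m1 r_ts).trans (by linarith [show (0 : ℝ) ≤ δ by positivity]))
    (hst _ m11 r_ust)
    (hst _ m12 r_lst)
    (by
      have e1 := rel s m10 gt m1
      have e2 : cnt (fun x => act st x = act s x) ≤ δ := by
        have := h3 st m14 s m10 r_st
        have e0 : cnt (fun x => act st x = act s x)
          = (({x | act st x = act s x} : Set (Fin n)).ncard : ℝ) := rfl
        rw [e0]
        linarith
      have e3 := cnt_or (fun x => act s (act gt x) ≠ act (s * gt) x)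
        (fun x => act st x = act s x)
      have e4 : cnt (fun x => act s (act gt x) = act s x) ≤
        cnt (fun x => act s (act gt x) ≠ act (s * gt) x ∨ act st x = act s x) := by
        apply cnt_mono
        intro x hx
        by_contra hcon
        push Not at hcon
        apply hcon.2
        rw [← hx, hcon.1]
      linarith [show (0 : ℝ) ≤ δ by positivity])
    (rel1 _ m7 _ m7 (by rw [gone, gmul, ha]))
    (rel2 _ m3 _ m7 _ (by rw [gmul, mul_assoc, ha, mul_one]))
    (rel2 _ m5 _ m7 _ (by rw [gmul, mul_assoc, ha, mul_one]))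
    (rel2 _ m8 _ m8 _ (by rw [gmul]))
    (rel2 _ m9 _ m9 _ (by
      rw [gmul]
      congr 1
      calc r * r * (r * r) = (r * r * r) * r := by group
        _ = r := by rw [hr, one_mul]))
    (rel1 _ m8 _ m9 (by rw [gone, gmul, ← mul_assoc, hr]))
    (rel1 _ m9 _ m8 (by rw [gone, gmul, hr]))
  rw [hδ] at fin
  linarith

/-! ### The concrete group -/

section Concrete

/-- triples -/
abbrev V (R : Type) : Type := R × R × R

variable (R : Type) [CommRing R]

/-- `(A, B, C) ↦ (C, -B, A)` -/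
def aMap : Equiv.Perm (V R) where
  toFun v := (v.2.2, -v.2.1, v.1)
  invFun v := (v.2.2, -v.2.1, v.1)
  left_inv := by rintro ⟨A, B, C⟩; simp
  right_inv := by rintro ⟨A, B, C⟩; simp

/-- `(A, B, C) ↦ (A - 2 B + C, A - B, A)` -/
def rMap : Equiv.Perm (V R) where
  toFun v := (v.1 - 2 * v.2.1 + v.2.2, v.1 - v.2.1, v.1)
  invFun v := (v.2.2, v.2.2 - v.2.1, v.1 - 2 * v.2.1 + v.2.2)
  left_inv := by
    rintro ⟨A, B, C⟩
    simp only [Prod.mk.injEq, true_and]
    constructor <;> ring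
  right_inv := by
    rintro ⟨A, B, C⟩
    simp only [Prod.mk.injEq, and_true]
    constructor <;> ring

end Concrete

/-- act on the first coordinate -/
def lin {X : Type} (p : Equiv.Perm X) : Equiv.Perm (X × Bool) := Equiv.prodCongr p (Equiv.refl _)

/-- exchange `(w, false)` and `(w, true)` -/
def flip {X : Type} [DecidableEq X] (w : X) : Equiv.Perm (X × Bool) where
  toFun v := if v.1 = w then (v.1, !v.2) else v
  invFun v := if v.1 = w then (v.1, !v.2) else v
  left_inv := by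
    rintro ⟨x, b⟩
    by_cases h : x = w <;> simp [h]
  right_inv := by
    rintro ⟨x, b⟩
    by_cases h : x = w <;> simp [h]

lemma lin_flip {X : Type} [DecidableEq X] (p : Equiv.Perm X) (w : X) :
    lin p * flip w = flip (p w) * lin p := by
  ext1 ⟨x, b⟩
  by_cases h : x = w <;> simp [lin, flip, h]

lemma flip_comm {X : Type} [DecidableEq X] (w w' : X) :
    flip w * flip w' = flip w' * flip w := by
  ext1 ⟨x, b⟩
  by_cases h : x = w <;> by_cases h' : x = w' <;> simp [flip, h, h']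
  · simp [← h, h']
  · by_cases h2 : w = w'
    · exact (h' (h.trans h2)).elim
    · simp [h2]
  · by_cases h2 : w' = w
    · exact (h (h'.trans h2)).elim
    · simp [h2]

/-- the coordinate sets -/
abbrev X (n : ℕ) : Type := V (ZMod (n + 1)) × Bool

/-- the ambient group, a product of finite groups -/
abbrev GG : Type := ∀ n : ℕ, Equiv.Perm (X n)

/-- reduction of an integer triple -/
def red (n : ℕ) (w : V ℤ) : V (ZMod (n + 1)) := ((w.1 : ZMod (n + 1)), (w.2.1 : ZMod (n + 1)), (w.2.2 : ZMod (n + 1)))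

/-- the flips -/
def T (w : V ℤ) : GG := fun n => flip (red n w)

/-- the element of order two -/
def aG : GG := fun n => lin (aMap (ZMod (n + 1)))

/-- the element of order three -/
def rG : GG := fun n => lin (rMap (ZMod (n + 1)))

lemma aG_sq : aG * aG = 1 := by
  funext n
  ext1 ⟨⟨A, B, C⟩, b⟩
  simp [aG, lin, aMap]

lemma rG_cube : rG * rG * rG = 1 := by
  funext n
  ext1 ⟨⟨A, B, C⟩, b⟩
  simp only [rG, lin, rMap, Pi.mul_apply, Pi.one_apply, Equiv.Perm.coe_mul, Function.comp_apply,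
    Equiv.prodCongr_apply, Equiv.coe_fn_mk, Prod.map_apply, Equiv.refl_apply, Equiv.Perm.coe_one,
    id_eq, Prod.mk.injEq, and_true]
  refine ⟨?_, ?_, ?_⟩ <;> ring

/-- `(A, B, C) ↦ (A + 2 B + C, B + C, C)` -/
def uZ (w : V ℤ) : V ℤ := (w.1 + 2 * w.2.1 + w.2.2, w.2.1 + w.2.2, w.2.2)

/-- `(A, B, C) ↦ (A, A + B, A + 2 B + C)` -/
def lZ (w : V ℤ) : V ℤ := (w.1, w.1 + w.2.1, w.1 + 2 * w.2.1 + w.2.2)

lemma aG_T (w : V ℤ) : aG * T w = T (w.2.2, -w.2.1, w.1) * aG := by
  funext n
  have := lin_flip (aMap (ZMod (n + 1))) (red n w)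
  show lin (aMap (ZMod (n + 1))) * flip (red n w) = flip (red n _) * lin (aMap (ZMod (n + 1)))
  rw [this]
  congr 2
  simp [aMap, red]

lemma rG_T (w : V ℤ) :
    rG * T w = T (w.1 - 2 * w.2.1 + w.2.2, w.1 - w.2.1, w.1) * rG := by
  funext n
  have := lin_flip (rMap (ZMod (n + 1))) (red n w)
  show lin (rMap (ZMod (n + 1))) * flip (red n w) = flip (red n _) * lin (rMap (ZMod (n + 1)))
  rw [this]
  congr 2
  simp [rMap, red]

lemma conj_U (w : V ℤ) : (rG * aG) * T w * (rG * aG)⁻¹ = T (uZ w) := by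
  rw [mul_inv_eq_iff_eq_mul, mul_assoc, aG_T, ← mul_assoc, rG_T, ← mul_assoc]
  congr 3
  simp only [uZ, Prod.mk.injEq]
  refine ⟨?_, ?_, trivial⟩ <;> ring

lemma conj_L (w : V ℤ) : (rG * rG * aG) * T w * (rG * rG * aG)⁻¹ = T (lZ w) := by
  rw [mul_inv_eq_iff_eq_mul, mul_assoc, aG_T, ← mul_assoc, mul_assoc rG, rG_T, ← mul_assoc,
    rG_T]
  simp only [← mul_assoc]
  congr 4
  simp only [lZ, Prod.mk.injEq]
  refine ⟨?_, ?_, ?_⟩ <;> ring

/-- the positive triples -/
def Pos : Set (V ℤ) := {w | 1 ≤ w.1 ∧ 1 ≤ w.2.1 ∧ 1 ≤ w.2.2}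

/-- the subgroup generated by the flips at positive triples -/
def KK : Subgroup GG := Subgroup.closure (T '' Pos)

lemma T_mem {w : V ℤ} (hw : w ∈ Pos) : T w ∈ KK := Subgroup.subset_closure ⟨w, hw, rfl⟩

lemma conj_mem (h : GG) (hh : ∀ w ∈ Pos, h * T w * h⁻¹ ∈ KK) : ∀ k ∈ KK, h * k * h⁻¹ ∈ KK := by
  intro k hk
  have : KK ≤ Subgroup.comap (MulAut.conj h).toMonoidHom KK := by
    apply (Subgroup.closure_le _).2
    rintro _ ⟨w, hw, rfl⟩
    exact hh w hw
  exact this hk

/-- the tuples fixing `(w₀, false)` in all but finitely many coordinates -/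
def EvFix : Subgroup GG where
  carrier := {g | ∃ N : ℕ, ∀ n, N ≤ n → g n (red n (1, 0, 1), false) = (red n (1, 0, 1), false)}
  one_mem' := ⟨0, fun n _ => rfl⟩
  mul_mem' := by
    rintro g h ⟨N, hN⟩ ⟨M, hM⟩
    refine ⟨max N M, fun n hn => ?_⟩
    show g n (h n _) = _
    rw [hM n (le_of_max_le_right hn), hN n (le_of_max_le_left hn)]
  inv_mem' := by
    rintro g ⟨N, hN⟩
    refine ⟨N, fun n hn => ?_⟩
    show (g n)⁻¹ _ = _
    rw [Equiv.Perm.inv_eq_iff_eq]
    exact (hN n hn).symm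

lemma KK_le : KK ≤ EvFix := by
  apply (Subgroup.closure_le _).2
  rintro _ ⟨w, ⟨_, hB, _⟩, rfl⟩
  refine ⟨w.2.1.toNat, fun n hn => ?_⟩
  have hne : red n (1, 0, 1) ≠ red n w := by
    intro h
    have h2 : ((0 : ℤ) : ZMod (n + 1)) = ((w.2.1 : ℤ) : ZMod (n + 1)) := by
      have := congrArg (fun v : V (ZMod (n + 1)) => v.2.1) h
      simpa [red] using this
    rw [ZMod.intCast_eq_intCast_iff_dvd_sub] at h2
    simp only [sub_zero] at h2
    have := Int.le_of_dvd (by omega) h2
    omega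
  show (if (red n (1, 0, 1)) = red n w then _ else _) = _
  rw [if_neg hne]

lemma t_notMem : T (1, 0, 1) ∉ KK := by
  intro h
  obtain ⟨N, hN⟩ := KK_le h
  have := hN N le_rfl
  have h2 : T (1, 0, 1) N (red N (1, 0, 1), false) = (red N (1, 0, 1), true) := by
    show (if (red N (1, 0, 1)) = red N (1, 0, 1) then _ else _) = _
    rw [if_pos rfl]
    rfl
  rw [h2] at this
  simp at this

theorem not_isSofic_main : ¬ IsSofic (Mon GG (GG ⧸ KK)) := by
  apply not_isSofic_mon KK aG rG (T (1, 0, 1)) aG_sq rG_cube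
  · apply conj_mem
    intro w hw
    rw [conj_U]
    apply T_mem
    obtain ⟨h1, h2, h3⟩ := hw
    refine ⟨?_, ?_, ?_⟩ <;> simp only [uZ] <;> omega
  · apply conj_mem
    intro w hw
    rw [conj_L]
    apply T_mem
    obtain ⟨h1, h2, h3⟩ := hw
    refine ⟨?_, ?_, ?_⟩ <;> simp only [lZ] <;> omega
  · apply conj_mem
    intro w hw
    have : T (1, 0, 1) * T w = T w * T (1, 0, 1) := by
      funext n
      exact flip_comm _ _
    rw [this, mul_inv_cancel_right]
    exact T_mem hw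
  · rw [conj_U]
    exact T_mem ⟨by norm_num [uZ], by norm_num [uZ], by norm_num [uZ]⟩
  · rw [conj_L]
    exact T_mem ⟨by norm_num [lZ], by norm_num [lZ], by norm_num [lZ]⟩
  · exact t_notMem

theorem isSofic_units : IsSofic (Mon GG (GG ⧸ KK))ˣ :=
  IsSofic.of_injective Mon.unitsHom Mon.unitsHom_injective
    (isSofic_pi (fun n => Equiv.Perm (X n)))

end Pool.Agent.H2.Sofic
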