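import Mathlib
import Pool.Agent.H2.SpTwist

set_option autoImplicit false

open Filter Topology MeasureTheory ProbabilityTheory

namespace Pool.Agent.Results.MP_0c9a68_nt.SparseTwist

open Classical in
/-- `P` is thick: the sum of `1/p` over the primes `p ∈ P` with `log N < p ≤ N` tends to infinity
as `N → ∞`. -/
def Thick (P : Set ℕ) : Prop :=
  Tendsto (fun N : ℕ => ∑ p ∈ (Finset.Icc 1 N).filter
    (fun p => p.Prime ∧ p ∈ P ∧ Real.log N < p), (1 : ℝ) / p) atTop atTop

/-- Elliott's conjecture for the twists `f i · r`: for all tuples `g` in which one entry `g i₀` is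
an arbitrary 1-bounded multiplicative function, every other entry is some `f i · r` or some `D l`,
and at least one entry other than `g i₀` is some `f i · r`, and for all distinct shifts, the
unweighted correlations tend to zero. -/
def Elliott {ι : Type} (f : ι → ArithmeticFunction ℂ) (D : ℕ → ArithmeticFunction ℂ)
    (r : ArithmeticFunction ℂ) : Prop :=
  ∀ (k : ℕ) (g : Fin k → ArithmeticFunction ℂ) (i₀ : Fin k),
      (g i₀).IsMultiplicative → (∀ n, ‖g i₀ n‖ ≤ 1) →
      (∀ j, j ≠ i₀ → (∃ i, ∀ n, g j n = f i n * r n) ∨ (∃ l, g j = D l)) →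
      (∃ j, j ≠ i₀ ∧ ∃ i, ∀ n, g j n = f i n * r n) →
      ∀ h : Fin k → ℤ, Function.Injective h →
      Tendsto (fun N : ℕ => (1 / (N : ℂ)) * ∑ n ∈ Finset.Icc 1 N, ∏ i, g i ((n : ℤ) + h i).toNat)
        atTop (𝓝 0)

/-- Every multiplicative function satisfies Elliott's conjecture after almost every sign twist
supported on a thick set of primes. `f i` (`i ∈ ι`, `ι` countable) are arbitrary 1-bounded
multiplicative functions, `D l` (`l ∈ ℕ`) are arbitrary 1-bounded functions, `P` is a thick set of
primes. For almost every sequence of signs `ω` (fair coin tosses), the completely multiplicative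
function `r` with `r p = ± 1` at the primes `p ∈ P` according to `ω p` and `r p = 1` at all other
primes satisfies `Elliott f D r`. -/
theorem result {ι : Type} [Countable ι] (P : Set ℕ) (hP : Thick P)
    (f : ι → ArithmeticFunction ℂ) (hf : ∀ i, (f i).IsMultiplicative) (hfb : ∀ i n, ‖f i n‖ ≤ 1)
    (D : ℕ → ArithmeticFunction ℂ) (hD : ∀ l n, ‖D l n‖ ≤ 1) :
    ∀ᵐ ω ∂(Measure.infinitePi (fun _ : ℕ => (PMF.uniformOfFintype Bool).toMeasure)),
      ∀ r : ArithmeticFunction ℂ, r 1 = 1 → (∀ m n, r (m * n) = r m * r n) →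
        (∀ p ∈ P, p.Prime → r p = if ω p then 1 else -1) → (∀ p ∉ P, p.Prime → r p = 1) →
        Elliott f D r := by
  filter_upwards [Pool.H2.Sp.twist_rad P hP f hf hfb D hD] with ω hω
  intro r h1 hm hin hout
  rw [Pool.H2.Sp.eq_rad P ω r h1 hm hin hout]
  exact hω

end Pool.Agent.Results.MP_0c9a68_nt.SparseTwist
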